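import Pool.Agent.P.MP_b91a16_ag.LY.Stmt

/-! The Newton recursion for plane curves. -/

open Polynomial

namespace Pool.Agent.P.MP_b91a16_ag.LY

noncomputable section

variable {k : Type} [Field k]

theorem GF_zero {e : ℕ → ℕ → Mot k} (h : ∀ b n, e b n = 0) (S : Finset (ℕ × ℕ)) :
    GF e ∈ poleRing k S :=
  mem_poleRing_of_eventually S 0 fun n _ => by simp [GF, h]

theorem nd_top (hkids : S_kids k) (hgood : S_good k) {G : P2 k} {ν q p N m : ℕ}
    (hT : Top G q p N m) (h2 : Two (edge G q p (q * N + p * m))) (hm : 2 ≤ m)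
    (h : (ν * q + p) * m < 2 * (q * N + p * m) ∨
      (ν * q + p) * m = 2 * (q * N + p * m) ∧ ¬Bad (edge G q p (q * N + p * m))) :
    Nd G ν (ν * q + p) (q * N + p * m) := by
  have hp := hT.2.1
  refine ⟨q, p, 0, hT.1, hp, by simp, rfl, ?_, hT.2.2.2.2.1.sub_zero hT.1,
    hgood (edge G q p _) _ _ (by omega) (by positivity) h2
      (by rwa [(hkids G q p N m hT).2.1])⟩
  have := Nat.mul_le_mul_left (ν * q + p) hm
  omega

theorem p_eng (hterm : S_term k) (hleaf : S_leaf k) (hshU : S_shearU k) (hshM : S_shM k)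
    (hkids : S_kids k) (hcentre : S_centre k) (hbez : S_bez k) (hnd : S_nd k) (hgood : S_good k)
    (hkid : S_kid k) (hedge : S_edge k) : S_eng k := by
  intro m
  induction m using Nat.strong_induction_on with
  | _ m ih =>
  intro G ν q₀ p₀ N hM hB hν h0 hI
  rcases Nat.lt_or_ge m 2 with hm | hm
  · refine ⟨∅, by simp, fun E hE => GF_zero (fun b n => ?_) _⟩
    rw [tU]
    split_ifs with h
    swap
    · rfl
    refine mul_eq_zero_of_right _ ?_
    obtain rfl | rfl : m = 0 ∨ m = 1 := by omega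
    · have h1 : N * b < n := lt_of_mul_lt_mul_left (a := q₀) (by simpa [mul_assoc] using h.2)
        (Nat.zero_le _)
      rw [eU, hterm G E q₀ p₀ N b n hM h.1 h1, hterm G 0 q₀ p₀ N b n hM h.1 h1]
      simp
    · exact hleaf G E q₀ p₀ N b n hM hE h.1 (by simpa using h.2)
  obtain ⟨ζ, q, p, h1, h2, hT, h3⟩ := hcentre G q₀ p₀ N m hM hm hB
  have hq := hT.1
  have hq₀ := hM.1
  have h4 : ν * m * q < 2 * N * q + m * p := lt_of_mul_lt_mul_left (a := q₀) (by
    have := Nat.mul_le_mul_left q hI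
    have := (Nat.mul_lt_mul_left (show 0 < m by omega)).2 h2
    nlinarith) (Nat.zero_le _)
  obtain ⟨S, hS, hS'⟩ := hkid _ ν q p N m ih hT h3 (hbez.1 G 1 0 ζ one_pos hB) hν h4.le
  have hζ : ζ.coeff 0 = 0 := by
    by_contra h
    simpa using h1 0 (mem_support_iff.2 h)
  refine ⟨insert (ν * q + p, q * N + p * m) S, fun π hπ => hnd.1 G 1 0 ν _ _ ζ one_pos hζ ?_,
    fun E hE => ?_⟩
  · rw [mul_one, add_zero]
    rcases Finset.mem_insert.1 hπ with rfl | hπ
    · exact nd_top hkids hgood hT h3 hm (Or.inl (by nlinarith))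
    · exact hS π hπ
  · have h5 : tU G E ν (fun b => p₀ * b / q₀ + 1) q₀ (q₀ * N + p₀ * m) =
        tU (sub 1 0 ζ G) E ν (fun b => p₀ * b / q₀ + 1) q₀ (q₀ * N + p₀ * m) := by
      funext b n
      rw [tU, tU]
      split_ifs with h
      swap
      · rfl
      have h6 : ∀ e ∈ ζ.support, p₀ * b / q₀ + 1 ≤ b * e := fun e he => (div_succ_le hq₀).2 (by
        have := (Nat.mul_lt_mul_left h.1).2 (h1 e he)
        nlinarith)
      rw [eU, eU, hshU G E ζ b _ n h6, hshU G 0 ζ b _ n h6]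
    rw [h5]
    exact hedge _ E ν q₀ p₀ q p N m _ (hshM G ζ q₀ p₀ N m hM h1) hT.2.2.2.2.1 hq h2 (by omega) h0
      (Finset.mem_insert_self _ _) (Finset.mem_insert_of_mem (Finset.mem_insert_self _ _))
      (poleRing_mono (Finset.subset_insert _ _) (hS' E hE))

theorem finsum_Ico {c : ℕ → Prop} [DecidablePred c] {B : ℕ} (h : ∀ b, c b ↔ b < B)
    (e : ℕ → Mot k) :
    ∑ᶠ b, (if 0 < b ∧ c b then e b else 0) = ∑ b ∈ Finset.Ico 1 B, e b := by
  rw [finsum_eq_sum_of_support_subset (s := Finset.Ico 1 B)]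
  · refine Finset.sum_congr rfl fun b hb => if_pos ?_
    rw [h]
    exact Finset.mem_Ico.1 hb
  · intro b hb
    by_contra h'
    exact hb (if_neg fun h'' => h' (Finset.mem_coe.2 (Finset.mem_Ico.2 ⟨h''.1, (h b).1 h''.2⟩)))

theorem ini_shift {G : P2 k} {q p N' b r n : ℕ} (hA : Above G q p N') (hn : 0 < n)
    (hb : q * n ≤ N' * b) (hr : p * n ≤ N' * r) :
    ini G (b + q) (r + p) (n + N') = ini G b r n := by
  refine co_ext fun i j => ?_
  rw [co_ini, co_ini]
  by_cases h : co G i j = 0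
  · simp [h]
  have h1 := hA i j h
  have h2 := Nat.mul_le_mul_right i hb
  have h3 := Nat.mul_le_mul_right j hr
  refine if_congr ⟨fun e => ?_, fun e => ?_⟩ rfl rfl
  · have : q * i + p * j ≤ N' := le_of_mul_le_mul_left (a := n + N') (by nlinarith) (by omega)
    nlinarith
  · have : q * i + p * j ≤ N' := le_of_mul_le_mul_left (a := n) (by nlinarith) hn
    nlinarith

theorem p_curve (hshR : S_shearR k) (hdec : S_rootdec k) (hkids : S_kids k) (hbez : S_bez k)
    (hnd : S_nd k) (hgood : S_good k) (hnorm : S_norm k) (hkid : S_kid k) (heng : S_eng k) :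
    S_curve k := by
  refine hnorm Curve ⟨?_, ?_⟩ ?_
  · rintro g ⟨S, hS, h⟩
    refine ⟨S, fun π hπ => hnd.2.2.1 g _ _ (hS π hπ), fun E hE => ?_⟩
    convert h E hE using 2
    funext n
    rw [eR, eR, (hshR g E n).1, (hshR g 0 n).1]
  · rintro g ζ hζ ⟨S, hS, h⟩
    refine ⟨S, fun π hπ => hnd.2.2.2 g _ _ ζ hζ (hS π hπ), fun E hE => ?_⟩
    convert h E hE using 2
    funext n
    rw [eR, eR, (hshR g E n).2 ζ hζ, (hshR g 0 n).2 ζ hζ]
  intro G q p N m hsq hT hm hNm hqp h2 hgd
  obtain ⟨hq, hp, -, hc, hA, hs⟩ := id hT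
  have h0 : 0 < q * N + p * m := by positivity
  obtain ⟨S₁, hS₁, h₁⟩ := hkid G 1 q p N m (fun m' _ => heng m') hT h2 (hbez.2.1 G hsq) one_pos
    (by nlinarith)
  have hM : Model (sw G) p q m N := by
    refine ⟨hp, by rwa [co_sw], fun i j h => ?_, fun i j hj h => ?_⟩
    · have := hA j i (by rwa [co_sw] at h)
      omega
    · rw [co_sw] at h
      have h1 := hA j i h
      have h3 := (Nat.mul_lt_mul_left hq).2 hj
      rcases Nat.lt_or_ge m i with hi | hi
      · have := hs j i hi h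
        omega
      · have := Nat.mul_le_mul_left p hi
        omega
  obtain ⟨S₂, hS₂, h₂⟩ := heng N (sw G) 1 p q m hM (hbez.2.1 _ (hbez.2.2 G 0 hsq).2) one_pos
    (by omega) (by nlinarith)
  rw [show p * m + q * N = q * N + p * m by ring, show 1 * p + q = 1 * q + p by ring] at h₂
  refine ⟨insert (1 * q + p, q * N + p * m) (S₁ ∪ S₂), fun π hπ => ?_, fun E hE => ?_⟩
  · rcases Finset.mem_insert.1 hπ with rfl | hπ
    · refine hnd.2.1 G _ _ (nd_top hkids hgood hT h2 hm ?_)
      have h3 := Nat.mul_le_mul_right m hqp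
      rcases hgd with h | h | h
      · exact Or.inl (by nlinarith)
      · exact Or.inl (by nlinarith)
      · exact (show (1 * q + p) * m ≤ 2 * (q * N + p * m) by nlinarith).lt_or_eq.imp_right
          fun e => ⟨e, h⟩
    · exact (Finset.mem_union.1 hπ).elim (fun h => hnd.2.1 G _ _ (hS₁ π h))
        fun h => hnd.2.2.1 G _ _ (hnd.2.1 _ _ _ (hS₂ π h))
  set N' := q * N + p * m with hN'
  have h₀ := mem_of_per (S := insert (1 * q + p, N') (S₁ ∪ S₂)) (Finset.mem_insert_self _ _) h0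
    (fun n => Linv k ^ (cdiv (q * n) N' + cdiv (p * n) N') *
      (mu (TR E (ini G (cdiv (q * n) N') (cdiv (p * n) N') n)) -
        Linv k * mu (TR 0 (ini G (cdiv (q * n) N') (cdiv (p * n) N') n)))) 1 fun n hn => by
    simp only [mul_add q, mul_add p, mul_comm q N', mul_comm p N', cdiv_add _ _ h0]
    rw [ini_shift hA hn ((cdiv_le h0).1 le_rfl) ((cdiv_le h0).1 le_rfl)]
    ring
  refine mem_of_congr (add_mem (add_mem h₀ (poleRing_mono
    (Finset.insert_subset_insert _ Finset.subset_union_left) (h₁ E hE))) (poleRing_mono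
    (Finset.insert_subset_insert _ Finset.subset_union_right) (h₂ E hE))) 1 fun n hn => ?_
  simp only [map_add, GF, PowerSeries.coeff_mk, tU]
  rw [finsum_Ico (B := cdiv (q * n) N') fun b => (lt_cdiv h0).symm,
    finsum_Ico (B := cdiv (p * n) N') fun b => (lt_cdiv h0).symm, eR,
    hdec G E q p N' n hq hp h0 hn hA, hdec G 0 q p N' n hq hp h0 hn hA]
  simp only [eU, one_mul, mul_sub, Finset.sum_sub_distrib, mul_add, Finset.mul_sum, mul_left_comm]
  ring

end

end Pool.Agent.P.MP_b91a16_ag.LY
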