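import Pool.Agent.P.MP_b91a16_ag.LY.AEng

/-! The zeta function of a Le-Yomdin singularity, and the main theorem from the steps. -/

open Polynomial

namespace Pool.Agent.P.MP_b91a16_ag.LY

noncomputable section

variable {k : Type} [Field k]

theorem EE_zero (d κ : ℕ) (ε : k) : EE d κ ε 0 = 0 := map_zero _

theorem graph_EE (d κ : ℕ) (ε c : k) : Graph (EE d κ ε (X - C c)) := by
  intro K _ _ w hw
  have h : ∀ δ : K, aevalAeval w δ (EE d κ ε (X - C c)) =
      w ^ d * (δ + algebraMap k K ε * w ^ κ) - algebraMap k K c := fun δ => by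
    rw [EE, map_sub, aeval_X, aeval_C, map_sub, AlgHom.commutes, map_mul, map_add, aevalAeval_C,
      aevalAeval_C, aevalAeval_Y]
    simp
  have h' := pow_ne_zero d hw
  refine ⟨algebraMap k K c / w ^ d - algebraMap k K ε * w ^ κ, ?_, fun δ hδ => ?_⟩
  · beta_reduce
    rw [h]
    field_simp
    ring
  · beta_reduce at hδ
    rw [h] at hδ
    field_simp
    linear_combination hδ

theorem finsum_Ico' {c : ℕ → Prop} [DecidablePred c] {B : ℕ} (h : ∀ b, c b → b < B)
    (e : ℕ → Mot k) : ∑ᶠ b, (if 0 < b ∧ c b then e b else 0) =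
      ∑ b ∈ Finset.Ico 1 B, if c b then e b else 0 := by
  rw [← finsum_Ico (c := fun b => b < B) fun _ => Iff.rfl]
  refine finsum_congr fun b => ?_
  by_cases h1 : c b <;> simp [h1, h b]

theorem p_zmain (htr : S_trans k) (hzeta : S_zeta k) (hord : S_ord k) (hsm : S_smooth k)
    (hpt : S_point k) (hloc : S_loc k) : S_zmain k := by
  classical
  intro f F R d κ T hd hκ hF hsp hT hC
  choose! S hS hS' using fun L hL => (hC L hL).2
  let S₀ := insert (3, d) (T.biUnion fun L => (S L).image (trp d κ))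
  refine ⟨insert (1, 1) S₀, hzeta f S₀ fun c => ?_, fun π hπ => ?_⟩
  swap
  · rcases Finset.mem_insert.1 hπ with h | hπ
    · exact Or.inl h
    rcases Finset.mem_insert.1 hπ with h | hπ
    · exact Or.inr (Or.inl h)
    obtain ⟨L, hL, h⟩ := Finset.mem_biUnion.1 hπ
    obtain ⟨π', h', rfl⟩ := Finset.mem_image.1 h
    exact Or.inr (Or.inr ⟨L, hL, π', hS L hL π' h', rfl⟩)
  have h₀ := mem_of_per (S := S₀) (Finset.mem_insert_self _ _) hd
    (fun n => Linv k ^ (3 * cdiv n d) * (mu (TZ (if d ∣ n then F else 0) (X - C c)) -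
      Linv k * mu (TZ (if d ∣ n then F else 0) 0))) 0 fun n _ => by
    have := cdiv_add n 1 hd
    rw [mul_one] at this
    simp only [this, Nat.dvd_add_self_right]
    ring
  let ε : Matrix (Fin 3) (Fin 3) k → k := fun L => MvPolynomial.eval (fun i => L i 0) (R.coeff 0)
  have hsub : ∀ L ∈ T, (S L).image (trp d κ) ⊆ T.biUnion fun L => (S L).image (trp d κ) :=
    fun L hL => Finset.subset_biUnion_of_mem (fun L => (S L).image (trp d κ)) hL
  have hpos : ∀ L ∈ T, ∀ π ∈ S L, 0 < π.2 := fun L hL π hπ => by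
    obtain ⟨_, _, _, -, -, -, -, h1, h2, -⟩ := hS L hL π hπ
    omega
  have h₁ := Subalgebra.sum_mem (poleRing k S₀) fun L (hL : L ∈ T) => add_mem
    (poleRing_mono (Finset.insert_subset_insert _ (hsub L hL))
      (htr _ d κ _ hd hκ (hpos L hL) (hS' L hL _ (graph_EE d κ 0 c))).1)
    (poleRing_mono ((hsub L hL).trans (Finset.subset_insert _ _))
      (htr _ d κ _ hd hκ (hpos L hL) (hS' L hL _ (graph_EE d κ (ε L) c))).2)
  refine mem_of_congr (add_mem h₀ h₁) 1 fun n hn => ?_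
  simp only [map_add, map_sum, GF, PowerSeries.coeff_mk]
  rw [eZ, hord f F R d κ n _ hd hκ hn hsp, hord f F R d κ n _ hd hκ hn hsp]
  have key : ∀ a ∈ Finset.Ico 1 (cdiv n d),
      Linv k ^ (3 * a) * mu (PA F R κ a (X - C c) (n - d * a)) -
        Linv k * (Linv k ^ (3 * a) * mu (PA F R κ a 0 (n - d * a))) =
      ∑ L ∈ T, ((if d * a < n ∧ n < (d + κ) * a then
          Linv k ^ (3 * a) * eR (dh L F) (EE d κ 0 (X - C c)) (n - d * a) else 0) +
        if n = (d + κ) * a then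
          Linv k ^ (3 * a) * eR (dh L F) (EE d κ (ε L) (X - C c)) (κ * a) else 0) := by
    intro a ha
    obtain ⟨ha, ha'⟩ := Finset.mem_Ico.1 ha
    rw [lt_cdiv hd] at ha'
    rw [mul_left_comm, ← mul_sub, hsm F R κ a _ c hκ ha (by omega), hpt F R d κ a _ _ T hF hT,
      hpt F R d κ a _ _ T hF hT, Finset.mul_sum, ← Finset.sum_sub_distrib, Finset.mul_sum]
    refine Finset.sum_congr rfl fun L hL => ?_
    obtain ⟨h1, h2, h3⟩ := hloc F R d κ a (n - d * a) L f hF hsp hκ ha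
    rw [add_mul]
    rcases lt_trichotomy (n - d * a) (κ * a) with h | h | h
    · rw [if_pos ⟨ha', by omega⟩, if_neg (by omega), h1 _ h, h1 _ h, EE_zero, eR, add_zero]
    · rw [if_neg (by omega), if_pos (by omega), h2 _ h, h2 _ h, EE_zero, eR, zero_add, h]
    · rw [if_neg (by omega), if_neg (by omega), h3 c h (hC L hL).1, sub_self, mul_zero, add_zero]
  have e1 := fun e => finsum_Ico' (k := k) (c := fun b => d * b < n ∧ n < (d + κ) * b)
    (B := cdiv n d) (fun b hb => (lt_cdiv hd).2 hb.1) e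
  have e2 := fun e => finsum_Ico' (k := k) (c := fun b => n = (d + κ) * b)
    (B := cdiv n d) (fun b hb => (lt_cdiv hd).2 (by
      rcases Nat.eq_zero_or_pos b with rfl | h
      · omega
      · rw [hb, add_mul]
        exact Nat.lt_add_of_pos_right (by positivity))) e
  simp only [e1, e2, ← Finset.sum_add_distrib]
  rw [Finset.sum_comm, ← Finset.sum_congr rfl key, Finset.sum_sub_distrib, ← Finset.mul_sum]
  ring

theorem rt_chart [CharZero k] (hrb : S_rb k) (hch : S_chart k) (hrho : S_rho k) (hbeta : S_beta k)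
    {f F : P3 k} {R : Polynomial (P3 k)} {d κ : ℕ} {L : Matrix (Fin 3) (Fin 3) k} (hd : 3 ≤ d)
    (hκ : 0 < κ) (hsp : Split f d κ F R) (hL : L.det ≠ 0)
    (hε : MvPolynomial.eval (fun i => L i 0) (R.coeff 0) ≠ 0) {π : ℕ × ℕ}
    (h : Chart (dh L F) π.1 π.2) : Rt f (trp d κ π) := by
  obtain ⟨ν, N⟩ := π
  obtain ⟨Y, Z, c, hc, hY, hZ, hj, hν, hN, hA, hG⟩ := h
  simp only at hν hN hA hG hj
  have hN0 : 0 < N := by omega
  obtain ⟨Θ, V, Δ, c', hc', h1, h2, h3, h4, h5⟩ :=
    hch f F R d κ ν N L Y Z c hsp hκ hN0 hL hc hY hZ hj hA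
  intro b hb
  by_contra hb'
  have hV : cc V ≠ 0 := by
    rw [h3]
    refine mul_ne_zero (pow_ne_zero _ X_ne_zero) fun e => hε ?_
    have := congrArg (coeff · κ) e
    simpa [coeff_C, hκ.ne'] using this
  have h6 := hrb f b Θ _ _ V Δ hb (by positivity) h1 h2 hV h4 hb'
  rw [h3, h5] at h6
  have hN' : (N : k) ≠ 0 := Nat.cast_ne_zero.2 hN0.ne'
  have hdκ : (d + κ : k) ≠ 0 := by exact_mod_cast (show d + κ ≠ 0 by omega)
  refine hbeta _ _ ((3 * N - d * ν) / ((d + κ) * N)) _ _ _ d κ (hrho _ ν N hν hN hG) hκ hε hc' ?_ ?_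
    (fun i e => ?_) (fun i e => ?_) h6
  · push_cast
    field_simp
    ring
  · push_cast
    field_simp
    ring
  · rw [div_eq_iff (mul_ne_zero hdκ hN'), sub_eq_iff_eq_add] at e
    have : 3 * N = (i + 1) * ((d + κ) * N) + d * ν := by exact_mod_cast e
    nlinarith [Nat.zero_le (i * ((d + κ) * N)), Nat.mul_le_mul_right N hd, Nat.mul_pos hκ hN0,
      Nat.zero_le (d * ν)]
  · rw [div_eq_iff (Nat.cast_ne_zero.2 (by positivity)), neg_eq_iff_add_eq_zero] at e
    have : 3 * N + κ * ν + i * ((d + κ) * N) = 0 := by exact_mod_cast e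
    omega

theorem main_of (hsqf : S_sqf ℂ) (hsing : S_sing ℂ) (hmult : S_mult ℂ) (hsplit : S_split ℂ)
    (hcurve : S_curve ℂ) (hz : S_zmain ℂ) (hrb : S_rb ℂ) (hch : S_chart ℂ) (hrho : S_rho ℂ)
    (hbeta : S_beta ℂ) (harch : S_arch) (f : P3 ℂ) (d κ : ℕ) (hd : 3 ≤ d) (hκ : 0 < κ)
    (hlow : ∀ j < d + κ, j ≠ d → MvPolynomial.homogeneousComponent j f = 0)
    (hsq : Squarefree (MvPolynomial.homogeneousComponent d f))
    (hLY : ∀ x : Fin 3 → ℂ, x ≠ 0 → (∀ j, MvPolynomial.eval x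
      (MvPolynomial.pderiv j (MvPolynomial.homogeneousComponent d f)) = 0) →
      MvPolynomial.eval x (MvPolynomial.homogeneousComponent (d + κ) f) ≠ 0) :
    ∃ S : Finset (ℕ × ℕ), zeta f ∈ poleRing ℂ S ∧ ∀ π ∈ S, 0 < π.1 ∧ 0 < π.2 ∧
      (Rt f π ∨ π = (3, d) ∧ 3 < d ∧ ¬LctGe f (3 / d)) := by
  have hF := MvPolynomial.homogeneousComponent_isHomogeneous d f
  obtain ⟨R, hsp, hR⟩ := hsplit f d κ hκ hlow
  obtain ⟨T, hT⟩ := hsing _ d (by omega) hF fun L hL => hsqf _ d L hF hsq hL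
  have hε : ∀ L ∈ T, MvPolynomial.eval (fun i => L i 0) (R.coeff 0) ≠ 0 := fun L hL => by
    rw [hR]
    refine hLY _ (fun e => (hT.1 L hL).1 ?_) (hT.1 L hL).2
    exact Matrix.det_eq_zero_of_column_eq_zero 0 (congrFun e)
  obtain ⟨S, h1, h2⟩ := hz f _ R d κ T (by omega) hκ hF hsp hT fun L hL => ⟨hε L hL,
    hcurve _ (hsqf _ d L hF hsq (hT.1 L hL).1) (hmult _ d L (by omega) hF (hT.1 L hL).2)⟩
  have hf : f ≠ 0 := by
    rintro rfl
    simp at hsq
  have h0 : MvPolynomial.constantCoeff f = 0 := by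
    have := hlow 0 (by omega) (by omega)
    rwa [MvPolynomial.homogeneousComponent_zero, MvPolynomial.C_eq_zero] at this
  refine ⟨S, h1, fun π hπ => ?_⟩
  rcases h2 π hπ with rfl | rfl | ⟨L, hL, π', h, rfl⟩
  · exact ⟨one_pos, one_pos, Or.inl fun b hb => by simpa using root_neg_one_loc hf h0 hb⟩
  · refine ⟨by simp, by omega, ?_⟩
    rcases hd.eq_or_lt with rfl | hd'
    · exact Or.inl fun b hb => by simpa using root_neg_one_loc hf h0 hb
    by_cases h : LctGe f (3 / d)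
    · exact Or.inl fun b hb => harch 3 d f b (by omega) (by omega) hf
        (fun j hj => hlow j (by omega) (by omega)) (by simpa using h) hb
    · exact Or.inr ⟨rfl, hd', h⟩
  · have := rt_chart hrb hch hrho hbeta hd hκ hsp (hT.1 L hL).1 (hε L hL) h
    obtain ⟨_, _, _, -, -, -, -, h3, h4, -⟩ := h
    have h5 : 0 < π'.2 := by omega
    exact ⟨by simp only [trp]; omega, by simp only [trp]; positivity, Or.inl this⟩

end

end Pool.Agent.P.MP_b91a16_ag.LY
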