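import Pool.Agent.P.MP_b91a16_ag.DefsLoc

/-! The log canonical threshold at the origin, as a lower bound. -/

namespace Pool.Agent.P.MP_b91a16_ag.LY

/-- `lct_0(f) ≥ c₀`: on one neighbourhood of the origin, `|f|^(-2c)` is Lebesgue integrable for
every `c` with `0 < c < c₀`. -/
def LctGe {n : ℕ} (f : MvPolynomial (Fin n) ℂ) (c₀ : ℝ) : Prop :=
  ∃ U ∈ nhds (0 : Fin n → ℂ), ∀ c : ℝ, 0 < c → c < c₀ →
    MeasureTheory.IntegrableOn (fun x => ‖MvPolynomial.eval x f‖ ^ (-2 * c)) U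

end Pool.Agent.P.MP_b91a16_ag.LY
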