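import Pool.Agent.P.MP_b91a16_ag.LY.Vol
import Pool.Agent.P.MP_b91a16_ag.LY.Defs

/-! Le-Yomdin surfaces: objects of the proof and their first properties (interface file). -/

set_option linter.unusedSectionVars false

open Polynomial

namespace Pool.Agent.P.MP_b91a16_ag.LY

noncomputable section

/-- Polynomials `∑ G_j(y) z^j`: the inner variable is `y`, the outer variable is `z`. -/
abbrev P2 (k : Type) [Field k] : Type := Polynomial (Polynomial k)

abbrev P3 (k : Type) [Field k] : Type := MvPolynomial (Fin 3) k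

variable {k : Type} [Field k]

abbrev cc {R : Type} [CommRing R] : PowerSeries R →+* R := PowerSeries.constantCoeff

abbrev tt {R : Type} [CommRing R] : PowerSeries R := PowerSeries.X

abbrev sw : P2 k ≃ₐ[k] P2 k := Bivariate.swap

/-- The least `r` with `a ≤ q r`. -/
def cdiv (a q : ℕ) : ℕ := (a + q - 1) / q

/-! ### Newton data -/

/-- The coefficient of `y^i z^j`. -/
def co (G : P2 k) (i j : ℕ) : k := (G.coeff j).coeff i

def Above (G : P2 k) (q p n : ℕ) : Prop := ∀ i j, co G i j ≠ 0 → n ≤ q * i + p * j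

/-- `(N, m)` is the lowest point of the face of slope `p/q`. -/
def Model (G : P2 k) (q p N m : ℕ) : Prop :=
  0 < q ∧ co G N m ≠ 0 ∧ Above G q p (q * N + p * m) ∧
    ∀ i j, j < m → co G i j ≠ 0 → q * N + p * m < q * i + p * j

/-- `(N, m)` is the highest point of the face of slope `p/q`. -/
def Top (G : P2 k) (q p N m : ℕ) : Prop :=
  0 < q ∧ 0 < p ∧ q.Coprime p ∧ co G N m ≠ 0 ∧ Above G q p (q * N + p * m) ∧
    ∀ i j, m < j → co G i j ≠ 0 → q * N + p * m < q * i + p * j

/-- The substitution `y ↦ y^e`, `z ↦ ζ(y) + y^P z`. -/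
def sub (e P : ℕ) (ζ : k[X]) : P2 k →ₐ[k] P2 k :=
  aevalAeval (C (X ^ e)) (C ζ + C (X ^ P) * X)

/-- The coefficient of `y^n`, a polynomial in `z`. -/
def row (G : P2 k) (n : ℕ) : k[X] := G.sum fun j a => monomial j (a.coeff n)

/-- The terms of weight `n` at `y = 1`. -/
def edge (G : P2 k) (q p n : ℕ) : k[X] := row (sub q p 0 G) n

/-- The terms of weight `n`. -/
def ini (G : P2 k) (b r n : ℕ) : P2 k :=
  G.sum fun j a => monomial j (a.sum fun i c => if b * i + r * j = n then monomial i c else 0)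

def Bez (G : P2 k) : Prop :=
  ∃ (A B : P2 k) (R : k[X]), R ≠ 0 ∧ A * G + B * derivative G = C R

/-- Not a power of one linear form. -/
def Two (φ : k[X]) : Prop := ∀ c a : k, φ ≠ C c * (X - C a) ^ φ.natDegree

/-- Exactly two roots, of different multiplicities. -/
def Bad (φ : k[X]) : Prop := ∃ (c a₁ a₂ : k) (m₁ m₂ : ℕ), a₁ ≠ a₂ ∧ 0 < m₂ ∧ m₂ < m₁ ∧
  φ = C c * (X - C a₁) ^ m₁ * (X - C a₂) ^ m₂

/-- `φ^(-l) dξ` is not of the form `d(u φ^(-l)) + c φ^(-l) dφ`, `u = P/φ^j`. -/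
def Good (φ : k[X]) (l : k) : Prop := ∀ (P : k[X]) (j : ℕ) (c : k),
  derivative P * φ - C (l + j) * P * derivative φ + C c * derivative φ * φ ^ (j + 1) ≠ φ ^ (j + 1)

/-- A good divisor with data `(ν', N')` for `G` and the form `y^(ν-1) dy dz`. -/
def Nd (G : P2 k) (ν ν' N' : ℕ) : Prop := ∃ (e P : ℕ) (ζ : k[X]), 0 < e ∧ 0 < P ∧
  ζ.coeff 0 = 0 ∧ ν' = ν * e + P ∧ ν' ≤ N' ∧ Above (sub e P ζ G) 1 0 N' ∧
    Good (row (sub e P ζ G) N') ((ν' : k) / N')

/-- The derivative in the outer variable. -/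
def dO : Derivation k (P2 k) (P2 k) :=
  (derivative' : Derivation k[X] (P2 k) (P2 k)).restrictScalars k

theorem dO_apply (G : P2 k) : dO G = derivative G := rfl

/-- The derivative in the inner variable. -/
def dI : Derivation k (P2 k) (P2 k) :=
  Derivation.mk' (sw.toLinearMap ∘ₗ dO.toLinearMap ∘ₗ sw.toLinearMap) fun a b => by
    simp [Bivariate.swap_swap_apply]

theorem dI_apply (G : P2 k) : dI G = sw (derivative (sw G)) := rfl

def jac (Y Z : P2 k) : P2 k := dI Y * derivative Z - derivative Y * dI Z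

/-- A good divisor with data `(ν, N)` for `g` and `dy dz`, in a polynomial chart. -/
def Chart (g : P2 k) (ν N : ℕ) : Prop := ∃ (Y Z : P2 k) (c : k), c ≠ 0 ∧ C X ∣ Y ∧ C X ∣ Z ∧
  C X * jac Y Z = C (C c * X ^ ν) ∧ 0 < ν ∧ ν ≤ N ∧ Above (aevalAeval Y Z g) 1 0 N ∧
    Good (row (aevalAeval Y Z g) N) ((ν : k) / N)

/-! ### Sets of arcs for a plane curve.  Index `0` carries an auxiliary unit `ω`. -/

/-- `E(ω, δ) = 0` is a graph over `ω ≠ 0`. -/
def Graph (E : P2 k) : Prop := ∀ (K : Type) [Field K] [Algebra k K] (w : K), w ≠ 0 →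
  ∃! δ : K, aevalAeval w δ E = 0

def Hit (G E : P2 k) (n : ℕ) {K : Type} [Field K] [Algebra k K] (w y z : PowerSeries K) : Prop :=
  tt ^ n ∣ aevalAeval y z G ∧
    aevalAeval (cc w) (PowerSeries.coeff n (aevalAeval y z G)) E = 0

def PU (G E : P2 k) (b s n : ℕ) : SP k (Fin 3) := fun _ _ _ γ =>
  cc (γ 0) ≠ 0 ∧ cc (γ 1) ≠ 0 ∧ tt ^ s ∣ γ 2 ∧ Hit G E n (γ 0) (tt ^ b * γ 1) (γ 2)

def PR (G E : P2 k) (n : ℕ) : SP k (Fin 3) := fun _ _ _ γ =>
  cc (γ 0) ≠ 0 ∧ tt ∣ γ 1 ∧ tt ∣ γ 2 ∧ Hit G E n (γ 0) (γ 1) (γ 2)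

def TU (E Φ : P2 k) : SP k (Fin 3) := fun _ _ _ γ => cc (γ 0) ≠ 0 ∧ cc (γ 1) ≠ 0 ∧
  aevalAeval (cc (γ 0)) (aevalAeval (cc (γ 1)) (cc (γ 2)) Φ) E = 0

def TR (E Φ : P2 k) : SP k (Fin 3) := fun _ _ _ γ => cc (γ 0) ≠ 0 ∧
  aevalAeval (cc (γ 0)) (aevalAeval (cc (γ 1)) (cc (γ 2)) Φ) E = 0

def eU (G E : P2 k) (b s n : ℕ) : Mot k := mu (PU G E b s n) - Linv k * mu (PU G 0 b s n)

def eR (G E : P2 k) (n : ℕ) : Mot k := mu (PR G E n) - Linv k * mu (PR G 0 n)

def GF (e : ℕ → ℕ → Mot k) : PowerSeries (Mot k) := PowerSeries.mk fun n => ∑ᶠ b, e b n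

def tU (G E : P2 k) (ν : ℕ) (s : ℕ → ℕ) (q n₀ : ℕ) (b n : ℕ) : Mot k :=
  if 0 < b ∧ n₀ * b < q * n then Linv k ^ (ν * b) * eU G E b (s b) n else 0

def Curve (g : P2 k) : Prop := ∃ S : Finset (ℕ × ℕ), (∀ π ∈ S, Chart g π.1 π.2) ∧
  ∀ E, Graph E → PowerSeries.mk (eR g E) ∈ poleRing k S

/-! ### Sets of arcs in three dimensions -/

/-- `f(w β) = w^d F(β) + w^(d+κ) R(w, β)`. -/
def Split (f : P3 k) (d κ : ℕ) (F : P3 k) (R : Polynomial (P3 k)) : Prop :=
  ∀ (S : Type) [CommRing S] [Algebra k S] (w : S) (β : Fin 3 → S),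
    MvPolynomial.aeval (fun j => w * β j) f = w ^ d * MvPolynomial.aeval β F +
      w ^ (d + κ) * R.eval₂ (MvPolynomial.aeval β : P3 k →ₐ[k] S).toRingHom w

/-- The vector `L (1, y, z)`. -/
def lv (L : Matrix (Fin 3) (Fin 3) k) {S : Type} [CommRing S] [Algebra k S] (y z : S) :
    Fin 3 → S := fun j =>
  algebraMap k S (L j 0) + algebraMap k S (L j 1) * y + algebraMap k S (L j 2) * z

/-- The affine equation `F(L (1, y, z))`. -/
def dh (L : Matrix (Fin 3) (Fin 3) k) (F : P3 k) : P2 k :=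
  MvPolynomial.aeval (lv L (C X : P2 k) X) F

/-- The first columns of the matrices in `T` represent the singular points of `F = 0`. -/
def Sing (F : P3 k) (T : Finset (Matrix (Fin 3) (Fin 3) k)) : Prop :=
  (∀ L ∈ T, L.det ≠ 0 ∧ ∀ j, MvPolynomial.eval (fun i => L i 0) (MvPolynomial.pderiv j F) = 0) ∧
  (∀ (K : Type) [Field K] [Algebra k K] (v : Fin 3 → K), v ≠ 0 →
    (∀ j, MvPolynomial.aeval v (MvPolynomial.pderiv j F) = 0) →
    ∃ L ∈ T, ∃ w : K, v = fun i => w * algebraMap k K (L i 0)) ∧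
  ∀ (K : Type) [Field K] [Algebra k K] (w w' : K), ∀ L ∈ T, ∀ L' ∈ T, w ≠ 0 →
    (∀ i, w * algebraMap k K (L i 0) = w' * algebraMap k K (L' i 0)) → L = L'

def Ht (ψ : k[X]) (n : ℕ) {K : Type} [Field K] [Algebra k K] (F : PowerSeries K) : Prop :=
  tt ^ n ∣ F ∧ aeval (PowerSeries.coeff n F) ψ = 0

def PZ (f : P3 k) (ψ : k[X]) (n : ℕ) : SP k (Fin 3) := fun _ _ _ γ =>
  (∀ j, tt ∣ γ j) ∧ Ht ψ n (MvPolynomial.aeval γ f)

def eZ (f : P3 k) (c : k) (n : ℕ) : Mot k := mu (PZ f (X - C c) n) - Linv k * mu (PZ f 0 n)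

/-- `f(t^a β) / t^(d a)`. -/
def fa (F : P3 k) (R : Polynomial (P3 k)) (κ a : ℕ) {K : Type} [Field K] [Algebra k K]
    (β : Fin 3 → PowerSeries K) : PowerSeries K :=
  MvPolynomial.aeval β F + tt ^ (κ * a) *
    R.eval₂ (MvPolynomial.aeval β : P3 k →ₐ[k] PowerSeries K).toRingHom (tt ^ a)

def TZ (F : P3 k) (ψ : k[X]) : SP k (Fin 3) := fun _ _ _ β =>
  aeval (MvPolynomial.aeval (fun j => cc (β j)) F) ψ = 0

def PA (F : P3 k) (R : Polynomial (P3 k)) (κ a : ℕ) (ψ : k[X]) (n : ℕ) : SP k (Fin 3) :=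
  fun _ _ _ β => (∃ j, cc (β j) ≠ 0) ∧ Ht ψ n (fa F R κ a β)

def PSg (F : P3 k) (R : Polynomial (P3 k)) (κ a : ℕ) (ψ : k[X]) (n : ℕ) : SP k (Fin 3) :=
  fun K _ _ β => PA F R κ a ψ n K β ∧
    ∀ j, MvPolynomial.aeval (fun i => cc (β i)) (MvPolynomial.pderiv j F) = 0

def PP (L : Matrix (Fin 3) (Fin 3) k) (F : P3 k) (R : Polynomial (P3 k)) (κ a : ℕ) (ψ : k[X])
    (n : ℕ) : SP k (Fin 3) := fun _ _ _ γ => cc (γ 0) ≠ 0 ∧ tt ∣ γ 1 ∧ tt ∣ γ 2 ∧
  Ht ψ n (fa F R κ a fun j => γ 0 * lv L (γ 1) (γ 2) j)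

/-- The equation `ψ(ω^d (δ + ε ω^κ))`. -/
def EE (d κ : ℕ) (ε : k) (ψ : k[X]) : P2 k := aeval (C (X ^ d) * (X + C (C ε * X ^ κ))) ψ

/-- The transform of a pair `(ν, N)` of the curve. -/
def trp (d κ : ℕ) (π : ℕ × ℕ) : ℕ × ℕ := (3 * π.2 + κ * π.1, (d + κ) * π.2)

/-! ### Residues -/

/-- A derivation of the coefficients, acting on power series. -/
def cw {A : Type} [CommRing A] [Algebra k A] (D : Derivation k A A) :
    Derivation k (PowerSeries A) (PowerSeries A) :=
  Derivation.mk'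
    { toFun := fun F => PowerSeries.mk fun n => D (PowerSeries.coeff n F)
      map_add' := fun F G => by ext n; simp
      map_smul' := fun c F => by ext n; simp } fun F G => by
    ext n
    simp only [LinearMap.coe_mk, AddHom.coe_mk, PowerSeries.coeff_mk, PowerSeries.coeff_mul,
      map_sum, Derivation.leibniz, smul_eq_mul, map_add, Finset.sum_add_distrib, mul_comm G]
    simp only [mul_comm]

theorem coeff_cw {A : Type} [CommRing A] [Algebra k A] (D : Derivation k A A) (F : PowerSeries A)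
    (n : ℕ) : PowerSeries.coeff n (cw D F) = D (PowerSeries.coeff n F) :=
  PowerSeries.coeff_mk n fun n => D (PowerSeries.coeff n F)

variable (k) in
/-- The Euler derivation `t d/dt`. -/
def eul (A : Type) [CommRing A] [Algebra k A] : Derivation k (PowerSeries A) (PowerSeries A) :=
  (tt : PowerSeries A) • (PowerSeries.derivative A).restrictScalars k

theorem coeff_eul {A : Type} [CommRing A] [Algebra k A] (F : PowerSeries A) (n : ℕ) :
    PowerSeries.coeff n (eul k A F) = n * PowerSeries.coeff n F := by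
  change PowerSeries.coeff n (tt * PowerSeries.derivative A F) = _
  rcases n with _ | n
  · simp
  · rw [PowerSeries.coeff_succ_X_mul, PowerSeries.coeff_derivative]
    push_cast
    ring

variable (k) in
def D3 : Fin 3 → Derivation k (PowerSeries (P2 k)) (PowerSeries (P2 k)) :=
  ![eul k (P2 k), cw dO, cw dI]

def jac3 (Θ : Fin 3 → PowerSeries (P2 k)) : PowerSeries (P2 k) :=
  (Matrix.of fun i j => D3 k i (Θ j)).det

/-- The form `Δ V^s` is exact. -/
def Exact2 (V Δ : P2 k) (s : k) : Prop := ∃ (j : ℕ) (P₁ P₂ : P2 k),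
  V * derivative P₁ + C (C (s - j)) * P₁ * derivative V + (V * dI P₂ + C (C (s - j)) * P₂ * dI V) =
    V ^ (j + 1) * Δ

/-- The functionals `ρ n p = Γ(l - n) ∫ p φ^(n - l) dξ`. -/
def Rho (φ : k[X]) (l : k) : Prop := ∃ ρ : ℤ → k[X] →ₗ[k] k,
  (∀ n p, ρ n (p * φ) = (l - 1 - n) * ρ (n + 1) p) ∧
  (∀ n p, ρ n (derivative p) = ρ (n - 1) (p * derivative φ)) ∧ ρ 0 1 ≠ 0

def Rt (f : P3 k) (π : ℕ × ℕ) : Prop :=
  ∀ b : k[X], LocalBernsteinEq f b → b.eval (-(π.1 : k) / (π.2 : k)) = 0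

/-! ### First properties -/

theorem cdiv_le {a q r : ℕ} (hq : 0 < q) : cdiv a q ≤ r ↔ a ≤ q * r := by
  rw [cdiv, ← Nat.lt_succ_iff, Nat.div_lt_iff_lt_mul hq, Nat.succ_mul, mul_comm r q]
  omega

theorem lt_cdiv {a q r : ℕ} (hq : 0 < q) : r < cdiv a q ↔ q * r < a := by
  rw [← not_le, cdiv_le hq, not_le]

theorem div_succ_le {a q r : ℕ} (hq : 0 < q) : a / q + 1 ≤ r ↔ a < q * r := by
  rw [Nat.succ_le_iff, Nat.div_lt_iff_lt_mul hq, mul_comm]

theorem cdiv_add (a p : ℕ) {q : ℕ} (hq : 0 < q) : cdiv (a + q * p) q = cdiv a q + p := by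
  rw [cdiv, cdiv, show a + q * p + q - 1 = a + q - 1 + q * p by omega, Nat.add_mul_div_left _ _ hq]

theorem co_ext {G G' : P2 k} (h : ∀ i j, co G i j = co G' i j) : G = G' := by
  ext j i
  exact h i j

theorem co_add (G G' : P2 k) (i j : ℕ) : co (G + G') i j = co G i j + co G' i j := by simp [co]

theorem co_monomial (a b i j : ℕ) (c : k) :
    co (monomial b (monomial a c)) i j = if a = i ∧ b = j then c else 0 := by
  by_cases h : b = j <;> simp [co, coeff_monomial, h]

theorem P2_induction {p : P2 k → Prop} (G : P2 k) (h0 : ∀ i j c, p (monomial j (monomial i c)))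
    (ha : ∀ G G', p G → p G' → p (G + G')) : p G := by
  induction G using Polynomial.induction_on' with
  | add G G' h h' => exact ha _ _ h h'
  | monomial j a =>
    induction a using Polynomial.induction_on' with
    | add a a' h h' => exact (monomial j).map_add a a' ▸ ha _ _ h h'
    | monomial i c => exact h0 i j c

theorem ev_monomial {S : Type} [CommRing S] [Algebra k S] (y z : S) (i j : ℕ) (c : k) :
    aevalAeval y z (monomial j (monomial i c) : P2 k) = algebraMap k S c * y ^ i * z ^ j := by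
  rw [← C_mul_X_pow_eq_monomial, map_mul, map_pow, aevalAeval_C, aevalAeval_Y, aeval_monomial]

theorem eq_sum_co (G : P2 k) :
    G = ∑ j ∈ G.support, ∑ i ∈ (G.coeff j).support, monomial j (monomial i (co G i j)) := by
  conv_lhs => rw [G.as_sum_support]
  refine Finset.sum_congr rfl fun j _ => ?_
  rw [← map_sum]
  exact congrArg _ (G.coeff j).as_sum_support

theorem ev_eq_sum {S : Type} [CommRing S] [Algebra k S] (y z : S) (G : P2 k) :
    aevalAeval y z G = ∑ j ∈ G.support, ∑ i ∈ (G.coeff j).support,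
      algebraMap k S (co G i j) * y ^ i * z ^ j := by
  conv_lhs => rw [eq_sum_co G]
  simp only [map_sum, ev_monomial]

theorem map_ev {S S' : Type} [CommRing S] [Algebra k S] [CommRing S'] [Algebra k S']
    (φ : S →ₐ[k] S') (y z : S) (G : P2 k) :
    φ (aevalAeval y z G) = aevalAeval (φ y) (φ z) G := by
  simp only [ev_eq_sum, map_sum, map_mul, map_pow, AlgHom.commutes]

theorem cc_ev {K : Type} [CommRing K] [Algebra k K] (y z : PowerSeries K) (G : P2 k) :
    cc (aevalAeval y z G) = aevalAeval (cc y) (cc z) G := by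
  simp only [ev_eq_sum, map_sum, map_mul, map_pow, PowerSeries.algebraMap_apply,
    PowerSeries.constantCoeff_C]

theorem ev_sub {S : Type} [CommRing S] [Algebra k S] (y z : S) (e P : ℕ) (ζ : k[X]) (G : P2 k) :
    aevalAeval y z (sub e P ζ G) = aevalAeval (y ^ e) (aeval y ζ + y ^ P * z) G := by
  rw [sub, map_ev, map_add, map_mul, aevalAeval_C, aevalAeval_C, aevalAeval_C, aevalAeval_Y,
    aeval_X_pow, aeval_X_pow]

theorem ev_sw {S : Type} [CommRing S] [Algebra k S] (y z : S) (G : P2 k) :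
    aevalAeval y z (sw G) = aevalAeval z y G := Bivariate.aevalAeval_swap _ _ _

theorem ev_id (G : P2 k) : aevalAeval (C X : P2 k) X G = G := by
  induction G using P2_induction with
  | h0 i j c =>
    rw [ev_monomial, ← C_mul_X_pow_eq_monomial, ← C_mul_X_pow_eq_monomial]
    simp
  | ha G G' h h' => rw [map_add, h, h']

theorem aeval_C_eq (a ζ : k[X]) : aeval (C a : P2 k) ζ = C (ζ.comp a) := by
  rw [comp_eq_aeval]
  exact aeval_algHom_apply (CAlgHom : k[X] →ₐ[k] P2 k) a ζ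

theorem sub_sub (e P e' P' : ℕ) (ζ ζ' : k[X]) (G : P2 k) : sub e P ζ (sub e' P' ζ' G) =
    sub (e * e') (e * P' + P) (ζ'.comp (X ^ e) + X ^ (e * P') * ζ) G := by
  rw [sub, ev_sub, sub, aeval_C_eq, ← map_pow, ← map_pow, ← pow_mul, ← pow_mul]
  simp only [map_add, map_mul, pow_add, mul_add, mul_assoc, add_assoc]

theorem co_sw (G : P2 k) (i j : ℕ) : co (sw G) i j = co G j i := by
  induction G using P2_induction with
  | h0 a b c => simp [Bivariate.swap_monomial_monomial, co_monomial, and_comm]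
  | ha G G' h h' => rw [map_add, co_add, co_add, h, h']

theorem coeff_row (G : P2 k) (n j : ℕ) : (row G n).coeff j = co G n j := by
  rw [row, Polynomial.sum, finsetSum_coeff]
  simp only [coeff_monomial, Finset.sum_ite_eq']
  split_ifs with h
  · rfl
  · simp [co, notMem_support_iff.1 h]

theorem co_ini (G : P2 k) (b r n i j : ℕ) :
    co (ini G b r n) i j = if b * i + r * j = n then co G i j else 0 := by
  rw [ini, co, Polynomial.sum, finsetSum_coeff]
  simp only [coeff_monomial, Finset.sum_ite_eq']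
  by_cases h : G.coeff j = 0
  · simp [co, h]
  rw [if_pos (mem_support_iff.2 h), Polynomial.sum, finsetSum_coeff, Finset.sum_eq_single i]
  · split_ifs <;> simp [co]
  · intro i' _ hi
    split_ifs <;> simp [coeff_monomial, hi]
  · intro hi
    split_ifs <;> simp [co, notMem_support_iff.1 hi]

theorem sub_monomial (q p i j : ℕ) (c : k) :
    sub q p 0 (monomial j (monomial i c) : P2 k) = monomial j (monomial (q * i + p * j) c) := by
  rw [sub, ev_monomial, ← C_mul_X_pow_eq_monomial, ← C_mul_X_pow_eq_monomial]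
  simp only [map_zero, zero_add, mul_pow, map_mul, map_pow, pow_add, pow_mul,
    Polynomial.algebraMap_apply, Algebra.algebraMap_self, RingHom.id_apply]
  ring

theorem co_sub_zero {q : ℕ} (hq : 0 < q) (p : ℕ) (G : P2 k) (i j : ℕ) :
    co (sub q p 0 G) (q * i + p * j) j = co G i j := by
  induction G using P2_induction with
  | h0 a b c =>
    rw [sub_monomial, co_monomial, co_monomial]
    refine if_congr (and_congr_left fun h => ?_) rfl rfl
    rw [h, add_left_inj, mul_right_inj' hq.ne']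
  | ha G G' h h' => rw [map_add, co_add, co_add, h, h']

theorem co_sub_zero' (q p : ℕ) (G : P2 k) {n j : ℕ} (h : ∀ i, q * i + p * j ≠ n) :
    co (sub q p 0 G) n j = 0 := by
  induction G using P2_induction with
  | h0 a b c =>
    rw [sub_monomial, co_monomial, if_neg]
    rintro ⟨h1, rfl⟩
    exact h a h1
  | ha G G' h h' => rw [map_add, co_add, h, h', add_zero]

theorem exists_of_co_sub {q : ℕ} (hq : 0 < q) {p n j : ℕ} {G : P2 k}
    (h : co (sub q p 0 G) n j ≠ 0) : ∃ i, q * i + p * j = n ∧ co G i j ≠ 0 := by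
  by_contra h'
  push Not at h'
  by_cases h1 : ∃ i, q * i + p * j = n
  · obtain ⟨i, rfl⟩ := h1
    exact h ((co_sub_zero hq p G i j).trans (h' i rfl))
  · exact h (co_sub_zero' q p G (not_exists.1 h1))

theorem Above.sub_zero {q p n : ℕ} {G : P2 k} (hq : 0 < q) (h : Above G q p n) :
    Above (sub q p 0 G) 1 0 n := fun i j hij => by
  obtain ⟨i', rfl, h'⟩ := exists_of_co_sub hq hij
  simpa using h i' j h'

theorem above_iff_dvd {G : P2 k} {n : ℕ} : Above G 1 0 n ↔ C (X ^ n) ∣ G := by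
  rw [C_dvd_iff_dvd_coeff]
  simp only [X_pow_dvd_iff, Above, one_mul, zero_mul, add_zero]
  exact ⟨fun h j i hi => not_not.1 fun e => (h i j e).not_gt hi,
    fun h i j e => not_lt.1 fun hi => e (h j i hi)⟩

theorem row_C_mul (H : P2 k) (n : ℕ) : row (C (X ^ n) * H) n = H.map (evalRingHom 0) := by
  ext j
  rw [coeff_row, co, coeff_C_mul, coeff_map, coe_evalRingHom, ← coeff_zero_eq_eval_zero]
  simpa using coeff_X_pow_mul (H.coeff j) n 0

theorem row_add (G G' : P2 k) (n : ℕ) : row (G + G') n = row G n + row G' n := by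
  ext j
  simp [coeff_row, co_add]

theorem row_monomial (i j n : ℕ) (c : k) :
    row (monomial j (monomial i c) : P2 k) n = if i = n then monomial j c else 0 := by
  ext j'
  rw [coeff_row, co_monomial]
  by_cases h : i = n <;> simp [h, coeff_monomial]

theorem row_sub_C (H : P2 k) (c : k) (n : ℕ) :
    row (sub 1 0 (C c) H) n = taylor c (row H n) := by
  induction H using P2_induction with
  | h0 i j a =>
    have : sub 1 0 (C c) (monomial j (monomial i a) : P2 k) =
        C (monomial i a) * ((X + C c) ^ j).map C := by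
      rw [sub, ev_monomial, ← C_mul_X_pow_eq_monomial]
      simp [add_comm]
    rw [this, row_monomial]
    ext j'
    rw [coeff_row, co, coeff_C_mul, coeff_map, coeff_mul_C, coeff_monomial]
    split_ifs <;> simp [taylor_monomial, coeff_C_mul]
  | ha G G' h h' => rw [map_add, row_add, row_add, map_add, h, h']

/-- The leading term of `G` along arcs of orders at least `b` and `r`. -/
theorem Above.lead {G : P2 k} {b r n : ℕ} (h : Above G b r n) {K : Type} [CommRing K]
    [Algebra k K] (η ξ : PowerSeries K) : tt ^ n ∣ aevalAeval (tt ^ b * η) (tt ^ r * ξ) G ∧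
      PowerSeries.coeff n (aevalAeval (tt ^ b * η) (tt ^ r * ξ) G) =
        aevalAeval (cc η) (cc ξ) (ini G b r n) := by
  have e : ∀ i j (c : k), algebraMap k (PowerSeries K) c * (tt ^ b * η) ^ i * (tt ^ r * ξ) ^ j =
      tt ^ (b * i + r * j) * (algebraMap k _ c * η ^ i * ξ ^ j) := fun i j c => by ring
  constructor
  · rw [ev_eq_sum]
    refine Finset.dvd_sum fun j _ => Finset.dvd_sum fun i hi => ?_
    rw [e]
    exact (pow_dvd_pow _ (h i j (mem_support_iff.1 hi))).mul_right _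
  · rw [ev_eq_sum, ini, Polynomial.sum]
    simp only [map_sum, e, Polynomial.sum]
    refine Finset.sum_congr rfl fun j _ => Finset.sum_congr rfl fun i hi => ?_
    have := h i j (mem_support_iff.1 hi)
    rw [PowerSeries.coeff_X_pow_mul']
    by_cases h' : b * i + r * j = n
    · rw [if_pos h'.le, if_pos h', h', Nat.sub_self, ev_monomial]
      simp [PowerSeries.algebraMap_apply, co]
    · rw [if_neg (by omega), if_neg h']
      simp

theorem dI_monomial (i j : ℕ) (c : k) :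
    dI (monomial j (monomial i c) : P2 k) = monomial j (monomial (i - 1) (c * i)) := by
  rw [dI_apply, Bivariate.swap_monomial_monomial, derivative_monomial, ← C_eq_natCast,
    monomial_mul_C, Bivariate.swap_monomial_monomial]

theorem dI_C (a : k[X]) : dI (C a : P2 k) = C (derivative a) := by
  induction a using Polynomial.induction_on' with
  | add a a' h h' => simp only [map_add, h, h']
  | monomial i c => exact (dI_monomial i 0 c).trans (by rw [derivative_monomial]; rfl)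

theorem dI_X : dI (X : P2 k) = 0 := by
  simpa [monomial_one_one_eq_X] using dI_monomial 0 1 (1 : k)

theorem dI_dO (G : P2 k) : dI (dO G) = dO (dI G) := by
  induction G using P2_induction with
  | h0 i j c =>
    rw [dI_monomial, dO_apply, dO_apply, derivative_monomial, derivative_monomial, ← C_eq_natCast,
      monomial_mul_C, monomial_mul_C, dI_monomial, mul_right_comm]
  | ha G G' h h' => simp only [map_add, h, h']

/-- The chain rule. -/
theorem der_ev {S : Type} [CommRing S] [Algebra k S] (D : Derivation k S S) (y z : S) (G : P2 k) :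
    D (aevalAeval y z G) =
      aevalAeval y z (dI G) * D y + aevalAeval y z (derivative G) * D z := by
  induction G using P2_induction with
  | h0 i j c =>
    rw [dI_monomial, derivative_monomial, ← C_eq_natCast, monomial_mul_C]
    simp only [ev_monomial, Derivation.leibniz, Derivation.leibniz_pow, Derivation.map_algebraMap,
      smul_eq_mul, nsmul_eq_mul, map_mul, map_natCast]
    ring
  | ha G G' h h' => simp only [map_add, h, h']; ring

theorem der_aeval {S σ : Type} [CommRing S] [Algebra k S] [Fintype σ] [DecidableEq σ]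
    (D : Derivation k S S) (φ : σ → S) (g : MvPolynomial σ k) :
    D (MvPolynomial.aeval φ g) =
      ∑ a, MvPolynomial.aeval φ (MvPolynomial.pderiv a g) * D (φ a) := by
  induction g using MvPolynomial.induction_on with
  | C c => simp
  | add p q hp hq => simp [hp, hq, add_mul, Finset.sum_add_distrib]
  | mul_X p i hp =>
    simp only [map_mul, MvPolynomial.aeval_X, Derivation.leibniz, hp, smul_eq_mul, map_add,
      add_mul, Finset.sum_add_distrib, Finset.mul_sum, MvPolynomial.pderiv_X, Pi.single_apply,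
      apply_ite, map_zero, mul_one, mul_zero, ite_mul, zero_mul, mul_assoc]
    simp

theorem ev_dh {S : Type} [CommRing S] [Algebra k S] (y z : S) (L : Matrix (Fin 3) (Fin 3) k)
    (F : P3 k) : aevalAeval y z (dh L F) = MvPolynomial.aeval (lv L y z) F :=
  algHom_aeval _ _ _ (fun j => by
    simp only [lv, map_add, map_mul, AlgHom.commutes, aevalAeval_X, aevalAeval_Y]) F

/-- Roots of power series. -/
theorem exists_root [CharZero k] {R : Type} [CommRing R] [Algebra k R] {n : ℕ} (hn : 0 < n)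
    (F : PowerSeries R) {u : R} (hu : IsUnit u) (h : u ^ n = cc F) :
    ∃ η : PowerSeries R, η ^ n = F ∧ cc η = u := by
  have hI : ∀ G : PowerSeries R, G ∈ Ideal.span {(tt : PowerSeries R)} ↔ cc G = 0 := fun G =>
    Ideal.mem_span_singleton.trans PowerSeries.X_dvd_iff
  obtain ⟨a, h1, h2⟩ := HenselianRing.is_henselian (I := Ideal.span {(tt : PowerSeries R)})
    (X ^ n - C F) (monic_X_pow_sub_C F hn.ne') (PowerSeries.C u) (by simp [hI, h]) (by
      refine IsUnit.map _ (PowerSeries.isUnit_iff_constantCoeff.2 ?_)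
      simp only [derivative_sub, derivative_X_pow, derivative_C, sub_zero, eval_mul, eval_C,
        eval_pow, eval_X, map_mul, map_natCast, map_pow, PowerSeries.constantCoeff_C]
      refine IsUnit.mul ?_ (hu.pow _)
      simpa using (IsUnit.mk0 (n : k) (Nat.cast_ne_zero.2 hn.ne')).map (algebraMap k R))
  exact ⟨a, by simpa [sub_eq_zero] using h1, by simpa [hI, sub_eq_zero] using h2⟩

/-! ### The sets are cylinders -/

theorem Cyl.and_hit {Q : SP k (Fin 3)} (h : Cyl Q) {w y z : SS k (Fin 3)} (hw : PS w) (hy : PS y)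
    (hz : PS z) (G E : P2 k) (n : ℕ) :
    Cyl (k := k) fun K _ _ γ => Q K γ ∧ Hit G E n (w K γ) (y K γ) (z K γ) :=
  ((h.and_dvd (hy.aevalAeval hz G) n).and_zero
    (hw.cc.aevalAeval ((hy.aevalAeval hz G).coeff n) E)).congr fun _ _ _ _ => and_assoc

theorem Cyl.and_ht {Q : SP k (Fin 3)} (h : Cyl Q) {F : SS k (Fin 3)} (hF : PS F) (ψ : k[X])
    (n : ℕ) : Cyl (k := k) fun K _ _ γ => Q K γ ∧ Ht ψ n (F K γ) :=
  ((h.and_dvd hF n).and_zero ((hF.coeff n).aeval ψ)).congr fun _ _ _ _ => and_assoc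

theorem cyl_PU (G E : P2 k) (b s n : ℕ) : Cyl (PU G E b s n) :=
  ((((cyl_true.and_ne (pf_cc 0)).and_ne (pf_cc 1)).and_dvd (ps_var 2) s).and_hit (ps_var 0)
    ((ps_X.pow b).mul (ps_var 1)) (ps_var 2) G E n).congr fun _ _ _ _ => by
      simp only [PU, true_and, and_assoc]

theorem cyl_PR (G E : P2 k) (n : ℕ) : Cyl (PR G E n) :=
  ((((cyl_true.and_ne (pf_cc 0)).and_dvd (ps_var 1) 1).and_dvd (ps_var 2) 1).and_hit (ps_var 0)
    (ps_var 1) (ps_var 2) G E n).congr fun _ _ _ _ => by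
      simp only [PR, true_and, and_assoc, pow_one]

theorem cyl_TU (E Φ : P2 k) : Cyl (TU E Φ) :=
  (((cyl_true.and_ne (pf_cc 0)).and_ne (pf_cc 1)).and_zero
    ((pf_cc 0).aevalAeval ((pf_cc 1).aevalAeval (pf_cc 2) Φ) E)).congr fun _ _ _ _ => by
      simp only [TU, true_and, and_assoc]

theorem cyl_TR (E Φ : P2 k) : Cyl (TR E Φ) :=
  ((cyl_true.and_ne (pf_cc 0)).and_zero
    ((pf_cc 0).aevalAeval ((pf_cc 1).aevalAeval (pf_cc 2) Φ) E)).congr fun _ _ _ _ => by
      simp only [TR, true_and]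

theorem ps_fa (F : P3 k) (R : Polynomial (P3 k)) (κ a : ℕ) (β : Fin 3 → SS k (Fin 3))
    (h : ∀ j, PS (β j)) : PS (k := k) fun K _ _ γ => fa F R κ a fun j => β j K γ :=
  (ps_aeval β h F).add ((ps_X.pow _).mul (ps_eval₂ β h (ps_X.pow a) R))

theorem ps_lv (L : Matrix (Fin 3) (Fin 3) k) {y z : SS k (Fin 3)} (hy : PS y) (hz : PS z)
    (j : Fin 3) : PS (k := k) fun K _ _ γ => lv L (y K γ) (z K γ) j :=
  ((ps_const _).add ((ps_const _).mul hy)).add ((ps_const _).mul hz)

theorem cyl_PZ (f : P3 k) (ψ : k[X]) (n : ℕ) : Cyl (PZ f ψ n) :=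
  ((cyl_true.and_forall Finset.univ _ fun j _ => pf_cc j).and_ht
    (ps_aeval _ (fun j => ps_var j) f) ψ n).congr fun _ _ _ _ => by
      simp [PZ, PowerSeries.X_dvd_iff]

theorem cyl_TZ (F : P3 k) (ψ : k[X]) : Cyl (TZ F ψ) :=
  (cyl_true.and_zero ((pf_aeval _ (fun j => pf_cc j) F).aeval ψ)).congr fun _ _ _ _ => by
    simp only [TZ, true_and]

theorem cyl_PA (F : P3 k) (R : Polynomial (P3 k)) (κ a : ℕ) (ψ : k[X]) (n : ℕ) :
    Cyl (PA F R κ a ψ n) :=
  ((cyl_true.and_exists Finset.univ _ fun j _ => pf_cc j).and_ht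
    (ps_fa F R κ a _ fun j => ps_var j) ψ n).congr fun _ _ _ _ => by simp [PA]

theorem cyl_PSg (F : P3 k) (R : Polynomial (P3 k)) (κ a : ℕ) (ψ : k[X]) (n : ℕ) :
    Cyl (PSg F R κ a ψ n) :=
  ((cyl_PA F R κ a ψ n).and_forall Finset.univ _ fun j _ =>
    pf_aeval _ (fun i => pf_cc i) (MvPolynomial.pderiv j F)).congr fun _ _ _ _ => by simp [PSg]

theorem cyl_PP (L : Matrix (Fin 3) (Fin 3) k) (F : P3 k) (R : Polynomial (P3 k)) (κ a : ℕ)
    (ψ : k[X]) (n : ℕ) : Cyl (PP L F R κ a ψ n) :=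
  ((((cyl_true.and_ne (pf_cc 0)).and_dvd (ps_var 1) 1).and_dvd (ps_var 2) 1).and_ht
    (ps_fa F R κ a _ fun j => (ps_var 0).mul (ps_lv L (ps_var 1) (ps_var 2) j)) ψ n).congr
      fun _ _ _ _ => by simp only [PP, true_and, and_assoc, pow_one]

/-! ### The ring of allowed poles -/

theorem mem_of_mul {S : Finset (ℕ × ℕ)} {π : ℕ × ℕ} (hπ : π ∈ S) (h0 : 0 < π.2)
    {F : PowerSeries (Mot k)}
    (h : (1 - PowerSeries.C (Linv k ^ π.1) * PowerSeries.X ^ π.2) * F ∈ poleRing k S) :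
    F ∈ poleRing k S := by
  let D : PowerSeries (Mot k) := 1 - PowerSeries.C (Linv k ^ π.1) * PowerSeries.X ^ π.2
  have h1 : PowerSeries.invOfUnit D 1 * D = 1 :=
    (mul_comm _ _).trans (PowerSeries.mul_invOfUnit D 1 (by simp [D, h0.ne']))
  have := mul_mem (Algebra.subset_adjoin (Or.inr ⟨π, hπ, h1⟩) :
    PowerSeries.invOfUnit D 1 ∈ poleRing k S) h
  rwa [← mul_assoc, h1, one_mul] at this

theorem mem_of_per {S : Finset (ℕ × ℕ)} {π : ℕ × ℕ} (hπ : π ∈ S) (h0 : 0 < π.2) (u : ℕ → Mot k)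
    (n₀ : ℕ) (h : ∀ n, n₀ ≤ n → u (n + π.2) = Linv k ^ π.1 * u n) :
    PowerSeries.mk u ∈ poleRing k S := by
  refine mem_of_mul hπ h0 (mem_poleRing_of_eventually S (n₀ + π.2) fun n hn => ?_)
  obtain ⟨n, rfl⟩ : ∃ m, n = m + π.2 := ⟨n - π.2, by omega⟩
  rw [sub_mul, one_mul, mul_assoc, map_sub, PowerSeries.coeff_C_mul, PowerSeries.coeff_X_pow_mul,
    PowerSeries.coeff_mk, PowerSeries.coeff_mk, h n (by omega), sub_self]

theorem mem_of_congr {S : Finset (ℕ × ℕ)} {F G : PowerSeries (Mot k)} (h : G ∈ poleRing k S)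
    (n₀ : ℕ) (e : ∀ n, n₀ ≤ n → PowerSeries.coeff n F = PowerSeries.coeff n G) :
    F ∈ poleRing k S := by
  have := add_mem (mem_poleRing_of_eventually S (F := F - G) n₀ fun n hn => by
    rw [map_sub, e n hn, sub_self]) h
  rwa [sub_add_cancel] at this

end

end Pool.Agent.P.MP_b91a16_ag.LY
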