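import Pool.Agent.P.MP_b91a16_ag.LY.Defs

/-! Exactness of a twisted volume form. -/

namespace Pool.Agent.P.MP_b91a16_ag.LY

open MvPolynomial in
/-- The form `F^s dx_1 ∧ ⋯ ∧ dx_n` is exact on `F ≠ 0`: `F^s = ∑ ∂_i (P_i F^(s-j))` for some
polynomials `P_i` and some natural number `j`, written after division by `F^(s-j-1)`. -/
def ExactVol {k : Type} [Field k] {n : ℕ} (F : MvPolynomial (Fin n) k) (s : k) : Prop :=
  ∃ (j : ℕ) (P : Fin n → MvPolynomial (Fin n) k),
    ∑ i, (F * pderiv i (P i) + C (s - j) * P i * pderiv i F) = F ^ (j + 1)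

end Pool.Agent.P.MP_b91a16_ag.LY
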