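import Pool.Agent.P.MP_b91a16_ag.LY.Stmt

/-! Le-Yomdin surfaces: the archimedean argument. -/

open Polynomial MeasureTheory
open scoped ContDiff

namespace Pool.Agent.P.MP_b91a16_ag.LY

noncomputable section

namespace PArch

variable {n : ℕ}

/-- Test functions supported in `U`. -/
structure Te (U : Set (Fin n → ℂ)) (ψ : (Fin n → ℂ) → ℂ) : Prop where
  sm : ContDiff ℝ ∞ ψ
  cs : HasCompactSupport ψ
  sub : tsupport ψ ⊆ U

theorem contDiff_eval (f : MvPolynomial (Fin n) ℂ) :
    ContDiff ℝ ∞ fun x : Fin n → ℂ => MvPolynomial.eval x f := by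
  induction f using MvPolynomial.induction_on with
  | C a => simpa using contDiff_const
  | add p q hp hq => simpa using hp.add hq
  | mul_X p j hp => simpa using hp.mul (contDiff_apply ℝ ℂ j)

theorem Te.mul {U : Set (Fin n → ℂ)} {ψ u : (Fin n → ℂ) → ℂ} (h : Te U ψ)
    (hu : ContDiff ℝ ∞ u) : Te U fun x => u x * ψ x :=
  ⟨hu.mul h.sm, h.cs.mul_left, (tsupport_mul_subset_right).trans h.sub⟩

theorem Te.wd {U : Set (Fin n → ℂ)} {ψ : (Fin n → ℂ) → ℂ} (h : Te U ψ) (j : Fin n) :
    Te U (wd j ψ) := by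
  have hs : tsupport (LY.wd j ψ) ⊆ tsupport ψ := by
    refine closure_minimal (fun x hx => ?_) (isClosed_tsupport ψ)
    by_contra hx'
    apply hx
    simp [LY.wd, fderiv_of_notMem_tsupport ℝ hx']
  have hd : ContDiff ℝ ∞ (fderiv ℝ ψ) := h.sm.fderiv_right (m := ∞) (by simp)
  refine ⟨?_, IsCompact.of_isClosed_subset h.cs (isClosed_tsupport _) hs, hs.trans h.sub⟩
  unfold LY.wd
  exact ((hd.clm_apply contDiff_const).sub
    (contDiff_const.mul (hd.clm_apply contDiff_const))).div_const 2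

theorem cont_pw (f : MvPolynomial (Fin n) ℂ) {a : ℝ} (ha : 0 ≤ a) : Continuous (pw f a) :=
  ((contDiff_eval f).continuous.norm.pow 2).rpow_const fun _ => Or.inr ha

theorem int_pw {f : MvPolynomial (Fin n) ℂ} {U : Set (Fin n → ℂ)} {c₀ : ℝ}
    (hU : ∀ c : ℝ, 0 < c → c < c₀ →
      IntegrableOn (fun x => ‖MvPolynomial.eval x f‖ ^ (-2 * c)) U)
    {w : (Fin n → ℂ) → ℝ} (hw : Continuous w) (hc : HasCompactSupport w) (hs : tsupport w ⊆ U)
    {σ : ℝ} (hσ : -c₀ < σ) : Integrable fun x => pw f σ x * w x := by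
  rcases le_or_gt 0 σ with h | h
  · exact ((cont_pw f h).mul hw).integrable_of_hasCompactSupport hc.mul_left
  · have h1 := ((hU (-σ) (by linarith) (by linarith)).mono_set hs).mul_continuousOn
      hw.continuousOn hc
    have e : (fun x => pw f σ x * w x) =
        fun x => ‖MvPolynomial.eval x f‖ ^ (-2 * -σ) * w x := by
      funext x
      rw [pw, show -2 * -σ = ((2 : ℕ) : ℝ) * σ by push_cast; ring,
        Real.rpow_mul (norm_nonneg _), Real.rpow_natCast]
    rw [e]
    refine h1.integrable_of_forall_notMem_eq_zero fun x hx => ?_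
    rw [image_eq_zero_of_notMem_tsupport hx, mul_zero]

/-- The integrand. -/
def it (f : MvPolynomial (Fin n) ℂ) (K : ℕ) (s : ℝ) (g : MvPolynomial (Fin n) ℂ)
    (ψ : (Fin n → ℂ) → ℂ) (x : Fin n → ℂ) : ℂ :=
  (pw f (s - K) x : ℂ) * (starRingEnd ℂ (MvPolynomial.eval x f)) ^ K *
    MvPolynomial.eval x g * ψ x

theorem int_it (f : MvPolynomial (Fin n) ℂ) {K : ℕ} {s : ℝ} (hs : K + 1 < s)
    (g : MvPolynomial (Fin n) ℂ) {U : Set (Fin n → ℂ)} {ψ : (Fin n → ℂ) → ℂ} (h : Te U ψ) :
    Integrable (it f K s g ψ) := by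
  refine Continuous.integrable_of_hasCompactSupport ?_ h.cs.mul_left
  exact (((Complex.continuous_ofReal.comp (cont_pw f (by linarith))).mul
    ((Complex.continuous_conj.comp (contDiff_eval f).continuous).pow K)).mul
    (contDiff_eval g).continuous).mul h.sm.continuous

theorem mel_real (f : MvPolynomial (Fin n) ℂ) (w : (Fin n → ℂ) → ℂ) (s : ℝ) :
    mel f w s = ∫ x, (pw f s x : ℂ) * w x := by
  unfold mel pw
  congr 1
  funext x
  rw [Complex.ofReal_cpow (by positivity)]

theorem pw_succ (f : MvPolynomial (Fin n) ℂ) {a : ℝ} (ha : 0 ≤ a) (x : Fin n → ℂ) :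
    (pw f a x : ℂ) * (starRingEnd ℂ (MvPolynomial.eval x f) * MvPolynomial.eval x f) =
      pw f (a + 1) x := by
  rw [Complex.conj_mul', pw, pw, Real.rpow_add' (by positivity) (by linarith), Real.rpow_one]
  push_cast
  ring

theorem pw_add (f : MvPolynomial (Fin n) ℂ) {a : ℝ} (ha : 0 ≤ a) (x : Fin n → ℂ) (K : ℕ) :
    (pw f a x : ℂ) * (starRingEnd ℂ (MvPolynomial.eval x f) * MvPolynomial.eval x f) ^ K =
      pw f (a + K) x := by
  induction K with
  | zero => simp
  | succ K ih =>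
    rw [pow_succ, ← mul_assoc, ih, pw_succ f (by positivity)]
    push_cast
    rw [add_assoc]

/-- The class of sections whose integrals extend holomorphically. -/
def Q (f : MvPolynomial (Fin n) ℂ) (U : Set (Fin n → ℂ)) (c₀ : ℝ) (K : ℕ)
    (g : MvPolynomial (Fin n) ℂ[X]) : Prop :=
  ∀ ψ, Te U ψ → ∃ J : ℂ → ℂ, DifferentiableOn ℂ J {s | -c₀ - 1 / 2 < s.re} ∧
    ∀ s : ℝ, K + 1 < s → ∫ x, it f K s (spec (s : ℂ) g) ψ x = J s

theorem closure (h2 : S_mel) (h3 : S_step) {f : MvPolynomial (Fin n) ℂ} (hf : f ≠ 0)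
    (hae : ∀ᵐ x : Fin n → ℂ, MvPolynomial.eval x f ≠ 0) {U : Set (Fin n → ℂ)} {c₀ : ℝ}
    (hU : ∀ c : ℝ, 0 < c → c < c₀ →
      IntegrableOn (fun x => ‖MvPolynomial.eval x f‖ ^ (-2 * c)) U)
    {b : ℂ[X]} (hb : LocalBernsteinEq f b) :
    ∃ K h, MvPolynomial.constantCoeff h ≠ 0 ∧
      Q f U c₀ K (MvPolynomial.C b * lift h * lift f ^ K) := by
  refine bern_closure_loc hf hb (Q f U c₀) ?_ ?_ ?_ ?_ ?_ ?_
  · intro ψ h
    refine ⟨mel f fun x => MvPolynomial.eval x f * ψ x, ?_, fun s _ => ?_⟩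
    · refine h2 n f _ _ hae ((contDiff_eval f).continuous.mul h.sm.continuous) fun σ hσ => ?_
      have h1 := int_pw hU (σ := σ + 1 / 2) h.sm.continuous.norm h.cs.norm
        ((tsupport_comp_subset (g := fun u : ℂ => ‖u‖) (by simp) ψ).trans h.sub) (by linarith)
      refine h1.congr (hae.mono fun x hx => ?_)
      have hp : 0 < ‖MvPolynomial.eval x f‖ := norm_pos_iff.2 hx
      simp only [pw]
      rw [Real.rpow_add (by positivity), norm_mul, ← Real.sqrt_eq_rpow, Real.sqrt_sq hp.le,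
        mul_assoc]
    · rw [mel_real]
      congr 1
      funext x
      simp [it, spec_lift, mul_assoc]
  · intro K g g' hg hg' ψ h
    obtain ⟨J, hJ, e⟩ := hg ψ h
    obtain ⟨J', hJ', e'⟩ := hg' ψ h
    refine ⟨fun s => J s + J' s, hJ.add hJ', fun s hs => ?_⟩
    beta_reduce
    rw [← e s hs, ← e' s hs, ← integral_add (int_it f hs _ h) (int_it f hs _ h)]
    congr 1
    funext x
    simp only [it, map_add]
    ring
  · intro K p g hg ψ h
    obtain ⟨J, hJ, e⟩ := hg ψ h
    refine ⟨fun s => p.eval s * J s, p.differentiable.differentiableOn.mul hJ, fun s hs => ?_⟩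
    beta_reduce
    rw [← e s hs, ← integral_const_mul]
    congr 1
    funext x
    simp only [it, map_mul, spec_C, MvPolynomial.eval_C]
    ring
  · intro K j g hg ψ h
    obtain ⟨J, hJ, e⟩ := hg _ (h.mul (contDiff_apply ℝ ℂ j))
    refine ⟨J, hJ, fun s hs => ?_⟩
    rw [← e s hs]
    congr 1
    funext x
    simp only [it, map_mul, spec_X, MvPolynomial.eval_X]
    ring
  · intro K g hg ψ h
    obtain ⟨J, hJ, e⟩ := hg ψ h
    refine ⟨J, hJ, fun s hs => ?_⟩
    push_cast at hs
    rw [← e s (by linarith)]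
    congr 1
    funext x
    have := pw_succ f (a := s - (K + 1 : ℕ)) (by push_cast; linarith) x
    rw [show s - (K + 1 : ℕ) + 1 = s - K by push_cast; ring] at this
    simp only [it, map_mul, spec_lift]
    rw [← this]
    ring
  · intro K j g hg ψ h
    obtain ⟨J, hJ, e⟩ := hg _ (h.wd j)
    refine ⟨fun s => -J s, hJ.neg, fun s hs => ?_⟩
    push_cast at hs
    have hs' : (K : ℝ) + 1 < s := by linarith
    have := h3 n f (spec (s : ℂ) g) j K s ψ (h.sm.of_le (by simp)) h.cs hs'
    beta_reduce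
    rw [← e s hs']
    simp only [it]
    rw [← this]
    congr 1
    funext x
    simp only [map_add, map_mul, spec_lift, spec_C, spec_pderiv, eval_sub, eval_X,
      eval_natCast]

theorem ident {F G : ℂ → ℂ} {a t : ℝ} (hF : DifferentiableOn ℂ F {s | a < s.re})
    (hG : DifferentiableOn ℂ G {s | a < s.re}) (e : ∀ s : ℝ, t < s → F s = G s)
    {s : ℂ} (hs : a < s.re) : F s = G s := by
  have ho : IsOpen {s : ℂ | a < s.re} := isOpen_lt continuous_const Complex.continuous_re
  have hz : ((max a t + 1 : ℝ) : ℂ) ∈ {s : ℂ | a < s.re} := by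
    simp only [Set.mem_ofPred_eq, Complex.ofReal_re]
    linarith [le_max_left a t]
  refine (hF.analyticOnNhd ho).eqOn_of_preconnected_of_frequently_eq (hG.analyticOnNhd ho)
    (convex_halfSpace_re_gt a).isPreconnected hz ?_ hs
  have ht : Filter.Tendsto (fun u : ℝ => (u : ℂ)) (nhdsWithin (max a t + 1) (Set.Ioi (max a t + 1)))
      (nhdsWithin ((max a t + 1 : ℝ) : ℂ) {((max a t + 1 : ℝ) : ℂ)}ᶜ) := by
    refine tendsto_nhdsWithin_of_tendsto_nhds_of_eventually_within _
      (Complex.continuous_ofReal.continuousAt.tendsto.mono_left nhdsWithin_le_nhds) ?_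
    filter_upwards [self_mem_nhdsWithin] with u hu
    simp only [Set.mem_compl_iff, Set.mem_singleton_iff, Complex.ofReal_inj]
    exact ne_of_gt hu
  refine ht.frequently (Filter.Eventually.frequently ?_)
  filter_upwards [self_mem_nhdsWithin] with u hu
  exact e u (by linarith [le_max_right a t, Set.mem_Ioi.1 hu])

end PArch

open PArch in
theorem p_arch (h1 : S_null) (h2 : S_mel) (h3 : S_step) (h4 : S_div) : S_arch := by
  intro n d f b hn hd hf hj hl hb
  obtain ⟨U, hU0, hU⟩ := hl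
  have hae := h1 n f hf
  obtain ⟨K, h, hh, hQ⟩ := PArch.closure h2 h3 hf hae hU hb
  obtain ⟨φ, φs, φc, φd, φr, φ0⟩ := exists_contDiff_tsupport_subset (n := ⊤) hU0
  have tφ : Te U fun x => (φ x : ℂ) :=
    ⟨Complex.ofRealCLM.contDiff.comp φd, φc.comp_left (g := fun u : ℝ => (u : ℂ)) (by simp),
      (tsupport_comp_subset (g := fun u : ℝ => (u : ℂ)) (by simp) φ).trans φs⟩
  obtain ⟨J, hJ, e⟩ := hQ _ (tφ.mul (u := fun x => starRingEnd ℂ (MvPolynomial.eval x h))
    (Complex.conjCLE.contDiff.comp (contDiff_eval h)))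
  set c₀ : ℝ := (n : ℝ) / d with hc₀
  let w : (Fin n → ℂ) → ℝ := fun x => ‖MvPolynomial.eval x h‖ ^ 2 * φ x
  have w0 : ∀ x, 0 ≤ w x := fun x =>
    mul_nonneg (by positivity) (φr (Set.mem_range_self x)).1
  have wc : Continuous w := ((contDiff_eval h).continuous.norm.pow 2).mul φd.continuous
  have wi : ∀ σ, -c₀ < σ → Integrable fun x => pw f σ x * w x := fun σ hσ =>
    int_pw hU wc φc.mul_left (tsupport_mul_subset_right.trans φs) hσ
  have hM : DifferentiableOn ℂ (mel f fun x => (w x : ℂ)) {s | -c₀ < s.re} := by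
    refine h2 n f _ _ hae (Complex.continuous_ofReal.comp wc) fun σ hσ => ?_
    refine (wi σ hσ).congr (Filter.Eventually.of_forall fun x => ?_)
    simp only [Complex.norm_real, Real.norm_of_nonneg (w0 x)]
  have hid : ∀ s : ℂ, -c₀ < s.re → b.eval s * mel f (fun x => (w x : ℂ)) s = J s := by
    intro s hs
    refine ident (F := fun s => b.eval s * mel f (fun x => (w x : ℂ)) s) (t := K + 1)
      (b.differentiable.differentiableOn.mul hM)
      (hJ.mono fun z (hz : -c₀ < z.re) => (by linarith : -c₀ - 1 / 2 < z.re))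
      (fun t ht => ?_) hs
    rw [← e t ht, mel_real, ← integral_const_mul]
    congr 1
    funext x
    have := pw_add f (a := t - K) (by linarith) x K
    rw [sub_add_cancel] at this
    simp only [it, w, map_mul, map_pow, spec_lift, spec_C, MvPolynomial.eval_C]
    rw [← this]
    push_cast
    rw [← Complex.conj_mul']
    ring
  have hcc : -(n : ℂ) / (d : ℂ) = -(c₀ : ℂ) := by
    rw [hc₀]
    push_cast
    ring
  rw [hcc]
  by_contra hb0
  have ho : IsOpen {s : ℂ | -c₀ - 1 / 2 < s.re} := isOpen_lt continuous_const Complex.continuous_re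
  have c1 : Continuous fun t : ℝ => -(t : ℂ) := Complex.continuous_ofReal.neg
  have cJ : ContinuousAt (fun t : ℝ => J (-(t : ℂ))) c₀ :=
    ContinuousAt.comp (f := fun t : ℝ => -(t : ℂ))
      (hJ.continuousOn.continuousAt (ho.mem_nhds (by simp))) c1.continuousAt
  have cb : ContinuousAt (fun t : ℝ => b.eval (-(t : ℂ))) c₀ :=
    (b.continuous.comp c1).continuousAt
  have e1 := (cJ.div cb hb0).norm.eventually_lt (g := fun _ => ‖J (-c₀) / b.eval (-(c₀ : ℂ))‖ + 1)
    continuousAt_const (by simp)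
  obtain ⟨δ, hδ, e2⟩ := Metric.eventually_nhds_iff.1 (e1.and (cb.eventually_ne hb0))
  obtain ⟨c, l1, l2, l3⟩ := h4 n d f w (c₀ - δ) (‖J (-c₀) / b.eval (-(c₀ : ℂ))‖ + 1) hn hd hae hj wc w0
    (by
      simp only [w, φ0, mul_one, MvPolynomial.eval_zero]
      exact pow_pos (norm_pos_iff.2 hh) 2)
    (by linarith) (fun c _ hc => wi (-c) (by linarith))
  obtain ⟨e3, e4⟩ := e2 (y := c) (by rw [Real.dist_eq, abs_lt]; constructor <;> linarith)
  have e5 := hid (-(c : ℂ)) (by simp only [Complex.neg_re, Complex.ofReal_re]; linarith)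
  have e6 : mel f (fun x => (w x : ℂ)) (-(c : ℂ)) = ((∫ x, pw f (-c) x * w x : ℝ) : ℂ) := by
    rw [← Complex.ofReal_neg, mel_real, ← integral_complex_ofReal]
    simp only [Complex.ofReal_mul]
  simp only [Pi.div_apply] at e3
  rw [← e5, mul_div_cancel_left₀ _ e4, e6, Complex.norm_real] at e3
  exact absurd (l3.trans_le (le_abs_self _)) (not_lt.2 e3.le)

end

end Pool.Agent.P.MP_b91a16_ag.LY
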