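import Pool.Agent.P.MP_b91a16_ag.LY.Stmt

/-! Le-Yomdin surfaces: integrating out the radial variable (Beta function). -/

open Polynomial

namespace Pool.Agent.P.MP_b91a16_ag.LY

noncomputable section

namespace PBeta

variable {k : Type} [Field k]

/-- A two-sided sequence with prescribed ratios. -/
theorem exists_seq (u : ℤ → k) (hu : ∀ n : ℕ, u (-(n + 1 : ℕ)) ≠ 0) :
    ∃ A : ℤ → k, A 0 = 1 ∧ ∀ i, A (i + 1) = u i * A i := by
  refine ⟨fun i => (∏ r ∈ Finset.range i.toNat, u r) *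
    ∏ r ∈ Finset.range (-i).toNat, (u (-(r + 1 : ℕ)))⁻¹, by simp, fun i => ?_⟩
  rcases le_or_gt 0 i with h | h
  · obtain ⟨n, rfl⟩ := Int.eq_ofNat_of_zero_le h
    have e1 : ((n : ℤ) + 1).toNat = n + 1 := by omega
    have e2 : (-((n : ℤ) + 1)).toNat = 0 := by omega
    have e3 : (-(n : ℤ)).toNat = 0 := by omega
    simp only [e1, e2, e3, Int.toNat_natCast, Finset.prod_range_succ, Finset.range_zero,
      Finset.prod_empty]
    ring
  · obtain ⟨n, rfl⟩ : ∃ n : ℕ, i = -(n + 1 : ℕ) := ⟨(-i - 1).toNat, by omega⟩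
    have e1 : (-((n + 1 : ℕ) : ℤ) + 1).toNat = 0 := by omega
    have e2 : (-(-((n + 1 : ℕ) : ℤ) + 1)).toNat = n := by omega
    have e3 : (-((n + 1 : ℕ) : ℤ)).toNat = 0 := by omega
    have e4 : (-(-((n + 1 : ℕ) : ℤ))).toNat = n + 1 := by omega
    simp only [e1, e2, e3, e4, Finset.prod_range_succ, Finset.range_zero, Finset.prod_empty]
    have := hu n
    field_simp

/-- The values of `ω^l p G^(-m)`. -/
structure Fam (φ : k[X]) (s ε : k) (d κ : ℕ) (β : ℤ → ℕ → k[X] →ₗ[k] k) : Prop where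
  r : ∀ l m p, β l m p = β l (m + 1) (p * φ) + ε * β (l + κ) (m + 1) p
  d1 : ∀ (l : ℤ) (m : ℕ) p,
    (l + 1 + d * s) * β l m p + (s - m) * κ * ε * β (l + κ) (m + 1) p = 0
  d2 : ∀ (l : ℤ) (m : ℕ) p, β l m (derivative p) + (s - m) * β l (m + 1) (p * derivative φ) = 0
  ne : β 2 0 1 ≠ 0

theorem exists_fam {φ : k[X]} {l₀ a s ε : k} {d κ : ℕ} (hρ : Rho φ l₀) (hκ : 0 < κ) (hε : ε ≠ 0)
    (h1 : κ * a = 3 + d * s) (h2 : a + s = -l₀) (ha : ∀ i : ℕ, a ≠ i + 1) (hs : ∀ i : ℕ, s ≠ i) :
    ∃ β, Fam φ s ε d κ β := by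
  classical
  obtain ⟨ρ, r1, r2, r0⟩ := hρ
  obtain ⟨A, A0, A1⟩ := exists_seq (fun i : ℤ => (a + i) / ε) fun n => by
    refine div_ne_zero (fun h => ha n ?_) hε
    push_cast at h
    linear_combination h
  have hκ' : (κ : ℤ) ≠ 0 := by omega
  let ι : ℤ → ℤ := fun l => (l - 2) / κ
  have ι1 : ∀ l, ι (l + κ) = ι l + 1 := fun l => by
    have := Int.add_mul_ediv_right (l - 2) 1 hκ'
    rw [one_mul] at this
    simp only [ι, ← this]
    congr 1
    ring
  let w : ℤ → k := fun l => if (κ : ℤ) ∣ l - 2 then A (ι l) else 0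
  have w1 : ∀ l, ε * w (l + κ) = (a + ι l) * w l := fun l => by
    have e : (κ : ℤ) ∣ l + κ - 2 ↔ (κ : ℤ) ∣ l - 2 := by
      rw [show l + κ - 2 = l - 2 + κ by ring]
      exact dvd_add_left (dvd_refl _)
    simp only [w, e, ι1, A1]
    split_ifs
    · field_simp
    · simp
  have w2 : ∀ l : ℤ, (l + 1 + d * s) * w l = κ * (a + ι l) * w l := fun l => by
    simp only [w]
    split_ifs with h
    · have e : (κ : ℤ) * ι l = l - 2 := Int.mul_ediv_cancel' h
      have e' : (κ : k) * (ι l : k) = l - 2 := by exact_mod_cast congrArg (Int.cast : ℤ → k) e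
      congr 1
      linear_combination -h1 - e'
    · simp
  let S : ℕ → k := fun m => ∏ r ∈ Finset.range m, ((r : k) - s)⁻¹
  have S1 : ∀ m : ℕ, (m - s) * S (m + 1) = S m := fun m => by
    have : (m : k) - s ≠ 0 := sub_ne_zero.2 (hs m).symm
    simp only [S, Finset.prod_range_succ]
    field_simp
  refine ⟨fun l m => (w l * S m) • ρ (ι l - m), fun l m p => ?_, fun l m p => ?_,
    fun l m p => ?_, ?_⟩
  · have e1 : ι l - (m + 1 : ℕ) + 1 = ι l - m := by push_cast; ring
    have e2 : ι l + 1 - (m + 1 : ℕ) = ι l - m := by push_cast; ring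
    simp only [LinearMap.smul_apply, smul_eq_mul, r1, ι1, e1, e2]
    rw [← S1 m]
    push_cast
    linear_combination (-(S (m + 1)) * ρ (ι l - m) p) * w1 l -
      (w l * S (m + 1) * ρ (ι l - m) p) * h2
  · have e2 : ι l + 1 - (m + 1 : ℕ) = ι l - m := by push_cast; ring
    simp only [LinearMap.smul_apply, smul_eq_mul, ι1, e2]
    rw [← S1 m]
    linear_combination ((s - m) * κ * S (m + 1) * ρ (ι l - m) p) * w1 l +
      ((m - s) * S (m + 1) * ρ (ι l - m) p) * w2 l
  · have e1 : ι l - m - 1 = ι l - (m + 1 : ℕ) := by push_cast; ring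
    simp only [LinearMap.smul_apply, smul_eq_mul, r2, e1]
    rw [← S1 m]
    ring
  · have e : ι 2 = 0 := by simp [ι]
    simpa [w, S, e, A0] using r0

/-- The value of `ω^(-J) P G^(-m)`. -/
def B (β : ℤ → ℕ → k[X] →ₗ[k] k) (J : ℤ) (m : ℕ) : P2 k →ₗ[k] k :=
  Polynomial.lsum fun l => β (l - J) m

variable {φ : k[X]} {s ε : k} {d κ : ℕ} {β : ℤ → ℕ → k[X] →ₗ[k] k}

theorem B_monomial (J : ℤ) (m l : ℕ) (p : k[X]) : B β J m (monomial l p) = β (l - J) m p := by
  rw [B, lsum_apply, sum_monomial_index]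
  exact map_zero _

theorem B_CC (J : ℤ) (m : ℕ) (c : k) (P : P2 k) : B β J m (C (C c) * P) = c * B β J m P := by
  rw [← smul_eq_mul c, ← map_smul, Algebra.smul_def c]
  rfl

theorem B_X (J : ℤ) (m n : ℕ) (P : P2 k) : B β (J + n) m (X ^ n * P) = B β J m P := by
  induction P using Polynomial.induction_on' with
  | add P Q h h' => rw [mul_add, map_add, map_add, h, h']
  | monomial l p =>
    rw [X_pow_mul_monomial, B_monomial, B_monomial]
    congr 2
    push_cast
    ring

theorem B_G (h : Fam φ s ε d κ β) (J : ℤ) (m : ℕ) (P : P2 k) :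
    B β J (m + 1) ((C φ + C (C ε) * X ^ κ) * P) = B β J m P := by
  induction P using Polynomial.induction_on' with
  | add P Q h h' => rw [mul_add, map_add, map_add, h, h']
  | monomial l p =>
    rw [add_mul, map_add, mul_assoc, B_CC, X_pow_mul_monomial, C_mul_monomial, B_monomial,
      B_monomial, B_monomial, h.r (l - J) m p, mul_comm φ]
    congr 4
    push_cast
    ring

theorem B_V (h : Fam φ s ε d κ β) (J : ℤ) (m : ℕ) (P : P2 k) :
    B β (J + d) (m + 1) (X ^ d * (C φ + C (C ε) * X ^ κ) * P) = B β J m P := by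
  rw [mul_assoc, B_X, B_G h]

theorem B_pow (h : Fam φ s ε d κ β) (n : ℕ) (P : P2 k) :
    B β (d * n) n ((X ^ d * (C φ + C (C ε) * X ^ κ)) ^ n * P) = B β 0 0 P := by
  induction n with
  | zero => simp
  | succ n ih =>
    rw [pow_succ', mul_assoc, Nat.cast_succ, mul_add_one, B_V h, ih]

theorem X_mul_der (l : ℕ) (p : k[X]) :
    X * derivative (monomial l p : P2 k) = C (C (l : k)) * monomial l p := by
  rcases l with _ | l
  · simp
  · rw [derivative_monomial_succ, X_mul_monomial, C_mul_monomial, mul_comm]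
    simp

theorem B_outer (h : Fam φ s ε d κ β) (j : ℕ) (P : P2 k) :
    B β (d * (j + 1 : ℕ)) (j + 1) (X ^ d * (C φ + C (C ε) * X ^ κ) * derivative P +
      C (C (s - j)) * P * derivative (X ^ d * (C φ + C (C ε) * X ^ κ))) = 0 := by
  have e1 : ∀ n : ℕ, X * derivative (X ^ n : P2 k) = C (C (n : k)) * X ^ n := fun n => by
    rw [← monomial_one_right_eq_X_pow, X_mul_der]
  have e : X ^ 1 * (X ^ d * (C φ + C (C ε) * X ^ κ) * derivative P +
      C (C (s - j)) * P * derivative (X ^ d * (C φ + C (C ε) * X ^ κ))) =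
      X ^ d * (C φ + C (C ε) * X ^ κ) * (X * derivative P + C (C ((s - j) * d)) * P) +
        X ^ d * (C (C ((s - j) * κ * ε)) * (X ^ κ * P)) := by
    simp only [derivative_mul, derivative_add, derivative_C, map_mul]
    linear_combination (C (C (s - j)) * P * (C φ + C (C ε) * X ^ κ)) * e1 d +
      (C (C (s - j)) * P * X ^ d * C (C ε)) * e1 κ
  have e2 : (d : ℤ) * (j + 1 : ℕ) + (1 : ℕ) = d * j + 1 + d := by push_cast; ring
  rw [← B_X _ _ 1, e, e2, map_add, B_V h, B_X, map_add, B_CC, B_CC]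
  clear e
  induction P using Polynomial.induction_on' with
  | add P Q h h' =>
    simp only [mul_add, map_add]
    linear_combination h + h'
  | monomial l p =>
    rw [X_mul_der, B_CC, X_pow_mul_monomial, B_monomial, B_monomial]
    have e3 : ((l + κ : ℕ) : ℤ) - (d * j + 1) = l - (d * j + 1) + κ := by push_cast; ring
    have := h.d1 (l - (d * j + 1)) j p
    rw [e3]
    push_cast at this
    linear_combination this

theorem dI_mono (l : ℕ) (p : k[X]) : dI (monomial l p : P2 k) = monomial l (derivative p) := by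
  rw [← C_mul_X_pow_eq_monomial, ← C_mul_X_pow_eq_monomial, Derivation.leibniz,
    Derivation.leibniz_pow, dI_X, dI_C]
  simp only [smul_zero, zero_add, smul_eq_mul, mul_zero]
  exact mul_comm _ _

theorem B_inner (h : Fam φ s ε d κ β) (j : ℕ) (P : P2 k) :
    B β (d * (j + 1 : ℕ)) (j + 1) (X ^ d * (C φ + C (C ε) * X ^ κ) * dI P +
      C (C (s - j)) * P * dI (X ^ d * (C φ + C (C ε) * X ^ κ))) = 0 := by
  have e : dI (X ^ d * (C φ + C (C ε) * X ^ κ) : P2 k) = X ^ d * C (derivative φ) := by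
    simp [Derivation.leibniz, Derivation.leibniz_pow, dI_X, dI_C]
  have e' : C (C (s - j)) * P * (X ^ d * C (derivative φ)) =
      X ^ d * (C (C (s - j)) * (C (derivative φ) * P)) := by ring
  have e2 : (d : ℤ) * (j + 1 : ℕ) = d * j + d := by push_cast; ring
  rw [e, e', e2, map_add, B_V h, B_X, B_CC]
  clear e'
  induction P using Polynomial.induction_on' with
  | add P Q h h' =>
    simp only [mul_add, map_add]
    linear_combination h + h'
  | monomial l p =>
    rw [dI_mono, C_mul_monomial, B_monomial, B_monomial, mul_comm (derivative φ)]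
    exact h.d2 _ _ _

end PBeta

open PBeta in
theorem p_beta {k : Type} [Field k] : S_beta k := by
  intro φ l a s ε c d κ hρ hκ hε hc h1 h2 ha hs
  obtain ⟨β, h⟩ := exists_fam hρ hκ hε h1 h2 ha hs
  rintro ⟨j, P₁, P₂, e⟩
  have e' := congrArg (B β (d * (j + 1 : ℕ)) (j + 1)) e
  rw [map_add, B_outer h, B_inner h, B_pow h, B_CC, ← monomial_one_right_eq_X_pow,
    B_monomial] at e'
  refine mul_ne_zero hc h.ne ?_
  simpa using e'.symm

end

end Pool.Agent.P.MP_b91a16_ag.LY
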