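import Pool.Agent.P.MP_b91a16_ag.LY.Stmt

/-! Le-Yomdin surfaces: Bezout identities with the derivative, and changes of chart. -/

open Polynomial

namespace Pool.Agent.P.MP_b91a16_ag.LY

namespace PBez

variable {k : Type} [Field k]

theorem sub_C (e P : ℕ) (ζ R : k[X]) : sub e P ζ (C R : P2 k) = C (R.comp (X ^ e)) := by
  rw [sub, aevalAeval_C, aeval_C_eq]

theorem der_sub (e P : ℕ) (ζ : k[X]) (G : P2 k) :
    derivative (sub e P ζ G) = sub e P ζ (derivative G) * C (X ^ P) := by
  have := der_ev dO (C (X ^ e) : P2 k) (C ζ + C (X ^ P) * X) G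
  simp only [dO_apply, derivative_C, mul_zero, zero_add, derivative_add, derivative_mul,
    zero_mul, derivative_X, mul_one] at this
  exact this

theorem bez_sub (G : P2 k) (e P : ℕ) (ζ : k[X]) (he : 0 < e) (h : Bez G) :
    Bez (sub e P ζ G) := by
  obtain ⟨A, B, R, hR, hAB⟩ := h
  refine ⟨C (X ^ P) * sub e P ζ A, sub e P ζ B, X ^ P * R.comp (X ^ e),
    mul_ne_zero (pow_ne_zero _ X_ne_zero) ?_, ?_⟩
  · rw [← expand_eq_comp_X_pow]
    exact (expand_ne_zero he).2 hR
  · rw [der_sub, map_mul, ← sub_C e P ζ R, ← hAB, map_add, map_mul, map_mul]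
    ring

theorem sqf_map {R K : Type} [CommRing R] [IsDomain R] [NormalizedGCDMonoid R] [Field K]
    [Algebra R K] [IsFractionRing R K] {G : R[X]} (h : Squarefree G) :
    Squarefree (G.map (algebraMap R K)) := fun x hx => by
  have inj := map_injective (algebraMap R K) (IsFractionRing.injective R K)
  have h0 : x ≠ 0 := by
    rintro rfl
    rw [mul_zero, zero_dvd_iff] at hx
    exact h.ne_zero (inj (by rw [hx, Polynomial.map_zero]))
  refine isUnit_or_eq_zero_of_isUnit_integerNormalization_primPart (R := R) h0 (h _ ?_)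
  set x' := IsLocalization.integerNormalization (nonZeroDivisors R) x
  have hp := x'.isPrimitive_primPart
  obtain ⟨b, hb, e⟩ := IsLocalization.integerNormalization_spec (nonZeroDivisors R) x
  have hb' : algebraMap R K b ≠ 0 := IsFractionRing.to_map_ne_zero_of_mem_nonZeroDivisors hb
  have hd : x'.primPart.map (algebraMap R K) ∣ x := by
    have h1 : x'.primPart.map (algebraMap R K) ∣ b • x :=
      e ▸ Polynomial.map_dvd _ x'.primPart_dvd
    rw [Algebra.smul_def, Polynomial.algebraMap_apply] at h1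
    exact (isUnit_C.2 (IsUnit.mk0 _ hb')).dvd_mul_left.1 h1
  refine (hp.mul hp).dvd_of_fraction_map_dvd_fraction_map (K := K) ?_
  rw [Polynomial.map_mul]
  exact (mul_dvd_mul hd hd).trans hx

theorem bez_of_sqf [CharZero k] (G : P2 k) (h : Squarefree G) : Bez G := by
  let K := FractionRing k[X]
  let φ := algebraMap k[X] K
  have inj : Function.Injective φ := IsFractionRing.injective k[X] K
  have : CharZero K := charZero_of_injective_ringHom inj
  let : NormalizedGCDMonoid k[X] := Nonempty.some inferInstance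
  obtain ⟨a, b, e⟩ := (separable_def _).1
    (PerfectField.separable_iff_squarefree.2 (sqf_map (K := K) h))
  obtain ⟨r, hr, ea⟩ := IsLocalization.integerNormalization_spec (nonZeroDivisors k[X]) a
  obtain ⟨s, hs, eb⟩ := IsLocalization.integerNormalization_spec (nonZeroDivisors k[X]) b
  refine ⟨C s * IsLocalization.integerNormalization (nonZeroDivisors k[X]) a,
    C r * IsLocalization.integerNormalization (nonZeroDivisors k[X]) b, r * s,
    mul_ne_zero (nonZeroDivisors.ne_zero hr) (nonZeroDivisors.ne_zero hs),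
    map_injective φ inj ?_⟩
  rw [Algebra.smul_def, Polynomial.algebraMap_apply] at ea eb
  simp only [Polynomial.map_add, Polynomial.map_mul, map_C, φ, ea, eb, ← derivative_map, map_mul]
  linear_combination C (algebraMap k[X] K r) * C (algebraMap k[X] K s) * e

theorem sqf_equiv {A : Type} [CommRing A] [Algebra k A] (φ : A ≃ₐ[k] A) {G : A}
    (h : Squarefree G) : Squarefree (φ G) := fun x hx => by
  have := h (φ.symm x) (by simpa using _root_.map_dvd φ.symm hx)
  simpa using this.map φ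

theorem sub_neg (ζ : k[X]) (G : P2 k) : sub 1 0 ζ (sub 1 0 (-ζ) G) = G := by
  rw [sub_sub]
  simpa [sub] using ev_id G

theorem sqf_sub (G : P2 k) (ζ : k[X]) (h : Squarefree G) : Squarefree (sub 1 0 ζ G) :=
  sqf_equiv (AlgEquiv.ofAlgHom (sub 1 0 ζ) (sub 1 0 (-ζ)) (AlgHom.ext (sub_neg ζ))
    (AlgHom.ext fun G => by simpa using sub_neg (-ζ) G)) h

theorem jac_shear (Y Z : P2 k) (ζ : k[X]) : jac Y (aeval Y ζ + Z) = jac Y Z := by
  rw [jac, jac, ← dO_apply, ← dO_apply, ← dO_apply, map_add, map_add, Derivation.map_aeval,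
    Derivation.map_aeval, smul_eq_mul, smul_eq_mul]
  ring

end PBez

open PBez

theorem p_bez {k : Type} [Field k] [CharZero k] : S_bez k :=
  ⟨bez_sub, bez_of_sqf, fun G ζ h => ⟨sqf_sub G ζ h, sqf_equiv sw h⟩⟩

theorem p_nd {k : Type} [Field k] [CharZero k] : S_nd k := by
  refine ⟨?_, ?_, ?_, ?_⟩
  · rintro G e P ν ν' N' ζ he hζ ⟨e₁, P₁, ζ₁, he₁, hP₁, hζ₁, hν, hN, hA, hG⟩
    rw [sub_sub] at hA hG
    refine ⟨e₁ * e, e₁ * P + P₁, _, Nat.mul_pos he₁ he, by omega, ?_, by rw [hν]; ring, hN, hA, hG⟩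
    rw [coeff_zero_eq_eval_zero] at hζ hζ₁ ⊢
    simp [eval_comp, he₁.ne', hζ, hζ₁]
  · rintro g ν N ⟨e, P, ζ, he, hP, hζ, hν, hN, hA, hG⟩
    refine ⟨C (X ^ e), C ζ + C (X ^ P) * X, e, Nat.cast_ne_zero.2 he.ne',
      _root_.map_dvd C (dvd_pow_self X he.ne'), dvd_add (_root_.map_dvd C (X_dvd_iff.2 hζ))
        ((_root_.map_dvd C (dvd_pow_self X hP.ne')).mul_right _), ?_, by omega, hN, hA, hG⟩
    obtain ⟨e, rfl⟩ : ∃ e', e = e' + 1 := ⟨e - 1, by omega⟩
    rw [jac, dI_C, derivative_X_pow_succ, hν]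
    simp only [derivative_C, zero_mul, sub_zero, derivative_add, derivative_mul, derivative_X,
      mul_one, zero_add, ← map_mul]
    congr 1
    push_cast
    ring
  · rintro g ν N ⟨Y, Z, c, hc, hY, hZ, hj, hν, hN, hA, hG⟩
    rw [ev_sw] at hA hG
    refine ⟨Z, Y, -c, neg_ne_zero.2 hc, hZ, hY, ?_, hν, hN, hA, hG⟩
    rw [map_neg, neg_mul, map_neg, ← hj, jac, jac]
    ring
  · rintro g ν N ζ hζ ⟨Y, Z, c, hc, hY, hZ, hj, hν, hN, hA, hG⟩
    rw [ev_sub, pow_one, pow_zero, one_mul] at hA hG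
    refine ⟨Y, aeval Y ζ + Z, c, hc, hY, dvd_add (hY.trans ?_) hZ, by rw [jac_shear, hj], hν, hN,
      hA, hG⟩
    simpa using _root_.map_dvd (aeval Y) (X_dvd_iff.2 hζ)

end Pool.Agent.P.MP_b91a16_ag.LY
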