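import Pool.Agent.P.MP_b91a16_ag.LY.Stmt

/-! Le-Yomdin surfaces, package Centre: shear until the next face is not a pure power. -/

open Polynomial

namespace Pool.Agent.P.MP_b91a16_ag.LY

namespace PCentre

variable {k : Type} [Field k]

theorem sub_zero_id (G : P2 k) : sub 1 0 0 G = G := by
  simpa [sub] using ev_id G

theorem sub_C (ζ R : k[X]) : sub 1 0 ζ (C R : P2 k) = C R := by
  rw [sub, aevalAeval_C, aeval_C_eq, pow_one, comp_X]

theorem der_sub (ζ : k[X]) (G : P2 k) :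
    derivative (sub 1 0 ζ G) = sub 1 0 ζ (derivative G) := by
  rw [← dO_apply, sub, der_ev]
  simp [dO_apply]

theorem shear_shear (ζ ζ' : k[X]) (G : P2 k) :
    sub 1 0 ζ' (sub 1 0 ζ G) = sub 1 0 (ζ + ζ') G := by
  rw [sub_sub]
  simp

theorem low_term {G A B : P2 k} {R : k[X]} (hR : R ≠ 0) (h : A * G + B * derivative G = C R) :
    ∃ i j, j ≤ 1 ∧ i ≤ R.natDegree ∧ co G i j ≠ 0 := by
  by_contra h'
  push Not at h'
  have h0 : ∀ j ≤ 1, X ^ (R.natDegree + 1) ∣ G.coeff j := fun j hj =>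
    X_pow_dvd_iff.2 fun i hi => h' i j hj (by omega)
  have h1 := congrArg (fun P : P2 k => P.coeff 0) h
  simp only [coeff_add, mul_coeff_zero, coeff_derivative, coeff_C_zero] at h1
  have h2 : X ^ (R.natDegree + 1) ∣ R := by
    conv_rhs => rw [← h1]
    exact dvd_add ((h0 0 (by omega)).mul_left _) (((h0 (0 + 1) (by omega)).mul_right _).mul_left _)
  have := natDegree_le_of_dvd h2 hR
  rw [natDegree_X_pow] at this
  omega

theorem coeff_edge {q : ℕ} (hq : 0 < q) (p : ℕ) (G : P2 k) {i j n : ℕ} (h : q * i + p * j = n) :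
    (edge G q p n).coeff j = co G i j := by
  rw [edge, coeff_row, ← h, co_sub_zero hq]

theorem exists_of_edge {q : ℕ} (hq : 0 < q) {p n j : ℕ} {G : P2 k}
    (h : (edge G q p n).coeff j ≠ 0) : ∃ i, q * i + p * j = n ∧ co G i j ≠ 0 := by
  rw [edge, coeff_row] at h
  exact exists_of_co_sub hq h

/-- The next slope. -/
theorem next_slope {G : P2 k} {q₀ p₀ N m : ℕ} (h : Model G q₀ p₀ N m)
    (hex : ∃ i j, j < m ∧ co G i j ≠ 0) :
    ∃ q p, p₀ * q < p * q₀ ∧ Top G q p N m ∧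
      ∃ i j, j < m ∧ q * i + p * j = q * N + p * m ∧ co G i j ≠ 0 := by
  classical
  obtain ⟨hq₀, hN, hab, hst⟩ := h
  let T : Finset (ℕ × ℕ) :=
    (G.support.biUnion fun j => (G.coeff j).support.image fun i => (i, j)).filter fun x => x.2 < m
  have hT : ∀ i j, (i, j) ∈ T ↔ j < m ∧ co G i j ≠ 0 := by
    intro i j
    simp only [T, Finset.mem_filter, Finset.mem_biUnion, Finset.mem_image, mem_support_iff,
      Prod.mk.injEq, co]
    constructor
    · rintro ⟨⟨j', _, i', hi', rfl, rfl⟩, hj⟩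
      exact ⟨hj, hi'⟩
    · rintro ⟨hj, hi⟩
      refine ⟨⟨j, fun e => hi ?_, i, hi, rfl, rfl⟩, hj⟩
      rw [e, coeff_zero]
  have hne : T.Nonempty := by
    obtain ⟨i, j, h1⟩ := hex
    exact ⟨(i, j), (hT i j).2 h1⟩
  obtain ⟨⟨i₀, j₀⟩, h₀, hmin⟩ := T.exists_min_image
    (fun x => ((x.1 : ℚ) - N) / ((m : ℚ) - x.2)) hne
  obtain ⟨hj₀, hc₀⟩ := (hT _ _).1 h₀
  have hs₀ := hst _ _ hj₀ hc₀
  obtain ⟨v, rfl⟩ : ∃ v, m = j₀ + v := ⟨m - j₀, by omega⟩
  have hiN : N < i₀ := by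
    by_contra hle
    have h1 : q₀ * i₀ ≤ q₀ * N := Nat.mul_le_mul_left _ (not_lt.1 hle)
    have h2 : p₀ * j₀ ≤ p₀ * (j₀ + v) := Nat.mul_le_mul_left _ (by omega)
    omega
  obtain ⟨u, rfl⟩ : ∃ u, i₀ = N + u := ⟨i₀ - N, by omega⟩
  have hu : 0 < u := by omega
  have hv : 0 < v := by omega
  obtain ⟨p, q, hcop, hp, hq⟩ := Nat.exists_coprime u v
  have hg : 0 < Nat.gcd u v := Nat.gcd_pos_of_pos_left _ hu
  generalize Nat.gcd u v = g at hp hq hg
  subst hp hq
  have hp0 : 0 < p := Nat.pos_of_mul_pos_right hu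
  have hq0 : 0 < q := Nat.pos_of_mul_pos_right hv
  have hsl : p₀ * q < p * q₀ := by
    refine Nat.lt_of_mul_lt_mul_right (a := g) ?_
    nlinarith
  have hup : ∀ i w, co G i (j₀ + q * g + w) ≠ 0 → q₀ * (q * N) + (p * q₀ - p₀ * q) * w ≤
      q₀ * (q * i + p * w) := by
    intro i w hc
    have h1 := hab _ _ hc
    have h2 : q₀ * N ≤ q₀ * i + p₀ * w := by nlinarith
    have h3 := Nat.mul_le_mul_left q h2
    obtain ⟨d, hd⟩ : ∃ d, p * q₀ = p₀ * q + d := ⟨p * q₀ - p₀ * q, by omega⟩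
    rw [hd, Nat.add_sub_cancel_left]
    have h4 : q₀ * (p * w) = (p₀ * q + d) * w := by rw [← hd]; ring
    nlinarith
  refine ⟨q, p, hsl, ⟨hq0, hp0, hcop.symm, hN, fun i j hc => ?_, fun i j hj hc => ?_⟩,
    N + p * g, j₀, hj₀, by ring, hc₀⟩
  · rcases lt_or_ge j (j₀ + q * g) with hj | hj
    · have h1 := hmin (i, j) ((hT i j).2 ⟨hj, hc⟩)
      have hj' : (j : ℚ) < (j₀ + q * g : ℕ) := by exact_mod_cast hj
      have hv' : (0 : ℚ) < q := by exact_mod_cast hq0
      have hg' : (0 : ℚ) < g := by exact_mod_cast hg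
      have e : (((N + p * g : ℕ) : ℚ) - N) / (((j₀ + q * g : ℕ) : ℚ) - j₀) = p / q := by
        push_cast
        rw [add_sub_cancel_left, add_sub_cancel_left, mul_div_mul_right _ _ hg'.ne']
      simp only [e] at h1
      rw [div_le_div_iff₀ hv' (sub_pos.2 hj')] at h1
      have h2 : ((q * N + p * (j₀ + q * g) : ℕ) : ℚ) ≤ (q * i + p * j : ℕ) := by
        push_cast at h1 ⊢
        linarith
      exact_mod_cast h2
    · obtain ⟨w, rfl⟩ := Nat.exists_eq_add_of_le hj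
      have h1 := hup i w hc
      have h2 : q * N ≤ q * i + p * w :=
        Nat.le_of_mul_le_mul_left (le_trans (Nat.le_add_right _ _) h1) hq₀
      nlinarith
  · obtain ⟨w, rfl⟩ := Nat.exists_eq_add_of_le hj.le
    have h1 := hup i w hc
    have h3 : 0 < (p * q₀ - p₀ * q) * w := Nat.mul_pos (by omega) (by omega)
    have h2 : q * N < q * i + p * w :=
      Nat.lt_of_mul_lt_mul_left (a := q₀) (by omega)
    nlinarith

theorem natDegree_edge {G : P2 k} {q p N m : ℕ} (h : Top G q p N m) :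
    (edge G q p (q * N + p * m)).natDegree = m := by
  obtain ⟨hq, -, -, hN, -, hst⟩ := h
  refine le_antisymm (natDegree_le_iff_coeff_eq_zero.2 fun j hj => ?_)
    (le_natDegree_of_ne_zero (by rwa [coeff_edge hq p G rfl]))
  by_contra hc
  obtain ⟨i, hi, hc'⟩ := exists_of_edge hq hc
  exact (hst i j hj hc').ne' hi

theorem edge_shear (G : P2 k) (a : k) (p n : ℕ) :
    edge (sub 1 0 (C a * X ^ p) G) 1 p n = taylor a (edge G 1 p n) := by
  rw [edge, edge, ← row_sub_C, sub_sub, sub_sub]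
  simp only [one_mul, mul_zero, zero_add, add_zero, pow_one, comp_X]
  rw [mul_comm (C a)]

/-- If the face polynomial is a pure power, the slope is an integer and a shear removes the face. -/
theorem shear_step [CharZero k] (hA : S_shA k) {G : P2 k} {q p N m : ℕ} (h : Top G q p N m)
    (hf : ∃ i j, j < m ∧ q * i + p * j = q * N + p * m ∧ co G i j ≠ 0)
    (h2 : ¬Two (edge G q p (q * N + p * m))) :
    q = 1 ∧ ∃ a : k, Model (sub 1 0 (C a * X ^ p) G) 1 p N m := by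
  have hd := natDegree_edge h
  obtain ⟨hq, hp, hcop, hN, hab, -⟩ := h
  obtain ⟨i₀, j₀, hj₀, hi₀, hc₀⟩ := hf
  simp only [Two, not_forall, not_not, hd] at h2
  obtain ⟨c, a, he⟩ := h2
  have hc : c ≠ 0 := by
    rintro rfl
    rw [← coeff_edge hq p G rfl, he] at hN
    simp at hN
  have ha : a ≠ 0 := by
    rintro rfl
    rw [← coeff_edge hq p G hi₀, he] at hc₀
    simp [coeff_X_pow, hj₀.ne] at hc₀
  obtain ⟨m, rfl⟩ : ∃ m', m = m' + 1 := ⟨m - 1, by omega⟩
  have hm : (edge G q p (q * N + p * (m + 1))).coeff m ≠ 0 := by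
    rw [he, coeff_C_mul, sub_eq_add_neg, ← C_neg, coeff_X_add_C_pow]
    simp only [Nat.add_sub_cancel_left, pow_one, Nat.choose_succ_self_right]
    exact mul_ne_zero hc (mul_ne_zero (neg_ne_zero.2 ha) (Nat.cast_ne_zero.2 (by omega)))
  obtain ⟨i, hi, -⟩ := exists_of_edge hq hm
  have hdvd : q ∣ p := by
    have e : q * i = q * N + p := by nlinarith
    exact (Nat.dvd_add_right (Dvd.intro N rfl)).1 (e ▸ Dvd.intro i rfl)
  have hq1 : q = 1 := Nat.Coprime.eq_one_of_dvd hcop hdvd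
  subst hq1
  refine ⟨rfl, a, ?_⟩
  have hab' : Above (sub 1 0 (C a * X ^ p) G) 1 p (1 * N + p * (m + 1)) := by
    refine (hA G _ 1 p _ hab).1 fun e he => ?_
    rw [C_mul_X_pow_eq_monomial] at he
    rw [Finset.mem_singleton.1 (support_monomial_subset _ _ he), one_mul]
  have he' : edge (sub 1 0 (C a * X ^ p) G) 1 p (1 * N + p * (m + 1)) = C c * X ^ (m + 1) := by
    rw [edge_shear, he]
    simp [taylor_pow]
  refine ⟨hq, ?_, hab', fun i j hj hij => lt_of_le_of_ne (hab' i j hij) fun e => hij ?_⟩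
  · rw [← coeff_edge hq p _ rfl, he']
    simpa using hc
  · rw [← coeff_edge hq p _ e.symm, he']
    simp [coeff_X_pow, hj.ne]

theorem main [CharZero k] (hA : S_shA k) (R : k[X]) (hR : R ≠ 0) (N m : ℕ) (hm : 2 ≤ m) (n : ℕ) :
    ∀ (G : P2 k) (q₀ p₀ : ℕ), R.natDegree - p₀ / q₀ = n → Model G q₀ p₀ N m →
      (∃ A B : P2 k, A * G + B * derivative G = C R) →
      ∃ (ζ : k[X]) (q p : ℕ), (∀ e ∈ ζ.support, p₀ < q₀ * e) ∧ p₀ * q < p * q₀ ∧
        Top (sub 1 0 ζ G) q p N m ∧ Two (edge (sub 1 0 ζ G) q p (q * N + p * m)) := by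
  induction n using Nat.strong_induction_on with
  | _ n ih =>
    rintro G q₀ p₀ hn hG ⟨A, B, hAB⟩
    obtain ⟨i₁, j₁, hj₁, hi₁, hc₁⟩ := low_term hR hAB
    obtain ⟨q, p, hsl, htop, hf⟩ := next_slope hG ⟨i₁, j₁, by omega, hc₁⟩
    by_cases h2 : Two (edge G q p (q * N + p * m))
    · exact ⟨0, q, p, by simp, hsl, by rwa [sub_zero_id], by rwa [sub_zero_id]⟩
    obtain ⟨rfl, a, hmod⟩ := shear_step hA htop hf h2
    have hq₀ := hG.1
    have hlt : p₀ / q₀ < R.natDegree := by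
      rw [Nat.div_lt_iff_lt_mul hq₀]
      have h1 := hG.2.2.2 i₁ j₁ (by omega) hc₁
      have h3 : q₀ * i₁ ≤ q₀ * R.natDegree := Nat.mul_le_mul_left _ hi₁
      have h4 : p₀ * (j₁ + 1) ≤ p₀ * m := Nat.mul_le_mul_left _ (by omega)
      nlinarith
    have hlt' : p₀ / q₀ < p := by
      rw [Nat.div_lt_iff_lt_mul hq₀]
      omega
    obtain ⟨ζ, q', p', hζ, hsl', htop', h2'⟩ := ih (R.natDegree - p / 1) (by rw [Nat.div_one]; omega)
      (sub 1 0 (C a * X ^ p) G) 1 p rfl hmod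
      ⟨sub 1 0 (C a * X ^ p) A, sub 1 0 (C a * X ^ p) B, by
        rw [der_sub, ← map_mul, ← map_mul, ← map_add, hAB, sub_C]⟩
    rw [shear_shear] at htop' h2'
    refine ⟨_, q', p', fun e he => ?_, ?_, htop', h2'⟩
    · have hpe : p ≤ e := by
        rcases Finset.mem_union.1 (support_add he) with h | h
        · rw [C_mul_X_pow_eq_monomial] at h
          exact (Finset.mem_singleton.1 (support_monomial_subset _ _ h)).ge
        · have := hζ e h
          omega
      have := Nat.mul_le_mul_left q₀ hpe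
      nlinarith
    · have h1 : p₀ * q' ≤ p * q₀ * q' := Nat.mul_le_mul_right _ (by omega)
      have h3 : p * q' * q₀ < p' * q₀ := Nat.mul_lt_mul_of_pos_right (by omega) hq₀
      nlinarith

end PCentre

theorem p_centre {k : Type} [Field k] [CharZero k] (hA : S_shA k) (_hM : S_shM k) :
    S_centre k := by
  rintro G q₀ p₀ N m hG hm ⟨A, B, R, hR, hAB⟩
  exact PCentre.main hA R hR N m hm _ G q₀ p₀ rfl hG ⟨A, B, hAB⟩

end Pool.Agent.P.MP_b91a16_ag.LY
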