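import Pool.Agent.P.MP_b91a16_ag.LY.Stmt

/-! Le-Yomdin surfaces: the chart of a divisor. -/

open Polynomial

namespace Pool.Agent.P.MP_b91a16_ag.LY

noncomputable section

variable {k : Type} [Field k]

namespace PChart

theorem det_lv {S : Type} [CommRing S] [Algebra k S] (D : Fin 3 → Derivation k S S)
    (L : Matrix (Fin 3) (Fin 3) k) (w y z : S) (h1 : D 1 y = 0) (h2 : D 1 z = 0)
    (h3 : D 2 w = 0) : (Matrix.of fun i j => D i (w * lv L y z j)).det =
      -(algebraMap k S L.det * D 1 w * w ^ 2 * (D 0 y * D 2 z - D 2 y * D 0 z)) := by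
  simp only [Matrix.det_fin_three, Matrix.of_apply, lv, Derivation.leibniz, map_add, map_sub,
    map_mul, Derivation.map_algebraMap, smul_eq_mul, h1, h2, h3]
  ring

theorem cw_C {A : Type} [CommRing A] [Algebra k A] (D : Derivation k A A) (a : A) :
    cw D (PowerSeries.C a) = PowerSeries.C (D a) := by
  ext n
  rw [coeff_cw, PowerSeries.coeff_C, PowerSeries.coeff_C]
  split_ifs <;> simp

theorem cw_tt {A : Type} [CommRing A] [Algebra k A] (D : Derivation k A A) (n : ℕ) :
    cw D (tt ^ n) = 0 := by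
  ext m
  rw [coeff_cw, PowerSeries.coeff_X_pow]
  split_ifs <;> simp

theorem eul_C {A : Type} [CommRing A] [Algebra k A] (a : A) :
    eul k A (PowerSeries.C a) = 0 := by
  ext n
  rw [coeff_eul, PowerSeries.coeff_C]
  split_ifs with h <;> simp [h]

theorem eul_tt {A : Type} [CommRing A] [Algebra k A] (n : ℕ) :
    eul k A (tt ^ n) = (n : PowerSeries A) * tt ^ n := by
  ext m
  rw [coeff_eul, ← nsmul_eq_mul (n : ℕ), map_nsmul, PowerSeries.coeff_X_pow]
  split_ifs with h <;> simp [h]

theorem ev_zero (H : P2 k) : aevalAeval (0 : P2 k) (C X) H = C (H.map (evalRingHom 0)) := by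
  induction H using P2_induction with
  | h0 i j c =>
    rw [ev_monomial, Polynomial.map_monomial, ← C_mul_X_pow_eq_monomial]
    rcases i with _ | i <;> simp [eval_monomial]
  | ha G G' h h' => rw [map_add, h, h', Polynomial.map_add, map_add]

/-- the substitution of a power of the parameter for the inner variable -/
abbrev hat (κ : ℕ) : P2 k →ₐ[k] PowerSeries (P2 k) :=
  aevalAeval (tt ^ κ) (PowerSeries.C (C X))

theorem eul_hat (κ : ℕ) (G : P2 k) :
    eul k _ (hat κ G) = hat κ (dI G) * ((κ : PowerSeries (P2 k)) * tt ^ κ) := by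
  rw [der_ev, eul_C, eul_tt, mul_zero, add_zero]

theorem dO_hat (κ : ℕ) (G : P2 k) : cw dO (hat κ G) = 0 := by
  rw [der_ev, cw_C, cw_tt, dO_apply]
  simp

theorem dI_hat (κ : ℕ) (G : P2 k) : cw dI (hat κ G) = hat κ (derivative G) := by
  rw [der_ev, cw_C, cw_tt, dI_C]
  simp

end PChart

open PChart in
theorem p_chart [CharZero k] : S_chart k := by
  intro f F R d κ ν N L Y Z c hS hκ hN hL hc ⟨Y', hY⟩ ⟨Z', hZ⟩ hJ hA
  obtain ⟨H, hH⟩ := above_iff_dvd.1 hA
  have h0 : ∀ G : P2 k, cc (hat κ (C X * G)) = 0 := fun G => by simp [hκ.ne']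
  let w : PowerSeries (P2 k) := tt ^ N * PowerSeries.C X
  let β := lv L (hat κ Y) (hat κ Z)
  have hβ : ∀ i, cc (β i) = C (C (L i 0)) := fun i => by
    rw [show β i = _ + _ * hat κ Y + _ * hat κ Z from rfl, map_add, map_add, map_mul, map_mul, hY,
      hZ, h0, h0]
    simp [PowerSeries.algebraMap_apply]
  refine ⟨fun j => w * β j, PowerSeries.C X ^ d * (hat κ H + PowerSeries.C X ^ κ *
    R.eval₂ (MvPolynomial.aeval β : P3 k →ₐ[k] _).toRingHom w),
    PowerSeries.C (C (C (-(L.det * κ * c))) * X ^ 2), -(L.det * κ * c),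
    by simp [hL, hc, hκ.ne'], fun j => ((dvd_pow_self _ hN.ne').mul_right _).mul_right _, ?_, ?_,
    ?_, by simp only [PowerSeries.constantCoeff_C]⟩
  · rw [hS, ← ev_dh, ← map_ev, hH, map_mul, aevalAeval_C, aeval_X_pow]
    simp only [w]
    ring
  · have e : cc (MvPolynomial.aeval β (R.coeff 0)) =
        C (C (MvPolynomial.eval (fun i => L i 0) (R.coeff 0))) := by
      generalize R.coeff 0 = g
      induction g using MvPolynomial.induction_on with
      | C a => simp [PowerSeries.algebraMap_apply]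
      | add p q hp hq => simp only [map_add, hp, hq]
      | mul_X p i hp =>
        simp only [map_mul, hp, MvPolynomial.aeval_X, MvPolynomial.eval_X, hβ]
    rw [hH, row_C_mul, map_mul, map_add, map_mul, hom_eval₂, cc_ev,
      show cc w = 0 by simp [w, hN.ne'], eval₂_at_zero]
    simp only [map_pow, PowerSeries.constantCoeff_C, PowerSeries.constantCoeff_X, zero_pow hκ.ne',
      ev_zero, RingHom.comp_apply, AlgHom.toRingHom_eq_coe, RingHom.coe_coe, e, mul_comm]
  · have e := congrArg (hat κ) hJ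
    simp only [jac, map_mul, map_sub, aevalAeval_C, aeval_X, aeval_C, map_pow] at e
    rw [jac3, det_lv (D3 k) L w _ _ (dO_hat κ Y) (dO_hat κ Z)
      (show cw dI w = 0 by rw [Derivation.leibniz, cw_C, cw_tt, dI_X]; simp)]
    have e1 : D3 k 1 w = tt ^ N := show cw dO w = _ by
      rw [Derivation.leibniz, cw_C, cw_tt, dO_apply]; simp
    rw [e1, show D3 k 0 = eul k _ from rfl, show D3 k 2 = cw dI from rfl]
    simp only [eul_hat, dI_hat, w, map_mul, map_neg, map_pow, map_natCast,
      PowerSeries.algebraMap_apply, Polynomial.algebraMap_apply, Algebra.algebraMap_self,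
      RingHom.id_apply] at e ⊢
    linear_combination (-(PowerSeries.C (C (C L.det)) * tt ^ (3 * N) * PowerSeries.C X ^ 2 * κ)) * e

end

end Pool.Agent.P.MP_b91a16_ag.LY
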