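import Pool.Agent.P.MP_b91a16_ag.LY.Stmt

/-! Le-Yomdin surfaces: the ramified chart. -/

set_option linter.unusedSectionVars false

open Polynomial

namespace Pool.Agent.P.MP_b91a16_ag.LY

noncomputable section

variable {k : Type} [Field k]

namespace PChild

theorem ini_add (G G' : P2 k) (b r n : ℕ) : ini (G + G') b r n = ini G b r n + ini G' b r n :=
  co_ext fun i j => by
    simp only [co_add, co_ini]
    split_ifs <;> simp

theorem ini_monomial (i j b r n : ℕ) (c : k) : ini (monomial j (monomial i c) : P2 k) b r n =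
    if b * i + r * j = n then monomial j (monomial i c) else 0 :=
  co_ext fun i' j' => by
    rw [co_ini, co_monomial]
    by_cases h : i = i' ∧ j = j'
    · obtain ⟨rfl, rfl⟩ := h
      split_ifs <;> simp_all [co]
    · rw [if_neg h, ite_self]
      split_ifs
      · rw [co_monomial, if_neg h]
      · simp [co]

theorem ini_mul (G : P2 k) (q p n : ℕ) {b : ℕ} (hb : 0 < b) :
    ini G (q * b) (p * b) (n * b) = ini G q p n :=
  co_ext fun i j => by
    rw [co_ini, co_ini]
    refine if_congr ?_ rfl rfl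
    rw [show q * b * i + p * b * j = (q * i + p * j) * b by ring, mul_left_inj' hb.ne']

theorem ev_ini {S : Type} [CommRing S] [Algebra k S] (u w : S) (G : P2 k) (q p n : ℕ) :
    aevalAeval (u ^ q) (u ^ p * w) (ini G q p n) = u ^ n * aeval w (edge G q p n) := by
  induction G using P2_induction with
  | h0 i j c =>
    rw [ini_monomial, edge, sub_monomial, row_monomial]
    split_ifs with h
    · rw [ev_monomial, aeval_monomial, ← h]
      ring
    · simp
  | ha G G' h h' =>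
    rw [ini_add, map_add, h, h', edge, edge, edge, map_add, row_add, map_add, mul_add]

/-- A zero of the face polynomial lies over a root of the edge polynomial. -/
theorem root_of [IsAlgClosed k] {G : P2 k} {q p n : ℕ} (hq : 0 < q) (hφ : edge G q p n ≠ 0)
    {K : Type} [Field K] [Algebra k K] {η ξ : K} (hη : η ≠ 0) (hξ : ξ ≠ 0)
    (h : aevalAeval η ξ (ini G q p n) = 0) :
    ∃ c : k, c ≠ 0 ∧ (edge G q p n).IsRoot c ∧ ξ ^ q = algebraMap k K (c ^ q) * η ^ p := by
  let L := AlgebraicClosure K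
  let ι : K →ₐ[k] L := IsScalarTower.toAlgHom k K L
  have hι : Function.Injective ι := ι.toRingHom.injective
  obtain ⟨u, hu⟩ := IsAlgClosed.exists_pow_nat_eq (ι η) hq
  have hu0 : u ≠ 0 := by
    rintro rfl
    rw [zero_pow hq.ne'] at hu
    exact hη (hι (by rw [← hu, map_zero]))
  obtain ⟨w, hw⟩ : ∃ w, u ^ p * w = ι ξ :=
    ⟨(u ^ p)⁻¹ * ι ξ, mul_inv_cancel_left₀ (pow_ne_zero _ hu0) _⟩
  have h1 := congrArg ι h
  rw [map_ev, ← hu, ← hw, ev_ini, map_zero, mul_eq_zero] at h1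
  replace h1 := h1.resolve_left (pow_ne_zero _ hu0)
  obtain ⟨c, hc⟩ := (IsAlgClosed.splits (edge G q p n)).mem_range_of_isRoot hφ
    (i := algebraMap k L) (x := w) (by rwa [IsRoot, eval_map_algebraMap])
  refine ⟨c, ?_, ?_, hι ?_⟩
  · rintro rfl
    rw [← hc, map_zero, mul_zero] at hw
    exact hξ (hι (by rw [← hw, map_zero]))
  · rw [← hc, aeval_algebraMap_apply, map_eq_zero] at h1
    simpa using h1
  · rw [map_mul, AlgHom.commutes, map_pow, map_pow, map_pow, ← hu, ← hw, ← hc]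
    ring

/-- The arcs over one root. -/
def QC (G E : P2 k) (q p b n : ℕ) (c : k) : SP k (Fin 3) := fun K _ _ γ =>
  cc (γ 0) ≠ 0 ∧ cc (γ 1) ≠ 0 ∧ cc (γ 2) ^ q - algebraMap k K (c ^ q) * cc (γ 1) ^ p = 0 ∧
    Hit G E n (γ 0) (tt ^ (q * b) * γ 1) (tt ^ (p * b) * γ 2)

theorem cyl_QC (G E : P2 k) (q p b n : ℕ) (c : k) : Cyl (QC G E q p b n c) :=
  ((((cyl_true.and_ne (pf_cc 0)).and_ne (pf_cc 1)).and_zero
    (((pf_cc 2).pow q).sub ((pf_const (c ^ q)).mul ((pf_cc 1).pow p)))).and_hit (ps_var 0)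
    ((ps_X.pow (q * b)).mul (ps_var 1)) ((ps_X.pow (p * b)).mul (ps_var 2)) G E n).congr
    fun _ _ _ _ => by
      simp only [QC, true_and, and_assoc]

def Psi (q p : ℕ) (c : k) : Fin 3 → SS k (Fin 3) :=
  ![fun _ _ _ γ => γ 0, fun _ _ _ γ => γ 1 ^ q,
    fun K _ _ γ => γ 1 ^ p * (algebraMap k (PowerSeries K) c + γ 2)]

theorem cc_alg {K : Type} [Field K] [Algebra k K] (c : k) :
    cc (algebraMap k (PowerSeries K) c) = algebraMap k K c := by
  simp [PowerSeries.algebraMap_apply]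

theorem cc_eq {K : Type} [Field K] {F G : PowerSeries K} {M : ℕ} (hM : 0 < M)
    (h : tt ^ M ∣ F - G) : cc F = cc G := by
  simpa using coeff_eq_of_dvd h hM

theorem dvd_of_pow [CharZero k] {K : Type} [Field K] [Algebra k K] {F G : PowerSeries K}
    {q M : ℕ} (hq : 0 < q) (h0 : cc G ≠ 0) (e : cc F = cc G) (h : tt ^ M ∣ F ^ q - G ^ q) :
    tt ^ M ∣ F - G := by
  have : CharZero K := charZero_of_injective_algebraMap (algebraMap k K).injective
  rw [← (Commute.all F G).geom_sum₂_mul] at h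
  refine (IsUnit.dvd_mul_left ?_).1 h
  rw [PowerSeries.isUnit_iff_constantCoeff, isUnit_iff_ne_zero, map_sum]
  have : ∀ i ∈ Finset.range q, cc (F ^ i * G ^ (q - 1 - i)) = cc G ^ (q - 1) := fun i hi => by
    rw [map_mul, map_pow, map_pow, e, ← pow_add]
    congr 1
    have := Finset.mem_range.1 hi
    omega
  rw [Finset.sum_congr rfl this, Finset.sum_const, Finset.card_range, nsmul_eq_mul]
  exact mul_ne_zero (Nat.cast_ne_zero.2 hq.ne') (pow_ne_zero _ h0)

theorem hv_QC [CharZero k] (G E : P2 k) {q p : ℕ} (hq : 0 < q) (hc : q.Coprime p) (b n : ℕ)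
    {c : k} (h0 : c ≠ 0) :
    HV (QC G E q p b n c) (mu (PU (sub q p (C c * X ^ p) G) E b 1 n)) := by
  refine HV.push (Psi q p c) (fun j => ?_) (fun _ _ _ γ => cc (γ 1) ≠ 0 ∧ tt ∣ γ 2) ?_
    (cyl_QC G E q p b n c).lev ?_ ?_ ((cyl_PU _ E b 1 n).hv.congr fun K _ _ γ => ?_)
  · fin_cases j
    · exact ps_var 0
    · exact (ps_var 1).pow q
    · exact ((ps_var 1).pow p).mul ((ps_const c).add (ps_var 2))
  · intro K _ _ γ γ' e h
    refine ⟨by rw [cc_eq one_pos (e 1)]; exact h.1, ?_⟩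
    have := dvd_add (by simpa using e 2) h.2
    rwa [sub_add_cancel] at this
  · intro K _ _ γ γ' M hM h h' e
    have e0 : tt ^ M ∣ γ' 0 - γ 0 := e 0
    have e1 : tt ^ M ∣ γ' 1 ^ q - γ 1 ^ q := e 1
    have e2 : tt ^ M ∣ γ' 1 ^ p * (algebraMap k _ c + γ' 2) -
      γ 1 ^ p * (algebraMap k _ c + γ 2) := e 2
    have c1 := cc_eq hM e1
    have c2 := cc_eq hM e2
    have hc0 : algebraMap k K c ≠ 0 := by simpa using h0
    simp only [map_mul, map_pow, map_add, cc_alg, PowerSeries.X_dvd_iff.1 h.2,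
      PowerSeries.X_dvd_iff.1 h'.2, add_zero, mul_left_inj' hc0] at c1 c2
    have hu : cc (γ' 1) = cc (γ 1) := by
      rw [← div_eq_one_iff_eq h.1, ← pow_eq_one_iff_of_coprime hc, div_pow, div_pow, c1, c2]
      exact ⟨div_self (pow_ne_zero _ h.1), div_self (pow_ne_zero _ h.1)⟩
    have d1 := dvd_of_pow (k := k) hq h.1 hu e1
    have d2 : tt ^ M ∣ γ' 2 - γ 2 := by
      have hU : IsUnit (γ 1 ^ p) :=
        (PowerSeries.isUnit_iff_constantCoeff.2 (isUnit_iff_ne_zero.2 h.1)).pow p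
      refine hU.dvd_mul_left.1 ?_
      have := dvd_sub e2 ((d1.trans (sub_dvd_pow_sub_pow _ _ p)).mul_right
        (algebraMap k _ c + γ' 2))
      convert this using 1
      ring
    intro j
    fin_cases j
    exacts [e0, d1, d2]
  · rintro K _ _ β ⟨-, h1, h2, -⟩
    have hc0 : algebraMap k K c ≠ 0 := by simpa using h0
    obtain ⟨u, hu1, hu2⟩ := (pow_eq_pow_iff_of_coprime hc (a := cc (β 2) / algebraMap k K c)
      (b := cc (β 1))).1 (by
        rw [sub_eq_zero, map_pow] at h2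
        rw [div_pow, h2]
        field_simp)
    have hu0 : u ≠ 0 := by
      rintro rfl
      exact h1 (by rw [hu2, zero_pow hq.ne'])
    obtain ⟨η, hη, hη0⟩ := exists_root (k := k) hq (β 1) (isUnit_iff_ne_zero.2 hu0) hu2.symm
    obtain ⟨v, hv⟩ : ∃ v, η ^ p * v = 1 :=
      ((PowerSeries.isUnit_iff_constantCoeff.2 (isUnit_iff_ne_zero.2 (hη0 ▸ hu0))).pow p).exists_right_inv
    refine ⟨![β 0, η, v * β 2 - algebraMap k _ c], ⟨by simpa [hη0] using hu0, ?_⟩, fun j => ?_⟩
    · have h3 := congrArg cc hv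
      rw [map_mul, map_pow, hη0, map_one, ← hu1] at h3
      change tt ∣ v * β 2 - algebraMap k _ c
      rw [PowerSeries.X_dvd_iff, map_sub, map_mul, cc_alg, sub_eq_zero]
      field_simp at h3
      rw [← h3, mul_comm]
    · fin_cases j
      · rfl
      · exact hη
      · change η ^ p * (algebraMap k _ c + (v * β 2 - algebraMap k _ c)) = β 2
        rw [add_sub_cancel, ← mul_assoc, hv, one_mul]
  · have e : aevalAeval (tt ^ b * γ 1) (γ 2) (sub q p (C c * X ^ p) G) =
        aevalAeval (tt ^ (q * b) * γ 1 ^ q)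
          (tt ^ (p * b) * (γ 1 ^ p * (algebraMap k _ c + γ 2))) G := by
      rw [ev_sub, map_mul, aeval_C, aeval_X_pow]
      congr 2 <;> ring
    change _ ↔ (cc (γ 1) ≠ 0 ∧ tt ∣ γ 2) ∧ cc (γ 0) ≠ 0 ∧ cc (γ 1 ^ q) ≠ 0 ∧
      cc (γ 1 ^ p * (algebraMap k _ c + γ 2)) ^ q - algebraMap k K (c ^ q) * cc (γ 1 ^ q) ^ p = 0 ∧
      Hit G E n (γ 0) (tt ^ (q * b) * γ 1 ^ q)
        (tt ^ (p * b) * (γ 1 ^ p * (algebraMap k _ c + γ 2)))
    simp only [PU, Hit, e, pow_one]
    refine ⟨fun h => ⟨⟨h.2.1, h.2.2.1⟩, h.1, ?_, ?_, h.2.2.2⟩,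
      fun h => ⟨h.2.1, h.1.1, h.1.2, h.2.2.2.2⟩⟩
    · rw [map_pow]
      exact pow_ne_zero _ h.2.1
    · simp only [map_mul, map_pow, map_add, cc_alg, PowerSeries.X_dvd_iff.1 h.2.2.1, add_zero]
      ring

end PChild

open PChild

theorem p_child [CharZero k] [IsAlgClosed k] : S_child k := by
  classical
  intro G q p N' hq hp hc hA hφ
  obtain ⟨T, hT1, hT2, hT3⟩ := Finset.exists_subset_injOn_image_eq_of_surjOn (f := fun c : k => c ^ q)
    {c | c ≠ 0 ∧ (edge G q p N').IsRoot c}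
    ((((edge G q p N').roots.toFinset.erase 0)).image fun c => c ^ q) (fun y hy => by
      obtain ⟨c, hc, rfl⟩ := Finset.mem_image.1 hy
      rw [Finset.mem_erase, Multiset.mem_toFinset, mem_roots hφ] at hc
      exact ⟨c, hc, rfl⟩)
  refine ⟨T, fun c hc => hT1 hc, fun E b n hb hn => ?_⟩
  split_ifs with hqb
  swap
  · have h1 : ¬ q ∣ p * b := fun h => hqb (hc.dvd_of_dvd_mul_left h)
    have : cdiv (p * b) q = p * b / q + 1 := by
      refine le_antisymm ((cdiv_le hq).2 (Nat.lt_mul_div_succ _ hq).le) ?_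
      rw [Nat.succ_le_iff, lt_cdiv hq]
      exact lt_of_le_of_ne (Nat.mul_div_le _ _) fun e => h1 ⟨_, e.symm⟩
    rw [this, add_zero]
  obtain ⟨b, rfl⟩ := hqb
  have hb' : 0 < b := Nat.pos_of_mul_pos_left hb
  have hn' : N' * b < n := by
    rw [mul_left_comm] at hn
    exact lt_of_mul_lt_mul_left hn q.zero_le
  have e1 : p * (q * b) / q = p * b := by rw [mul_left_comm, Nat.mul_div_cancel_left _ hq]
  have e2 : cdiv (p * (q * b)) q = p * b := by
    have := cdiv_add 0 (p * b) hq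
    rw [zero_add, mul_left_comm] at this
    rw [this, Nat.le_zero.1 ((cdiv_le hq).2 (Nat.zero_le _)), zero_add]
  rw [e1, e2, Nat.mul_div_cancel_left _ hq,
    mu_split (cyl_PU G E (q * b) (p * b) n) (pf_coeff 2 (p * b))]
  congr 1
  · refine mu_congr fun K _ _ γ => ?_
    simp only [PU, dvd_succ_iff]
    tauto
  have hs := (hv_sum T (QC G E q p b n) _ (fun c h => hv_QC G E hq hc b n (hT1 h).1)
    (fun K _ _ γ c h c' h' a a' => hT2 h h' (by
      have h1 := (sub_eq_zero.1 a.2.2.1).symm.trans (sub_eq_zero.1 a'.2.2.1)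
      exact (algebraMap k K).injective
        (mul_right_cancel₀ (pow_ne_zero _ a.2.1) h1)))).shift ![0, 0, p * b]
  rw [Fin.sum_univ_three] at hs
  simp only [Matrix.cons_val_zero, Matrix.cons_val_one, Matrix.cons_val, zero_add] at hs
  refine (hs.congr fun K _ _ γ => ⟨?_, ?_⟩).mu_eq
  · rintro ⟨β, e, c, h, h0, h1, h2, h3⟩
    have a0 : γ 0 = β 0 := by simpa using e 0
    have a1 : γ 1 = β 1 := by simpa using e 1
    have a2 : γ 2 = tt ^ (p * b) * β 2 := by simpa using e 2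
    simp only [PU, a0, a1, a2]
    refine ⟨⟨h0, h1, dvd_mul_right _ _, h3⟩, fun h4 => ?_⟩
    have h5 : cc (β 2) = 0 := by
      simpa using (PowerSeries.coeff_X_pow_mul (β 2) (p * b) 0).symm.trans (by simpa using h4)
    rw [h5, zero_pow hq.ne', zero_sub, neg_eq_zero] at h2
    exact mul_ne_zero (by simpa [hq.ne'] using (hT1 h).1) (pow_ne_zero _ h1) h2
  · rintro ⟨⟨h0, h1, ⟨ξ, hξ⟩, h3⟩, h4⟩
    rw [hξ] at h3 h4
    have h5 : cc ξ ≠ 0 := fun h => h4 (by
      simpa [h] using PowerSeries.coeff_X_pow_mul ξ (p * b) 0)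
    have hA' : Above G (q * b) (p * b) (N' * b) := fun i j h => by
      have := Nat.mul_le_mul_right b (hA i j h)
      rwa [show (q * i + p * j) * b = q * b * i + p * b * j by ring] at this
    have h6 := (hA'.lead (γ 1) ξ).2
    rw [PowerSeries.X_pow_dvd_iff.1 h3.1 _ hn', ini_mul _ _ _ _ hb'] at h6
    obtain ⟨c₀, c0, c1, c2⟩ := root_of hq hφ h1 h5 h6.symm
    have : c₀ ^ q ∈ T.image fun c => c ^ q := by
      rw [hT3]
      exact Finset.mem_image_of_mem _ (by
        rw [Finset.mem_erase, Multiset.mem_toFinset, mem_roots hφ]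
        exact ⟨c0, c1⟩)
    obtain ⟨c, h, e⟩ := Finset.mem_image.1 this
    refine ⟨![γ 0, γ 1, ξ], fun j => ?_, c, h, h0, h1, ?_, h3⟩
    · fin_cases j
      · simp
      · simp
      · exact hξ
    · change cc ξ ^ q - algebraMap k K (c ^ q) * cc (γ 1) ^ p = 0
      rw [e, c2, sub_self]

end

end Pool.Agent.P.MP_b91a16_ag.LY
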