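import Pool.Agent.P.MP_b91a16_ag.LY.Stmt

/-! Le-Yomdin surfaces: generating series of a plane cone and of a ray. -/

namespace Pool.Agent.P.MP_b91a16_ag.LY

noncomputable section

namespace PCone

variable {k : Type} [Field k]

theorem fin_eq (f : ℕ → Mot k) (K : ℕ) (h : ∀ b, K ≤ b → f b = 0) :
    ∑ᶠ b, f b = ∑ b ∈ Finset.range K, f b :=
  finsum_eq_sum_of_support_subset f fun b hb => by
    rw [Finset.coe_range, Set.mem_Iio]
    exact not_le.1 fun hK => hb (h b hK)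

/-- Multiplying by one factor removes the points that come from a translation. -/
theorem step (R R' : ℕ → ℕ → Prop) [∀ b n, Decidable (R b n)] [∀ b n, Decidable (R' b n)]
    (e : ℕ → ℕ → Mot k) (q m A : ℕ) (c : Mot k) (hA : ∀ b n, R b n → b ≤ A * n)
    (hR : ∀ b n, R b n → R (b + q) (n + m) ∧ e (b + q) (n + m) = c * e b n)
    (h' : ∀ b n, R' b n ↔ R b n ∧ ¬∃ b' n', R b' n' ∧ b = b' + q ∧ n = n' + m) :
    (1 - PowerSeries.C c * PowerSeries.X ^ m) * GF (fun b n => if R b n then e b n else 0) =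
      GF fun b n => if R' b n then e b n else 0 := by
  ext n
  rw [sub_mul, one_mul, mul_assoc, map_sub, PowerSeries.coeff_C_mul, PowerSeries.coeff_X_pow_mul']
  simp only [GF, PowerSeries.coeff_mk]
  by_cases hn : m ≤ n
  · obtain ⟨n, rfl⟩ : ∃ n', n = n' + m := ⟨n - m, by omega⟩
    have h1 : ∀ b, A * (n + m) + 1 ≤ b → ¬R b n := fun b hb h => by
      have := hA b n h
      rw [mul_add] at hb
      omega
    have h2 : ∀ b, q + (A * (n + m) + 1) ≤ b → ¬R b (n + m) := fun b hb h => by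
      have := hA b _ h
      omega
    rw [if_pos hn, Nat.add_sub_cancel, fin_eq _ _ fun b hb => if_neg (h2 b hb),
      fin_eq _ _ fun b hb => if_neg (h1 b hb),
      fin_eq _ _ fun b hb => if_neg fun h => h2 b hb ((h' _ _).1 h).1, Finset.sum_range_add,
      Finset.sum_range_add _ q, add_sub_assoc, Finset.mul_sum, ← Finset.sum_sub_distrib]
    congr 1
    · refine Finset.sum_congr rfl fun b hb => if_congr ⟨fun h => (h' _ _).2 ⟨h, ?_⟩,
        fun h => ((h' _ _).1 h).1⟩ rfl rfl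
      rintro ⟨b', n', -, h3, -⟩
      have := Finset.mem_range.1 hb
      omega
    · refine Finset.sum_congr rfl fun b _ => ?_
      rw [add_comm q b]
      by_cases h : R b n
      · rw [if_pos h, if_pos (hR b n h).1, (hR b n h).2, sub_self, if_neg]
        exact fun h3 => ((h' _ _).1 h3).2 ⟨b, n, h, rfl, rfl⟩
      · rw [if_neg h, mul_zero, sub_zero]
        refine if_congr ⟨fun h3 => (h' _ _).2 ⟨h3, ?_⟩, fun h3 => ((h' _ _).1 h3).1⟩ rfl rfl
        rintro ⟨b', n', h4, h5, h6⟩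
        obtain rfl : b = b' := by omega
        obtain rfl : n = n' := by omega
        exact h h4
  · rw [if_neg hn, mul_zero, sub_zero]
    refine finsum_congr fun b => if_congr ⟨fun h => (h' _ _).2 ⟨h, ?_⟩,
      fun h => ((h' _ _).1 h).1⟩ rfl rfl
    rintro ⟨b', n', -, -, h3⟩
    omega

theorem mem_of_bdd (S : Finset (ℕ × ℕ)) (R : ℕ → ℕ → Prop) [∀ b n, Decidable (R b n)]
    (e : ℕ → ℕ → Mot k) (M : ℕ) (h : ∀ b n, R b n → n ≤ M) :
    GF (fun b n => if R b n then e b n else 0) ∈ poleRing k S :=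
  mem_poleRing_of_eventually S (M + 1) fun n hn => by
    simp only [GF, PowerSeries.coeff_mk]
    refine finsum_eq_zero_of_forall_eq_zero fun b => if_neg fun hb => ?_
    have := h b n hb
    omega

/-- A point deep enough in the cone dominates the ray. -/
theorem dom {q₀ n₀ q₁ n₁ b n : ℕ} (hD : q₁ * n₀ < n₁ * q₀) (h1 : n₀ * b < q₀ * n)
    (h2 : q₁ * n + n₁ * q₀ < n₁ * b + q₁ * n₀) : q₀ ≤ b ∧ n₀ ≤ n := by
  zify at *
  have p1 : (0 : ℤ) ≤ q₀ := Int.natCast_nonneg _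
  have p2 : (0 : ℤ) ≤ n₀ := Int.natCast_nonneg _
  have p3 : (0 : ℤ) ≤ q₁ := Int.natCast_nonneg _
  have p4 : (0 : ℤ) ≤ n₁ := Int.natCast_nonneg _
  have a1 := sub_pos.2 h1
  have a2 := sub_pos.2 h2
  have d := sub_pos.2 hD
  constructor
  · refine le_of_mul_le_mul_left ?_ d
    nlinarith [mul_nonneg a1.le p3, mul_nonneg a2.le p1]
  · refine le_of_mul_le_mul_left ?_ d
    nlinarith [mul_nonneg a1.le p4, mul_nonneg a2.le p2]

theorem dom' {q₀ n₀ q₁ n₁ b n : ℕ} (hD : q₁ * n₀ < n₁ * q₀) (h1 : q₁ * n < n₁ * b)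
    (h2 : n₀ * b + n₁ * q₀ < q₀ * n + q₁ * n₀) : q₁ ≤ b ∧ n₁ ≤ n := by
  zify at *
  have p1 : (0 : ℤ) ≤ q₀ := Int.natCast_nonneg _
  have p2 : (0 : ℤ) ≤ n₀ := Int.natCast_nonneg _
  have p3 : (0 : ℤ) ≤ q₁ := Int.natCast_nonneg _
  have p4 : (0 : ℤ) ≤ n₁ := Int.natCast_nonneg _
  have a1 := sub_pos.2 h1
  have a2 := sub_pos.2 h2
  have d := sub_pos.2 hD
  constructor
  · refine le_of_mul_le_mul_left ?_ d
    nlinarith [mul_nonneg a1.le p1, mul_nonneg a2.le p3]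
  · refine le_of_mul_le_mul_left ?_ d
    nlinarith [mul_nonneg a1.le p2, mul_nonneg a2.le p4]

theorem bdd {q₀ n₀ q₁ n₁ b n : ℕ} (hD : q₁ * n₀ < n₁ * q₀)
    (h1 : n₁ * b + q₁ * n₀ ≤ q₁ * n + n₁ * q₀) (h2 : q₀ * n + q₁ * n₀ ≤ n₀ * b + n₁ * q₀) :
    n ≤ n₀ + n₁ := by
  zify at *
  have p2 : (0 : ℤ) ≤ n₀ := Int.natCast_nonneg _
  have p4 : (0 : ℤ) ≤ n₁ := Int.natCast_nonneg _
  have a1 := sub_nonneg.2 h1
  have a2 := sub_nonneg.2 h2
  have d := sub_pos.2 hD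
  refine le_of_mul_le_mul_left ?_ d
  nlinarith [mul_nonneg a1 p2, mul_nonneg a2 p4]

end PCone

open PCone

theorem p_cone {k : Type} [Field k] : S_cone k := by
  intro S q₀ n₀ ν₀ q₁ n₁ ν₁ e h0 h1 hn0 hn1 hD he
  have hA : ∀ b n, n₀ * b < q₀ * n → b ≤ q₀ * n := fun b n h =>
    (Nat.le_mul_of_pos_left b hn0).trans h.le
  refine mem_of_mul h0 hn0 ?_
  rw [step (fun b n => n₀ * b < q₀ * n ∧ q₁ * n < n₁ * b)
    (fun b n => (n₀ * b < q₀ * n ∧ q₁ * n < n₁ * b) ∧ n₁ * b + q₁ * n₀ ≤ q₁ * n + n₁ * q₀)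
    e q₀ n₀ q₀ _ (fun b n h => hA b n h.1)
    (fun b n h => ⟨by
      simp only [mul_add, mul_comm q₀ n₀]
      omega, (he b n h.1 h.2).1⟩) ?_]
  · refine mem_of_mul h1 hn1 ?_
    rw [step _ (fun b n => ((n₀ * b < q₀ * n ∧ q₁ * n < n₁ * b) ∧
        n₁ * b + q₁ * n₀ ≤ q₁ * n + n₁ * q₀) ∧ q₀ * n + q₁ * n₀ ≤ n₀ * b + n₁ * q₀)
      e q₁ n₁ q₀ _ (fun b n h => hA b n h.1.1)
      (fun b n h => ⟨by
        simp only [mul_add, mul_comm n₀ q₁, mul_comm q₀ n₁, mul_comm n₁ q₁]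
        omega, (he b n h.1.1 h.1.2).2⟩) ?_]
    · exact mem_of_bdd S _ e (n₀ + n₁) fun b n h => bdd hD h.1.2 h.2
    · intro b n
      refine and_congr_right fun h => ⟨?_, fun h3 => not_lt.1 fun h4 => h3 ?_⟩
      · rintro h3 ⟨b', n', h4, rfl, rfl⟩
        simp only [mul_add, mul_comm n₀ q₁, mul_comm q₀ n₁] at h3
        omega
      · obtain ⟨h5, h6⟩ := dom' hD h.1.2 h4
        obtain ⟨b', rfl⟩ : ∃ b', b = b' + q₁ := ⟨b - q₁, by omega⟩
        obtain ⟨n', rfl⟩ : ∃ n', n = n' + n₁ := ⟨n - n₁, by omega⟩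
        refine ⟨b', n', ?_, rfl, rfl⟩
        simp only [mul_add, mul_comm n₀ q₁, mul_comm q₀ n₁, mul_comm n₁ q₁] at h h4
        omega
  · intro b n
    refine and_congr_right fun h => ⟨?_, fun h3 => not_lt.1 fun h4 => h3 ?_⟩
    · rintro h3 ⟨b', n', h4, rfl, rfl⟩
      simp only [mul_add] at h3
      omega
    · obtain ⟨h5, h6⟩ := dom hD h.1 h4
      obtain ⟨b', rfl⟩ : ∃ b', b = b' + q₀ := ⟨b - q₀, by omega⟩
      obtain ⟨n', rfl⟩ : ∃ n', n = n' + n₀ := ⟨n - n₀, by omega⟩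
      refine ⟨b', n', ?_, rfl, rfl⟩
      simp only [mul_add, mul_comm q₀ n₀] at h h4
      omega

theorem p_ray {k : Type} [Field k] : S_ray k := by
  intro S q n₁ ν e h1 hn1 he
  refine mem_of_mul h1 hn1 ?_
  rw [step (fun b n => 0 < b ∧ q * n = n₁ * b) (fun b n => (0 < b ∧ q * n = n₁ * b) ∧ b ≤ q)
    e q n₁ q _ (fun b n h => (Nat.le_mul_of_pos_left b hn1).trans h.2.ge)
    (fun b n h => ⟨by
      simp only [mul_add, mul_comm q n₁]
      omega, he b n h.1 h.2⟩) ?_]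
  · refine mem_of_bdd S _ e n₁ fun b n h => ?_
    refine Nat.le_of_mul_le_mul_left ?_ (h.1.1.trans_le h.2)
    rw [h.1.2, mul_comm]
    exact Nat.mul_le_mul_right _ h.2
  · intro b n
    refine and_congr_right fun h => ⟨?_, fun h3 => not_lt.1 fun h4 => h3 ?_⟩
    · rintro h3 ⟨b', n', h4, rfl, rfl⟩
      omega
    · have hq : 0 < q := Nat.pos_of_ne_zero fun h0 => by
        have := Nat.mul_pos hn1 h.1
        rw [← h.2, h0, zero_mul] at this
        exact lt_irrefl _ this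
      have h6 : n₁ ≤ n := by
        refine Nat.le_of_mul_le_mul_left ?_ hq
        rw [h.2, mul_comm]
        exact Nat.mul_le_mul_left _ h4.le
      obtain ⟨b', rfl⟩ : ∃ b', b = b' + q := ⟨b - q, by omega⟩
      obtain ⟨n', rfl⟩ : ∃ n', n = n' + n₁ := ⟨n - n₁, by omega⟩
      refine ⟨b', n', ?_, rfl, rfl⟩
      simp only [mul_add, mul_comm q n₁] at h
      omega

end

end Pool.Agent.P.MP_b91a16_ag.LY
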