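import Pool.Agent.P.MP_b91a16_ag.LY.Stmt

/-! Divergence of the archimedean zeta integral at `-n/d`. -/

open MeasureTheory Set

namespace Pool.Agent.P.MP_b91a16_ag.LY

noncomputable section

namespace PDiv

theorem bound {n d : ℕ} (f : MvPolynomial (Fin n) ℂ)
    (hf : ∀ j < d, MvPolynomial.homogeneousComponent j f = 0) :
    ∃ B : ℝ, 1 ≤ B ∧ ∀ x : Fin n → ℂ, ‖x‖ ≤ 1 → ‖MvPolynomial.eval x f‖ ≤ B * ‖x‖ ^ d := by
  refine ⟨1 + ∑ m ∈ f.support, ‖f.coeff m‖, le_add_of_nonneg_right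
    (Finset.sum_nonneg fun _ _ => norm_nonneg _), fun x hx => ?_⟩
  have h1 : ‖MvPolynomial.eval x f‖ ≤ (∑ m ∈ f.support, ‖f.coeff m‖) * ‖x‖ ^ d := by
    rw [MvPolynomial.eval_eq', Finset.sum_mul]
    refine (norm_sum_le _ _).trans (Finset.sum_le_sum fun m hm => ?_)
    have hd : d ≤ m.degree := by
      by_contra h
      have h2 := congrArg (MvPolynomial.coeff m) (hf _ (not_le.1 h))
      rw [MvPolynomial.coeff_homogeneousComponent, if_pos rfl, MvPolynomial.coeff_zero] at h2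
      exact MvPolynomial.mem_support_iff.1 hm h2
    rw [norm_mul]
    refine mul_le_mul_of_nonneg_left ?_ (norm_nonneg _)
    calc ‖∏ i, x i ^ m i‖ = ∏ i, ‖x i‖ ^ m i := by simp [norm_prod, norm_pow]
      _ ≤ ∏ i, ‖x‖ ^ m i := Finset.prod_le_prod (fun _ _ => by positivity)
          fun i _ => pow_le_pow_left₀ (norm_nonneg _) (norm_le_pi_norm x i) _
      _ = ‖x‖ ^ m.degree := by rw [Finset.prod_pow_eq_pow_sum, Finsupp.degree_eq_sum]
      _ ≤ ‖x‖ ^ d := pow_le_pow_of_le_one (norm_nonneg _) hx hd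
  have h2 : 0 ≤ ‖x‖ ^ d := by positivity
  nlinarith

theorem radial {N : ℕ} (hN : 0 < N) {r e : ℝ} (hr : 0 < r) (he : 0 < e) :
    ∫ y in Ioi (0 : ℝ), y ^ (N - 1) • (Iio r).indicator (fun y : ℝ => y ^ (e - N)) y =
      r ^ e / e := by
  have h1 : ∫ y in Ioi (0 : ℝ), y ^ (N - 1) • (Iio r).indicator (fun y : ℝ => y ^ (e - N)) y =
      ∫ y in Ioi (0 : ℝ), (Iio r).indicator (fun y : ℝ => y ^ (e - 1)) y := by
    refine setIntegral_congr_fun measurableSet_Ioi fun y hy => ?_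
    have hy0 : 0 < y := hy
    by_cases h : y ∈ Iio r
    · simp only [indicator_of_mem h, smul_eq_mul]
      rw [← Real.rpow_natCast, ← Real.rpow_add hy0, Nat.cast_sub hN]
      congr 1
      push_cast
      ring
    · simp only [indicator_of_notMem h, smul_zero]
  rw [h1, integral_indicator measurableSet_Iio, Measure.restrict_restrict measurableSet_Iio,
    Iio_inter_Ioi, ← integral_Ioc_eq_integral_Ioo, ← intervalIntegral.integral_of_le hr.le,
    integral_rpow (Or.inl (by linarith)), sub_add_cancel, Real.zero_rpow he.ne', sub_zero]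

theorem ball_int {n : ℕ} (hn : 0 < n) : ∃ V : ℝ, 0 < V ∧ ∀ r e : ℝ, 0 < r → 0 < e →
    ∫ x : Fin n → ℂ, (Iio r).indicator (fun y : ℝ => y ^ (e - (2 * n : ℕ))) ‖x‖ =
      V * (r ^ e / e) := by
  have : Nonempty (Fin n) := ⟨⟨0, hn⟩⟩
  have hdim : Module.finrank ℝ (Fin n → ℂ) = 2 * n := by
    rw [Module.finrank_pi_fintype]
    simp [Complex.finrank_real_complex, mul_comm]
  refine ⟨(2 * n : ℕ) * (volume : Measure (Fin n → ℂ)).real (Metric.ball 0 1), ?_,
    fun r e hr he => ?_⟩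
  · refine mul_pos (by positivity) (ENNReal.toReal_pos ?_ ?_)
    · exact (Metric.measure_ball_pos _ _ one_pos).ne'
    · exact measure_ball_lt_top.ne
  · rw [integral_fun_norm_addHaar volume, hdim, radial (by omega) hr he]
    simp only [nsmul_eq_mul, smul_eq_mul, mul_assoc]

end PDiv

theorem p_div : S_div := by
  intro n d f w c₁ A hn hd hae hf hw hw0 hpos hc₁ hint
  obtain ⟨B, hB1, hB⟩ := PDiv.bound f hf
  obtain ⟨V, hV, hVi⟩ := PDiv.ball_int hn
  obtain ⟨r, hr0, hr1, hr⟩ : ∃ r : ℝ, 0 < r ∧ r ≤ 1 ∧ ∀ x : Fin n → ℂ, ‖x‖ < r → w 0 / 2 ≤ w x := by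
    obtain ⟨δ, hδ, h⟩ := Metric.continuous_iff.1 hw 0 (w 0 / 2) (half_pos hpos)
    refine ⟨min δ 1, lt_min hδ one_pos, min_le_right _ _, fun x hx => ?_⟩
    have := h x (by rw [dist_zero_right]; exact hx.trans_le (min_le_left _ _))
    rw [Real.dist_eq, abs_lt] at this
    linarith [this.1]
  have hd' : (0 : ℝ) < d := Nat.cast_pos.2 hd
  have hn' : (0 : ℝ) < n := Nat.cast_pos.2 hn
  have hB2 : 1 ≤ B ^ 2 := one_le_pow₀ hB1
  set κ : ℝ := (B ^ 2) ^ (-((n : ℝ) / d)) * (w 0 / 2) with hκ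
  have hκ0 : 0 < κ := mul_pos (Real.rpow_pos_of_pos (by positivity) _) (half_pos hpos)
  set Q : ℝ := κ * V * r ^ (2 * n : ℝ) with hQ
  have hQ0 : 0 < Q := mul_pos (mul_pos hκ0 hV) (Real.rpow_pos_of_pos hr0 _)
  have hm : max c₁ 0 < (n : ℝ) / d := max_lt hc₁ (div_pos hn' hd')
  obtain ⟨e, he0, he1, he2⟩ : ∃ e : ℝ, 0 < e ∧ e < 2 * d * ((n : ℝ) / d - max c₁ 0) ∧
      e < Q / (|A| + 1) := by
    have h1 : 0 < 2 * d * ((n : ℝ) / d - max c₁ 0) := mul_pos (by positivity) (sub_pos.2 hm)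
    have h2 : 0 < Q / (|A| + 1) := by positivity
    obtain ⟨e, h3, h4⟩ := exists_between (lt_min h1 h2)
    exact ⟨e, h3, h4.trans_le (min_le_left _ _), h4.trans_le (min_le_right _ _)⟩
  set c : ℝ := (n : ℝ) / d - e / (2 * d) with hc
  have hed : 0 < e / (2 * d) := by positivity
  have hc0 : max c₁ 0 < c := by
    have : e / (2 * d) < (n : ℝ) / d - max c₁ 0 := by
      rw [div_lt_iff₀ (by positivity)]
      linarith
    linarith
  have hc1 : c₁ < c := (le_max_left _ _).trans_lt hc0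
  have hc2 : 0 < c := (le_max_right _ _).trans_lt hc0
  have hc3 : c < (n : ℝ) / d := by linarith
  have hce : (2 * d : ℝ) * (-c) = e - (2 * n : ℕ) := by
    rw [hc]
    push_cast
    field_simp
    ring
  have hen : e ≤ 2 * n := by
    have : (2 * d : ℝ) * (-c) ≤ 0 := mul_nonpos_of_nonneg_of_nonpos (by positivity) (by linarith)
    rw [hce] at this
    push_cast at this
    linarith
  refine ⟨c, hc1, hc3, ?_⟩
  have hle : ∫ x : Fin n → ℂ, κ * (Iio r).indicator (fun y : ℝ => y ^ (e - (2 * n : ℕ))) ‖x‖ ≤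
      ∫ x, pw f (-c) x * w x := by
    refine integral_mono_of_nonneg (Filter.Eventually.of_forall fun x => ?_) (hint c hc1 hc3) ?_
    · refine mul_nonneg hκ0.le ?_
      by_cases h : ‖x‖ ∈ Iio r
      · rw [indicator_of_mem h]
        exact Real.rpow_nonneg (norm_nonneg _) _
      · rw [indicator_of_notMem h]
    · filter_upwards [hae] with x hx
      have hp : 0 ≤ pw f (-c) x := Real.rpow_nonneg (by positivity) _
      by_cases h : ‖x‖ ∈ Iio r
      · rw [indicator_of_mem h]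
        have hx1 : ‖x‖ ≤ 1 := (le_of_lt h).trans hr1
        have h0 : 0 < ‖MvPolynomial.eval x f‖ := norm_pos_iff.2 hx
        have h1 : ‖MvPolynomial.eval x f‖ ^ 2 ≤ B ^ 2 * ‖x‖ ^ (2 * d) := by
          rw [mul_comm 2 d, pow_mul, ← mul_pow]
          exact pow_le_pow_left₀ h0.le (hB x hx1) 2
        have h2 : (B ^ 2 * ‖x‖ ^ (2 * d)) ^ (-c) ≤ pw f (-c) x :=
          Real.rpow_le_rpow_of_nonpos (by positivity) h1 (by linarith)
        have h3 : (B ^ 2 * ‖x‖ ^ (2 * d)) ^ (-c) =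
            (B ^ 2) ^ (-c) * ‖x‖ ^ (e - (2 * n : ℕ)) := by
          rw [Real.mul_rpow (by positivity) (by positivity), ← hce, ← Real.rpow_natCast ‖x‖,
            ← Real.rpow_mul (norm_nonneg _)]
          push_cast
          rfl
        have h4 : (B ^ 2) ^ (-((n : ℝ) / d)) ≤ (B ^ 2) ^ (-c) :=
          Real.rpow_le_rpow_of_exponent_le hB2 (by linarith)
        have h5 : 0 ≤ ‖x‖ ^ (e - (2 * n : ℕ)) := Real.rpow_nonneg (norm_nonneg _) _
        calc κ * ‖x‖ ^ (e - (2 * n : ℕ))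
            = ((B ^ 2) ^ (-((n : ℝ) / d)) * ‖x‖ ^ (e - (2 * n : ℕ))) * (w 0 / 2) := by
              rw [hκ]
              ring
          _ ≤ pw f (-c) x * w x := by
              refine mul_le_mul ?_ (hr x h) (half_pos hpos).le hp
              exact (mul_le_mul_of_nonneg_right h4 h5).trans (h3 ▸ h2)
      · rw [indicator_of_notMem h, mul_zero]
        exact mul_nonneg hp (hw0 x)
  refine lt_of_lt_of_le ?_ hle
  rw [integral_const_mul, hVi r e hr0 he0]
  have h6 : r ^ (2 * n : ℝ) ≤ r ^ e := Real.rpow_le_rpow_of_exponent_ge hr0 hr1 hen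
  have h7 : |A| + 1 < Q / e := by
    rw [lt_div_iff₀ he0]
    rw [lt_div_iff₀ (by positivity)] at he2
    linarith
  have h8 : Q / e ≤ κ * (V * (r ^ e / e)) := by
    rw [hQ, mul_div_assoc, mul_assoc]
    exact mul_le_mul_of_nonneg_left (mul_le_mul_of_nonneg_left
      (div_le_div_of_nonneg_right h6 he0.le) hV.le) hκ0.le
  linarith [le_abs_self A]

end

end Pool.Agent.P.MP_b91a16_ag.LY
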