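import Pool.Agent.P.MP_b91a16_ag.LY.Stmt

/-! Le-Yomdin surfaces: orders along the first face. -/

open Polynomial

namespace Pool.Agent.P.MP_b91a16_ag.LY

variable {k : Type} [Field k]

namespace PFirst

theorem num_up {q p N m b r i j : ℕ} (hq : 0 < q) (hb : 0 < b) (hr : p * b < q * r)
    (h : q * N + p * m ≤ q * i + p * j) (hj : m ≤ j) :
    (i = N ∧ j = m) ∨ b * N + r * m < b * i + r * j := by
  obtain ⟨u, rfl⟩ := Nat.exists_eq_add_of_le hj
  rcases Nat.eq_zero_or_pos u with rfl | hu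
  · have h1 : N ≤ i := Nat.le_of_mul_le_mul_left (by simpa using h) hq
    rcases h1.eq_or_lt with rfl | h2
    · exact Or.inl ⟨rfl, rfl⟩
    · exact Or.inr (by simpa using Nat.mul_lt_mul_of_pos_left h2 hb)
  · refine Or.inr (Nat.lt_of_mul_lt_mul_left (a := q) ?_)
    have h1 := Nat.mul_le_mul_left b h
    have h2 := Nat.mul_lt_mul_of_pos_left hr hu
    nlinarith

theorem num_down {q p N m b r i j : ℕ} (hr : q * r < p * b)
    (h : q * N + p * m ≤ q * i + p * j) (hj : j < m) : b * N + r * m < b * i + r * j := by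
  obtain ⟨u, rfl⟩ := Nat.exists_eq_add_of_lt hj
  refine Nat.lt_of_mul_lt_mul_left (a := q) ?_
  have h1 := Nat.mul_le_mul_left b h
  have h2 := Nat.mul_lt_mul_of_pos_left hr u.succ_pos
  rw [Nat.succ_eq_add_one] at h2
  nlinarith

theorem num_low {q p N m b r i j D : ℕ} (hq : 0 < q) (h1 : D ≤ m * r) (h2 : q * D ≤ p * m * b)
    (h : q * N + p * m ≤ q * i + p * j) (hj : j < m) : N * b + D ≤ b * i + r * j := by
  obtain ⟨u, rfl⟩ := Nat.exists_eq_add_of_le hj.le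
  refine Nat.le_of_mul_le_mul_left (c := q * (j + u)) ?_ (Nat.mul_pos hq (by omega))
  have a1 := Nat.mul_le_mul_left ((j + u) * b) (show q * N + p * u ≤ q * i by nlinarith)
  have a2 := Nat.mul_le_mul_left (q * j) h1
  have a3 := Nat.mul_le_mul_left u h2
  nlinarith

/-- A vertex of the Newton polygon determines the order. -/
theorem lead_ne {G : P2 k} {N m b r : ℕ} (h0 : co G N m ≠ 0)
    (h : ∀ i j, co G i j ≠ 0 → (i = N ∧ j = m) ∨ b * N + r * m < b * i + r * j)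
    {K : Type} [Field K] [Algebra k K] {η ξ : PowerSeries K} (hη : cc η ≠ 0)
    (hξ : cc ξ ^ m ≠ 0) :
    ¬ tt ^ (b * N + r * m + 1) ∣ aevalAeval (tt ^ b * η) (tt ^ r * ξ) G := fun hd => by
  have hA : Above G b r (b * N + r * m) := fun i j hij =>
    (h i j hij).elim (fun e => by rw [e.1, e.2]) le_of_lt
  have hI : ini G b r (b * N + r * m) = monomial m (monomial N (co G N m)) := by
    refine co_ext fun i j => ?_
    rw [co_ini, co_monomial]
    by_cases e : N = i ∧ m = j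
    · rw [if_pos e, ← e.1, ← e.2, if_pos rfl]
    · rw [if_neg e]
      split_ifs with e'
      · by_contra h1
        exact (h i j h1).elim (fun h2 => e ⟨h2.1.symm, h2.2.symm⟩) fun h2 => h2.ne' e'
      · rfl
  have h1 := (dvd_succ_iff.1 hd).2
  rw [(hA.lead η ξ).2, hI, ev_monomial] at h1
  exact mul_ne_zero (mul_ne_zero ((map_ne_zero (algebraMap k K)).2 h0) (pow_ne_zero _ hη)) hξ h1

theorem exists_ord {K : Type} [Field K] {z : PowerSeries K} {s R : ℕ} (h1 : tt ^ s ∣ z)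
    (h2 : ¬ tt ^ R ∣ z) : ∃ r ξ, s ≤ r ∧ r < R ∧ cc ξ ≠ 0 ∧ z = tt ^ r * ξ := by
  induction R with
  | zero => exact absurd (by simp) h2
  | succ R ih =>
    by_cases h3 : tt ^ R ∣ z
    · obtain ⟨ξ, rfl⟩ := h3
      refine ⟨R, ξ, ?_, R.lt_succ_self, fun h4 => h2 ?_, rfl⟩
      · by_contra h4
        exact h2 ((pow_dvd_pow _ (not_le.1 h4)).trans h1)
      · rw [pow_succ]
        exact mul_dvd_mul_left _ (PowerSeries.X_dvd_iff.2 h4)
    · obtain ⟨r, ξ, a1, a2, a3⟩ := ih h3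
      exact ⟨r, ξ, a1, a2.trans R.lt_succ_self, a3⟩

/-- Arcs of high contact avoid the orders below the next slope. -/
theorem dvd_of_hit {G : P2 k} {q₀ p₀ q p N m b n R : ℕ} (hM : Model G q₀ p₀ N m)
    (hA : Above G q p (q * N + p * m)) (hb : 0 < b)
    (hR : ∀ r < R, q * r < p * b ∧ b * N + r * m < n) {K : Type} [Field K] [Algebra k K]
    {η z : PowerSeries K} (hη : cc η ≠ 0) (hz : tt ^ (p₀ * b / q₀ + 1) ∣ z)
    (h : tt ^ n ∣ aevalAeval (tt ^ b * η) z G) : tt ^ R ∣ z := by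
  by_contra h1
  obtain ⟨r, ξ, a1, a2, a3, rfl⟩ := exists_ord hz h1
  refine lead_ne hM.2.1 (fun i j hij => ?_) hη (pow_ne_zero _ a3)
    ((pow_dvd_pow _ (hR r a2).2).trans h)
  rcases le_or_gt m j with hj | hj
  · exact num_up hM.1 hb ((div_succ_le hM.1).1 a1) (hM.2.2.1 i j hij) hj
  · exact Or.inr (num_down (hR r a2).1 (hA i j hij) hj)

end PFirst

theorem p_firstA : S_firstA k := by
  intro G E q₀ p₀ q p N m b n hM hA hq _ hm hb h1 h2
  have hq₀ := hM.1
  obtain ⟨D, rfl⟩ : ∃ D, n = N * b + D :=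
    Nat.exists_eq_add_of_le (Nat.le_of_mul_le_mul_left (c := q₀)
      (by nlinarith [Nat.zero_le (p₀ * m * b)]) hq₀)
  rw [Nat.add_sub_cancel_left]
  have d1 : D ≤ m * cdiv D m := (cdiv_le hm).1 le_rfl
  have d2 : q * D ≤ p * m * b := by nlinarith
  have d3 : p₀ * b / q₀ + 1 ≤ cdiv D m := by
    refine (lt_cdiv hm).2 (Nat.lt_of_mul_lt_mul_left (a := q₀) ?_)
    have := Nat.mul_le_mul_left m (Nat.mul_div_le (p₀ * b) q₀)
    nlinarith
  have hA' : Above G b (cdiv D m) (N * b + D) := fun i j hij => by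
    rcases le_or_gt m j with hj | hj
    · rcases PFirst.num_up hq₀ hb ((div_succ_le hq₀).1 d3) (hM.2.2.1 i j hij) hj with e | e
      · rw [e.1, e.2]; nlinarith
      · nlinarith
    · exact PFirst.num_low hq d1 d2 (hA i j hij) hj
  have key := (cyl_TU E (ini G b (cdiv D m) (N * b + D))).hv.shift ![0, 0, cdiv D m]
  rw [show ∑ j, (![0, 0, cdiv D m] : Fin 3 → ℕ) j = cdiv D m by simp [Fin.sum_univ_three]] at key
  refine (key.congr fun K _ _ γ => ⟨?_, ?_⟩).mu_eq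
  · rintro ⟨β, e, t0, t1, t2⟩
    have e0 : γ 0 = β 0 := by simpa using e 0
    have e1 : γ 1 = β 1 := by simpa using e 1
    have e2 : γ 2 = tt ^ cdiv D m * β 2 := by simpa using e 2
    refine ⟨e0 ▸ t0, e1 ▸ t1, ?_, ?_⟩
    · rw [e2]
      exact (pow_dvd_pow _ d3).mul_right _
    · rw [e0, e1, e2]
      exact ⟨(hA'.lead _ _).1, by rw [(hA'.lead _ _).2]; exact t2⟩
  · rintro ⟨t0, t1, t2, t3, t4⟩
    obtain ⟨ξ, e⟩ := PFirst.dvd_of_hit (R := cdiv D m) hM hA hb (fun r hr => by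
      have a1 := (lt_cdiv hm).1 hr
      refine ⟨Nat.lt_of_mul_lt_mul_left (a := m) ?_, by nlinarith⟩
      have a2 := Nat.mul_lt_mul_of_pos_left a1 hq
      nlinarith) t1 t2 t3
    refine ⟨![γ 0, γ 1, ξ], fun j => ?_, t0, t1, ?_⟩
    · fin_cases j <;> simp [e]
    · rw [e, (hA'.lead _ _).2] at t4
      exact t4

theorem p_firstB : S_firstB k := by
  intro G E q₀ p₀ q p N m b n hM hA hq h0 hb h1
  have d1 : p₀ * b / q₀ + 1 ≤ cdiv (p * b) q := by
    refine (lt_cdiv hq).2 (Nat.lt_of_mul_lt_mul_left (a := q₀) ?_)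
    have a1 := Nat.mul_le_mul_left q (Nat.mul_div_le (p₀ * b) q₀)
    have a2 := Nat.mul_lt_mul_of_pos_left h0 hb
    nlinarith
  refine mu_congr fun K _ _ γ => ⟨?_, ?_⟩
  · rintro ⟨t0, t1, t2, t3⟩
    refine ⟨t0, t1, PFirst.dvd_of_hit hM hA hb (fun r hr => ?_) t1 t2 t3.1, t3⟩
    have a1 := (lt_cdiv hq).1 hr
    refine ⟨a1, Nat.lt_of_mul_lt_mul_left (a := q) ?_⟩
    have a2 := Nat.mul_le_mul_left m a1.le
    nlinarith
  · rintro ⟨t0, t1, t2, t3⟩
    exact ⟨t0, t1, (pow_dvd_pow _ d1).trans t2, t3⟩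

theorem p_term : S_term k := by
  intro G E q₀ p₀ N b n hM hb h1
  refine mu_eq_zero fun K _ _ γ => ?_
  rintro ⟨-, t1, ⟨ξ, e⟩, t3, -⟩
  rw [e] at t3
  refine PFirst.lead_ne (ξ := ξ) hM.2.1 (fun i j hij => PFirst.num_up hM.1 hb
    ((div_succ_le hM.1).1 le_rfl) (hM.2.2.1 i j hij) j.zero_le) t1 (by simp)
    ((pow_dvd_pow _ ?_).trans t3)
  rw [mul_zero, add_zero, mul_comm]
  exact h1

end Pool.Agent.P.MP_b91a16_ag.LY
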