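import Pool.Agent.P.MP_b91a16_ag.LY.Stmt

/-! Package Good: an order count on the projective line. -/

open Polynomial

namespace Pool.Agent.P.MP_b91a16_ag.LY

noncomputable section

variable {k : Type} [Field k]

namespace PGood

theorem fact (φ : k[X]) (h : φ ≠ 0) (a : k) :
    ∃ ψ : k[X], φ = (X - C a) ^ φ.rootMultiplicity a * ψ ∧ ψ.eval a ≠ 0 := by
  obtain ⟨ψ, h1, h2⟩ := exists_eq_pow_rootMultiplicity_mul_and_not_dvd φ h a
  exact ⟨ψ, h1, fun e => h2 (dvd_iff_isRoot.2 e)⟩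

theorem der_pow (a : k) (o : ℕ) :
    (X - C a) * derivative ((X - C a) ^ o) = C (o : k) * (X - C a) ^ o := by
  rw [derivative_X_sub_C_pow]
  cases o with
  | zero => simp
  | succ o => simp only [Nat.add_sub_cancel, pow_succ, map_natCast]; ring

/-- The local count at a point. -/
theorem loc {P φ : k[X]} (hP : P ≠ 0) (hφ : φ ≠ 0) (a l : k)
    (h : (X - C a) ^ (P.rootMultiplicity a + φ.rootMultiplicity a) ∣
      derivative P * φ - C l * P * derivative φ) :
    (P.rootMultiplicity a : k) = l * φ.rootMultiplicity a := by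
  obtain ⟨Q, hQ, hQ0⟩ := fact P hP a
  obtain ⟨ψ, hψ, hψ0⟩ := fact φ hφ a
  generalize P.rootMultiplicity a = o at *
  generalize φ.rootMultiplicity a = μ at *
  have e : (X - C a) * (derivative P * φ - C l * P * derivative φ) = (X - C a) ^ (o + μ) *
      (C ((o : k) - l * μ) * Q * ψ +
        (X - C a) * (derivative Q * ψ - C l * Q * derivative ψ)) := by
    rw [hQ, hψ, derivative_mul, derivative_mul, pow_add, map_sub, map_mul]
    linear_combination (Q * ((X - C a) ^ μ * ψ)) * der_pow a o -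
      (C l * ((X - C a) ^ o * Q) * ψ) * der_pow a μ
  obtain ⟨W, hW⟩ := h
  rw [hW, ← mul_assoc, mul_comm (X - C a), mul_assoc] at e
  have e2 := congrArg (eval a) (mul_left_cancel₀ (pow_ne_zero _ (X_sub_C_ne_zero a)) e)
  simp only [eval_mul, eval_add, eval_sub, eval_X, eval_C, sub_self, zero_mul, add_zero] at e2
  rcases mul_eq_zero.1 e2.symm with h1 | h1
  · rcases mul_eq_zero.1 h1 with h2 | h2
    · exact sub_eq_zero.1 h2
    · exact absurd h2 hQ0
  · exact absurd h1 hψ0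

/-- Two distinct roots. -/
theorem two_roots [IsAlgClosed k] {φ : k[X]} (h : Two φ) : ∃ (a₁ a₂ : k) (m₁ m₂ : ℕ) (ψ : k[X]),
    a₁ ≠ a₂ ∧ 0 < m₁ ∧ 0 < m₂ ∧ φ = (X - C a₁) ^ m₁ * (X - C a₂) ^ m₂ * ψ ∧
      ψ.eval a₁ ≠ 0 ∧ ψ.eval a₂ ≠ 0 := by
  have h0 : φ ≠ 0 := fun e => h 0 0 (by rw [map_zero, zero_mul, e])
  have key : ∀ (a : k) (m : ℕ) (ψ : k[X]), φ = (X - C a) ^ m * ψ → ψ.degree ≠ 0 := by
    intro a m ψ e hd
    obtain ⟨c, rfl⟩ : ∃ c, ψ = C c := ⟨_, eq_C_of_degree_eq_zero hd⟩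
    have hc : c ≠ 0 := fun e' => h0 (by rw [e, e', map_zero, mul_zero])
    have hn : φ.natDegree = m := by
      rw [e, mul_comm, natDegree_C_mul hc, natDegree_pow, natDegree_X_sub_C, mul_one]
    exact h c a (by rw [hn, e, mul_comm])
  obtain ⟨a₁, h₁⟩ := IsAlgClosed.exists_root φ (key 0 0 φ (by simp))
  obtain ⟨ψ₁, e₁, n₁⟩ := fact φ h0 a₁
  obtain ⟨a₂, h₂⟩ := IsAlgClosed.exists_root ψ₁ (key a₁ _ ψ₁ e₁)
  have h1 : ψ₁ ≠ 0 := fun e => n₁ (by rw [e, eval_zero])
  obtain ⟨ψ₂, e₂, n₂⟩ := fact ψ₁ h1 a₂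
  refine ⟨a₁, a₂, _, _, ψ₂, fun e => n₁ (e ▸ h₂), (rootMultiplicity_pos h0).2 h₁,
    (rootMultiplicity_pos h1).2 h₂, by rw [mul_assoc, ← e₂, ← e₁], fun e => n₁ ?_, n₂⟩
  rw [e₂, eval_mul, e, mul_zero]

theorem dvd_two {P : k[X]} {a₁ a₂ : k} (h : a₁ ≠ a₂) (h₁ : P.IsRoot a₁) (h₂ : P.IsRoot a₂) :
    (X - C a₁) * (X - C a₂) ∣ P :=
  (isCoprime_X_sub_C_of_isUnit_sub (sub_ne_zero.2 h).isUnit).mul_dvd (dvd_iff_isRoot.2 h₁)
    (dvd_iff_isRoot.2 h₂)

/-- The count at infinity. -/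
theorem top {P φ : k[X]} (l : k) (hP : 2 ≤ P.natDegree) (hφ : 1 ≤ φ.natDegree)
    (h : derivative P * φ - C l * P * derivative φ = φ) :
    (P.natDegree : k) = l * φ.natDegree := by
  obtain ⟨n, hn⟩ : ∃ n, P.natDegree = n + 1 := ⟨P.natDegree - 1, by omega⟩
  obtain ⟨m, hm⟩ : ∃ m, φ.natDegree = m + 1 := ⟨φ.natDegree - 1, by omega⟩
  have hP0 : P.coeff (n + 1) ≠ 0 := by
    rw [← hn]
    exact leadingCoeff_ne_zero.2 (by rintro rfl; simp at hP)
  have hφ0 : φ.coeff (m + 1) ≠ 0 := by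
    rw [← hm]
    exact leadingCoeff_ne_zero.2 (by rintro rfl; simp at hφ)
  have e1 : (derivative P * φ).coeff (n + (m + 1)) =
      P.coeff (n + 1) * (n + 1) * φ.coeff (m + 1) := by
    rw [coeff_mul_add_eq_of_natDegree_le ((natDegree_derivative_le P).trans (by omega)) hm.le,
      coeff_derivative]
  have e2 : (P * derivative φ).coeff (n + 1 + m) =
      P.coeff (n + 1) * (φ.coeff (m + 1) * (m + 1)) := by
    rw [coeff_mul_add_eq_of_natDegree_le hn.le ((natDegree_derivative_le φ).trans (by omega)),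
      coeff_derivative]
  have e3 := congrArg (fun p => p.coeff (n + (m + 1))) h
  rw [show n + 1 + m = n + (m + 1) by omega] at e2
  simp only [coeff_sub, mul_assoc (C l), coeff_C_mul] at e3
  rw [e1, e2, coeff_eq_zero_of_natDegree_lt (p := φ) (n := n + (m + 1)) (by omega)] at e3
  rw [hn, hm]
  push_cast
  apply mul_left_cancel₀ (mul_ne_zero hP0 hφ0)
  linear_combination e3

variable [CharZero k]

/-- With no pole, `P` vanishes at every root of `φ`. -/
theorem vanish {P φ : k[X]} {l : k} (hφ : φ ≠ 0) (hl : l ≠ 0)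
    (h : φ ∣ derivative P * φ - C l * P * derivative φ) {a : k} (ha : φ.IsRoot a) :
    P.IsRoot a := by
  by_contra hP
  have hP0 : P ≠ 0 := fun e => hP (by simp [e])
  have ho := rootMultiplicity_eq_zero hP
  have := loc hP0 hφ a l (by
    rw [ho, zero_add]
    exact (pow_rootMultiplicity_dvd φ a).trans h)
  rw [ho, Nat.cast_zero] at this
  exact mul_ne_zero hl (Nat.cast_ne_zero.2 ((rootMultiplicity_pos hφ).2 ha).ne') this.symm

/-- With a pole, `φ` divides `P`. -/
theorem dvd_of_pole [IsAlgClosed k] {P φ : k[X]} {ν N j : ℕ} (hφ : φ ≠ 0) (hN : 0 < N)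
    (h : φ ^ 2 ∣ derivative P * φ - C ((ν : k) / N + (j + 1 : ℕ)) * P * derivative φ) :
    φ ∣ P := by
  classical
  by_cases hP : P = 0
  · simp [hP]
  rw [IsAlgClosed.dvd_iff_roots_le_roots hφ hP, Multiset.le_iff_count]
  intro a
  rw [count_roots, count_roots]
  by_contra hlt
  have hlt' := not_le.1 hlt
  have h1 := loc hP hφ a _ (dvd_trans (by
    refine dvd_trans (pow_dvd_pow _ (show _ ≤ φ.rootMultiplicity a * 2 by omega)) ?_
    rw [pow_mul]
    exact pow_dvd_pow_of_dvd (pow_rootMultiplicity_dvd φ a) 2) h)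
  have hN' : (N : k) ≠ 0 := Nat.cast_ne_zero.2 hN.ne'
  have h2 : P.rootMultiplicity a * N = (ν + (j + 1) * N) * φ.rootMultiplicity a := by
    apply Nat.cast_injective (R := k)
    push_cast at h1 ⊢
    rw [h1]
    field_simp
  have h3 : P.rootMultiplicity a * N < φ.rootMultiplicity a * N := Nat.mul_lt_mul_of_pos_right hlt' hN
  nlinarith [Nat.zero_le (ν * φ.rootMultiplicity a), Nat.zero_le (j * N * φ.rootMultiplicity a)]

theorem base [IsAlgClosed k] {φ : k[X]} {ν N : ℕ} (hν : 0 < ν) (hN : 0 < N) (h2 : Two φ)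
    (hd : ν * φ.natDegree < 2 * N ∨ ν * φ.natDegree = 2 * N ∧ ¬Bad φ) (P : k[X]) (c : k) :
    derivative P * φ - C ((ν : k) / N) * P * derivative φ + C c * derivative φ * φ ≠ φ := by
  intro h
  obtain ⟨a₁, a₂, m₁, m₂, ψ, ha, hm₁, hm₂, e, n₁, n₂⟩ := two_roots h2
  have hψ : ψ ≠ 0 := fun e' => n₁ (by rw [e', eval_zero])
  have hφ : φ ≠ 0 := fun e' => h2 0 0 (by rw [map_zero, zero_mul, e'])
  have hN' : (N : k) ≠ 0 := Nat.cast_ne_zero.2 hN.ne'
  have hl : (ν : k) / N ≠ 0 := div_ne_zero (Nat.cast_ne_zero.2 hν.ne') hN'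
  have hdeg : φ.natDegree = m₁ + m₂ + ψ.natDegree := by
    rw [e, natDegree_mul (mul_ne_zero (pow_ne_zero _ (X_sub_C_ne_zero _))
      (pow_ne_zero _ (X_sub_C_ne_zero _))) hψ, natDegree_mul (pow_ne_zero _ (X_sub_C_ne_zero _))
      (pow_ne_zero _ (X_sub_C_ne_zero _))]
    simp
  have r₁ : φ.IsRoot a₁ := by simp [e, hm₁.ne']
  have r₂ : φ.IsRoot a₂ := by simp [e, hm₂.ne']
  have hle : ν * φ.natDegree ≤ 2 * N := hd.elim le_of_lt fun h => h.1.le
  by_cases h1 : ν = N
  · subst h1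
    have hm : φ.natDegree ≤ 2 := by
      by_contra hc
      nlinarith
    obtain rfl : m₁ = 1 := by omega
    obtain rfl : m₂ = 1 := by omega
    obtain ⟨c₀, rfl⟩ : ∃ c, ψ = C c := ⟨_, eq_C_of_natDegree_eq_zero (by omega)⟩
    have hv : φ ∣ derivative P * φ - C ((ν : k) / ν) * P * derivative φ :=
      ⟨1 - C c * derivative φ, by linear_combination h⟩
    obtain ⟨v, rfl⟩ := dvd_two ha (vanish hφ hl hv r₁) (vanish hφ hl hv r₂)
    rw [div_self hN', map_one] at h
    have h3 : (X - C a₁) * (X - C a₂) * derivative v + C c * C c₀ * (X - C a₂ + (X - C a₁)) =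
        1 := by
      apply mul_left_cancel₀ hφ
      rw [e] at h ⊢
      simp only [derivative_mul, derivative_sub, derivative_X, derivative_C, pow_one] at h ⊢
      linear_combination h
    have h4 := congrArg (eval a₁) h3
    have h5 := congrArg (eval a₂) h3
    simp only [eval_add, eval_mul, eval_sub, eval_X, eval_C, eval_one] at h4 h5
    have : (2 : k) = 0 := by linear_combination -h4 - h5
    exact two_ne_zero this
  · have h1' : 1 - (ν : k) / N ≠ 0 := by
      intro e'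
      apply h1
      apply Nat.cast_injective (R := k)
      rw [sub_eq_zero, eq_div_iff hN', one_mul] at e'
      exact e'.symm
    generalize hlq : (ν : k) / N = l at *
    obtain ⟨Q, hQ⟩ : ∃ Q : k[X], derivative Q * φ - C l * Q * derivative φ = φ := by
      refine ⟨P + C (c / (1 - l)) * φ, ?_⟩
      have : C c = C (c / (1 - l)) * (1 - C l) := by
        rw [← map_one C, ← map_sub, ← map_mul, div_mul_cancel₀ _ h1']
      rw [this] at h
      simp only [derivative_add, derivative_mul, derivative_C]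
      linear_combination h
    have hQ0 : Q ≠ 0 := fun e' => hφ (by rw [← hQ, e']; simp)
    have hv : φ ∣ derivative Q * φ - C l * Q * derivative φ := by rw [hQ]
    obtain ⟨v, hvQ⟩ := dvd_two ha (vanish hφ hl hv r₁) (vanish hφ hl hv r₂)
    have hv0 : v ≠ 0 := fun e' => hQ0 (by rw [hvQ, e', mul_zero])
    have hQd : Q.natDegree = 2 + v.natDegree := by
      rw [hvQ, natDegree_mul (mul_ne_zero (X_sub_C_ne_zero _) (X_sub_C_ne_zero _)) hv0,
        natDegree_mul (X_sub_C_ne_zero _) (X_sub_C_ne_zero _)]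
      simp
    have ht := top l (by omega) (by omega) hQ
    have ht' : Q.natDegree * N = ν * φ.natDegree := by
      apply Nat.cast_injective (R := k)
      push_cast
      rw [ht, ← hlq]
      field_simp
    have hv1 : v.natDegree = 0 := by
      by_contra hc
      have : 3 * N ≤ Q.natDegree * N := Nat.mul_le_mul_right _ (by omega)
      omega
    rw [hQd, hv1] at ht ht'
    have hb : ¬Bad φ := (hd.resolve_left (by omega)).2
    obtain ⟨c₁, rfl⟩ : ∃ c, v = C c := ⟨_, eq_C_of_natDegree_eq_zero hv1⟩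
    have hc₁ : c₁ ≠ 0 := fun e' => hv0 (by rw [e', map_zero])
    have hψd : ψ.degree = 0 := by
      by_contra hc
      obtain ⟨a, hr⟩ := IsAlgClosed.exists_root ψ hc
      have r : φ.IsRoot a := by rw [e, IsRoot, eval_mul, hr.eq_zero, mul_zero]
      have := vanish hφ hl hv r
      rw [hvQ] at this
      simp only [IsRoot, eval_mul, eval_sub, eval_X, eval_C, mul_eq_zero, sub_eq_zero, hc₁,
        or_false] at this
      rcases this with rfl | rfl
      · exact n₁ hr
      · exact n₂ hr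
    obtain ⟨c₀, rfl⟩ : ∃ c, ψ = C c := ⟨_, eq_C_of_degree_eq_zero hψd⟩
    obtain rfl : m₁ = m₂ := by
      by_contra hc
      rcases Nat.lt_or_gt_of_ne hc with hc | hc
      · exact hb ⟨c₀, a₂, a₁, m₂, m₁, ha.symm, hm₁, hc, by rw [e]; ring⟩
      · exact hb ⟨c₀, a₁, a₂, m₁, m₂, ha, hm₂, hc, by rw [e]; ring⟩
    obtain ⟨μ, rfl⟩ : ∃ μ, m₁ = μ + 1 := ⟨m₁ - 1, by omega⟩
    rw [hdeg, natDegree_C] at ht
    have hμ : l * (μ + 1) = 1 := by
      push_cast at ht
      linear_combination (-1 / 2 : k) * ht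
    have hμ' : (C l : k[X]) * C ((μ : k) + 1) = 1 := by rw [← map_mul, hμ, map_one]
    apply hφ
    rw [← hQ, hvQ, e]
    simp only [derivative_mul, derivative_X_sub_C_pow, derivative_sub, derivative_X, derivative_C,
      Nat.add_sub_cancel]
    push_cast
    linear_combination (-(C c₁ * C c₀ * (X - C a₁) ^ (μ + 1) * (X - C a₂) ^ (μ + 1) *
      (X - C a₁ + (X - C a₂)))) * hμ'

end PGood

theorem p_good [CharZero k] [IsAlgClosed k] : S_good k := by
  intro φ ν N hν hN h2 hd P j c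
  have hφ : φ ≠ 0 := fun e' => h2 0 0 (by rw [map_zero, zero_mul, e'])
  induction j generalizing P with
  | zero => simpa using PGood.base hν hN h2 hd P c
  | succ j ih =>
    intro h
    obtain ⟨Q, rfl⟩ := PGood.dvd_of_pole (P := P) (ν := ν) (j := j) hφ hN
      ⟨φ ^ j * (1 - C c * derivative φ), by linear_combination h⟩
    apply ih Q
    apply mul_left_cancel₀ hφ
    simp only [derivative_mul, Nat.cast_add, Nat.cast_one, map_add, map_one] at h ⊢
    linear_combination h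

end

end Pool.Agent.P.MP_b91a16_ag.LY
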