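import Pool.Agent.P.MP_b91a16_ag.LY.Stmt

/-! Le-Yomdin surfaces: the children of a face. -/

open Polynomial

namespace Pool.Agent.P.MP_b91a16_ag.LY

noncomputable section

variable {k : Type} [Field k]

namespace PKid

theorem fin_tU (G E : P2 k) (ν : ℕ) (s : ℕ → ℕ) (q : ℕ) {n₀ : ℕ} (h : 0 < n₀) (n : ℕ) :
    Function.HasFiniteSupport fun b => tU G E ν s q n₀ b n := by
  refine (Set.finite_lt_nat (q * n)).subset fun b hb => ?_
  by_contra hn
  refine hb (if_neg fun h' => hn ?_)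
  exact lt_of_le_of_lt (Nat.le_mul_of_pos_left b h) h'.2

theorem finsum_dvd {M : Type*} [AddCommMonoid M] (g : ℕ → M) {q : ℕ} (hq : 0 < q) :
    ∑ᶠ b, (if q ∣ b then g (b / q) else 0) = ∑ᶠ b, g b := by
  classical
  have h1 := finsum_mem_range (f := fun b => if q ∣ b then g (b / q) else 0)
    (g := fun b => q * b) fun a b e => Nat.eq_of_mul_eq_mul_left hq e
  simp only [dvd_mul_right, if_true, Nat.mul_div_cancel_left _ hq] at h1
  rw [← h1]
  refine finsum_congr fun b => ?_
  rw [finsum_eq_if]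
  by_cases h : q ∣ b
  · obtain ⟨c, rfl⟩ := h
    rw [if_pos (Set.mem_range_self (f := fun b => q * b) c)]
  · rw [if_neg h, ite_self]

theorem fin_dvd {M : Type*} [Zero M] {g : ℕ → M} (hg : Function.HasFiniteSupport g) (q : ℕ) :
    Function.HasFiniteSupport fun b => if q ∣ b then g (b / q) else 0 := by
  refine (Set.Finite.image (fun b => q * b) hg).subset fun b hb => ?_
  by_cases h : q ∣ b
  · exact ⟨b / q, fun h0 => hb (by simp only [if_pos h, h0]), Nat.mul_div_cancel' h⟩
  · exact absurd (if_neg h) hb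

theorem split {G : P2 k} {ν q p N' : ℕ} (hq : 0 < q) (hN : 0 < N') {T : Finset k}
    (hT : ∀ (E : P2 k) (b n : ℕ), 0 < b → N' * b < q * n →
      mu (PU G E b (cdiv (p * b) q) n) = mu (PU G E b (p * b / q + 1) n) +
        if q ∣ b then Linv k ^ (p * (b / q)) *
          ∑ c ∈ T, mu (PU (sub q p (C c * X ^ p) G) E (b / q) 1 n) else 0) (E : P2 k) :
    GF (tU G E ν (fun b => cdiv (p * b) q) q N') = GF (tU G E ν (fun b => p * b / q + 1) q N') +
      ∑ c ∈ T, GF (tU (sub q p (C c * X ^ p) G) E (ν * q + p) (fun _ => 1) 1 N') := by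
  ext n
  simp only [GF, map_add, map_sum, PowerSeries.coeff_mk]
  have e : ∀ b, tU G E ν (fun b => cdiv (p * b) q) q N' b n =
      tU G E ν (fun b => p * b / q + 1) q N' b n + ∑ c ∈ T, if q ∣ b then
        tU (sub q p (C c * X ^ p) G) E (ν * q + p) (fun _ => 1) 1 N' (b / q) n else 0 := by
    intro b
    by_cases h : q ∣ b
    · obtain ⟨a, rfl⟩ := h
      have h1 : (0 < q * a ∧ N' * (q * a) < q * n) ↔ (0 < a ∧ N' * a < 1 * n) := by
        rw [mul_left_comm, Nat.mul_lt_mul_left hq, one_mul, Nat.mul_pos_iff_of_pos_left hq]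
      simp only [dvd_mul_right, if_true, Nat.mul_div_cancel_left _ hq, tU]
      by_cases h2 : 0 < q * a ∧ N' * (q * a) < q * n
      · simp only [if_pos h2, if_pos (h1.1 h2), eU]
        rw [hT E _ n h2.1 h2.2, hT 0 _ n h2.1 h2.2, if_pos (dvd_mul_right q a),
          if_pos (dvd_mul_right q a), Nat.mul_div_cancel_left _ hq, ← Finset.mul_sum,
          Finset.sum_sub_distrib, ← Finset.mul_sum]
        ring
      · simp only [if_neg h2, if_neg (mt h1.2 h2), Finset.sum_const_zero, add_zero]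
    · simp only [if_neg h, Finset.sum_const_zero, add_zero, tU]
      by_cases h2 : 0 < b ∧ N' * b < q * n
      · simp only [if_pos h2, eU]
        rw [hT E _ n h2.1 h2.2, hT 0 _ n h2.1 h2.2, if_neg h, if_neg h, add_zero, add_zero]
      · simp only [if_neg h2]
  simp only [e]
  have f : ∀ c : k, Function.HasFiniteSupport fun b => if q ∣ b then
      tU (sub q p (C c * X ^ p) G) E (ν * q + p) (fun _ => 1) 1 N' (b / q) n else 0 := fun c =>
    fin_dvd (g := fun b => tU (sub q p (C c * X ^ p) G) E (ν * q + p) (fun _ => 1) 1 N' b n)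
      (fin_tU _ _ _ _ _ hN n) q
  rw [finsum_add_distrib (fin_tU _ _ _ _ _ hN n) (Function.HasFiniteSupport.sum f T),
    finsum_sum_comm _ _ fun c _ => f c]
  congr 1
  exact Finset.sum_congr rfl fun c _ => finsum_dvd
    (fun b => tU (sub q p (C c * X ^ p) G) E (ν * q + p) (fun _ => 1) 1 N' b n) hq

end PKid

theorem p_kid (h1 : S_child k) (h2 : S_kids k) (h3 : S_bez k) (h4 : S_nd k) : S_kid k := by
  classical
  intro G ν q p N m ih hT h2' hB hν hI
  obtain ⟨hq, hp, hc, -, hA, -⟩ := id hT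
  obtain ⟨e0, -, e1⟩ := h2 G q p N m hT
  obtain ⟨⟨N₀, m₀, l0, e2, M0⟩, e3⟩ := e1 h2'
  obtain ⟨T, -, hT'⟩ := h1 G q p _ hq hp hc hA e0
  have hN : 0 < q * N + p * m := Nat.add_pos_right _ (Nat.mul_pos hp (by omega))
  have inv : ∀ m' < m, (ν * q + p) * m' ≤ 2 * (q * N + p * m) := fun m' hm' =>
    (Nat.mul_le_mul_left _ hm'.le).trans (by nlinarith)
  obtain ⟨S₀, n0, g0⟩ := ih m₀ l0 G ν q p N₀ M0 hB hν (by omega) (by
    have := inv m₀ l0
    rw [← e2] at this
    nlinarith)
  rw [e2] at g0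
  have key : ∀ c : k, ∃ S : Finset (ℕ × ℕ), (∀ π ∈ S, Nd G ν π.1 π.2) ∧ ∀ E, Graph E →
      GF (tU (sub q p (C c * X ^ p) G) E (ν * q + p) (fun _ => 1) 1 (q * N + p * m)) ∈
        poleRing k (insert (ν * q + p, q * N + p * m) S) := by
    intro c
    obtain ⟨m₁, l1, M1⟩ := e3 c
    obtain ⟨S, n1, g1⟩ := ih m₁ l1 _ (ν * q + p) 1 0 _ M1 (h3.1 G q p _ hq hB) (by omega)
      (by omega) (by have := inv m₁ l1; omega)
    refine ⟨S, fun π hπ => h4.1 G q p ν _ _ _ hq ?_ (n1 π hπ), fun E hE => ?_⟩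
    · rw [coeff_C_mul, coeff_X_pow, if_neg hp.ne, mul_zero]
    · simpa only [zero_mul, Nat.zero_div, zero_add, one_mul, mul_one, add_zero] using g1 E hE
  choose S n1 g1 using key
  refine ⟨S₀ ∪ T.biUnion S, fun π hπ => ?_, fun E hE => ?_⟩
  · rcases Finset.mem_union.1 hπ with h | h
    · exact n0 π h
    · obtain ⟨c, _, h⟩ := Finset.mem_biUnion.1 h
      exact n1 c π h
  · rw [PKid.split hq hN hT' E]
    refine add_mem (poleRing_mono (Finset.insert_subset_insert _ Finset.subset_union_left) (g0 E hE))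
      (sum_mem fun c hc => poleRing_mono (Finset.insert_subset_insert _ ?_) (g1 c E hE))
    exact (Finset.subset_biUnion_of_mem S hc).trans Finset.subset_union_right

end

end Pool.Agent.P.MP_b91a16_ag.LY
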