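import Pool.Agent.P.MP_b91a16_ag.LY.Stmt

/-! Le-Yomdin surfaces: leaves and shears. -/

open Polynomial

namespace Pool.Agent.P.MP_b91a16_ag.LY

variable {k : Type} [Field k]

namespace PLeaf

theorem pow_diff {R : Type} [CommRing R] {t z h : R} {s l : ℕ} (hz : t ^ s ∣ z) (hh : t ^ l ∣ h)
    (hsl : s ≤ l) (j : ℕ) : t ^ (l + s * j) ∣ (z + h) ^ (j + 1) - z ^ (j + 1) := by
  induction j with
  | zero => simpa using hh
  | succ j ih =>
    have e : (z + h) ^ (j + 1 + 1) - z ^ (j + 1 + 1) =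
        ((z + h) ^ (j + 1) - z ^ (j + 1)) * (z + h) + h * z ^ (j + 1) := by ring
    rw [e]
    refine dvd_add ?_ ?_
    · rw [show l + s * (j + 1) = l + s * j + s by ring, pow_add]
      exact mul_dvd_mul ih (dvd_add hz ((pow_dvd_pow _ hsl).trans hh))
    · rw [pow_add, pow_mul]
      exact mul_dvd_mul hh (pow_dvd_pow_of_dvd hz _)

theorem small {K : Type} [Field K] [Algebra k K] {G : P2 k} {b s l n : ℕ} (hsl : s ≤ l)
    (hG : ∀ i j, co G i (j + 1) ≠ 0 → n ≤ b * i + (l + s * j)) (η : PowerSeries K)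
    {z h : PowerSeries K} (hz : tt ^ s ∣ z) (hh : tt ^ l ∣ h) :
    tt ^ n ∣ aevalAeval (tt ^ b * η) (z + h) G - aevalAeval (tt ^ b * η) z G := by
  rw [ev_eq_sum, ev_eq_sum, ← Finset.sum_sub_distrib]
  refine Finset.dvd_sum fun j _ => ?_
  rw [← Finset.sum_sub_distrib]
  refine Finset.dvd_sum fun i hi => ?_
  rw [← mul_sub]
  rcases j with _ | j
  · simp
  · refine (pow_dvd_pow _ (hG i j (mem_support_iff.1 hi))).trans ?_
    rw [pow_add]
    refine mul_dvd_mul (Dvd.dvd.mul_left ?_ _) (pow_diff hz hh hsl j)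
    rw [mul_pow, ← pow_mul]
    exact dvd_mul_right _ _

theorem key {K : Type} [Field K] [Algebra k K] {G : P2 k} {q₀ p₀ N b s l : ℕ}
    (hM : Model G q₀ p₀ N 1) (hb : 0 < b) (hs : p₀ * b < q₀ * s) (hsl : s ≤ l)
    (η : PowerSeries K) {z : PowerSeries K} (hz : tt ^ s ∣ z) (c : K) :
    tt ^ (N * b + l + 1) ∣ aevalAeval (tt ^ b * η) (z + PowerSeries.C c * tt ^ l) G -
      aevalAeval (tt ^ b * η) z G -
      tt ^ (N * b + l) * PowerSeries.C (c * (algebraMap k K (co G N 1) * cc η ^ N)) := by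
  obtain ⟨hq, -, hA, -⟩ := hM
  set a := co G N 1 with ha
  have h1 := small (G := G - monomial 1 (monomial N a)) (b := b) (n := N * b + l + 1) hsl
    (fun i j hij => ?_) η hz (dvd_mul_left _ (PowerSeries.C c))
  · have h2 : tt ^ (N * b + l + 1) ∣ tt ^ (N * b + l) *
        (PowerSeries.C c * (algebraMap k (PowerSeries K) a * η ^ N) -
          PowerSeries.C (c * (algebraMap k K a * cc η ^ N))) := by
      rw [pow_succ]
      refine mul_dvd_mul_left _ (PowerSeries.X_dvd_iff.2 ?_)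
      simp [PowerSeries.algebraMap_apply]
    have h3 := dvd_add h1 h2
    rw [map_sub, map_sub, ev_monomial, ev_monomial] at h3
    convert h3 using 1
    ring
  · have e : co (G - monomial 1 (monomial N a)) i (j + 1) =
        co G i (j + 1) - co (monomial 1 (monomial N a)) i (j + 1) := by simp [co]
    rw [e, co_monomial] at hij
    have h4 : ¬(N = i ∧ 1 = j + 1) := by
      rintro ⟨rfl, h⟩
      rw [if_pos ⟨rfl, h⟩, ← h, ← ha, sub_self] at hij
      exact hij rfl
    rw [if_neg h4, sub_zero] at hij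
    have h5 := hA i (j + 1) hij
    rcases j with _ | j
    · have h6 : N ≤ i := Nat.le_of_mul_le_mul_left (by omega) hq
      have h7 : N + 1 ≤ i := by omega
      have := Nat.mul_le_mul_left b h7
      nlinarith
    · have h6 : q₀ * (N * b) < q₀ * (b * i + s * (j + 1)) := by
        have h7 : q₀ * N ≤ q₀ * i + p₀ * (j + 1) := by nlinarith
        have h8 := Nat.mul_le_mul_left b h7
        have h9 : p₀ * b * (j + 1) < q₀ * s * (j + 1) := Nat.mul_lt_mul_of_pos_right hs (by omega)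
        nlinarith
      have := Nat.lt_of_mul_lt_mul_left h6
      omega

theorem hit_sub {K : Type} [Field K] [Algebra k K] (G E : P2 k) (ζ : k[X]) (n : ℕ)
    (w y z : PowerSeries K) : Hit (sub 1 0 ζ G) E n w y z ↔ Hit G E n w y (aeval y ζ + z) := by
  simp only [Hit, ev_sub, pow_one, pow_zero, one_mul]

/-- The shear of the last coordinate by a series that depends only on the middle one. -/
theorem shear {Q Q' : SP k (Fin 3)} (hQ : Cyl Q) (hQ' : Cyl Q') (b : ℕ) (ζ : k[X])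
    (e : ∀ (K : Type) [Field K] [Algebra k K] (γ : Fin 3 → PowerSeries K),
      Q' K γ ↔ Q K ![γ 0, γ 1, aeval (tt ^ b * γ 1) ζ + γ 2]) : mu Q' = mu Q := by
  have hp : PS (k := k) fun K _ _ (γ : Fin 3 → PowerSeries K) => aeval (tt ^ b * γ 1) ζ :=
    ((ps_X.pow b).mul (ps_var 1)).aeval ζ
  refine (HV.push (Q := Q) (fun j K _ _ γ => ![γ 0, γ 1, aeval (tt ^ b * γ 1) ζ + γ 2] j)
    (fun j => ?_) (fun _ _ _ _ => True) (fun _ _ _ _ _ _ _ => trivial) hQ.lev
    (fun K _ _ γ γ' M _ _ _ h j => ?_) (fun K _ _ β _ => ?_)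
    (hQ'.hv.congr fun K _ _ γ => (e K γ).trans (by simp))).mu_eq.symm
  · fin_cases j
    · exact ps_var 0
    · exact ps_var 1
    · exact hp.add (ps_var 2)
  · have h0 : tt ^ M ∣ γ' 0 - γ 0 := h 0
    have h1 : tt ^ M ∣ γ' 1 - γ 1 := h 1
    have h2 : tt ^ M ∣ aeval (tt ^ b * γ' 1) ζ + γ' 2 - (aeval (tt ^ b * γ 1) ζ + γ 2) := h 2
    have h3 : tt ^ M ∣ aeval (tt ^ b * γ' 1) ζ - aeval (tt ^ b * γ 1) ζ :=
      hp.2 K (fun _ => γ 1) (fun _ => γ' 1) M fun _ => h1
    fin_cases j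
    · exact h0
    · exact h1
    · have := dvd_sub h2 h3
      rw [show aeval (tt ^ b * γ' 1) ζ + γ' 2 - (aeval (tt ^ b * γ 1) ζ + γ 2) -
        (aeval (tt ^ b * γ' 1) ζ - aeval (tt ^ b * γ 1) ζ) = γ' 2 - γ 2 by ring] at this
      exact this
  · refine ⟨![β 0, β 1, β 2 - aeval (tt ^ b * β 1) ζ], trivial, fun j => ?_⟩
    fin_cases j <;> simp

theorem dvd_aeval {K : Type} [Field K] [Algebra k K] {ζ : k[X]} {b s : ℕ}
    (h : ∀ e ∈ ζ.support, s ≤ b * e) {y : PowerSeries K} (hy : tt ^ b ∣ y) :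
    tt ^ s ∣ aeval y ζ := by
  rw [aeval_def, eval₂_eq_sum, Polynomial.sum]
  refine Finset.dvd_sum fun e he => Dvd.dvd.mul_left ((pow_dvd_pow _ (h e he)).trans ?_) _
  rw [pow_mul]
  exact pow_dvd_pow_of_dvd hy e

end PLeaf

theorem p_leaf : S_leaf k := by
  intro G E q₀ p₀ N b n hM hE hb hn
  have hq := hM.1
  obtain ⟨l, rfl⟩ : ∃ l, n = N * b + l := by
    refine ⟨n - N * b, (Nat.add_sub_cancel' (Nat.le_of_mul_le_mul_left (?_ : q₀ * _ ≤ _) hq)).symm⟩
    nlinarith [Nat.zero_le (p₀ * b)]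
  set s := p₀ * b / q₀ + 1 with hs
  have h1 : p₀ * b < q₀ * s := (div_succ_le hq).1 le_rfl
  have h2 : s ≤ l := (div_succ_le hq).2 (by nlinarith)
  have h3 := (cyl_PU G 0 b s (N * b + l)).hv.elim 2 l
    ((pf_cc 0).aevalAeval ((((ps_X.pow b).mul (ps_var 1)).aevalAeval (ps_var 2) G).coeff
      (N * b + l)) E) (fun K _ _ γ c hγ => ?_) fun K _ _ γ hγ => ?_
  · rw [eU, (h3.congr (Q := PU G E b s (N * b + l)) fun K _ _ γ => ?_).mu_eq, sub_self]
    simp only [PU, Hit, map_zero, and_true, and_assoc]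
  · obtain ⟨a0, a1, a2, a3, -⟩ := hγ
    have h4 := (pow_dvd_pow _ (Nat.le_succ _)).trans (PLeaf.key hM hb h1 h2 (γ 1) a2 c)
    refine ⟨by simpa using a0, by simpa using a1, ?_, ?_, by simp⟩
    · simpa using dvd_add a2 ((pow_dvd_pow _ h2).mul_left _)
    · have := (dvd_sub_left a3).1 ((dvd_sub_left (dvd_mul_right _ _)).1 h4)
      simpa using this
  · obtain ⟨a0, a1, a2, -⟩ := hγ
    obtain ⟨δ, hδ, hu⟩ := hE K _ a0
    have hA : algebraMap k K (co G N 1) * cc (γ 1) ^ N ≠ 0 :=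
      mul_ne_zero ((_root_.map_ne_zero _).2 hM.2.1) (pow_ne_zero _ a1)
    have h4 : ∀ c : K, PowerSeries.coeff (N * b + l)
        (aevalAeval (tt ^ b * γ 1) (γ 2 + PowerSeries.C c * tt ^ l) G) =
        PowerSeries.coeff (N * b + l) (aevalAeval (tt ^ b * γ 1) (γ 2) G) +
          c * (algebraMap k K (co G N 1) * cc (γ 1) ^ N) := fun c => by
      have := (dvd_succ_iff.1 (PLeaf.key hM hb h1 h2 (γ 1) a2 c)).2
      rw [map_sub, map_sub, PowerSeries.coeff_X_pow_mul', if_pos le_rfl, Nat.sub_self,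
        PowerSeries.coeff_zero_C] at this
      linear_combination this
    have e0 : ∀ u, Function.update γ 2 u 0 = γ 0 := fun u => by simp
    have e1 : ∀ u, Function.update γ 2 u 1 = γ 1 := fun u => by simp
    simp only [e0, e1, Function.update_self, h4]
    refine ⟨(δ - PowerSeries.coeff (N * b + l) (aevalAeval (tt ^ b * γ 1) (γ 2) G)) /
      (algebraMap k K (co G N 1) * cc (γ 1) ^ N), ?_, fun c hc => ?_⟩
    · beta_reduce
      rw [div_mul_cancel₀ _ hA, add_sub_cancel]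
      exact hδ
    · rw [eq_div_iff hA, ← hu _ hc, add_sub_cancel_left]

theorem p_shearU : S_shearU k := by
  intro G E ζ b s n h
  refine PLeaf.shear (cyl_PU G E b s n) (cyl_PU _ E b s n) b ζ fun K _ _ γ => ?_
  have h1 := PLeaf.dvd_aeval h (dvd_mul_right (tt ^ b) (γ 1))
  simp only [PU, PLeaf.hit_sub, Matrix.cons_val, dvd_add_right h1]

theorem p_shearR : S_shearR k := by
  intro G E n
  refine ⟨(((cyl_PR G E n).hv.perm (Equiv.swap 1 2)).congr fun K _ _ γ => ?_).mu_eq,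
    fun ζ h => ?_⟩
  · have e0 : Equiv.swap (1 : Fin 3) 2 0 = 0 := by decide
    simp only [PR, Hit, ev_sw, Function.comp_apply, e0, Equiv.swap_apply_left,
      Equiv.swap_apply_right]
    tauto
  · refine PLeaf.shear (cyl_PR G E n) (cyl_PR _ E n) 0 ζ fun K _ _ γ => ?_
    simp only [PR, PLeaf.hit_sub, Matrix.cons_val, pow_zero, one_mul]
    refine and_congr_right fun _ => and_congr_right fun hy => and_congr_left fun _ => ?_
    have h1 := PLeaf.dvd_aeval (ζ := ζ) (b := 1) (s := 1) (y := γ 1) (fun e he => by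
      have : e ≠ 0 := fun e0 => mem_support_iff.1 he (e0 ▸ h)
      omega) (by simpa using hy)
    rw [pow_one] at h1
    exact (dvd_add_right h1).symm

end Pool.Agent.P.MP_b91a16_ag.LY
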