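import Pool.Agent.P.MP_b91a16_ag.LY.Stmt

/-! Le-Yomdin surfaces, package Loc: arcs through a singular point of the tangent cone. -/

open Polynomial

namespace Pool.Agent.P.MP_b91a16_ag.LY

noncomputable section

variable {k : Type} [Field k]

namespace PLoc

variable {K : Type} [Field K] [Algebra k K]

/-- The value `R(β, w)`. -/
def rv (R : Polynomial (P3 k)) (β : Fin 3 → PowerSeries K) (w : PowerSeries K) : PowerSeries K :=
  R.eval₂ (MvPolynomial.aeval β : P3 k →ₐ[k] PowerSeries K).toRingHom w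

theorem scale {f F : P3 k} {R : Polynomial (P3 k)} {d κ : ℕ} (hS : Split f d κ F R) (a : ℕ)
    (ω : PowerSeries K) (β : Fin 3 → PowerSeries K) :
    fa F R κ a (fun j => ω * β j) = ω ^ d * (MvPolynomial.aeval β F +
      tt ^ (κ * a) * (ω ^ κ * rv R β (tt ^ a * ω))) := by
  have h1 := hS (PowerSeries K) (tt ^ a) fun j => ω * β j
  have h2 := hS (PowerSeries K) (tt ^ a * ω) β
  simp only [mul_assoc] at h2
  rw [h1] at h2
  refine mul_left_cancel₀ (pow_ne_zero d (pow_ne_zero a (PowerSeries.X_ne_zero (R := K)))) ?_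
  rw [fa, rv]
  linear_combination h2

theorem cc_lv (L : Matrix (Fin 3) (Fin 3) k) {y z : PowerSeries K} (hy : tt ∣ y) (hz : tt ∣ z)
    (p : P3 k) : cc (MvPolynomial.aeval (lv L y z) p) =
      algebraMap k K (MvPolynomial.eval (fun i => L i 0) p) := by
  rw [PowerSeries.X_dvd_iff] at hy hz
  induction p using MvPolynomial.induction_on with
  | C c => simp [PowerSeries.algebraMap_apply]
  | add p q hp hq => simp only [map_add, hp, hq]
  | mul_X p i hp =>
    simp only [map_mul, hp, MvPolynomial.aeval_X, MvPolynomial.eval_X, lv, map_add, hy, hz]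
    simp [PowerSeries.algebraMap_apply]

theorem cc_rv (L : Matrix (Fin 3) (Fin 3) k) (R : Polynomial (P3 k)) {y z w : PowerSeries K}
    (hy : tt ∣ y) (hz : tt ∣ z) (hw : cc w = 0) : cc (rv R (lv L y z) w) =
      algebraMap k K (MvPolynomial.eval (fun i => L i 0) (R.coeff 0)) := by
  rw [rv, hom_eval₂, hw, eval₂_at_zero]
  exact cc_lv L hy hz _

theorem coeff_mul_of_dvd {n : ℕ} {H : PowerSeries K} (h : tt ^ n ∣ H) (u : PowerSeries K) :
    PowerSeries.coeff n (u * H) = cc u * PowerSeries.coeff n H := by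
  obtain ⟨H, rfl⟩ := h
  have e : ∀ G : PowerSeries K, PowerSeries.coeff n (tt ^ n * G) = cc G := fun G => by
    simpa using PowerSeries.coeff_X_pow_mul G n 0
  rw [mul_left_comm, e, e, map_mul]

theorem ht_unit {ω : PowerSeries K} (hω : cc ω ≠ 0) (ψ : k[X]) (n d : ℕ) (H : PowerSeries K) :
    Ht ψ n (ω ^ d * H) ↔ tt ^ n ∣ H ∧ aeval (cc ω ^ d * PowerSeries.coeff n H) ψ = 0 := by
  have hu : IsUnit (ω ^ d) := (PowerSeries.isUnit_iff_constantCoeff.2 (IsUnit.mk0 _ hω)).pow d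
  rw [Ht, hu.dvd_mul_left]
  refine and_congr_right fun h => ?_
  rw [coeff_mul_of_dvd h, map_pow]

theorem ev_EE (w δ : K) (d κ : ℕ) (ε : k) (ψ : k[X]) :
    aevalAeval w δ (EE d κ ε ψ) = aeval (w ^ d * (δ + algebraMap k K ε * w ^ κ)) ψ := by
  rw [EE, ← aeval_algHom_apply]
  simp only [map_mul, map_add, map_pow, aevalAeval_C, aevalAeval_Y, aeval_X, aeval_C]

theorem cc_tt {a : ℕ} (ha : 0 < a) (ω : PowerSeries K) : cc (tt ^ a * ω) = 0 := by
  simp [ha.ne']

theorem low {f F : P3 k} {R : Polynomial (P3 k)} {d κ a n : ℕ} (L : Matrix (Fin 3) (Fin 3) k)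
    (hS : Split f d κ F R) (ha : 0 < a) (hn : n ≤ κ * a) (ψ : k[X]) :
    mu (PP L F R κ a ψ n) = mu (PR (dh L F) (EE d κ
      (if n = κ * a then MvPolynomial.eval (fun i => L i 0) (R.coeff 0) else 0) ψ) n) := by
  refine mu_congr fun K _ _ γ => ?_
  refine and_congr_right fun h0 => and_congr_right fun h1 => and_congr_right fun h2 => ?_
  rw [scale hS, ht_unit h0, Hit, ev_EE, ev_dh,
    dvd_add_left ((pow_dvd_pow _ hn).mul_right _), map_add, PowerSeries.coeff_X_pow_mul']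
  refine and_congr_right fun _ => ?_
  by_cases h : n = κ * a
  · rw [if_pos h.ge, if_pos h, h, Nat.sub_self, PowerSeries.coeff_zero_eq_constantCoeff, map_mul,
      cc_rv L R h1 h2 (cc_tt ha _), map_pow, mul_comm (cc (γ 0) ^ κ)]
  · rw [if_neg (by omega), if_neg h, map_zero, zero_mul]

theorem shift (L : Matrix (Fin 3) (Fin 3) k) (R : Polynomial (P3 k)) {κ a l : ℕ} (ha : 0 < a)
    (hl : 0 < l) {y z : PowerSeries K} (hy : tt ∣ y) (hz : tt ∣ z) (ω : PowerSeries K) (c : K) :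
    ∃ U : PowerSeries K, (ω + PowerSeries.C c * tt ^ l) ^ κ *
      rv R (lv L y z) (tt ^ a * (ω + PowerSeries.C c * tt ^ l)) =
        ω ^ κ * rv R (lv L y z) (tt ^ a * ω) + tt ^ l * U ∧
      cc U = c * (κ * cc ω ^ (κ - 1) *
        algebraMap k K (MvPolynomial.eval (fun i => L i 0) (R.coeff 0))) := by
  obtain ⟨s, hs⟩ := powAddExpansion ω (PowerSeries.C c * tt ^ l) κ
  obtain ⟨q, hq⟩ : tt ^ a * (ω + PowerSeries.C c * tt ^ l) - tt ^ a * ω ∣
      rv R (lv L y z) (tt ^ a * (ω + PowerSeries.C c * tt ^ l)) - rv R (lv L y z) (tt ^ a * ω) := by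
    rw [rv, rv, eval₂_eq_eval_map, eval₂_eq_eval_map]
    exact sub_dvd_eval_sub _ _ _
  refine ⟨PowerSeries.C c * ((κ : PowerSeries K) * ω ^ (κ - 1) * rv R (lv L y z) (tt ^ a * ω)) +
    tt ^ l * (s * PowerSeries.C c ^ 2 * rv R (lv L y z) (tt ^ a * ω)) +
    tt ^ a * (PowerSeries.C c * q * (ω + PowerSeries.C c * tt ^ l) ^ κ), ?_, ?_⟩
  · rw [eq_add_of_sub_eq' hq]
    linear_combination (rv R (lv L y z) (tt ^ a * ω)) * hs
  · rw [map_add, map_add, cc_tt ha, cc_tt hl, add_zero, add_zero, map_mul, map_mul, map_mul,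
      cc_rv L R hy hz (cc_tt ha _), map_pow, map_natCast, PowerSeries.constantCoeff_C]

theorem upd {f F : P3 k} {R : Polynomial (P3 k)} {d κ a n : ℕ} (L : Matrix (Fin 3) (Fin 3) k)
    (hS : Split f d κ F R) (ha : 0 < a) (hn : κ * a < n) (γ : Fin 3 → PowerSeries K)
    (h : PP L F R κ a 0 n K γ) : ∃ δ : K, ∀ (c : K) (ψ : k[X]),
      PP L F R κ a ψ n K (Function.update γ 0 (γ 0 + PowerSeries.C c * tt ^ (n - κ * a))) ↔
        aeval (cc (γ 0) ^ d * (δ + c * (κ * cc (γ 0) ^ (κ - 1) *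
          algebraMap k K (MvPolynomial.eval (fun i => L i 0) (R.coeff 0))))) ψ = 0 := by
  obtain ⟨h0, h1, h2, h3⟩ := h
  rw [scale hS, ht_unit h0] at h3
  refine ⟨PowerSeries.coeff n (MvPolynomial.aeval (lv L (γ 1) (γ 2)) F +
    tt ^ (κ * a) * (γ 0 ^ κ * rv R (lv L (γ 1) (γ 2)) (tt ^ a * γ 0))), fun c ψ => ?_⟩
  have hl : 0 < n - κ * a := by omega
  have e0 : cc (γ 0 + PowerSeries.C c * tt ^ (n - κ * a)) = cc (γ 0) := by
    rw [map_add, mul_comm, cc_tt hl, add_zero]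
  obtain ⟨U, hU, hU'⟩ := shift L R (κ := κ) ha hl h1 h2 (γ 0) c
  have e1 : (tt : PowerSeries K) ^ (κ * a) * (tt ^ (n - κ * a) * U) = tt ^ n * U := by
    rw [← mul_assoc, ← pow_add, Nat.add_sub_cancel' hn.le]
  have e2 : PowerSeries.coeff n (tt ^ n * U) = cc U := by
    simpa using PowerSeries.coeff_X_pow_mul U n 0
  rw [PP, Function.update_self, Function.update_of_ne (by decide : (1 : Fin 3) ≠ 0),
    Function.update_of_ne (by decide : (2 : Fin 3) ≠ 0), scale hS, ht_unit (e0 ▸ h0), hU, mul_add,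
    ← add_assoc, e1, e0, map_add _ _ (tt ^ n * U), e2, hU']
  exact ⟨fun h => h.2.2.2.2, fun h => ⟨h0, h1, h2, dvd_add h3.1 (dvd_mul_right _ _), h⟩⟩

theorem high [CharZero k] {f F : P3 k} {R : Polynomial (P3 k)} {d κ a n : ℕ}
    (L : Matrix (Fin 3) (Fin 3) k) (hS : Split f d κ F R) (hκ : 0 < κ) (ha : 0 < a)
    (hn : κ * a < n) (c : k) (hε : MvPolynomial.eval (fun i => L i 0) (R.coeff 0) ≠ 0) :
    mu (PP L F R κ a (X - C c) n) = Linv k * mu (PP L F R κ a 0 n) := by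
  have key : ∀ (K : Type) [Field K] [Algebra k K] (γ : Fin 3 → PowerSeries K),
      (PP L F R κ a 0 n K γ ∧ PowerSeries.coeff n (fa F R κ a fun j =>
        γ 0 * lv L (γ 1) (γ 2) j) - algebraMap k K c = 0) ↔ PP L F R κ a (X - C c) n K γ := by
    intro K _ _ γ
    simp only [PP, Ht, map_zero, and_true, map_sub, aeval_X, aeval_C, and_assoc]
  have h := (cyl_PP L F R κ a 0 n).hv.elim 0 (n - κ * a)
    (((ps_fa F R κ a _ fun j => (ps_var 0).mul (ps_lv L (ps_var 1) (ps_var 2) j)).coeff n).sub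
      (pf_const c)) (fun K _ _ γ t hγ => ?_) fun K _ _ γ hγ => ?_
  · exact (h.congr key).mu_eq
  · obtain ⟨δ, hδ⟩ := upd L hS ha hn γ hγ
    exact (hδ t 0).2 (map_zero _)
  · obtain ⟨δ, hδ⟩ := upd L hS ha hn γ hγ
    have : CharZero K := charZero_of_injective_algebraMap (algebraMap k K).injective
    have h0 := hγ.1
    have hD : (κ * cc (γ 0) ^ (κ - 1) *
        algebraMap k K (MvPolynomial.eval (fun i => L i 0) (R.coeff 0)) : K) ≠ 0 :=
      mul_ne_zero (mul_ne_zero (Nat.cast_ne_zero.2 hκ.ne') (pow_ne_zero _ h0))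
        ((_root_.map_ne_zero _).2 hε)
    have e : ∀ t : K, _ ↔ _ := fun t =>
      ((and_iff_right ((hδ t 0).2 (map_zero _))).symm.trans (key K _)).trans (hδ t _)
    simp only [e, map_sub, aeval_X, aeval_C]
    generalize (κ * cc (γ 0) ^ (κ - 1) *
        algebraMap k K (MvPolynomial.eval (fun i => L i 0) (R.coeff 0)) : K) = D at hD
    have hw := pow_ne_zero d h0
    refine ⟨(algebraMap k K c / cc (γ 0) ^ d - δ) / D, ?_, fun t ht => ?_⟩
    · field_simp
      ring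
    · field_simp
      linear_combination ht

end PLoc

theorem p_loc [CharZero k] : S_loc k := by
  intro F R d κ a n L f _ hS hκ ha
  refine ⟨fun ψ h => ?_, fun ψ h => ?_, fun c h hε => PLoc.high L hS hκ ha h c hε⟩
  · rw [PLoc.low L hS ha h.le, if_neg h.ne]
  · rw [PLoc.low L hS ha h.le, if_pos h]

end

end Pool.Agent.P.MP_b91a16_ag.LY
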