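import Pool.Agent.P.MP_b91a16_ag.LY.Stmt

/-! Le-Yomdin surfaces: the zero set of a polynomial is null, the Mellin transform is
holomorphic. -/

open MeasureTheory

namespace Pool.Agent.P.MP_b91a16_ag.LY

noncomputable section

namespace PMel

lemma log_bound {u a ε σ : ℝ} (hu : 0 < u) (hε : 0 < ε) (h1 : a - ε ≤ σ) (h2 : σ ≤ a + ε) :
    u ^ σ * |Real.log u| ≤ (u ^ (a - 2 * ε) + u ^ (a + 2 * ε)) / ε := by
  have p1 := Real.rpow_pos_of_pos hu (a - 2 * ε)
  have p2 := Real.rpow_pos_of_pos hu (a + 2 * ε)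
  have p3 := Real.rpow_pos_of_pos hu σ
  rcases le_total 1 u with h | h
  · rw [abs_of_nonneg (Real.log_nonneg h)]
    have e1 := Real.log_le_rpow_div hu.le hε
    have e2 : u ^ σ * u ^ ε ≤ u ^ (a + 2 * ε) := by
      rw [← Real.rpow_add hu]
      exact Real.rpow_le_rpow_of_exponent_le h (by linarith)
    calc u ^ σ * Real.log u ≤ u ^ σ * (u ^ ε / ε) := by gcongr
      _ = u ^ σ * u ^ ε / ε := by ring
      _ ≤ _ := by gcongr; linarith
  · rw [abs_of_nonpos (Real.log_nonpos hu.le h), ← Real.log_inv]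
    have e1 := Real.log_le_rpow_div (inv_pos.2 hu).le hε
    rw [Real.inv_rpow hu.le, ← Real.rpow_neg hu.le] at e1
    have e2 : u ^ σ * u ^ (-ε) ≤ u ^ (a - 2 * ε) := by
      rw [← Real.rpow_add hu]
      exact Real.rpow_le_rpow_of_exponent_ge hu h (by linarith)
    calc u ^ σ * Real.log u⁻¹ ≤ u ^ σ * (u ^ (-ε) / ε) := by gcongr
      _ = u ^ σ * u ^ (-ε) / ε := by ring
      _ ≤ _ := by gcongr; linarith

end PMel

theorem p_null : S_null := by
  intro n
  induction n with
  | zero =>
    intro f hf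
    refine Filter.Eventually.of_forall fun x h => hf ?_
    rw [MvPolynomial.eq_C_of_isEmpty f] at h ⊢
    rw [MvPolynomial.eval_C] at h
    rw [h, map_zero]
  | succ n ih =>
    intro f hf
    have hq : MvPolynomial.finSuccEquiv ℂ n f ≠ 0 := by simpa using hf
    have h1 := ih _ (Polynomial.leadingCoeff_ne_zero.2 hq)
    have hc : Continuous fun p : ℂ × (Fin n → ℂ) =>
        MvPolynomial.eval (Fin.cons p.1 p.2 : Fin (n + 1) → ℂ) f :=
      (MvPolynomial.continuous_eval f).comp (continuous_pi fun i => by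
        refine Fin.cases ?_ (fun i => ?_) i
        · exact continuous_fst
        · exact (continuous_apply i).comp continuous_snd)
    have hm : MeasurableSet {p : ℂ × (Fin n → ℂ) |
        MvPolynomial.eval (Fin.cons p.1 p.2 : Fin (n + 1) → ℂ) f ≠ 0} :=
      (isOpen_ne_fun hc continuous_const).measurableSet
    have h2 : ∀ᵐ p : ℂ × (Fin n → ℂ),
        MvPolynomial.eval (Fin.cons p.1 p.2 : Fin (n + 1) → ℂ) f ≠ 0 := by
      refine (Measure.ae_prod_iff_ae_ae hm).2 ((Measure.ae_ae_comm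
        (p := fun (y : ℂ) (s : Fin n → ℂ) =>
          MvPolynomial.eval (Fin.cons y s : Fin (n + 1) → ℂ) f ≠ 0) hm).2 ?_)
      filter_upwards [h1] with s hs
      have h0 : (MvPolynomial.finSuccEquiv ℂ n f).map (MvPolynomial.eval s) ≠ 0 := fun h => hs (by
        have := congrArg (fun r => Polynomial.coeff r (MvPolynomial.finSuccEquiv ℂ n f).natDegree) h
        simpa using this)
      have h3 := (Polynomial.finite_setOfPred_isRoot h0).measure_zero (volume : Measure ℂ)
      rw [ae_iff]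
      simpa [MvPolynomial.eval_eq_eval_mv_eval'] using h3
    have h4 := (volume_preserving_piFinSuccAbove (fun _ : Fin (n + 1) => ℂ)
      0).quasiMeasurePreserving.ae h2
    filter_upwards [h4] with x hx
    simpa [MeasurableEquiv.piFinSuccAbove, Fin.insertNthEquiv] using hx

theorem p_mel : S_mel := by
  intro n f w σ₀ hf hw hI s₀ hs₀
  have hs : σ₀ < s₀.re := hs₀
  set ε := (s₀.re - σ₀) / 3 with hε
  have hε0 : 0 < ε := by linarith
  have hu : Continuous fun x : Fin n → ℂ => ((‖MvPolynomial.eval x f‖ ^ 2 : ℝ) : ℂ) :=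
    Complex.continuous_ofReal.comp ((MvPolynomial.continuous_eval f).norm.pow 2)
  have hm : ∀ s : ℂ, AEStronglyMeasurable
      (fun x : Fin n → ℂ => ((‖MvPolynomial.eval x f‖ ^ 2 : ℝ) : ℂ) ^ s * w x) volume := fun s =>
    ((hu.measurable.pow_const s).mul hw.measurable).aestronglyMeasurable
  have key := hasDerivAt_integral_of_dominated_loc_of_deriv_le (μ := volume) (𝕜 := ℂ)
    (F := fun s (x : Fin n → ℂ) => ((‖MvPolynomial.eval x f‖ ^ 2 : ℝ) : ℂ) ^ s * w x)
    (F' := fun s (x : Fin n → ℂ) => ((‖MvPolynomial.eval x f‖ ^ 2 : ℝ) : ℂ) ^ s *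
      Complex.log ((‖MvPolynomial.eval x f‖ ^ 2 : ℝ) : ℂ) * 1 * w x)
    (bound := fun x => (pw f (s₀.re - 2 * ε) x * ‖w x‖ + pw f (s₀.re + 2 * ε) x * ‖w x‖) / ε)
    (Metric.ball_mem_nhds s₀ hε0) (Filter.Eventually.of_forall hm) ?_ ?_ ?_ ?_ ?_
  · exact key.2.differentiableAt.differentiableWithinAt
  · refine (hI s₀.re hs).mono' (hm s₀) ?_
    filter_upwards [hf] with x hx
    have : 0 < ‖MvPolynomial.eval x f‖ ^ 2 := by positivity
    rw [norm_mul, Complex.norm_cpow_eq_rpow_re_of_pos this]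
    rfl
  · exact ((((hu.measurable.pow_const s₀).mul hu.measurable.clog).mul measurable_const).mul
      hw.measurable).aestronglyMeasurable
  · filter_upwards [hf] with x hx s hs
    have h0 : 0 < ‖MvPolynomial.eval x f‖ ^ 2 := by positivity
    have h1 : |s.re - s₀.re| ≤ ε := by
      rw [← Complex.sub_re]
      exact (Complex.abs_re_le_norm _).trans (mem_ball_iff_norm.1 hs).le
    have h2 := PMel.log_bound h0 hε0 (a := s₀.re) (σ := s.re) (by linarith [(abs_le.1 h1).1])
      (by linarith [(abs_le.1 h1).2])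
    rw [mul_one, norm_mul, norm_mul, Complex.norm_cpow_eq_rpow_re_of_pos h0,
      ← Complex.ofReal_log h0.le, Complex.norm_real, Real.norm_eq_abs, ← add_mul, ← div_mul_eq_mul_div]
    exact mul_le_mul_of_nonneg_right h2 (norm_nonneg _)
  · exact ((hI _ (by linarith)).add (hI _ (by linarith))).div_const ε
  · filter_upwards [hf] with x hx s _
    have h0 : 0 < ‖MvPolynomial.eval x f‖ ^ 2 := by positivity
    exact ((hasDerivAt_id s).const_cpow (Or.inl (by exact_mod_cast h0.ne'))).mul_const (w x)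

end

end Pool.Agent.P.MP_b91a16_ag.LY
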