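import Pool.Agent.P.MP_b91a16_ag.LY.Stmt

/-! Le-Yomdin surfaces: normal form of a plane curve singularity. -/

open Polynomial

namespace Pool.Agent.P.MP_b91a16_ag.LY

noncomputable section

namespace PNorm

variable {k : Type} [Field k]

theorem coeff_edge (G : P2 k) (i j : ℕ) : (edge G 1 1 (i + j)).coeff j = co G i j := by
  rw [edge, coeff_row, ← co_sub_zero one_pos 1 G i j, one_mul, one_mul]

theorem coeff_edge_gt (G : P2 k) {m j : ℕ} (h : m < j) : (edge G 1 1 m).coeff j = 0 := by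
  rw [edge, coeff_row]
  exact co_sub_zero' 1 1 G fun i => by omega

theorem edge_shear (G : P2 k) (a : k) (m : ℕ) :
    edge (sub 1 0 (C a * X) G) 1 1 m = taylor a (edge G 1 1 m) := by
  rw [edge, edge, ← row_sub_C, sub_sub, sub_sub]
  simp only [mul_one, mul_zero, zero_add, add_zero, pow_one, comp_X, X_mul_C]

theorem edge_sw (G : P2 k) (m : ℕ) : edge (sw G) 1 1 m = reflect m (edge G 1 1 m) := by
  ext j
  rw [coeff_reflect]
  rcases le_or_gt j m with h | h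
  · obtain ⟨i, rfl⟩ := Nat.exists_eq_add_of_le' h
    rw [revAt_le h, coeff_edge, co_sw, Nat.add_sub_cancel, add_comm, coeff_edge]
  · rw [revAt_eq_self_of_lt h, coeff_edge_gt _ h, coeff_edge_gt _ h]

theorem above_sw {G : P2 k} {m : ℕ} (h : Above G 1 1 m) : Above (sw G) 1 1 m := fun i j hij => by
  rw [co_sw] at hij
  have := h j i hij
  omega

theorem above_shear (hA : S_shA k) {G : P2 k} {m : ℕ} (h : Above G 1 1 m) {ζ : k[X]}
    (h0 : ζ.coeff 0 = 0) : Above (sub 1 0 ζ G) 1 1 m :=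
  (hA G ζ 1 1 m h).1 fun e he => by
    rcases Nat.eq_zero_or_pos e with rfl | h1
    · exact absurd h0 (mem_support_iff.1 he)
    · omega

theorem lin_zero (a : k) : (C a * X : k[X]).coeff 0 = 0 := by simp

theorem coeff_zero_of {ζ : k[X]} {a : ℕ} (h : ∀ e ∈ ζ.support, a < 1 * e) : ζ.coeff 0 = 0 :=
  notMem_support_iff.1 fun h0 => by simpa using h 0 h0

theorem reflect_pow (d : k) (n : ℕ) : reflect n ((X - C d) ^ n) = (1 - C d * X) ^ n := by
  induction n with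
  | zero => simp
  | succ n ih =>
    rw [pow_succ, reflect_mul _ _ (natDegree_pow_le_of_le n (natDegree_X_sub_C_le d) |>.trans
      (mul_one n).le) (natDegree_X_sub_C_le d), ih, reflect_sub, reflect_one_X, reflect_C, pow_one,
      pow_succ]

theorem bad_form {c a₁ a₂ : k} (h : a₁ ≠ a₂) (m₁ m₂ : ℕ) :
    taylor (a₁ - a₂)⁻¹ (reflect (m₁ + m₂) (taylor a₂ (C c * (X - C a₁) ^ m₁ * (X - C a₂) ^ m₂))) =
      C (c * (a₂ - a₁) ^ m₁) * X ^ m₁ := by
  have h1 : taylor a₂ (C c * (X - C a₁) ^ m₁ * (X - C a₂) ^ m₂) =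
      C c * ((X - C (a₁ - a₂)) ^ m₁ * X ^ m₂) := by
    simp only [taylor_apply, mul_comp, pow_comp, sub_comp, C_comp, X_comp, add_sub_cancel_right,
      map_sub, mul_assoc]
    congr 3
    ring
  have h2 : C (a₁ - a₂) * C (a₁ - a₂)⁻¹ = (1 : k[X]) := by
    rw [← map_mul, mul_inv_cancel₀ (sub_ne_zero.2 h), map_one]
  rw [h1, reflect_C_mul, reflect_mul _ _ (natDegree_pow_le_of_le m₁ (natDegree_X_sub_C_le _)
    |>.trans (mul_one m₁).le) (natDegree_X_pow_le m₂), reflect_pow, reflect_monomial, revAt_le le_rfl,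
    Nat.sub_self, pow_zero, mul_one]
  simp only [taylor_apply, mul_comp, pow_comp, sub_comp, C_comp, X_comp, one_comp]
  rw [mul_add, h2, map_mul, map_pow, mul_assoc, ← mul_pow]
  congr 2
  simp only [map_sub]
  ring

end PNorm

open PNorm in
theorem p_norm {k : Type} [Field k] [CharZero k] (hA : S_shA k) (_hM : S_shM k)
    (hK : S_kids k) (hC : S_centre k) (hB : S_bez k) : S_norm k := by
  intro pr hI H g hg h2
  have hex : ∃ n, ∃ i j, co g i j ≠ 0 ∧ i + j = n := by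
    by_contra h
    push Not at h
    exact hg.ne_zero (co_ext fun i j => by
      simpa [co] using not_not.1 fun e => h _ i j e rfl)
  classical
  obtain ⟨i₀, j₀, h0, hm⟩ := Nat.find_spec hex
  have hab : Above g 1 1 (Nat.find hex) := fun i j hij => by
    simpa using Nat.find_min' hex ⟨i, j, hij, rfl⟩
  generalize Nat.find hex = m at hm hab
  have hm2 : 2 ≤ m := by simpa [hm] using h2 i₀ j₀ h0
  have he : edge (sw g) 1 1 m ≠ 0 := fun e => h0 (by
    rw [← co_sw, ← coeff_edge, add_comm, hm, e, coeff_zero])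
  obtain ⟨a, ha⟩ : ∃ a, eval a (edge (sw g) 1 1 m) ≠ 0 := by
    by_contra h
    push Not at h
    exact he (Polynomial.funext fun r => by rw [h, eval_zero])
  refine hI.1 _ (hI.2 _ _ (lin_zero a) (hI.1 _ ?_))
  have s1 := (hB.2.2 _ 0 (hB.2.2 _ (C a * X) (hB.2.2 g 0 hg).2).1).2
  have a1 := above_sw (above_shear hA (above_sw hab) (lin_zero a))
  have c1 : co (sw (sub 1 0 (C a * X) (sw g))) 0 m ≠ 0 := by
    rw [co_sw, ← coeff_edge, add_zero, edge_shear, taylor_coeff_zero]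
    exact ha
  generalize sw (sub 1 0 (C a * X) (sw g)) = G₁ at s1 a1 c1
  obtain ⟨ζ, q, p, hζ, -, hT, hTwo⟩ := hC G₁ 1 0 0 m
    ⟨one_pos, c1, fun i j _ => by simp, fun i j hj hij => by have := a1 i j hij; omega⟩ hm2
    (hB.2.1 _ s1)
  have z2 := coeff_zero_of hζ
  refine hI.2 _ _ z2 ?_
  have s2 := (hB.2.2 _ ζ s1).1
  have a2 := above_shear hA a1 z2
  generalize sub 1 0 ζ G₁ = G₂ at hT hTwo s2 a2
  obtain ⟨k1, k2, k3⟩ := hK G₂ q p 0 m hT
  have hqp : q ≤ p := by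
    obtain ⟨⟨N₀, m₀, h1, h3, h4⟩, -⟩ := k3 hTwo
    have h5 := a2 _ _ h4.2.1
    obtain ⟨u, rfl⟩ := Nat.exists_eq_add_of_lt h1
    by_contra h6
    have h7 : (p + 1) * (u + 1) ≤ q * N₀ := Nat.mul_le_mul (by omega) (by omega)
    nlinarith
  by_cases hb : q < p ∨ ¬Bad (edge G₂ q p (q * 0 + p * m))
  · exact H G₂ q p 0 m s2 hT hm2 (Nat.zero_le _) hqp hTwo (hb.imp_right .inr)
  rw [not_or, not_not] at hb
  obtain ⟨hb1, c, a₁, a₂, m₁, m₂, h12, hm0, hm1, hφ⟩ := hb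
  obtain rfl : q = p := by omega
  obtain rfl : q = 1 := (Nat.coprime_self _).1 hT.2.2.1
  rw [mul_zero, zero_add, one_mul] at hφ k1 k2
  have hc : c ≠ 0 := fun e => k1 (by rw [hφ, e]; simp)
  have hm' : m₁ + m₂ = m := by
    rw [← k2, hφ, mul_assoc, natDegree_C_mul hc, Monic.natDegree_mul ((monic_X_sub_C _).pow _)
      ((monic_X_sub_C _).pow _)]
    simp
  subst hm'
  refine hI.2 _ _ (lin_zero a₂) (hI.1 _ (hI.2 _ _ (lin_zero (a₁ - a₂)⁻¹) ?_))
  have s5 := (hB.2.2 _ (C (a₁ - a₂)⁻¹ * X) (hB.2.2 _ 0 (hB.2.2 _ (C a₂ * X) s2).1).2).1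
  have a5 := above_shear hA (above_sw (above_shear hA a2 (lin_zero a₂))) (lin_zero (a₁ - a₂)⁻¹)
  have e5 : edge (sub 1 0 (C (a₁ - a₂)⁻¹ * X) (sw (sub 1 0 (C a₂ * X) G₂))) 1 1 (m₁ + m₂) =
      C (c * (a₂ - a₁) ^ m₁) * X ^ m₁ := by
    rw [edge_shear, edge_sw, edge_shear, hφ, bad_form h12]
  generalize sub 1 0 (C (a₁ - a₂)⁻¹ * X) (sw (sub 1 0 (C a₂ * X) G₂)) = G₅ at s5 a5 e5
  obtain ⟨ζ', q', p', hζ', hqp', hT', hTwo'⟩ := hC G₅ 1 1 m₂ m₁
    ⟨one_pos, by
      rw [← coeff_edge, add_comm, e5, coeff_C_mul_X_pow, if_pos rfl]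
      exact mul_ne_zero hc (pow_ne_zero _ (sub_ne_zero.2 h12.symm)),
    fun i j hij => by have := a5 i j hij; omega, fun i j hj hij => by
      have h3 := a5 i j hij
      refine lt_of_le_of_ne (by omega) fun e => hij ?_
      rw [← coeff_edge, show i + j = m₁ + m₂ by omega, e5, coeff_C_mul_X_pow, if_neg hj.ne]⟩
    (by omega) (hB.2.1 _ s5)
  exact hI.2 _ _ (coeff_zero_of hζ') (H _ q' p' m₂ m₁ (hB.2.2 _ ζ' s5).1 hT' (by omega) hm1.le
    (by omega) hTwo' (.inl (by omega)))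

end

end Pool.Agent.P.MP_b91a16_ag.LY
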