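import Pool.Agent.P.MP_b91a16_ag.LY.Stmt

/-! Le-Yomdin surfaces: the zeta function as a sum over arcs, and the order of an arc. -/

set_option linter.unusedSectionVars false

open Polynomial

namespace Pool.Agent.P.MP_b91a16_ag.LY

noncomputable section

variable {k : Type} [Field k]

namespace POrd

theorem GG_zero {σ ι K : Type} [Fintype σ] [Fintype ι] [Field K] [Algebra k K] (u : ι → σ → ℕ)
    (a : ι → k) (y : σ → PowerSeries K) : GG u a 0 y = MvPolynomial.aeval y (fpoly u a) := by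
  simp [GG, fpoly, PowerSeries.algebraMap_apply]

theorem ht_one {K : Type} [Field K] [Algebra k K] (n : ℕ) (F : PowerSeries K) :
    Ht (X - C (1 : k)) n F ↔ ∀ p ≤ n, PowerSeries.coeff p F = if p = n then 1 else 0 := by
  simp only [Ht, map_sub, aeval_X, map_one, sub_eq_zero, PowerSeries.X_pow_dvd_iff]
  refine ⟨fun h p hp => ?_, fun h => ⟨fun p hp => ?_, ?_⟩⟩
  · split_ifs with e
    · rw [e, h.2]
    · exact h.1 p (by omega)
  · rw [h p hp.le, if_neg hp.ne]
  · rw [h n le_rfl, if_pos rfl]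

theorem mu_one (f : P3 k) (m : ℕ) :
    mu (PZ f (X - C 1) (m + 1)) = Linv k ^ 3 * PowerSeries.coeff (m + 1) (zeta f) := by
  classical
  have e : fpoly (fun (v : f.support) j => v.1 j) (fun v => MvPolynomial.coeff v.1 f) = f := by
    conv_rhs => rw [f.as_sum, ← Finset.sum_coe_sort]
    exact Finset.sum_congr rfl fun v _ => by
      rw [MvPolynomial.monomial_eq, Finsupp.prod_fintype _ _ fun _ => pow_zero _]
  have h := hasVol_XP (fun v : f.support => MvPolynomial.coeff v.1 f) (fun v j => v.1 j) (m + 1)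
  rw [e] at h
  rw [zeta, series, PowerSeries.coeff_mk, if_neg m.succ_ne_zero]
  have h1 : HV (k := k) (fun K _ _ (β : Fin 3 → PowerSeries K) =>
      Ht (X - C (1 : k)) (m + 1) (MvPolynomial.aeval (fun j => tt * β j) f)) _ :=
    h.congr fun K _ _ x => by simp only [XP, GG_zero, e, ht_one]
  have h2 := h1.shift fun _ => 1
  simp only [Finset.sum_const, Finset.card_univ, Fintype.card_fin, smul_eq_mul, mul_one,
    pow_one] at h2
  refine (h2.congr fun K _ _ γ => ⟨?_, ?_⟩).mu_eq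
  · rintro ⟨β, h3, h4⟩
    obtain rfl : γ = fun j => tt * β j := funext h3
    exact ⟨fun j => dvd_mul_right _ _, h4⟩
  · rintro ⟨h3, h4⟩
    choose β hβ using h3
    obtain rfl : γ = fun j => tt * β j := funext hβ
    exact ⟨β, fun _ => rfl, h4⟩

theorem eZ_zero (f : P3 k) (n : ℕ) :
    eZ f 0 n = mu (PZ f 0 (n + 1)) - Linv k * mu (PZ f 0 n) := by
  rw [eZ]
  congr 1
  exact mu_congr fun K _ _ γ => by simp [PZ, Ht, dvd_succ_iff]

theorem dec {K : Type} [Field K] (γ : Fin 3 → PowerSeries K) (h : ∀ j, tt ∣ γ j) (a₀ : ℕ) :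
    (∀ j, tt ^ a₀ ∣ γ j) ∨
      ∃ a ∈ Finset.Ico 1 a₀, (∀ j, tt ^ a ∣ γ j) ∧ ¬∀ j, tt ^ (a + 1) ∣ γ j := by
  induction a₀ with
  | zero => exact Or.inl fun j => by simp
  | succ a₀ ih =>
    by_cases h1 : ∀ j, tt ^ (a₀ + 1) ∣ γ j
    · exact Or.inl h1
    rcases ih with h2 | ⟨a, ha, h2⟩
    · refine Or.inr ⟨a₀, Finset.mem_Ico.2 ⟨Nat.pos_of_ne_zero ?_, by omega⟩, h2, h1⟩
      rintro rfl
      exact h1 (by simpa using h)
    · exact Or.inr ⟨a, Finset.mem_Ico.2 (by have := Finset.mem_Ico.1 ha; omega), h2⟩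

theorem not_dvd {K : Type} [Field K] {β : Fin 3 → PowerSeries K} (a : ℕ) :
    (¬∀ j, tt ^ (a + 1) ∣ tt ^ a * β j) ↔ ∃ j, cc (β j) ≠ 0 := by
  have h : (tt : PowerSeries K) ^ a ≠ 0 := pow_ne_zero a PowerSeries.X_ne_zero
  simp only [not_forall, pow_succ, mul_dvd_mul_iff_left h, PowerSeries.X_dvd_iff]

theorem aeval_shift {f F : P3 k} {R : Polynomial (P3 k)} {d κ : ℕ} (h : Split f d κ F R)
    {K : Type} [Field K] [Algebra k K] (a : ℕ) (β : Fin 3 → PowerSeries K) :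
    MvPolynomial.aeval (fun j => tt ^ a * β j) f = tt ^ (d * a) * fa F R κ a β := by
  rw [h, fa]
  ring

theorem ht_shift {K : Type} [Field K] [Algebra k K] (ψ : k[X]) {n r : ℕ} (h : r ≤ n)
    (G : PowerSeries K) : Ht ψ n (tt ^ r * G) ↔ Ht ψ (n - r) G := by
  obtain ⟨n, rfl⟩ := Nat.exists_eq_add_of_le h
  rw [Ht, Ht, PowerSeries.coeff_X_pow_mul', if_pos h, Nat.add_sub_cancel_left, pow_add,
    mul_dvd_mul_iff_left (pow_ne_zero r PowerSeries.X_ne_zero)]

theorem cc_fa (F : P3 k) (R : Polynomial (P3 k)) {κ a : ℕ} (h : κ * a ≠ 0) {K : Type} [Field K]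
    [Algebra k K] (β : Fin 3 → PowerSeries K) :
    cc (fa F R κ a β) = MvPolynomial.aeval (fun j => cc (β j)) F := by
  rw [fa, map_add, map_mul, map_pow, PowerSeries.constantCoeff_X, zero_pow h, zero_mul, add_zero]
  induction F using MvPolynomial.induction_on with
  | C c => simp [PowerSeries.algebraMap_apply]
  | add p q hp hq => simp only [map_add, hp, hq]
  | mul_X p i hp => simp only [map_mul, hp, MvPolynomial.aeval_X]

theorem ht_top (F : P3 k) (R : Polynomial (P3 k)) {d κ n : ℕ} (ψ : k[X]) (hd : 0 < d)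
    (h : κ * cdiv n d ≠ 0) {K : Type} [Field K] [Algebra k K] (β : Fin 3 → PowerSeries K) :
    Ht ψ n (tt ^ (d * cdiv n d) * fa F R κ (cdiv n d) β) ↔
      TZ (if d ∣ n then F else 0) ψ K β := by
  have h1 : n ≤ d * cdiv n d := (cdiv_le hd).1 le_rfl
  rw [Ht, TZ, and_iff_right ((pow_dvd_pow _ h1).mul_right _), PowerSeries.coeff_X_pow_mul']
  by_cases h2 : d ∣ n
  · obtain ⟨c, hc⟩ := h2
    have h3 : d * cdiv n d ≤ n := hc ▸ Nat.mul_le_mul_left d ((cdiv_le hd).2 le_rfl)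
    rw [if_pos h3, if_pos ⟨c, hc⟩, Nat.sub_eq_zero_of_le h1,
      PowerSeries.coeff_zero_eq_constantCoeff_apply, cc_fa F R h]
  · rw [if_neg h2, if_neg fun h3 => h2 ⟨_, le_antisymm h1 h3⟩, map_zero]

end POrd

open POrd

theorem p_zeta : S_zeta k := by
  intro f S h
  have h1 := fun c => poleRing_mono (Finset.subset_insert (1, 1) S) (h c)
  have h2 : PowerSeries.mk (fun n => mu (PZ f 0 n)) ∈ poleRing k (insert (1, 1) S) := by
    refine mem_of_mul (Finset.mem_insert_self _ _) one_pos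
      (mem_of_congr (mul_mem (X_mem_poleRing _) (h1 0)) 1 fun n hn => ?_)
    obtain ⟨n, rfl⟩ : ∃ m, n = m + 1 := ⟨n - 1, by omega⟩
    simp [sub_mul, mul_assoc, PowerSeries.coeff_succ_X_mul, eZ_zero]
  refine mem_of_congr (Subalgebra.smul_mem _ (add_mem (h1 1) (Subalgebra.smul_mem _ h2 (Linv k)))
    (algebraMap (K0 k) (Mot k) (cls k k[X]) ^ 3)) 1 fun n hn => ?_
  obtain ⟨n, rfl⟩ : ∃ m, n = m + 1 := ⟨n - 1, by omega⟩
  simp only [map_smul, map_add, PowerSeries.coeff_mk, smul_eq_mul, eZ, sub_add_cancel]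
  rw [mu_one, ← mul_assoc, ← mul_pow, L_mul_Linv, one_pow, one_mul]

theorem p_ord : S_ord k := by
  intro f F R d κ n ψ hd hκ hn hS
  have h0 : 0 < cdiv n d := (lt_cdiv hd).2 (by simpa using hn)
  have e3 : ∀ a : ℕ, ∑ _j : Fin 3, a = 3 * a := fun a => by simp
  have h1 := (cyl_TZ (if d ∣ n then F else 0) ψ).hv.shift fun _ => cdiv n d
  have h2 := hv_sum (Finset.Ico 1 (cdiv n d)) _ _
    (fun a _ => (cyl_PA F R κ a ψ (n - d * a)).hv.shift fun _ => a) (by
      have key : ∀ (K : Type) [Field K] (β β' : Fin 3 → PowerSeries K) (a b : ℕ),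
          (∀ j, tt ^ a * β j = tt ^ b * β' j) → (∃ j, cc (β j) ≠ 0) → b ≤ a :=
        fun K _ β β' a b e h => not_lt.1 fun hab => (not_dvd a).2 h fun j =>
          e j ▸ (pow_dvd_pow _ hab).mul_right _
      rintro K _ _ γ a - b - ⟨β, e, h, -⟩ ⟨β', e', h', -⟩
      exact le_antisymm (key K β' β b a (fun j => (e' j).symm.trans (e j)) h')
        (key K β β' a b (fun j => (e j).symm.trans (e' j)) h))
  simp only [e3] at h1 h2
  refine ((h1.union h2 ?_).congr fun K _ _ γ => ⟨?_, ?_⟩).mu_eq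
  · rintro K _ _ γ ⟨β, e, -⟩ ⟨a, ha, β', e', h', -⟩
    exact (not_dvd a).2 h' fun j => e' j ▸ e j ▸
      (pow_dvd_pow _ (Finset.mem_Ico.1 ha).2).mul_right _
  · rintro (⟨β, e, h⟩ | ⟨a, ha, β, e, -, h⟩)
    · obtain rfl : γ = fun j => tt ^ cdiv n d * β j := funext e
      refine ⟨fun j => (dvd_pow_self _ h0.ne').mul_right _, ?_⟩
      rwa [aeval_shift hS, ht_top F R ψ hd (mul_pos hκ h0).ne']
    · obtain rfl : γ = fun j => tt ^ a * β j := funext e
      have := Finset.mem_Ico.1 ha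
      refine ⟨fun j => (dvd_pow_self _ (by omega)).mul_right _, ?_⟩
      rwa [aeval_shift hS, ht_shift ψ ((lt_cdiv hd).1 this.2).le]
  · rintro ⟨h3, h4⟩
    rcases dec γ h3 (cdiv n d) with h5 | ⟨a, ha, h5, h6⟩
    · choose β hβ using h5
      obtain rfl : γ = fun j => tt ^ cdiv n d * β j := funext hβ
      rw [aeval_shift hS, ht_top F R ψ hd (mul_pos hκ h0).ne'] at h4
      exact Or.inl ⟨β, fun _ => rfl, h4⟩
    · choose β hβ using h5
      obtain rfl : γ = fun j => tt ^ a * β j := funext hβ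
      rw [aeval_shift hS, ht_shift ψ ((lt_cdiv hd).1 (Finset.mem_Ico.1 ha).2).le] at h4
      exact Or.inr ⟨a, ha, β, fun _ => rfl, (not_dvd a).1 h6, h4⟩

end

end Pool.Agent.P.MP_b91a16_ag.LY
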