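import Pool.Agent.P.MP_b91a16_ag.LY.Stmt

/-! Le-Yomdin surfaces: transfer of the Bernstein-Sato identity along a chart. -/

open MvPolynomial

namespace Pool.Agent.P.MP_b91a16_ag.LY

noncomputable section

namespace PRa

variable {k B : Type} [Field k] [CommRing B] [Algebra k B] (θ : Fin 3 → B)
  (D : Fin 3 → Derivation k B B)

theorem adj_der (j : Fin 3) (h : P3 k) :
    ∑ i, (Matrix.of fun i j => D i (θ j)).adjugate j i * D i (aeval θ h) =
      (Matrix.of fun i j => D i (θ j)).det * aeval θ (pderiv j h) := by
  have e : ∀ l, ∑ i, (Matrix.of fun i j => D i (θ j)).adjugate j i * D i (θ l) =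
      if j = l then (Matrix.of fun i j => D i (θ j)).det else 0 := fun l => by
    have := congrFun (congrFun (Matrix.adjugate_mul (Matrix.of fun i j => D i (θ j))) j) l
    simpa [Matrix.mul_apply, Matrix.one_apply] using this
  simp only [der_aeval, Finset.mul_sum]
  rw [Finset.sum_comm]
  simp only [mul_left_comm _ (aeval θ _), ← Finset.mul_sum, e, mul_ite, mul_zero,
    Finset.sum_ite_eq, Finset.mem_univ, if_true]
  exact mul_comm _ _

theorem piola (hc : ∀ i i' j, D i (D i' (θ j)) = D i' (D i (θ j))) (j : Fin 3) :
    ∑ i, D i ((Matrix.of fun i j => D i (θ j)).adjugate j i) = 0 := by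
  rw [Matrix.adjugate_fin_three, Fin.sum_univ_three]
  fin_cases j <;>
  · simp [hc 1 0, hc 2 0, hc 2 1]
    ring

end PRa

open PRa in
theorem p_ra {k : Type} [Field k] [CharZero k] : S_ra k := by
  intro B W _ _ _ _ f b s θ D Λ hf hb hc h1 h2 h3
  obtain ⟨K, h, hh, q⟩ := bern_closure_loc hf hb
    (fun K g => ∀ p : P3 k, Λ K ((Matrix.of fun i j => D i (θ j)).det * aeval θ p *
      aeval θ (spec s g)) = 0)
    (fun p => by rw [spec_lift, mul_comm, ← mul_assoc, h3])
    (fun K g g' e e' p => by rw [map_add, map_add, mul_add, map_add, e, e', add_zero])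
    (fun K r g e p => by
      refine Eq.trans (congrArg _ ?_) (e (p * spec s (C r)))
      simp only [map_mul, mul_assoc])
    (fun K j g e p => by
      refine Eq.trans (congrArg _ ?_) (e (p * spec s (X j)))
      simp only [map_mul, mul_assoc])
    (fun K g e p => by
      refine Eq.trans (congrArg _ ?_) ((h1 K _).trans (e p))
      simp only [map_mul, spec_lift]
      ring)
    (fun K j g e p => by
      have e1 := Finset.sum_eq_zero (s := Finset.univ) fun i _ => h2 K
        ((Matrix.of fun i j => D i (θ j)).adjugate j i * aeval θ p * aeval θ (spec s g)) i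
      have e2 := (h1 K _).trans (e (pderiv j p))
      rw [← map_sum] at e1
      refine Eq.trans (congrArg _ ?_) ((map_sub _ _ _).trans (sub_eq_zero.2 (e1.trans e2.symm)))
      have a0 := piola θ D hc j
      have a1 := adj_der θ D j p
      have a2 := adj_der θ D j (spec s g)
      have a3 := adj_der θ D j f
      simp only [Fin.sum_univ_three] at a0 a1 a2 a3 ⊢
      simp only [map_add, map_mul, spec_lift, spec_C, spec_pderiv, Polynomial.eval_sub,
        Polynomial.eval_X, Polynomial.eval_natCast, aeval_C, Derivation.leibniz, smul_eq_mul,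
        Algebra.smul_def]
      linear_combination -(aeval θ f * aeval θ p * aeval θ (spec s g)) * a0 -
        (aeval θ f * aeval θ (spec s g)) * a1 - (aeval θ f * aeval θ p) * a2 -
        (algebraMap k B (s - K) * aeval θ p * aeval θ (spec s g)) * a3)
  have h4 : ∀ (K : ℕ) u, Λ K (aeval θ f ^ K * u) = Λ 0 u := fun K u => by
    induction K with
    | zero => rw [pow_zero, one_mul]
    | succ K ih => rw [pow_succ', mul_assoc, h1, ih]
  refine ⟨h, hh, ?_⟩
  rw [← map_smul, ← h4 K, ← q 1]
  congr 1
  simp only [map_mul, map_pow, spec_lift, spec_C, aeval_C, map_one, Algebra.smul_def]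
  ring

end

end Pool.Agent.P.MP_b91a16_ag.LY
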