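import Pool.Agent.P.MP_b91a16_ag.LY.Stmt

/-! Le-Yomdin surfaces: the functionals attached to a good polynomial. -/

open Polynomial

namespace Pool.Agent.P.MP_b91a16_ag.LY

noncomputable section

variable {k : Type} [Field k]

namespace PRho

/-- `p ↦ p / φ^j`. -/
def dv (φ : k[X]) (j : ℕ) : k[X] →ₗ[k] RatFunc k :=
  LinearMap.mulRight k ((algebraMap k[X] (RatFunc k) φ ^ j)⁻¹) ∘ₗ
    (IsScalarTower.toAlgHom k k[X] (RatFunc k)).toLinearMap

theorem dv_apply (φ : k[X]) (j : ℕ) (p : k[X]) :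
    dv φ j p = algebraMap k[X] (RatFunc k) p * (algebraMap k[X] (RatFunc k) φ ^ j)⁻¹ := rfl

theorem dv_succ {φ : k[X]} (hφ : φ ≠ 0) (j : ℕ) (p : k[X]) : dv φ (j + 1) (p * φ) = dv φ j p := by
  have h : algebraMap k[X] (RatFunc k) φ ≠ 0 := RatFunc.algebraMap_ne_zero hφ
  rw [dv_apply, dv_apply, map_mul]
  field_simp
  ring

theorem dv_pow {φ : k[X]} (hφ : φ ≠ 0) (j : ℕ) (p : k[X]) : dv φ j (p * φ ^ j) = dv φ 0 p := by
  induction j with
  | zero => simp
  | succ j ih => rw [pow_succ, ← mul_assoc, dv_succ hφ, ih]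

theorem dv_inj {φ : k[X]} (hφ : φ ≠ 0) (j : ℕ) : Function.Injective (dv φ j) := by
  intro p p' h
  have h0 : algebraMap k[X] (RatFunc k) φ ≠ 0 := RatFunc.algebraMap_ne_zero hφ
  rw [dv_apply, dv_apply] at h
  exact RatFunc.algebraMap_injective k (mul_right_cancel₀ (inv_ne_zero (pow_ne_zero j h0)) h)

/-- The numerator of an exact form. -/
def tw (φ : k[X]) (l : k) (j : ℕ) : k[X] →ₗ[k] k[X] :=
  LinearMap.mulRight k φ ∘ₗ derivative - LinearMap.mulRight k (C (l + j) * derivative φ)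

theorem tw_apply (φ : k[X]) (l : k) (j : ℕ) (P : k[X]) :
    tw φ l j P = derivative P * φ - P * (C (l + j) * derivative φ) := rfl

theorem tw_succ (φ : k[X]) (l : k) (j : ℕ) (P : k[X]) :
    tw φ l (j + 1) (P * φ) = tw φ l j P * φ := by
  rw [tw_apply, tw_apply, derivative_mul]
  simp only [map_add, Nat.cast_add, Nat.cast_one, map_one]
  ring

theorem exists_sigma {φ : k[X]} {l : k} (h : Good φ l) : ∃ σ : ℕ → k[X] →ₗ[k] k,
    (∀ j p, σ (j + 1) (p * φ) = σ j p) ∧ (∀ j P, σ (j + 1) (tw φ l j P) = 0) ∧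
      σ 0 (derivative φ) = 0 ∧ σ 0 1 ≠ 0 := by
  have hφ : φ ≠ 0 := by
    rintro rfl
    exact h 0 0 0 (by simp)
  let E : ℕ → Submodule k (RatFunc k) := fun j => LinearMap.range (dv φ (j + 1) ∘ₗ tw φ l j)
  have hE : Monotone E := monotone_nat_of_le_succ fun j => by
    rintro _ ⟨P, rfl⟩
    exact ⟨P * φ, by simp only [LinearMap.comp_apply, tw_succ, dv_succ hφ]⟩
  have h1 : dv φ 0 1 ∉ (⨆ j, E j) ⊔ k ∙ dv φ 0 (derivative φ) := by
    intro hm
    obtain ⟨a, ha, b, hb, hab⟩ := Submodule.mem_sup.1 hm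
    obtain ⟨j, P, rfl⟩ := (Submodule.mem_iSup_of_directed E hE.directed_le).1 ha
    obtain ⟨c, rfl⟩ := Submodule.mem_span_singleton.1 hb
    rw [← dv_pow hφ (j + 1), ← dv_pow hφ (j + 1) 1, LinearMap.comp_apply, ← map_smul,
      ← map_add] at hab
    have := dv_inj hφ _ hab
    refine h P j c ?_
    rw [tw_apply, smul_eq_C_mul] at this
    linear_combination this
  obtain ⟨f, hf, hk⟩ := Submodule.exists_le_ker_of_notMem h1
  refine ⟨fun j => f ∘ₗ dv φ j, fun j p => ?_, fun j P => ?_, ?_, hf⟩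
  · simp only [LinearMap.comp_apply, dv_succ hφ]
  · exact hk (Submodule.mem_sup_left (Submodule.mem_iSup_of_mem j ⟨P, rfl⟩))
  · exact hk (Submodule.mem_sup_right (Submodule.mem_span_singleton_self _))

theorem exists_prim [CharZero k] : ∃ I : k[X] →ₗ[k] k[X], (∀ p, derivative (I p) = p) ∧
    ∀ p, ∃ c, I (derivative p) = p + C c := by
  have hs : LinearMap.range (derivative : k[X] →ₗ[k] k[X]) = ⊤ := by
    rw [eq_top_iff]
    intro p hp
    clear hp
    induction p using Polynomial.induction_on' with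
    | add p q hp hq => exact add_mem hp hq
    | monomial n c =>
      refine ⟨monomial (n + 1) (c / (n + 1)), ?_⟩
      have : ((n : k) + 1) ≠ 0 := by exact_mod_cast Nat.succ_ne_zero n
      rw [derivative_monomial_succ, div_mul_cancel₀ _ this]
  obtain ⟨I, hI⟩ := LinearMap.exists_rightInverse_of_surjective _ hs
  have h1 : ∀ p, derivative (I p) = p := fun p => LinearMap.congr_fun hI p
  refine ⟨I, h1, fun p => ⟨(I (derivative p) - p).coeff 0, ?_⟩⟩
  have : derivative (I (derivative p) - p) = 0 := by rw [map_sub, h1, sub_self]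
  rw [← eq_C_of_derivative_eq_zero this]
  ring

/-- The functionals of positive index. -/
def up (φ : k[X]) (l : k) (r : k[X] →ₗ[k] k) : ℕ → k[X] →ₗ[k] k
  | 0 => r
  | n + 1 => (l - 2 - n)⁻¹ • (up φ l r n ∘ₗ LinearMap.mulRight k φ)

theorem rho_of_good [CharZero k] {φ : k[X]} {l : k} (h : Good φ l)
    (hl : ∀ n : ℕ, l - 2 - n ≠ 0) : Rho φ l := by
  obtain ⟨σ, hs, ht, hd, h1⟩ := exists_sigma h
  obtain ⟨I, hI, hI'⟩ := exists_prim (k := k)
  let r : k[X] →ₗ[k] k := σ 0 ∘ₗ LinearMap.mulRight k (derivative φ) ∘ₗ I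
  have hr : ∀ p, r p = σ 0 (I p * derivative φ) := fun p => rfl
  let dn : ℕ → k[X] →ₗ[k] k := fun j => (∏ i ∈ Finset.range j, (l + i)) • σ j
  have hdn : ∀ j p, dn j p = (∏ i ∈ Finset.range j, (l + i)) * σ j p := fun j p => rfl
  let ρ : ℤ → k[X] →ₗ[k] k := fun n =>
    if n ≤ 0 then dn (-n).toNat else up φ l r (n - 1).toNat
  have e1 : ∀ (n : ℤ) (j : ℕ), n = -j → ρ n = dn j := by
    rintro _ j rfl
    simp [ρ]
  have e2 : ∀ (n : ℤ) (j : ℕ), n = j + 1 → ρ n = up φ l r j := by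
    rintro _ j rfl
    have : ¬((j : ℤ) + 1 ≤ 0) := by omega
    simp [ρ, this]
  have u1 : ∀ (n : ℕ) p, up φ l r n (p * φ) = (l - 2 - n) * up φ l r (n + 1) p := fun n p => by
    change _ = _ * ((l - 2 - n)⁻¹ * up φ l r n (p * φ))
    rw [← mul_assoc, mul_inv_cancel₀ (hl n), one_mul]
  have u0 : ∀ p, σ 0 (p * φ) = (l - 1) * r p := fun p => by
    have := ht 0 (I p * φ)
    rw [show tw φ l 0 (I p * φ) = (p * φ - (l - 1) • (I p * derivative φ)) * φ by
      rw [tw_apply, derivative_mul, hI, smul_eq_C_mul]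
      simp only [Nat.cast_zero, add_zero, map_sub, map_one]
      ring, hs, map_sub, map_smul, smul_eq_mul, sub_eq_zero] at this
    rw [this, hr]
  have A : ∀ (n : ℤ) p, ρ n (p * φ) = (l - 1 - n) * ρ (n + 1) p := by
    intro n p
    rcases lt_trichotomy n 0 with hn | rfl | hn
    · obtain ⟨j, hj⟩ : ∃ j : ℕ, n = -((j + 1 : ℕ) : ℤ) := ⟨(-n - 1).toNat, by omega⟩
      rw [e1 n (j + 1) hj, e1 (n + 1) j (by omega), hdn, hdn, hs, Finset.prod_range_succ, hj]
      push_cast
      ring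
    · rw [e1 0 0 rfl, e2 (0 + 1) 0 rfl, hdn, u0]
      simp [up]
    · obtain ⟨j, hj⟩ : ∃ j : ℕ, n = j + 1 := ⟨(n - 1).toNat, by omega⟩
      rw [e2 n j hj, e2 (n + 1) (j + 1) (by omega), u1, hj]
      push_cast
      ring
  have B : ∀ (j : ℕ) p, ρ (j + 1) (derivative p) = ρ j (p * derivative φ) := by
    intro j
    induction j with
    | zero =>
      intro p
      obtain ⟨c, hc⟩ := hI' p
      rw [e2 _ 0 rfl, e1 ((0 : ℕ) : ℤ) 0 rfl, hdn]
      change r _ = _
      rw [hr, hc, add_mul, map_add, ← smul_eq_C_mul, map_smul, hd]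
      simp
    | succ j ih =>
      intro p
      have h2 := ih (p * φ)
      have h3 := A j (p * derivative φ)
      have h4 := A (j + 1) (derivative p)
      rw [derivative_mul, map_add, mul_right_comm, h3, h4] at h2
      refine mul_left_cancel₀ (hl j) ?_
      push_cast at h2 ⊢
      linear_combination h2
  refine ⟨ρ, A, fun n p => ?_, ?_⟩
  · by_cases hn : n ≤ 0
    · obtain ⟨j, hj⟩ : ∃ j : ℕ, n = -(j : ℤ) := ⟨(-n).toNat, by omega⟩
      have := ht j p
      rw [tw_apply, map_sub, hs, mul_left_comm, ← smul_eq_C_mul, map_smul, smul_eq_mul,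
        sub_eq_zero] at this
      rw [e1 n j hj, e1 (n - 1) (j + 1) (by omega), hdn, hdn, this, Finset.prod_range_succ,
        mul_assoc]
    · obtain ⟨j, rfl⟩ : ∃ j : ℕ, n = j + 1 := ⟨(n - 1).toNat, by omega⟩
      rw [B, add_sub_cancel_right]
  · rw [e1 0 0 rfl, hdn]
    simpa using h1

end PRho

theorem p_rho [CharZero k] : S_rho k := by
  intro φ ν N hν hN h
  refine PRho.rho_of_good h fun n hn => ?_
  have hN0 : (N : k) ≠ 0 := Nat.cast_ne_zero.2 (by omega)
  have : (ν : k) = ((2 + n) * N : ℕ) := by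
    field_simp at hn
    push_cast
    linear_combination hn
  have h2 : ν = (2 + n) * N := Nat.cast_injective this
  nlinarith

end

end Pool.Agent.P.MP_b91a16_ag.LY
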