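import Pool.Agent.P.MP_b91a16_ag.LY.Stmt

/-! Le-Yomdin surfaces: shears and the children of a face. -/

open Polynomial

namespace Pool.Agent.P.MP_b91a16_ag.LY

noncomputable section

variable {k : Type} [Field k]

namespace PShear

variable {G G' : P2 k} {q p n n' : ℕ}

theorem ab_add (h : Above G q p n) (h' : Above G' q p n) : Above (G + G') q p n := fun i j e => by
  rw [co_add] at e
  by_cases h1 : co G i j = 0
  · exact h' i j (by simpa [h1] using e)
  · exact h i j h1

theorem ab_sum {α : Type} (s : Finset α) (f : α → P2 k) (h : ∀ a ∈ s, Above (f a) q p n) :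
    Above (∑ a ∈ s, f a) q p n :=
  Finset.sum_induction f (fun G => Above G q p n) (fun _ _ => ab_add)
    (fun i j e => (e (by simp [co])).elim) h

theorem ab_mono (h : Above G q p n) (hn : n' ≤ n) : Above G q p n' := fun i j e => hn.trans (h i j e)

theorem ab_mul (h : Above G q p n) (h' : Above G' q p n') : Above (G * G') q p (n + n') := by
  intro i j e
  rw [co, coeff_mul, finsetSum_coeff] at e
  obtain ⟨x, hx, e⟩ := Finset.exists_ne_zero_of_sum_ne_zero e
  rw [coeff_mul] at e
  obtain ⟨y, hy, e⟩ := Finset.exists_ne_zero_of_sum_ne_zero e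
  have h1 := h y.1 x.1 (left_ne_zero_of_mul e)
  have h2 := h' y.2 x.2 (right_ne_zero_of_mul e)
  have h3 : x.1 + x.2 = j := by simpa using hx
  have h4 : y.1 + y.2 = i := by simpa using hy
  rw [← h3, ← h4, mul_add, mul_add]
  omega

theorem ab_pow (h : Above G q p n) (j : ℕ) : Above (G ^ j) q p (n * j) := by
  induction j with
  | zero => exact fun _ _ _ => by simp
  | succ j ih =>
    rw [pow_succ, Nat.mul_succ]
    exact ab_mul ih h

theorem ab_C {ζ : k[X]} (h : ∀ e ∈ ζ.support, n ≤ q * e) : Above (C ζ) q p n := fun i j e => by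
  rw [co, coeff_C] at e
  split_ifs at e with hj
  · exact (h i (mem_support_iff.2 e)).trans (Nat.le_add_right _ _)
  · simp at e

theorem ab_X : Above (X : P2 k) q p p := fun i j e => by
  rw [co, coeff_X] at e
  split_ifs at e with hj
  · subst hj
    omega
  · simp at e

theorem ab_mon (i : ℕ) (c : k) : Above (C (monomial i c) : P2 k) q p (q * i) :=
  ab_C fun e he => by rw [Finset.mem_singleton.1 (support_monomial_subset _ _ he)]

theorem sub_mon (ζ : k[X]) (i j : ℕ) (c : k) : sub 1 0 ζ (monomial j (monomial i c) : P2 k) =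
    C (monomial i c) * (C ζ + X) ^ j := by
  rw [sub, ev_monomial, ← C_mul_X_pow_eq_monomial]
  simp

theorem diff_pow {ζ : k[X]} (h : ∀ e ∈ ζ.support, p < q * e) (j : ℕ) :
    Above ((C ζ + X) ^ j - X ^ j : P2 k) q p (p * j + 1) := by
  induction j with
  | zero => exact fun i j e => (e (by simp [co])).elim
  | succ j ih =>
    have e : ((C ζ + X) ^ (j + 1) - X ^ (j + 1) : P2 k) =
        ((C ζ + X) ^ j - X ^ j) * (C ζ + X) + X ^ j * C ζ := by ring
    rw [e]
    refine ab_add (ab_mono (ab_mul ih (ab_add (ab_C fun e he => (h e he).le) ab_X)) ?_)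
      (ab_mono (ab_mul (ab_pow ab_X j) (ab_C (n := p + 1) h)) ?_) <;>
    · rw [Nat.mul_succ]
      omega

theorem low {φ : k[X]} (h : Two φ) (c : k) : ∃ m₁, m₁ < φ.natDegree ∧
    (taylor c φ).coeff m₁ ≠ 0 ∧ ∀ j < m₁, (taylor c φ).coeff j = 0 := by
  classical
  have h1 : ∃ j, j < φ.natDegree ∧ (taylor c φ).coeff j ≠ 0 := by
    by_contra h1
    push Not at h1
    have h2 : taylor c φ = C ((taylor c φ).coeff φ.natDegree) * X ^ φ.natDegree := by
      ext j
      rw [coeff_C_mul_X_pow]
      split_ifs with hj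
      · rw [hj]
      · rcases lt_or_gt_of_ne hj with hj | hj
        · exact h1 j hj
        · exact coeff_eq_zero_of_natDegree_lt (by rwa [natDegree_taylor])
    have h3 := congrArg (taylor (-c)) h2
    rw [taylor_taylor, neg_add_cancel, taylor_zero, taylor_mul, taylor_C, taylor_X_pow, map_neg,
      ← sub_eq_add_neg] at h3
    exact h _ _ h3
  refine ⟨Nat.find h1, (Nat.find_spec h1).1, (Nat.find_spec h1).2, fun j hj => ?_⟩
  by_contra e
  exact Nat.find_min h1 hj ⟨hj.trans (Nat.find_spec h1).1, e⟩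

end PShear

open PShear

theorem p_shA : S_shA k := by
  intro G ζ q p n h
  constructor
  · intro hζ
    rw [eq_sum_co G]
    simp only [map_sum, sub_mon]
    exact ab_sum _ _ fun j _ => ab_sum _ _ fun i hi => ab_mono
      (ab_mul (ab_mon i _) (ab_pow (ab_add (ab_C hζ) ab_X) j)) (h i j (mem_support_iff.1 hi))
  · intro hζ i j hij
    have h1 : Above (sub 1 0 ζ G - G) q p (n + 1) := by
      rw [eq_sum_co G]
      simp only [map_sum, sub_mon, ← Finset.sum_sub_distrib]
      refine ab_sum _ _ fun j _ => ab_sum _ _ fun i hi => ?_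
      rw [← C_mul_X_pow_eq_monomial (n := j), ← mul_sub]
      exact ab_mono (ab_mul (ab_mon i _) (diff_pow hζ j))
        (Nat.succ_le_succ (h i j (mem_support_iff.1 hi)))
    have h2 : co (sub 1 0 ζ G - G) i j = 0 := by
      by_contra e
      have := h1 i j e
      omega
    rw [← sub_add_cancel (sub 1 0 ζ G) G, co_add, h2, zero_add]

theorem p_shM : S_shM k := by
  intro G ζ q p N m ⟨h1, h2, h3, h4⟩ hζ
  obtain ⟨h5, h6⟩ := p_shA G ζ q p _ h3
  refine ⟨h1, by rwa [h6 hζ N m rfl], h5 fun e he => (hζ e he).le, fun i j hj e => ?_⟩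
  refine lt_of_le_of_ne (h5 (fun e he => (hζ e he).le) i j e) fun e' => ?_
  rw [h6 hζ i j e'.symm] at e
  exact (h4 i j hj e).ne e'

theorem p_kids : S_kids k := by
  intro G q p N m ⟨hq, _, _, h1, h2, h3⟩
  have e1 : ∀ j, (edge G q p (q * N + p * m)).coeff j = co (sub q p 0 G) (q * N + p * m) j :=
    fun j => coeff_row _ _ _
  have e2 : (edge G q p (q * N + p * m)).coeff m ≠ 0 := by rwa [e1, co_sub_zero hq]
  have e3 : (edge G q p (q * N + p * m)).natDegree = m :=
    natDegree_eq_of_le_of_coeff_ne_zero (natDegree_le_iff_coeff_eq_zero.2 fun j hj => by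
      by_contra e
      rw [e1] at e
      obtain ⟨i, h4, h5⟩ := exists_of_co_sub hq e
      exact (h3 i j hj h5).ne' h4) e2
  refine ⟨fun e => e2 (by simp [e]), e3, fun ht => ⟨?_, fun c => ?_⟩⟩
  · obtain ⟨m₀, h4, h5, h6⟩ := low ht 0
    rw [taylor_zero] at h5 h6
    rw [e1] at h5
    obtain ⟨N₀, h7, h8⟩ := exists_of_co_sub hq h5
    refine ⟨N₀, m₀, e3 ▸ h4, h7, hq, h8, h7 ▸ h2, fun i j hj e => ?_⟩
    rw [h7]
    refine lt_of_le_of_ne (h2 i j e) fun e' => e ?_
    rw [← co_sub_zero hq p, ← e', ← e1, h6 j hj]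
  · obtain ⟨m₁, h4, h5, h6⟩ := low ht c
    have e4 : sub q p (C c * X ^ p) G = sub 1 0 (C c) (sub q p 0 G) := by
      rw [sub_sub, one_mul, one_mul, add_zero, zero_comp, zero_add, mul_comm]
    have e5 : ∀ j, co (sub q p (C c * X ^ p) G) (q * N + p * m) j =
        (taylor c (edge G q p (q * N + p * m))).coeff j := fun j => by
      rw [← coeff_row, e4, row_sub_C, edge]
    have e6 : Above (sub q p (C c * X ^ p) G) 1 0 (q * N + p * m) := by
      rw [e4]
      exact (p_shA _ _ 1 0 _ (h2.sub_zero hq)).1 fun _ _ => Nat.zero_le _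
    refine ⟨m₁, e3 ▸ h4, one_pos, by rwa [e5], by simpa using e6, fun i j hj e => ?_⟩
    have := e6 i j e
    simp only [one_mul, zero_mul, add_zero] at this ⊢
    refine lt_of_le_of_ne this fun e' => e ?_
    rw [← e', e5, h6 j hj]

end

end Pool.Agent.P.MP_b91a16_ag.LY
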