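import Pool.Agent.P.MP_b91a16_ag.LY.Stmt

/-! Le-Yomdin surfaces: the singular points of a reduced plane curve. -/

open Polynomial

namespace Pool.Agent.P.MP_b91a16_ag.LY

noncomputable section

variable {k : Type} [Field k]

namespace PSing

theorem hom_mul {F : P3 k} {n : ℕ} (h : F.IsHomogeneous n) {K : Type} [CommRing K]
    [Algebra k K] (w : K) (v : Fin 3 → K) :
    MvPolynomial.aeval (fun i => w * v i) F = w ^ n * MvPolynomial.aeval v F := by
  rw [MvPolynomial.aeval_def, MvPolynomial.aeval_def, MvPolynomial.eval₂_eq',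
    MvPolynomial.eval₂_eq', Finset.mul_sum]
  refine Finset.sum_congr rfl fun s hs => ?_
  have e : ∑ i, s i = n := by
    rw [← Finsupp.degree_eq_sum]
    by_contra g
    exact MvPolynomial.mem_support_iff.1 hs (h.coeff_eq_zero g)
  simp only [mul_pow, Finset.prod_mul_distrib, Finset.prod_pow_eq_pow_sum, e]
  ring

theorem root [IsAlgClosed k] {R : k[X]} (hR : R ≠ 0) {K : Type} [Field K] [Algebra k K] {y : K}
    (h : aeval y R = 0) : ∃ a ∈ R.roots, y = algebraMap k K a := by
  have : y ∈ (R.map (algebraMap k K)).roots :=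
    (mem_roots (map_ne_zero hR)).2 (by rwa [IsRoot, eval_map_algebraMap])
  rw [(IsAlgClosed.splits R).roots_map, Multiset.mem_map] at this
  obtain ⟨a, ha, e⟩ := this
  exact ⟨a, ha, e.symm⟩

theorem chart [CharZero k] [IsAlgClosed k] (h : S_bez k) {F : P3 k} {d : ℕ} (hd : 0 < d)
    (hF : F.IsHomogeneous d) (L : Matrix (Fin 3) (Fin 3) k) (hs : Squarefree (dh L F)) :
    ∃ A : Finset k, ∀ (K : Type) [Field K] [Algebra k K] (y z : K),
      (∀ j, MvPolynomial.aeval (lv L y z) (MvPolynomial.pderiv j F) = 0) →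
      (∃ a ∈ A, y = algebraMap k K a) ∧ ∃ a ∈ A, z = algebraMap k K a := by
  classical
  obtain ⟨A, B, R, hR, e⟩ := h.2.1 _ hs
  obtain ⟨A', B', R', hR', e'⟩ := h.2.1 _ (h.2.2 _ 0 hs).2
  refine ⟨R.roots.toFinset ∪ R'.roots.toFinset, fun K _ _ y z hv => ?_⟩
  have : CharZero K := charZero_of_injective_algebraMap (algebraMap k K).injective
  have h0 : aevalAeval y z (dh L F) = 0 := by
    have := congrArg (MvPolynomial.aeval (lv L y z)) hF.sum_X_mul_pderiv
    simp only [map_sum, map_mul, hv, mul_zero, Finset.sum_const_zero, nsmul_eq_mul,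
      map_natCast] at this
    rw [ev_dh]
    exact (mul_eq_zero.1 this.symm).resolve_left (Nat.cast_ne_zero.2 hd.ne')
  have h1 : ∀ D : Derivation k (P2 k) (P2 k), aevalAeval y z (D (dh L F)) = 0 := by
    intro D
    rw [dh, der_aeval, map_sum]
    refine Finset.sum_eq_zero fun a _ => ?_
    rw [map_mul]
    exact mul_eq_zero_of_left ((ev_dh y z L _).trans (hv a)) _
  have e1 := congrArg (aevalAeval y z) e
  rw [map_add, map_mul, map_mul, h0, ← dO_apply, h1, aevalAeval_C] at e1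
  have e2 := congrArg (aevalAeval z y) e'
  have h2 : aevalAeval z y (derivative (sw (dh L F))) = 0 := by
    rw [← ev_sw, ← dI_apply, h1]
  rw [map_add, map_mul, map_mul, h2, ev_sw, h0, aevalAeval_C] at e2
  obtain ⟨a, ha, ea⟩ := root hR (y := y) (by simpa using e1.symm)
  obtain ⟨b, hb, eb⟩ := root hR' (y := z) (by simpa using e2.symm)
  exact ⟨⟨a, by simp only [Finset.mem_union, Multiset.mem_toFinset]; exact Or.inl ha, ea⟩,
    b, by simp only [Finset.mem_union, Multiset.mem_toFinset]; exact Or.inr hb, eb⟩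

/-- A matrix with first column `P`. -/
def mat (i : Fin 3) (P : Fin 3 → k) : Matrix (Fin 3) (Fin 3) k :=
  ![!![P 0, 0, 0; P 1, 1, 0; P 2, 0, 1], !![P 0, 1, 0; P 1, 0, 0; P 2, 0, 1],
    !![P 0, 1, 0; P 1, 0, 1; P 2, 0, 0]] i

theorem mat_col (i : Fin 3) (P : Fin 3 → k) (j : Fin 3) : mat i P j 0 = P j := by
  fin_cases i <;> fin_cases j <;> rfl

theorem mat_det {i : Fin 3} {P : Fin 3 → k} (h : P i = 1) : (mat i P).det ≠ 0 := by
  fin_cases i <;> simp [mat, Matrix.det_fin_three] <;> simp_all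

theorem cover (i : Fin 3) {K : Type} [Field K] [Algebra k K] (u : Fin 3 → K) (h : u i = 1) :
    ∃ y z, u = lv (mat i (Pi.single i (1 : k))) y z := by
  fin_cases i
  · exact ⟨u 1, u 2, funext fun j => by fin_cases j <;> simp_all [lv, mat]⟩
  · exact ⟨u 0, u 2, funext fun j => by fin_cases j <;> simp_all [lv, mat]⟩
  · exact ⟨u 0, u 1, funext fun j => by fin_cases j <;> simp_all [lv, mat]⟩

theorem fin [CharZero k] [IsAlgClosed k] (h : S_bez k) {F : P3 k} {d : ℕ} (hd : 0 < d)
    (hF : F.IsHomogeneous d)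
    (hs : ∀ L : Matrix (Fin 3) (Fin 3) k, L.det ≠ 0 → Squarefree (dh L F)) :
    ∃ U : Finset (Fin 3 → k), ∀ (K : Type) [Field K] [Algebra k K] (u : Fin 3 → K) (i : Fin 3),
      u i = 1 → (∀ j, MvPolynomial.aeval u (MvPolynomial.pderiv j F) = 0) →
      ∃ P ∈ U, u = fun j => algebraMap k K (P j) := by
  classical
  choose A hA using fun i : Fin 3 =>
    chart h hd hF (mat i (Pi.single i (1 : k))) (hs _ (mat_det (Pi.single_eq_same i 1)))
  refine ⟨Finset.univ.biUnion fun i => (A i ×ˢ A i).image fun q =>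
    lv (mat i (Pi.single i (1 : k))) q.1 q.2, fun K _ _ u i hu hv => ?_⟩
  obtain ⟨y, z, rfl⟩ := cover (k := k) i u hu
  obtain ⟨⟨a, ha, rfl⟩, b, hb, rfl⟩ := hA i K y z hv
  refine ⟨lv (mat i (Pi.single i (1 : k))) a b, Finset.mem_biUnion.2 ⟨i, Finset.mem_univ _,
    Finset.mem_image.2 ⟨(a, b), Finset.mem_product.2 ⟨ha, hb⟩, rfl⟩⟩, funext fun j => ?_⟩
  simp [lv]

end PSing

open PSing

theorem p_sing [CharZero k] [IsAlgClosed k] (h : S_bez k) : S_sing k := by
  classical
  intro F d hd hF hs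
  obtain ⟨U, hU⟩ := fin h hd hF hs
  refine ⟨((Finset.univ ×ˢ U).filter fun q : Fin 3 × (Fin 3 → k) => q.2 q.1 = 1 ∧
    (∀ j < q.1, q.2 j = 0) ∧ ∀ j, MvPolynomial.eval q.2 (MvPolynomial.pderiv j F) = 0).image
      fun q => mat q.1 q.2, ?_, ?_, ?_⟩
  · intro L hL
    obtain ⟨q, hq, rfl⟩ := Finset.mem_image.1 hL
    obtain ⟨-, h1, -, h3⟩ := Finset.mem_filter.1 hq
    exact ⟨mat_det h1, by simpa only [mat_col] using h3⟩
  · intro K _ _ v hv h0
    have hne : (Finset.univ.filter fun i => v i ≠ 0).Nonempty := by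
      obtain ⟨i, hi⟩ := Function.ne_iff.1 hv
      exact ⟨i, Finset.mem_filter.2 ⟨Finset.mem_univ _, hi⟩⟩
    obtain ⟨i, hi, hmin⟩ := Finset.exists_min_image _ id hne
    have hi' : v i ≠ 0 := (Finset.mem_filter.1 hi).2
    have h1 : ∀ j, MvPolynomial.aeval (fun j => (v i)⁻¹ * v j) (MvPolynomial.pderiv j F) = 0 :=
      fun j => by rw [hom_mul hF.pderiv, h0, mul_zero]
    obtain ⟨P, hP, e⟩ := hU K (fun j => (v i)⁻¹ * v j) i (inv_mul_cancel₀ hi') h1
    have inj := (algebraMap k K).injective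
    refine ⟨mat i P, Finset.mem_image.2 ⟨(i, P), Finset.mem_filter.2
      ⟨Finset.mem_product.2 ⟨Finset.mem_univ _, hP⟩, ?_, fun j hj => ?_, fun j => ?_⟩, rfl⟩,
      v i, funext fun j => ?_⟩
    · exact inj (by rw [map_one, ← congrFun e i, inv_mul_cancel₀ hi'])
    · have : v j = 0 := by
        by_contra g
        exact (hmin j (Finset.mem_filter.2 ⟨Finset.mem_univ _, g⟩)).not_gt hj
      exact inj (by rw [map_zero, ← congrFun e j, this, mul_zero])
    · refine inj ?_
      rw [map_zero, ← h1 j, e, ← MvPolynomial.aeval_eq_eval]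
      exact (MvPolynomial.aeval_algebraMap_apply K P _).symm
    · rw [mat_col, ← congrFun e j, mul_inv_cancel_left₀ hi']
  · intro K _ _ w w' L hL L' hL' hw e
    obtain ⟨⟨i, P⟩, hq, rfl⟩ := Finset.mem_image.1 hL
    obtain ⟨⟨i', P'⟩, hq', rfl⟩ := Finset.mem_image.1 hL'
    obtain ⟨-, h1, h2, -⟩ := Finset.mem_filter.1 hq
    obtain ⟨-, h1', h2', -⟩ := Finset.mem_filter.1 hq'
    simp only [mat_col] at e h1 h2 h1' h2' ⊢
    have ei := e i
    have ei' := e i'
    rw [h1, map_one, mul_one] at ei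
    rw [h1', map_one, mul_one] at ei'
    rcases lt_trichotomy i i' with g | rfl | g
    · rw [h2' i g, map_zero, mul_zero] at ei
      exact absurd ei hw
    · rw [h1', map_one, mul_one] at ei
      subst ei
      congr 1
      funext j
      exact (algebraMap k K).injective (mul_left_cancel₀ hw (e j))
    · rw [h2 i' g, map_zero, mul_zero] at ei'
      rw [← ei', zero_mul] at ei
      exact absurd ei hw

end

end Pool.Agent.P.MP_b91a16_ag.LY
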