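import Pool.Agent.P.MP_b91a16_ag.LY.Stmt

/-! Arcs through smooth points of the tangent cone, and the charts at its singular points. -/

open Polynomial

namespace Pool.Agent.P.MP_b91a16_ag.LY

noncomputable section

variable {k : Type} [Field k]

namespace PSmooth

theorem taylor_one {S : Type} [CommRing S] [Algebra k S] (β : Fin 3 → S) (j : Fin 3) (h : S)
    (g : P3 k) : ∃ r, MvPolynomial.aeval (Function.update β j (β j + h)) g =
      MvPolynomial.aeval β g + h * MvPolynomial.aeval β (MvPolynomial.pderiv j g) + h ^ 2 * r := by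
  induction g using MvPolynomial.induction_on with
  | C c => exact ⟨0, by simp⟩
  | add p q hp hq =>
    obtain ⟨r, hr⟩ := hp
    obtain ⟨s, hs⟩ := hq
    exact ⟨r + s, by simp only [map_add, hr, hs]; ring⟩
  | mul_X p i hp =>
    obtain ⟨r, hr⟩ := hp
    by_cases e : i = j
    · subst e
      refine ⟨MvPolynomial.aeval β (MvPolynomial.pderiv i p) + r * (β i + h), ?_⟩
      simp only [map_mul, hr, MvPolynomial.aeval_X, Function.update_self, Derivation.leibniz,
        MvPolynomial.pderiv_X_self, smul_eq_mul, map_add, mul_one]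
      ring
    · refine ⟨r * β i, ?_⟩
      simp only [map_mul, hr, MvPolynomial.aeval_X, Function.update_of_ne e, Derivation.leibniz,
        MvPolynomial.pderiv_X_of_ne e, smul_eq_mul, map_add, mul_zero, map_zero]
      ring

theorem cc_aeval {K : Type} [Field K] [Algebra k K] (β : Fin 3 → PowerSeries K) (g : P3 k) :
    cc (MvPolynomial.aeval β g) = MvPolynomial.aeval (fun i => cc (β i)) g := by
  induction g using MvPolynomial.induction_on with
  | C c => simp [PowerSeries.algebraMap_apply]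
  | add p q hp hq => simp only [map_add, hp, hq]
  | mul_X p i hp => simp only [map_mul, hp, MvPolynomial.aeval_X]

theorem cc_upd {K : Type} [Field K] (β : Fin 3 → PowerSeries K) (j i : Fin 3) (c : K) {n : ℕ}
    (hn : 0 < n) : cc (Function.update β j (β j + PowerSeries.C c * tt ^ n) i) = cc (β i) := by
  by_cases e : i = j
  · subst e; simp [hn.ne']
  · rw [Function.update_of_ne e]

theorem first_order (F : P3 k) (R : Polynomial (P3 k)) {κ a n : ℕ} (hκ : 0 < κ) (ha : 0 < a)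
    (hn : 0 < n) {K : Type} [Field K] [Algebra k K] (β : Fin 3 → PowerSeries K) (j : Fin 3)
    (c : K) : tt ^ (n + 1) ∣ fa F R κ a (Function.update β j (β j + PowerSeries.C c * tt ^ n)) -
      (fa F R κ a β + PowerSeries.C (c * MvPolynomial.aeval (fun i => cc (β i))
        (MvPolynomial.pderiv j F)) * tt ^ n) := by
  obtain ⟨r, hr⟩ := taylor_one β j (PowerSeries.C c * tt ^ n) F
  obtain ⟨u, hu⟩ := (ps_eval₂ (k := k) (fun i _ _ _ γ => γ i) (fun i => ps_var i) (ps_X.pow a) R).2 K β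
    (Function.update β j (β j + PowerSeries.C c * tt ^ n)) n fun i => by
      by_cases e : i = j
      · subst e; simp
      · simp [Function.update_of_ne e]
  obtain ⟨v, hv⟩ : (tt : PowerSeries K) ∣ MvPolynomial.aeval β (MvPolynomial.pderiv j F) -
      PowerSeries.C (MvPolynomial.aeval (fun i => cc (β i)) (MvPolynomial.pderiv j F)) := by
    rw [PowerSeries.X_dvd_iff, map_sub, cc_aeval, PowerSeries.constantCoeff_C, sub_self]
  obtain ⟨m, hm⟩ : ∃ m, κ * a = m + 1 := ⟨κ * a - 1, by have := Nat.mul_pos hκ ha; omega⟩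
  obtain ⟨n, rfl⟩ : ∃ m, n = m + 1 := ⟨n - 1, by omega⟩
  refine ⟨PowerSeries.C c * v + PowerSeries.C c ^ 2 * tt ^ n * r + tt ^ m * u, ?_⟩
  rw [fa, fa, hr, hm, map_mul]
  linear_combination tt ^ (m + 1) * hu + PowerSeries.C c * tt ^ (n + 1) * hv

theorem scale {K : Type} [Field K] [Algebra k K] {g : P3 k} {m : ℕ} (h : g.IsHomogeneous m) (w : K)
    (v : Fin 3 → K) : MvPolynomial.aeval (fun i => w * v i) g = w ^ m * MvPolynomial.aeval v g := by
  conv_lhs => rw [g.as_sum]
  conv_rhs => rw [g.as_sum]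
  simp only [map_sum, Finset.mul_sum, MvPolynomial.aeval_monomial]
  refine Finset.sum_congr rfl fun e he => ?_
  rw [h.degree_eq_sum_deg_support he, ← Finset.prod_pow_eq_pow_sum]
  simp only [Finsupp.prod, mul_pow, Finset.prod_mul_distrib]
  ring

theorem lv_eq (L : Matrix (Fin 3) (Fin 3) k) {S : Type} [CommRing S] [Algebra k S] (w y z : S) :
    (fun j => w * lv L y z j) = (L.map (algebraMap k S)).mulVec ![w, w * y, w * z] := by
  funext j
  simp [lv, Matrix.mulVec, dotProduct, Fin.sum_univ_three]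
  ring

theorem map_inv {L : Matrix (Fin 3) (Fin 3) k} (h : L.det ≠ 0) (S : Type) [CommRing S]
    [Algebra k S] : L⁻¹.map (algebraMap k S) * L.map (algebraMap k S) = 1 ∧
      L.map (algebraMap k S) * L⁻¹.map (algebraMap k S) = 1 := by
  rw [← Matrix.map_mul, ← Matrix.map_mul, Matrix.nonsing_inv_mul _ h.isUnit,
    Matrix.mul_nonsing_inv _ h.isUnit]
  simp

/-- The chart at one singular point. -/
theorem chart {F : P3 k} (R : Polynomial (P3 k)) {d : ℕ} (κ a n : ℕ) (ψ : k[X])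
    (hF : F.IsHomogeneous d) {L : Matrix (Fin 3) (Fin 3) k} (hL : L.det ≠ 0)
    (hs : ∀ j, MvPolynomial.eval (fun i => L i 0) (MvPolynomial.pderiv j F) = 0) :
    HV (k := k) (fun K _ _ β => PSg F R κ a ψ n K β ∧
      ∃ w : K, ∀ i, cc (β i) = w * algebraMap k K (L i 0)) (mu (PP L F R κ a ψ n)) := by
  refine HV.push (fun j _ _ _ γ => γ 0 * lv L (γ 1) (γ 2) j)
    (fun j => (ps_var 0).mul (ps_lv L (ps_var 1) (ps_var 2) j))
    (fun _ _ _ γ => cc (γ 0) ≠ 0 ∧ tt ∣ γ 1 ∧ tt ∣ γ 2) ?_ ?_ ?_ ?_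
    ((cyl_PP L F R κ a ψ n).hv.congr fun K _ _ γ => ⟨fun h => ?_, fun h => ?_⟩)
  · intro K _ _ γ γ' e h
    simp only [pow_one, PowerSeries.X_dvd_iff, map_sub, sub_eq_zero] at e h ⊢
    rwa [e, e, e]
  · obtain ⟨M, hM⟩ := (cyl_PSg F R κ a ψ n).lev
    refine ⟨M + 1, fun K _ _ γ γ' e h => ⟨hM.mono M.le_succ K γ γ' e h.1, h.2.imp fun w hw i => ?_⟩⟩
    have := coeff_eq_of_dvd (e i) M.succ_pos
    simp only [PowerSeries.coeff_zero_eq_constantCoeff] at this
    rw [← hw i]
    exact this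
  · intro K _ _ γ γ' M _ h _ e
    have e1 : ∀ i, tt ^ M ∣ (![γ' 0, γ' 0 * γ' 1, γ' 0 * γ' 2] - ![γ 0, γ 0 * γ 1, γ 0 * γ 2]) i := by
      intro i
      rw [← Matrix.one_mulVec (_ - _), ← (map_inv hL (PowerSeries K)).1, ← Matrix.mulVec_mulVec,
        Matrix.mulVec_sub, ← lv_eq, ← lv_eq]
      simp only [Matrix.mulVec, dotProduct]
      exact Finset.dvd_sum fun j _ => (e j).mul_left _
    have u : IsUnit (γ 0) := PowerSeries.isUnit_iff_constantCoeff.2 h.1.isUnit
    have e0 : tt ^ M ∣ γ' 0 - γ 0 := e1 0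
    have e2 : ∀ i, tt ^ M ∣ γ' 0 * γ' i - γ 0 * γ i → tt ^ M ∣ γ' i - γ i := fun i hi => by
      rw [← u.dvd_mul_left, show γ 0 * (γ' i - γ i) =
        (γ' 0 * γ' i - γ 0 * γ i) - (γ' 0 - γ 0) * γ' i by ring]
      exact dvd_sub hi (e0.mul_right _)
    intro j
    fin_cases j
    · exact e0
    · exact e2 1 (e1 1)
    · exact e2 2 (e1 2)
  · rintro K _ _ β ⟨⟨⟨⟨j, hj⟩, -⟩, -⟩, w, hw⟩
    have hw0 : w ≠ 0 := by
      rintro rfl
      exact hj (by rw [hw, zero_mul])
    obtain ⟨u, hu⟩ : ∃ u, u = (L⁻¹.map (algebraMap k (PowerSeries K))).mulVec β := ⟨_, rfl⟩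
    have c1 : ∀ i, cc (u i) = w * (1 : Matrix (Fin 3) (Fin 3) K) i 0 := fun i => by
      rw [← (map_inv hL K).1, hu]
      simp [Matrix.mulVec, dotProduct, Matrix.mul_apply, hw, PowerSeries.algebraMap_apply,
        Finset.mul_sum, mul_left_comm]
    have c0 : cc (u 0) ≠ 0 := by simpa [c1] using hw0
    obtain ⟨v, hv⟩ := (PowerSeries.isUnit_iff_constantCoeff.2 c0.isUnit).exists_right_inv
    refine ⟨![u 0, v * u 1, v * u 2], ⟨c0, Dvd.dvd.mul_left ?_ _, Dvd.dvd.mul_left ?_ _⟩, fun i => ?_⟩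
    · simp [PowerSeries.X_dvd_iff, c1]
    · simp [PowerSeries.X_dvd_iff, c1]
    · have e : ![u 0, u 0 * (v * u 1), u 0 * (v * u 2)] = u := by
        funext i
        fin_cases i <;> simp [← mul_assoc, hv]
      have := congrFun (lv_eq L (u 0) (v * u 1) (v * u 2)) i
      rw [e] at this
      refine this.trans ?_
      rw [hu, Matrix.mulVec_mulVec, (map_inv hL _).2, Matrix.one_mulVec]
  · obtain ⟨h0, h1, h2, h3⟩ := h
    have c1 : ∀ i, cc (γ 0 * lv L (γ 1) (γ 2) i) = cc (γ 0) * algebraMap k K (L i 0) := fun i => by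
      simp [lv, PowerSeries.algebraMap_apply, PowerSeries.X_dvd_iff.1 h1, PowerSeries.X_dvd_iff.1 h2]
    refine ⟨⟨h0, h1, h2⟩, ⟨⟨?_, h3⟩, fun j => ?_⟩, _, c1⟩
    · by_contra e
      refine hL (Matrix.det_eq_zero_of_column_eq_zero 0 fun i => ?_)
      have := not_not.1 (not_exists.1 e i)
      rw [c1] at this
      simpa [h0] using this
    · simp only [c1]
      have := MvPolynomial.aeval_algebraMap_apply K (fun i => L i 0) (MvPolynomial.pderiv j F)
      rw [MvPolynomial.aeval_eq_eval, hs, map_zero] at this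
      rw [scale hF.pderiv]
      exact mul_eq_zero_of_right _ this
  · exact ⟨h.1.1, h.1.2.1, h.1.2.2, h.2.1.1.2⟩

end PSmooth

open PSmooth

theorem p_smooth : S_smooth k := by
  intro F R κ a n c hκ ha hn
  have hD := fun j => pf_aeval (k := k) _ (fun i : Fin 3 => pf_cc (σ := Fin 3) i)
    (MvPolynomial.pderiv j F)
  obtain ⟨v₁, v₂, a1, a2, e1⟩ := (cyl_PA F R κ a (X - C c) n).hv.split_multi Finset.univ _
    fun j _ => hD j
  obtain ⟨w₁, w₂, b1, b2, e2⟩ := (cyl_PA F R κ a 0 n).hv.split_multi Finset.univ _ fun j _ => hD j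
  have f1 : mu (PSg F R κ a (X - C c) n) = v₁ := (a1.congr fun _ _ _ _ => by simp [PSg]).mu_eq
  have f2 : mu (PSg F R κ a 0 n) = w₁ := (b1.congr fun _ _ _ _ => by simp [PSg]).mu_eq
  have b3 := b2.elim_multi Finset.univ id (fun _ => n)
    (((ps_fa F R κ a _ fun j => ps_var j).coeff n).sub (pf_const c)) _ hD
    (fun K _ _ γ t j _ i _ => by simp only [id, cc_upd _ _ _ _ hn])
    (fun K _ _ γ t j _ => by
      have := coeff_eq_of_dvd (first_order F R hκ ha hn γ j t) n.lt_succ_self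
      rw [map_add, PowerSeries.coeff_C_mul, PowerSeries.coeff_X_pow_self, mul_one] at this
      simp only [id]
      rw [this]
      ring)
    (fun K _ _ γ t j _ h => by
      refine ⟨⟨?_, ?_, by simp⟩, ?_⟩
      · simpa only [id, cc_upd _ _ _ _ hn] using h.1.1
      · exact (dvd_sub_left (dvd_add h.1.2.1 (dvd_mul_left _ _))).1
          ((pow_dvd_pow _ n.le_succ).trans (first_order F R hκ ha hn γ j t))
      · simpa only [id, cc_upd _ _ _ _ hn] using h.2)
    fun K _ _ γ h => h.2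
  have f3 : v₂ = Linv k * w₂ := a2.unique (b3.congr fun K _ _ γ => by
    simp only [PA, Ht, map_zero, map_sub, aeval_X, aeval_C, and_true]
    tauto)
  rw [e1, e2, f1, f2, f3]
  ring

theorem p_point : S_point k := by
  intro F R d κ a n ψ T hF hS
  refine ((hv_sum T _ _ (fun L hL => chart R κ a n ψ hF (hS.1 L hL).1 (hS.1 L hL).2) ?_).congr
    fun K _ _ β => ⟨fun ⟨_, _, h⟩ => h.1, fun h => ?_⟩).mu_eq
  · rintro K _ _ β L hL L' hL' ⟨⟨⟨⟨j, hj⟩, -⟩, -⟩, w, hw⟩ ⟨-, w', hw'⟩
    refine hS.2.2 K w w' L hL L' hL' ?_ fun i => (hw i).symm.trans (hw' i)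
    rintro rfl
    exact hj (by rw [hw, zero_mul])
  · obtain ⟨j, hj⟩ := h.1.1
    obtain ⟨L, hL, w, hw⟩ := hS.2.1 K (fun i => cc (β i)) (fun e => hj (congrFun e j)) h.2
    exact ⟨L, hL, h, w, congrFun hw⟩

end

end Pool.Agent.P.MP_b91a16_ag.LY
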