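import Pool.Agent.P.MP_b91a16_ag.LY.Stmt

/-! Le-Yomdin surfaces: affine equations of the tangent cone and the splitting of `f`. -/

open Polynomial

namespace Pool.Agent.P.MP_b91a16_ag.LY

noncomputable section

variable {k : Type} [Field k]

namespace PSqf

/-- Scaling of a homogeneous polynomial. -/
theorem scale {F : P3 k} {d : ℕ} (hF : F.IsHomogeneous d) {S : Type} [CommRing S] [Algebra k S]
    (w : S) (β : Fin 3 → S) :
    MvPolynomial.aeval (fun j => w * β j) F = w ^ d * MvPolynomial.aeval β F := by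
  rw [MvPolynomial.aeval_def, MvPolynomial.aeval_def, MvPolynomial.eval₂_eq',
    MvPolynomial.eval₂_eq', Finset.mul_sum]
  refine Finset.sum_congr rfl fun m hm => ?_
  have h : ∑ i, m i = d := by
    have := hF (MvPolynomial.mem_support_iff.1 hm)
    rw [← this, Finsupp.weight_apply, Finsupp.sum_fintype _ _ (by simp)]
    simp
  simp only [mul_pow, Finset.prod_mul_distrib, Finset.prod_pow_eq_pow_sum, h]
  ring

/-- The linear substitution given by a matrix. -/
def lin (M : Matrix (Fin 3) (Fin 3) k) : P3 k →ₐ[k] P3 k :=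
  MvPolynomial.aeval fun j => ∑ i, MvPolynomial.C (M j i) * MvPolynomial.X i

theorem lin_lin (M M' : Matrix (Fin 3) (Fin 3) k) (h : M' * M = 1) :
    (lin M).comp (lin M') = AlgHom.id k _ := by
  refine MvPolynomial.algHom_ext fun j => ?_
  have e : ∀ l, ∑ i, M' j i * M i l = if j = l then 1 else 0 := fun l => by
    rw [← Matrix.mul_apply, h, Matrix.one_apply]
  simp only [lin, AlgHom.comp_apply, MvPolynomial.aeval_X, map_sum, map_mul,
    MvPolynomial.algHom_C, MvPolynomial.algebraMap_eq, AlgHom.id_apply, Finset.mul_sum]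
  rw [Finset.sum_comm]
  simp only [← mul_assoc, ← Finset.sum_mul, ← map_mul, ← map_sum, e]
  simp [apply_ite]

theorem sqf_lin {F : P3 k} (hF : Squarefree F) {L : Matrix (Fin 3) (Fin 3) k} (hL : L.det ≠ 0) :
    Squarefree (lin L F) := by
  intro x hx
  have hu : IsUnit L.det := IsUnit.mk0 _ hL
  have e1 := lin_lin L L⁻¹ (Matrix.nonsing_inv_mul L hu)
  have e2 := lin_lin L⁻¹ L (Matrix.mul_nonsing_inv L hu)
  have h1 := map_dvd (lin L⁻¹) hx
  rw [map_mul, ← AlgHom.comp_apply (lin L⁻¹) (lin L), e2, AlgHom.id_apply] at h1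
  have h2 := (hF _ h1).map (lin L)
  rwa [← AlgHom.comp_apply, e1, AlgHom.id_apply] at h2

/-- Setting the first variable to one. -/
def de : P3 k →ₐ[k] P2 k := MvPolynomial.aeval ![1, C X, X]

/-- The embedding into the field of fractions. -/
abbrev io : P3 k →ₐ[k] FractionRing (P3 k) := IsScalarTower.toAlgHom k _ _

theorem io_inj : Function.Injective (io (k := k)) := IsFractionRing.injective (P3 k) _

theorem io_ne : io (MvPolynomial.X 0 : P3 k) ≠ 0 := fun h =>
  MvPolynomial.X_ne_zero (R := k) (0 : Fin 3) (io_inj (h.trans (map_zero _).symm))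

/-- The ratios of the coordinates. -/
def ps : P2 k →ₐ[k] FractionRing (P3 k) :=
  aevalAeval (io (MvPolynomial.X 1) / io (MvPolynomial.X 0))
    (io (MvPolynomial.X 2) / io (MvPolynomial.X 0))

theorem hom (h : P2 k) :
    ∃ (a : ℕ) (H : P3 k), io H = io (MvPolynomial.X 0) ^ a * ps h ∧ de H = h := by
  induction h using P2_induction with
  | h0 i j c =>
    refine ⟨i + j, MvPolynomial.C c * MvPolynomial.X 1 ^ i * MvPolynomial.X 2 ^ j, ?_, ?_⟩
    · have := io_ne (k := k)
      rw [ps, ev_monomial, map_mul, map_mul, map_pow, map_pow, MvPolynomial.algHom_C, div_pow,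
        div_pow, pow_add]
      field_simp
    · rw [← C_mul_X_pow_eq_monomial, ← C_mul_X_pow_eq_monomial]
      simp [de]
  | ha G G' h h' =>
    obtain ⟨a, H, e, f⟩ := h
    obtain ⟨a', H', e', f'⟩ := h'
    refine ⟨a + a', MvPolynomial.X 0 ^ a' * H + MvPolynomial.X 0 ^ a * H', ?_, ?_⟩
    · rw [map_add, map_mul, map_mul, map_pow, map_pow, e, e', map_add]
      ring
    · rw [map_add, map_mul, map_mul, map_pow, map_pow, f, f']
      simp [de]

theorem io_lin {F : P3 k} {d : ℕ} (hF : F.IsHomogeneous d) (L : Matrix (Fin 3) (Fin 3) k) :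
    io (lin L F) = io (MvPolynomial.X 0) ^ d * ps (dh L F) := by
  rw [ps, ev_dh, ← scale hF, lin]
  refine algHom_aeval _ _ _ (fun j => ?_) F
  have := io_ne (k := k)
  simp only [lv, Fin.sum_univ_three, map_add, map_mul, MvPolynomial.algHom_C]
  field_simp

theorem dvd_of_dvd_pow_mul {A : Type} [CommRing A] [IsDomain A] {p a b : A} (hp : Prime p)
    (h : ¬ p ∣ a) (n : ℕ) (hd : a ∣ p ^ n * b) : a ∣ b := by
  induction n with
  | zero => simpa using hd
  | succ n ih =>
    rw [pow_succ', mul_assoc] at hd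
    exact ih ((hp.left_dvd_or_dvd_right_of_dvd_mul hd).resolve_left h)

theorem ev_zero (G : P2 k) : aevalAeval (0 : k) (0 : k) G = co G 0 0 := by
  induction G using P2_induction with
  | h0 i j c =>
    rw [ev_monomial, co_monomial]
    by_cases hi : i = 0 <;> by_cases hj : j = 0 <;> simp [hi, hj]
  | ha G G' h h' => rw [map_add, co_add, h, h']

theorem co_dI (G : P2 k) : co (dI G) 0 0 = co G 1 0 := by
  rw [dI_apply, co_sw, ← co_sw G]
  simp [co, coeff_derivative]

theorem co_dO (G : P2 k) : co (dO G) 0 0 = co G 0 1 := by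
  simp [dO_apply, co, coeff_derivative]

theorem co_dh (L : Matrix (Fin 3) (Fin 3) k) (F : P3 k) :
    co (dh L F) 0 0 = MvPolynomial.eval (fun i => L i 0) F := by
  rw [← ev_zero, ev_dh, ← MvPolynomial.aeval_eq_eval]
  congr 2
  funext j
  simp [lv]

theorem co_der (L : Matrix (Fin 3) (Fin 3) k) (F : P3 k) (D : Derivation k (P2 k) (P2 k))
    (h : ∀ j, MvPolynomial.eval (fun i => L i 0) (MvPolynomial.pderiv j F) = 0) :
    co (D (dh L F)) 0 0 = 0 := by
  rw [← ev_zero, dh, der_aeval, map_sum]
  refine Finset.sum_eq_zero fun a _ => ?_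
  rw [map_mul, ← dh, ev_zero, co_dh, h, zero_mul]

end PSqf

open PSqf

theorem p_sqf : S_sqf k := by
  intro F d L hF hs hL h ⟨w, hw⟩
  obtain ⟨a, H, e, f⟩ := hom h
  obtain ⟨b, W, e', -⟩ := hom w
  have hs' := sqf_lin hs hL
  have key : (MvPolynomial.X 0 : P3 k) ^ (a + a + b) * lin L F =
      MvPolynomial.X 0 ^ d * (H * H * W) := by
    apply io_inj
    simp only [map_mul, map_pow, io_lin hF, hw, e, e']
    ring
  have hp : Prime (MvPolynomial.X 0 : P3 k) := MvPolynomial.X_prime
  have hH : H ≠ 0 := by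
    rintro rfl
    simp only [zero_mul, mul_zero] at key
    exact mul_ne_zero (pow_ne_zero _ hp.ne_zero) hs'.ne_zero key
  obtain ⟨n, H₀, h0, rfl⟩ := WfDvdMonoid.max_power_factor hH hp.irreducible
  have h1 : H₀ * H₀ ∣ MvPolynomial.X 0 ^ (a + a + b) * lin L F :=
    ⟨MvPolynomial.X 0 ^ d * (MvPolynomial.X 0 ^ n * MvPolynomial.X 0 ^ n * W), by
      rw [key]; ring⟩
  have h2 := hs' _ (dvd_of_dvd_pow_mul hp
    (fun h => h0 ((hp.dvd_or_dvd h).elim id id)) _ h1)
  have h3 := h2.map de
  rw [← f, map_mul, map_pow]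
  simpa [de] using h3

theorem p_mult [CharZero k] : S_mult k := by
  intro F d L hd hF h i j hij
  have h00 : co (dh L F) 0 0 = 0 := by
    have e := congrArg (MvPolynomial.eval fun i => L i 0) hF.sum_X_mul_pderiv
    simp only [map_sum, map_mul, h, mul_zero, Finset.sum_const_zero, nsmul_eq_mul,
      map_natCast] at e
    rw [co_dh]
    exact (mul_eq_zero.1 e.symm).resolve_left (Nat.cast_ne_zero.2 hd.ne')
  have h10 : co (dh L F) 1 0 = 0 := by rw [← co_dI]; exact co_der L F dI h
  have h01 : co (dh L F) 0 1 = 0 := by rw [← co_dO]; exact co_der L F dO h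
  by_contra hlt
  have : (i = 0 ∧ j = 0) ∨ (i = 1 ∧ j = 0) ∨ (i = 0 ∧ j = 1) := by omega
  rcases this with ⟨rfl, rfl⟩ | ⟨rfl, rfl⟩ | ⟨rfl, rfl⟩
  exacts [hij h00, hij h10, hij h01]

theorem p_split : S_split k := by
  intro f d κ hκ h
  set N := f.totalDegree + 1 with hN
  have e1 : ∑ i ∈ Finset.range (d + κ + N), MvPolynomial.homogeneousComponent i f = f := by
    rw [add_comm, Finset.sum_range_add, MvPolynomial.sum_homogeneousComponent,
      Finset.sum_eq_zero fun x _ => MvPolynomial.homogeneousComponent_eq_zero _ _ (by omega),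
      add_zero]
  have e2 : f = MvPolynomial.homogeneousComponent d f +
      ∑ j ∈ Finset.range N, MvPolynomial.homogeneousComponent (d + κ + j) f := by
    conv_lhs => rw [← e1]
    rw [Finset.sum_range_add, Finset.sum_eq_single d
      (fun j hj hjd => h j (Finset.mem_range.1 hj) hjd)
      (fun hd => absurd (Finset.mem_range.2 (by omega)) hd)]
  refine ⟨∑ j ∈ Finset.range N, monomial j (MvPolynomial.homogeneousComponent (d + κ + j) f),
    fun S _ _ w β => ?_, ?_⟩
  · conv_lhs => rw [e2]
    rw [map_add, scale (MvPolynomial.homogeneousComponent_isHomogeneous d f), map_sum,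
      eval₂_finsetSum, Finset.mul_sum]
    congr 1
    refine Finset.sum_congr rfl fun j _ => ?_
    rw [scale (MvPolynomial.homogeneousComponent_isHomogeneous _ f), eval₂_monomial, pow_add]
    simp only [AlgHom.toRingHom_eq_coe, RingHom.coe_coe]
    ring
  · rw [finsetSum_coeff, Finset.sum_eq_single 0]
    · simp
    · intro j _ hj
      simp [coeff_monomial, hj]
    · intro h0
      exact absurd (Finset.mem_range.2 (by omega)) h0

end

end Pool.Agent.P.MP_b91a16_ag.LY
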