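import Pool.Agent.P.MP_b91a16_ag.LY.Stmt

/-! Package Step: integration by parts on `ℂ^n`. -/

open MvPolynomial MeasureTheory

namespace Pool.Agent.P.MP_b91a16_ag.LY

noncomputable section

namespace PStep

variable {n : ℕ}

lemma der_eval (p : MvPolynomial (Fin n) ℂ) (x : Fin n → ℂ) (j : Fin n) (c : ℂ) :
    HasDerivAt (fun t : ℝ => eval (x + t • (Pi.single j c : Fin n → ℂ)) p)
      (c * eval x (pderiv j p)) 0 := by
  induction p using MvPolynomial.induction_on with
  | C a => simpa using hasDerivAt_const (0 : ℝ) a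
  | add p q hp hq =>
    simp only [map_add, mul_add]
    exact hp.add hq
  | mul_X p i hp =>
    have h1 : HasDerivAt (fun t : ℝ => (x + t • (Pi.single j c : Fin n → ℂ)) i)
        ((Pi.single j c : Fin n → ℂ) i) 0 := by
      have := ((hasDerivAt_id (0 : ℝ)).smul_const ((Pi.single j c : Fin n → ℂ) i)).const_add (x i)
      simpa using this
    have h2 := hp.mul h1
    simp only [map_mul, eval_X]
    refine HasDerivAt.congr_deriv h2 ?_
    by_cases h : i = j
    · subst h
      simp
      ring
    · simp [h, pderiv_X_of_ne h]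
      ring

/-- The function that is differentiated. -/
def uu (f g : MvPolynomial (Fin n) ℂ) (K : ℕ) (a : ℝ) (x : Fin n → ℂ) : ℂ :=
  (pw f a x : ℂ) * (starRingEnd ℂ (eval x f)) ^ K * eval x g

/-- Its derivative in the direction `c e_j`. -/
def du (f g : MvPolynomial (Fin n) ℂ) (K : ℕ) (a : ℝ) (j : Fin n) (c : ℂ) (x : Fin n → ℂ) : ℂ :=
  (c * eval x (pderiv j f) * starRingEnd ℂ (eval x f) +
      starRingEnd ℂ (c * eval x (pderiv j f)) * eval x f) * a * (pw f (a - 1) x : ℂ) *
      (starRingEnd ℂ (eval x f)) ^ K * eval x g +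
    (pw f a x : ℂ) * (K * (starRingEnd ℂ (eval x f)) ^ (K - 1) *
      starRingEnd ℂ (c * eval x (pderiv j f))) * eval x g +
    (pw f a x : ℂ) * (starRingEnd ℂ (eval x f)) ^ K * (c * eval x (pderiv j g))

lemma line_uu (f g : MvPolynomial (Fin n) ℂ) (K : ℕ) {a : ℝ} (ha : 1 ≤ a) (j : Fin n) (c : ℂ)
    (x : Fin n → ℂ) : HasLineDerivAt ℝ (uu f g K a) (du f g K a j c x) x (Pi.single j c) := by
  have hf := der_eval f x j c
  have hg := der_eval g x j c
  have h1 := (hf.norm_sq.rpow_const (p := a) (Or.inr ha)).ofReal_comp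
  have h2 := hf.star.pow K
  have h3 := (h1.mul h2).mul hg
  refine HasDerivAt.congr_deriv h3 ?_
  have e : ∀ z : ℂ, ((2 * z.re : ℝ) : ℂ) = z + starRingEnd ℂ z := fun z => by
    rw [Complex.add_conj]
  simp only [du, pw, zero_smul, add_zero, Pi.mul_apply, Pi.pow_apply, Complex.inner,
    Complex.ofReal_mul (2 * _ * a), Complex.ofReal_mul _ a, e, Complex.star_def, map_mul,
    Complex.conj_conj]
  ring

lemma cont_pw (f : MvPolynomial (Fin n) ℂ) {a : ℝ} (ha : 0 ≤ a) :
    Continuous fun x => (pw f a x : ℂ) :=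
  Complex.continuous_ofReal.comp
    ((f.continuous_eval.norm.pow 2).rpow_const fun _ => Or.inr ha)

lemma cont_uu (f g : MvPolynomial (Fin n) ℂ) (K : ℕ) {a : ℝ} (ha : 1 ≤ a) :
    Continuous (uu f g K a) :=
  ((cont_pw f (by linarith)).mul ((Complex.continuous_conj.comp f.continuous_eval).pow K)).mul
    g.continuous_eval

lemma cont_du (f g : MvPolynomial (Fin n) ℂ) (K : ℕ) {a : ℝ} (ha : 1 ≤ a) (j : Fin n) (c : ℂ) :
    Continuous (du f g K a j c) := by
  have h0 := cont_pw f (a := a) (by linarith)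
  have h1 := cont_pw f (a := a - 1) (by linarith)
  have hf := f.continuous_eval
  have hg := g.continuous_eval
  have hf' := (pderiv j f).continuous_eval
  have hg' := (pderiv j g).continuous_eval
  have hc : Continuous fun x => starRingEnd ℂ (eval x f) := Complex.continuous_conj.comp hf
  have hc' : Continuous fun x => starRingEnd ℂ (c * eval x (pderiv j f)) :=
    Complex.continuous_conj.comp (continuous_const.mul hf')
  exact ((((((((continuous_const.mul hf').mul hc).add (hc'.mul hf)).mul continuous_const).mul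
    h1).mul (hc.pow K)).mul hg).add ((h0.mul ((continuous_const.mul (hc.pow _)).mul hc')).mul
      hg)).add ((h0.mul (hc.pow K)).mul (continuous_const.mul hg'))

lemma integ {w ψ : (Fin n → ℂ) → ℂ} (hw : Continuous w) (h : Continuous ψ)
    (hs : HasCompactSupport ψ) : Integrable fun x => w x * ψ x :=
  (hw.mul h).integrable_of_hasCompactSupport hs.mul_left

lemma parts (f g : MvPolynomial (Fin n) ℂ) (K : ℕ) {a : ℝ} (ha : 1 ≤ a) (j : Fin n) (c : ℂ)
    {ψ : (Fin n → ℂ) → ℂ} (h : ContDiff ℝ 1 ψ) (hs : HasCompactSupport ψ) :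
    Integrable (fun x => du f g K a j c x * ψ x) ∧
    Integrable (fun x => uu f g K a x * fderiv ℝ ψ x (Pi.single j c)) ∧
    ∫ x, uu f g K a x * fderiv ℝ ψ x (Pi.single j c) = -∫ x, du f g K a j c x * ψ x := by
  have h1 := integ (cont_du f g K ha j c) h.continuous hs
  have h2 : Integrable (fun x => uu f g K a x * fderiv ℝ ψ x (Pi.single j c)) :=
    integ (cont_uu f g K ha) ((h.continuous_fderiv one_ne_zero).clm_apply continuous_const)
      (hs.fderiv_apply ℝ _)
  have h3 := integ (cont_uu f g K ha) h.continuous hs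
  exact ⟨h1, h2, integral_bilinear_hasLineDerivAt_right_eq_neg_left_of_integrable
    (B := ContinuousLinearMap.mul ℝ ℂ) h1 h2 h3 (fun x _ => line_uu f g K ha j c x)
    fun x _ => ((h.differentiable one_ne_zero) x).hasFDerivAt.hasLineDerivAt _⟩

lemma pw_succ (f : MvPolynomial (Fin n) ℂ) {a : ℝ} (ha : 1 ≤ a) (x : Fin n → ℂ) :
    (pw f a x : ℂ) = pw f (a - 1) x * (eval x f * starRingEnd ℂ (eval x f)) := by
  rw [Complex.mul_conj, Complex.normSq_eq_norm_sq, ← Complex.ofReal_mul, pw, pw,
    ← Real.rpow_add_one' (by positivity) (by linarith), sub_add_cancel]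

end PStep

open PStep in
theorem p_step : S_step := by
  intro n f g j K s ψ h hs hK
  have ha : 1 ≤ s - K := by linarith
  obtain ⟨a1, b1, c1⟩ := parts f g K ha j 1 h hs
  obtain ⟨a2, b2, c2⟩ := parts f g K ha j Complex.I h hs
  have e1 : ∀ x, (pw f (s - (K + 1 : ℕ)) x : ℂ) * (starRingEnd ℂ (eval x f)) ^ (K + 1) *
      eval x (f * pderiv j g + C ((s : ℂ) - K) * g * pderiv j f) * ψ x =
      2⁻¹ * (du f g K (s - K) j 1 x * ψ x - Complex.I * (du f g K (s - K) j Complex.I x * ψ x)) := by
    intro x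
    have e : s - ((K + 1 : ℕ) : ℝ) = s - K - 1 := by push_cast; ring
    rw [e]
    simp only [du, pw_succ f ha x, map_add, map_mul, eval_C, map_one, Complex.conj_I,
      Complex.ofReal_sub, Complex.ofReal_natCast]
    generalize (pw f (s - K - 1) x : ℂ) = P
    generalize starRingEnd ℂ (eval x f) = Fb
    generalize starRingEnd ℂ (eval x (pderiv j f)) = Fjb
    generalize eval x f = F
    generalize eval x g = G
    generalize eval x (pderiv j f) = Fj
    generalize eval x (pderiv j g) = Gj
    linear_combination (2⁻¹ * ψ x * ((Fj * Fb - Fjb * F) * ((s : ℂ) - K) * P * Fb ^ K * G -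
      P * (F * Fb) * (K * Fb ^ (K - 1) * Fjb) * G + P * (F * Fb) * Fb ^ K * Gj)) *
      Complex.I_mul_I
  have e2 : ∀ x, (pw f (s - K) x : ℂ) * (starRingEnd ℂ (eval x f)) ^ K * eval x g * wd j ψ x =
      2⁻¹ * (uu f g K (s - K) x * fderiv ℝ ψ x (Pi.single j 1) -
        Complex.I * (uu f g K (s - K) x * fderiv ℝ ψ x (Pi.single j Complex.I))) := by
    intro x
    simp only [uu, wd]
    ring
  simp only [e1, e2]
  rw [integral_const_mul, integral_const_mul, integral_sub a1 (a2.const_mul _),
    integral_sub b1 (b2.const_mul _), integral_const_mul, integral_const_mul, c1, c2]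
  ring

end

end Pool.Agent.P.MP_b91a16_ag.LY
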