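import Pool.Agent.P.MP_b91a16_ag.LY.PRb
import Pool.Agent.P.MP_b91a16_ag.LY.DefsE

/-! The residue along the exceptional divisor of the blow-up of the origin. -/

open Polynomial

namespace Pool.Agent.P.MP_b91a16_ag.LY

noncomputable section

open PRb in
theorem exact_top {k : Type} [Field k] [CharZero k] (hra : S_ra k) {f F : P3 k}
    {R₀ : Polynomial (P3 k)} {M κ : ℕ} (ν : ℕ) (hM : 0 < M) (hκ : 0 < κ) (hsp : Split f M κ F R₀)
    (hf0 : f ≠ 0) (hV : F ≠ 0) {b : k[X]} (hb : LocalBernsteinEq f b)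
    (hs : b.eval (-(ν : k) / M) ≠ 0) : ExactVol F (-(ν : k) / M) := by
  set s : k := -(ν : k) / M with hsdef
  have hMk : (M : k) ≠ 0 := Nat.cast_ne_zero.2 hM.ne'
  let A := Localization.Away F
  let jA : P3 k →ₐ[k] A := IsScalarTower.toAlgHom k (P3 k) A
  obtain ⟨d, hd⟩ : ∃ d : Fin 3 → Derivation k A A, ∀ i y, d i (algebraMap (P3 k) A y) =
    algebraMap (P3 k) A (MvPolynomial.pderiv i y) :=
    ⟨fun i => der F (MvPolynomial.pderiv i), fun i => der_alg _ _⟩
  let β : Fin 3 → PowerSeries A := fun j =>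
    PowerSeries.C (algebraMap (P3 k) A (MvPolynomial.X j))
  let θ : Fin 3 → PowerSeries A := fun j => tt * β j
  have hD : ∀ i j, cw (d i) (θ j) = if i = j then tt else 0 := fun i j => by
    have := cw_t (d i) 1
    rw [pow_one] at this
    simp only [θ, β, Derivation.leibniz, this, cw_C, hd, MvPolynomial.pderiv_X, Pi.single_apply,
      smul_eq_mul, mul_zero, add_zero, eq_comm (a := j)]
    split_ifs <;> simp
  let v : A := algebraMap (P3 k) A F
  let vi : A := IsLocalization.Away.invSelf F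
  have hv : v * vi = 1 := IsLocalization.Away.mul_invSelf F
  let a : PowerSeries A := PowerSeries.C v
  let ai : PowerSeries A := PowerSeries.C vi
  have ha : a * ai = 1 := by rw [← map_mul, hv, map_one]
  have hβ : MvPolynomial.aeval β F = a := by
    have := algHom_aeval ((IsScalarTower.toAlgHom k A (PowerSeries A)).comp jA) MvPolynomial.X β
      (fun _ => rfl) F
    rw [MvPolynomial.aeval_X_left_apply] at this
    exact this.symm
  let r := R₀.eval₂ (MvPolynomial.aeval β : P3 k →ₐ[k] PowerSeries A).toRingHom tt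
  let U : PowerSeries A := 1 + tt ^ κ * (ai * r)
  have cU : cc U = 1 := by simp [U, hκ.ne']
  let Ui : PowerSeries A := PowerSeries.invOfUnit U 1
  have hU : U * Ui = 1 := PowerSeries.mul_invOfUnit U 1 (by simpa using cU)
  have cUi : cc Ui = 1 := by
    have := congrArg cc hU
    rwa [map_mul, cU, one_mul, map_one] at this
  obtain ⟨E, hE, cE⟩ := exists_root (k := k) hM (Ui ^ ν) (isUnit_one (M := A))
    (by rw [map_pow, cUi, one_pow, one_pow])
  have hEU : E ^ M * U ^ ν = 1 := by rw [hE, ← mul_pow, mul_comm, hU, one_pow]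
  let L : Derivation k A A → A →ₗ[k] A := fun d =>
    d.toLinearMap + s • LinearMap.mulRight k (vi * d v)
  have eL : ∀ d c, L d c = d c + algebraMap k A s * (c * (vi * d v)) := fun d c => by
    simp [L, Algebra.smul_def, mul_assoc]
  let R : Submodule k A := LinearMap.range (∑ i, L (d i) ∘ₗ LinearMap.proj i : (Fin 3 → A) →ₗ[k] A)
  let Λ : ℕ → PowerSeries A →ₗ[k] A ⧸ R := fun K =>
    R.mkQ ∘ₗ (PowerSeries.coeff (K * M + 3)).restrictScalars k ∘ₗ
      LinearMap.mulLeft k (E * (ai * Ui) ^ K)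
  have eΛ : ∀ K u, Λ K u = R.mkQ (PowerSeries.coeff (K * M + 3) (E * (ai * Ui) ^ K * u)) :=
    fun K u => rfl
  have sh : ∀ K u, Λ (K + 1) (tt ^ M * u) =
      R.mkQ (PowerSeries.coeff (K * M + 3) (E * (ai * Ui) ^ (K + 1) * u)) := fun K u => by
    rw [eΛ, show (K + 1) * M + 3 = (K * M + 3) + M by ring, mul_left_comm,
      PowerSeries.coeff_X_pow_mul]
  have eF : MvPolynomial.aeval θ f = tt ^ M * (a * U) := by
    rw [hsp _ tt β, hβ]
    linear_combination (-(tt ^ (M + κ) * r)) * ha
  have eJ : (Matrix.of fun i j => cw (d i) (θ j)).det = tt ^ 3 := by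
    simp [hD, Matrix.det_fin_three, pow_succ]
  have h1 : ai * Ui * (a * U) = 1 := by linear_combination (a * ai) * hU + ha
  have sm : ∀ (K : ℕ) (y : PowerSeries A), (s - K) • y =
      (algebraMap k (PowerSeries A) s - (K : PowerSeries A)) * y :=
    fun K y => by rw [Algebra.smul_def, map_sub, map_natCast]
  have cs : ∀ n (y : PowerSeries A), PowerSeries.coeff n (algebraMap k (PowerSeries A) s * y) =
      algebraMap k A s * PowerSeries.coeff n y := fun n y => by
    rw [PowerSeries.algebraMap_apply, PowerSeries.coeff_C_mul]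
  obtain ⟨h, h0, hh⟩ := hra (PowerSeries A) (A ⧸ R) f b s θ (fun i => cw (d i)) Λ hf0 hb
    (fun i i' j => by
      have := fun i => cw_t (d i) 1
      simp only [pow_one] at this
      simp only [hD, apply_ite (cw (d _)), this, map_zero, ite_self]) (fun K u => by
      rw [eF, mul_assoc, sh, eΛ]
      congr 2
      linear_combination (E * (ai * Ui) ^ K * u) * h1) (fun K u i => by
      have e : tt ^ M * (a * U) * cw (d i) u + (s - K) • (u * cw (d i) (tt ^ M * (a * U))) =
          tt ^ M * (a * U * cw (d i) u + (algebraMap k (PowerSeries A) s - (K : PowerSeries A)) *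
            (u * cw (d i) (a * U))) := by
        rw [sm, Derivation.leibniz _ (tt ^ M), cw_t]
        simp only [smul_eq_mul]
        ring
      rw [eF, e, sh, key (cw (d i)) hU ha (root_der (cw (d i)) hMk hEU), map_add, coeff_cw, cs,
        cw_C, ← map_mul, PowerSeries.coeff_mul_C, ← eL]
      exact (Submodule.Quotient.mk_eq_zero R).2 ⟨Pi.single i (PowerSeries.coeff (K * M + 3) (E * (ai * Ui) ^ K * u)), by
        rw [LinearMap.sum_apply, Finset.sum_eq_single i (fun j _ hj => by simp [hj]) (by simp)]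
        simp⟩) (fun u => by
      obtain ⟨M', rfl⟩ : ∃ M', M = M' + 1 := ⟨M - 1, by omega⟩
      have e : E * (ai * Ui) ^ 0 * (tt ^ (M' + 1) * (a * U) * tt ^ 3 * u) =
          tt ^ 3 * (tt * (E * tt ^ M' * (a * U) * u)) := by ring
      rw [eF, eJ, eΛ, e, zero_mul, PowerSeries.coeff_X_pow_mul]
      simp)
  have e : E * (ai * Ui) ^ 0 * (tt ^ 3 * MvPolynomial.aeval θ h) =
      tt ^ 3 * (E * MvPolynomial.aeval θ h) := by ring
  have e0 : PowerSeries.coeff 0 (E * MvPolynomial.aeval θ h) =
      MvPolynomial.constantCoeff h • (1 : A) := by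
    rw [PowerSeries.coeff_zero_eq_constantCoeff_apply, map_mul, cE, one_mul,
      cc_aeval _ (fun j => by simp [θ]), Algebra.algebraMap_eq_smul_one]
  rw [eJ, eΛ, e, zero_mul, PowerSeries.coeff_X_pow_mul, e0,
    map_smul, smul_smul, smul_eq_zero_iff_right (mul_ne_zero hs h0)] at hh
  obtain ⟨c, hc⟩ := (Submodule.Quotient.mk_eq_zero R).1 hh
  simp only [LinearMap.sum_apply, LinearMap.comp_apply, LinearMap.proj_apply, eL] at hc
  choose n P e1 using fun i => IsLocalization.Away.surj F (c i)
  have g : ∀ i, c i * v ^ (∑ i, n i) = algebraMap (P3 k) A (P i * F ^ (∑ i, n i - n i)) :=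
    fun i => by
      rw [map_mul, map_pow, ← e1, mul_assoc, ← pow_add, Nat.add_sub_cancel'
        (Finset.single_le_sum (fun _ _ => Nat.zero_le _) (Finset.mem_univ i))]
  refine ⟨∑ i, n i, fun i => P i * F ^ (∑ i, n i - n i), IsLocalization.injective A
    (powers_le_nonZeroDivisors_of_noZeroDivisors hV) ?_⟩
  have eC : algebraMap (P3 k) A (MvPolynomial.C (s - (∑ i, n i : ℕ))) =
      algebraMap k A s - (∑ i, n i : ℕ) := by
    rw [← map_natCast (algebraMap k A), ← map_sub, IsScalarTower.algebraMap_apply k (P3 k) A]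
    rfl
  rw [map_sum, map_pow, ← mul_one (_ ^ (_ + 1)), ← hc, Finset.mul_sum]
  refine Finset.sum_congr rfl fun i _ => ?_
  rw [← clear (d i) (σ := algebraMap k A s) hv (g i), map_add, map_mul _ F, map_mul _ (_ * _),
    map_mul _ (MvPolynomial.C _), eC, ← hd, ← hd]

end

end Pool.Agent.P.MP_b91a16_ag.LY
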