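import Pool.Agent.P.MP_b91a16_ag.LY.Stmt

/-! Le-Yomdin surfaces: sections and substitution in the ring of allowed poles. -/

open Polynomial

namespace Pool.Agent.P.MP_b91a16_ag.LY

noncomputable section

namespace PTrans

variable {R : Type*} [CommRing R]

/-- The factor `1 - x ^ a T ^ b`. -/
def fac (x : R) (a b : ℕ) : PowerSeries R := 1 - PowerSeries.C (x ^ a) * PowerSeries.X ^ b

theorem coeff_fac_mul (x : R) (a b n : ℕ) (F : PowerSeries R) :
    PowerSeries.coeff n (fac x a b * F) = PowerSeries.coeff n F -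
      if b ≤ n then x ^ a * PowerSeries.coeff (n - b) F else 0 := by
  rw [fac, sub_mul, one_mul, mul_assoc, map_sub, PowerSeries.coeff_C_mul,
    PowerSeries.coeff_X_pow_mul']
  split_ifs <;> simp

/-- Sections of `F` modulo `κ`, spread out modulo `d + κ`. -/
def V (x : R) (d κ c : ℕ) (F : PowerSeries R) : PowerSeries R :=
  PowerSeries.mk fun n => if n % (d + κ) < c then
    x ^ (3 * (n / (d + κ))) * PowerSeries.coeff (κ * (n / (d + κ)) + n % (d + κ)) F else 0

theorem coeff_V (x : R) {d κ : ℕ} (c : ℕ) (F : PowerSeries R) (j : ℕ) {i : ℕ} (hi : i < d + κ) :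
    PowerSeries.coeff ((d + κ) * j + i) (V x d κ c F) =
      if i < c then x ^ (3 * j) * PowerSeries.coeff (κ * j + i) F else 0 := by
  have h0 : 0 < d + κ := by omega
  have h1 : ((d + κ) * j + i) % (d + κ) = i := by
    rw [Nat.mul_add_mod, Nat.mod_eq_of_lt hi]
  have h2 : ((d + κ) * j + i) / (d + κ) = j := by
    rw [Nat.mul_add_div h0, Nat.div_eq_of_lt hi, add_zero]
  rw [V, PowerSeries.coeff_mk, h1, h2]

theorem ex_ji {m : ℕ} (hm : 0 < m) (n : ℕ) : ∃ j i, i < m ∧ n = m * j + i :=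
  ⟨n / m, n % m, Nat.mod_lt _ hm, (Nat.div_add_mod n m).symm⟩

theorem V_fac (x : R) {d κ c : ℕ} (hκ : 0 < κ) (hc : c ≤ κ) (ν N : ℕ) (F : PowerSeries R) :
    V x d κ c (fac x (κ * ν) (κ * N) * F) =
      fac x (3 * N + κ * ν) ((d + κ) * N) * V x d κ c F := by
  ext n
  obtain ⟨j, i, hi, rfl⟩ := ex_ji (show 0 < d + κ by omega) n
  rw [coeff_fac_mul, coeff_V x c _ j hi, coeff_V x c _ j hi, coeff_fac_mul]
  rcases lt_or_ge j N with h | h
  · obtain ⟨u, rfl⟩ : ∃ u, N = j + 1 + u := ⟨N - (j + 1), by omega⟩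
    have h1 : ¬(d + κ) * (j + 1 + u) ≤ (d + κ) * j + i := by
      rw [mul_add, mul_add]; omega
    rw [if_neg h1]
    split_ifs with h2 h3
    · exfalso
      rw [mul_add, mul_add] at h3; omega
    · simp
    · simp
  · obtain ⟨u, rfl⟩ : ∃ u, j = N + u := ⟨j - N, by omega⟩
    have h1 : (d + κ) * N ≤ (d + κ) * (N + u) + i := by rw [mul_add]; omega
    have h2 : κ * N ≤ κ * (N + u) + i := by rw [mul_add]; omega
    have h3 : (d + κ) * (N + u) + i - (d + κ) * N = (d + κ) * u + i := by rw [mul_add]; omega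
    have h4 : κ * (N + u) + i - κ * N = κ * u + i := by rw [mul_add]; omega
    rw [if_pos h1, if_pos h2, h3, h4, coeff_V x c _ u hi]
    split_ifs
    · ring
    · simp

theorem V_poly (x : R) {d κ : ℕ} (c : ℕ) (hκ : 0 < κ) (p : R[X]) :
    ∃ M, ∀ n, M ≤ n → PowerSeries.coeff n (V x d κ c (p : PowerSeries R)) = 0 := by
  refine ⟨(d + κ) * (p.natDegree + 1), fun n hn => ?_⟩
  obtain ⟨j, i, hi, rfl⟩ := ex_ji (show 0 < d + κ by omega) n
  have hj : p.natDegree + 1 ≤ j := by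
    by_contra h
    have h1 : (d + κ) * (j + 1) ≤ (d + κ) * (p.natDegree + 1) :=
      Nat.mul_le_mul_left _ (by omega)
    rw [mul_add] at h1
    omega
  have h2 : j ≤ κ * j := Nat.le_mul_of_pos_left _ hκ
  rw [coeff_V x c _ j hi, Polynomial.coeff_coe, coeff_eq_zero_of_natDegree_lt (by omega)]
  simp

theorem fac_poly (x : R) (a b : ℕ) : ∃ p : R[X], (p : PowerSeries R) = fac x a b :=
  ⟨1 - C (x ^ a) * X ^ b, by simp [fac]⟩

theorem prod_poly (x : R) (κ : ℕ) (l : List (ℕ × ℕ)) :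
    ∃ p : R[X], (p : PowerSeries R) = (l.map fun π => fac x (κ * π.1) (κ * π.2)).prod := by
  induction l with
  | nil => exact ⟨1, by simp⟩
  | cons π l ih =>
    obtain ⟨p, hp⟩ := ih
    obtain ⟨q, hq⟩ := fac_poly x (κ * π.1) (κ * π.2)
    exact ⟨q * p, by rw [List.map_cons, List.prod_cons, Polynomial.coe_mul, hp, hq]⟩

variable {k : Type} [Field k]

theorem denom {S : Finset (ℕ × ℕ)} (κ : ℕ) {F : PowerSeries (Mot k)} (hF : F ∈ poleRing k S) :
    ∃ l : List (ℕ × ℕ), (∀ π ∈ l, π ∈ S) ∧ ∃ p : (Mot k)[X], (p : PowerSeries (Mot k)) =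
      (l.map fun π => fac (Linv k) (κ * π.1) (κ * π.2)).prod * F := by
  induction hF using Algebra.adjoin_induction with
  | mem g hg =>
    rcases hg with hg | ⟨π, hπ, hg⟩
    · rw [Set.mem_singleton_iff] at hg
      exact ⟨[], by simp, X, by simp [hg]⟩
    · refine ⟨[π], by simpa using hπ,
        ∑ i ∈ Finset.range κ, (C (Linv k ^ π.1) * X ^ π.2) ^ i, ?_⟩
      have h1 := geom_sum_mul_neg (PowerSeries.C (Linv k ^ π.1) * PowerSeries.X ^ π.2) κ
      have h2 : fac (Linv k) (κ * π.1) (κ * π.2) =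
          1 - (PowerSeries.C (Linv k ^ π.1) * PowerSeries.X ^ π.2) ^ κ := by
        rw [fac, mul_pow, ← map_pow, ← pow_mul, ← pow_mul, mul_comm κ, mul_comm κ]
      rw [List.map_singleton, List.prod_singleton, h2, ← h1, mul_assoc, mul_comm _ g, hg, mul_one,
        ← Polynomial.coeToPowerSeries.ringHom_apply, map_sum]
      simp
  | algebraMap r => exact ⟨[], by simp, C r, by simp⟩
  | add F G _ _ h₁ h₂ =>
    obtain ⟨l₁, m₁, p₁, e₁⟩ := h₁
    obtain ⟨l₂, m₂, p₂, e₂⟩ := h₂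
    obtain ⟨q₁, f₁⟩ := prod_poly (Linv k) κ l₁
    obtain ⟨q₂, f₂⟩ := prod_poly (Linv k) κ l₂
    refine ⟨l₁ ++ l₂, fun π hπ => (List.mem_append.1 hπ).elim (m₁ π) (m₂ π),
      q₂ * p₁ + q₁ * p₂, ?_⟩
    rw [List.map_append, List.prod_append, Polynomial.coe_add, Polynomial.coe_mul,
      Polynomial.coe_mul, e₁, e₂, f₁, f₂]
    ring
  | mul F G _ _ h₁ h₂ =>
    obtain ⟨l₁, m₁, p₁, e₁⟩ := h₁
    obtain ⟨l₂, m₂, p₂, e₂⟩ := h₂
    refine ⟨l₁ ++ l₂, fun π hπ => (List.mem_append.1 hπ).elim (m₁ π) (m₂ π), p₁ * p₂, ?_⟩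
    rw [List.map_append, List.prod_append, Polynomial.coe_mul, e₁, e₂]
    ring

theorem V_mem {S : Finset (ℕ × ℕ)} {d κ c : ℕ} (hκ : 0 < κ) (hc : c ≤ κ)
    (hS : ∀ π ∈ S, 0 < π.2) {F : PowerSeries (Mot k)} (hF : F ∈ poleRing k S) :
    V (Linv k) d κ c F ∈ poleRing k (S.image (trp d κ)) := by
  obtain ⟨l, hl, p, hp⟩ := denom κ hF
  clear hF
  induction l generalizing F with
  | nil =>
    obtain ⟨M, hM⟩ := V_poly (Linv k) (d := d) c hκ p
    rw [List.map_nil, List.prod_nil, one_mul] at hp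
    exact mem_poleRing_of_eventually _ M (hp ▸ hM)
  | cons π l ih =>
    have hπ : π ∈ S := hl π (by simp)
    have h1 := ih (F := fac (Linv k) (κ * π.1) (κ * π.2) * F)
      (fun π' h => hl π' (List.mem_cons_of_mem _ h))
      (by rw [hp, List.map_cons, List.prod_cons]; ring)
    rw [V_fac _ hκ hc] at h1
    exact mem_of_mul (π := trp d κ π) (Finset.mem_image_of_mem _ hπ)
      (Nat.mul_pos (by omega) (hS π hπ)) h1

theorem eq_of_win {m a j i c : ℕ} (hi : i < m) (hc : c ≤ m) (h1 : m * a ≤ m * j + i)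
    (h2 : m * j + i < m * a + c) : a = j := by
  rcases lt_trichotomy a j with h | h | h
  · have h3 : m * (a + 1) ≤ m * j := Nat.mul_le_mul_left _ h
    rw [mul_add] at h3; omega
  · exact h
  · have h3 : m * (j + 1) ≤ m * a := Nat.mul_le_mul_left _ h
    rw [mul_add] at h3; omega

/-- The summand of the first series. -/
def t (x : R) (d κ : ℕ) (F : PowerSeries R) (a n : ℕ) : R :=
  if 0 < a ∧ d * a < n ∧ n < (d + κ) * a then x ^ (3 * a) * PowerSeries.coeff (n - d * a) F else 0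

theorem t_sum (x : R) {d : ℕ} (hd : 0 < d) (κ : ℕ) (F : PowerSeries R) {n M : ℕ} (h : n ≤ M) :
    ∑ᶠ a, t x d κ F a n = ∑ a ∈ Finset.range M, t x d κ F a n := by
  refine finsum_eq_sum_of_support_subset _ fun a ha => ?_
  have h1 : a ≤ d * a := Nat.le_mul_of_pos_left _ hd
  rw [Finset.coe_range, Set.mem_Iio]
  by_contra h2
  exact ha (show t x d κ F a n = 0 by rw [t, if_neg (by omega)])

theorem t_succ (x : R) {d κ : ℕ} (hκ : 0 < κ) (F : PowerSeries R) (a : ℕ) {n : ℕ} (hn : 0 < n) :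
    t x d κ F (a + 1) (n + d) = x ^ 3 * t x d κ F a n + x ^ 3 *
      if (d + κ) * a ≤ n ∧ n < (d + κ) * a + κ then
        x ^ (3 * a) * PowerSeries.coeff (n - d * a) F else 0 := by
  have e1 : n + d - d * (a + 1) = n - d * a := by rw [mul_add]; omega
  have e2 : d * (a + 1) = d * a + d := by ring
  have e3 : (d + κ) * (a + 1) = d * a + κ * a + d + κ := by ring
  have e4 : (d + κ) * a = d * a + κ * a := by ring
  have e5 : a ≤ κ * a := Nat.le_mul_of_pos_left _ hκ
  have e6 : a = 0 → d * a = 0 ∧ κ * a = 0 := by rintro rfl; simp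
  rw [t, t, e1, e2, e3, e4]
  split_ifs with h1 h2 h3 h4 h5 h6 h7
  · exfalso; omega
  · ring
  · ring
  · exfalso; omega
  · exfalso; omega
  · exfalso; omega
  · exfalso; omega
  · simp

theorem t_rec (x : R) {d κ : ℕ} (hd : 0 < d) (hκ : 0 < κ) (F : PowerSeries R) {n : ℕ}
    (hn : 0 < n) : ∑ᶠ a, t x d κ F a (n + d) = x ^ 3 * ∑ᶠ a, t x d κ F a n +
      x ^ 3 * PowerSeries.coeff n (V x d κ κ F) := by
  rw [t_sum x hd κ F (show n + d ≤ n + d + 1 by omega), t_sum x hd κ F (show n ≤ n + d by omega),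
    Finset.sum_range_succ', show t x d κ F 0 (n + d) = 0 by simp [t], add_zero,
    Finset.sum_congr rfl fun a _ => t_succ x hκ F a hn, Finset.sum_add_distrib, ← Finset.mul_sum,
    ← Finset.mul_sum]
  congr 2
  obtain ⟨j, i, hi, rfl⟩ := ex_ji (show 0 < d + κ by omega) n
  have h1 : j ≤ (d + κ) * j := Nat.le_mul_of_pos_left _ (by omega)
  rw [coeff_V x κ F j hi, Finset.sum_eq_single j]
  · have h2 : (d + κ) * j + i - d * j = κ * j + i := by rw [add_mul]; omega
    rw [h2]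
    exact if_congr (by omega) rfl rfl
  · intro a _ ha
    exact if_neg fun h => ha (eq_of_win hi (by omega) h.1 h.2)
  · intro h
    exact absurd (Finset.mem_range.2 (by omega)) h

end PTrans

open PTrans in
theorem p_trans {k : Type} [Field k] : S_trans k := by
  intro S d κ F hd hκ hS hF
  constructor
  · refine mem_of_mul (π := (3, d)) (Finset.mem_insert_self _ _) hd ?_
    have h1 : V (Linv k) d κ κ F ∈ poleRing k (insert (3, d) (S.image (trp d κ))) :=
      poleRing_mono (Finset.subset_insert _ _) (V_mem hκ le_rfl hS hF)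
    have h2 := Subalgebra.smul_mem _ (mul_mem (pow_mem (X_mem_poleRing _) d) h1) (Linv k ^ 3)
    refine mem_of_congr h2 (d + 1) fun n hn => ?_
    obtain ⟨n, rfl⟩ : ∃ m, n = m + d := ⟨n - d, by omega⟩
    have h3 := t_rec (Linv k) hd hκ F (show 0 < n by omega)
    rw [sub_mul, one_mul, mul_assoc, map_sub, PowerSeries.coeff_C_mul,
      PowerSeries.coeff_X_pow_mul, map_smul, PowerSeries.coeff_X_pow_mul, GF, PowerSeries.coeff_mk,
      PowerSeries.coeff_mk, smul_eq_mul]
    exact sub_eq_of_eq_add' h3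
  · refine mem_of_congr (V_mem (d := d) (c := 1) hκ hκ hS hF) 1 fun n hn => ?_
    obtain ⟨j, i, hi, rfl⟩ := ex_ji (show 0 < d + κ by omega) n
    rw [coeff_V _ 1 F j hi, GF, PowerSeries.coeff_mk, finsum_eq_single _ j]
    · split_ifs with h1 h2 h3
      · rw [show i = 0 by omega, add_zero]
      · exfalso; omega
      · exfalso
        refine h1 ⟨Nat.pos_of_ne_zero ?_, by omega⟩
        rintro rfl
        omega
      · rfl
    · intro a ha
      exact if_neg fun h => ha (eq_of_win (c := 1) hi (by omega) (by omega) (by omega))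

end

end Pool.Agent.P.MP_b91a16_ag.LY
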