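import Pool.Agent.P.MP_b91a16_ag.LY.AZ
import Pool.Agent.P.MP_b91a16_ag.LY.PTop
import Pool.Agent.P.MP_b91a16_ag.LY.PArch
import Pool.Agent.P.MP_b91a16_ag.LY.PBeta
import Pool.Agent.P.MP_b91a16_ag.LY.PBez
import Pool.Agent.P.MP_b91a16_ag.LY.PCentre
import Pool.Agent.P.MP_b91a16_ag.LY.PChart
import Pool.Agent.P.MP_b91a16_ag.LY.PChild
import Pool.Agent.P.MP_b91a16_ag.LY.PCone
import Pool.Agent.P.MP_b91a16_ag.LY.PDiv
import Pool.Agent.P.MP_b91a16_ag.LY.PEdge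
import Pool.Agent.P.MP_b91a16_ag.LY.PFirst
import Pool.Agent.P.MP_b91a16_ag.LY.PGood
import Pool.Agent.P.MP_b91a16_ag.LY.PKid
import Pool.Agent.P.MP_b91a16_ag.LY.PLeaf
import Pool.Agent.P.MP_b91a16_ag.LY.PLoc
import Pool.Agent.P.MP_b91a16_ag.LY.PMel
import Pool.Agent.P.MP_b91a16_ag.LY.PNorm
import Pool.Agent.P.MP_b91a16_ag.LY.POrd
import Pool.Agent.P.MP_b91a16_ag.LY.PRa
import Pool.Agent.P.MP_b91a16_ag.LY.PRho
import Pool.Agent.P.MP_b91a16_ag.LY.PRootDec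
import Pool.Agent.P.MP_b91a16_ag.LY.PShear
import Pool.Agent.P.MP_b91a16_ag.LY.PSing
import Pool.Agent.P.MP_b91a16_ag.LY.PSmooth
import Pool.Agent.P.MP_b91a16_ag.LY.PSqf
import Pool.Agent.P.MP_b91a16_ag.LY.PStep
import Pool.Agent.P.MP_b91a16_ag.LY.PTrans

/-! The main theorem on Le-Yomdin surface singularities. -/

open Polynomial

namespace Pool.Agent.P.MP_b91a16_ag.LY

theorem curve_all : S_curve ℂ :=
  have hc : S_centre ℂ := p_centre p_shA p_shM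
  have hk : S_kid ℂ := p_kid p_child p_kids p_bez p_nd
  p_curve p_shearR p_rootdec p_kids p_bez p_nd p_good (p_norm p_shA p_shM p_kids hc p_bez) hk
    (p_eng p_term p_leaf p_shearU p_shM p_kids hc p_bez p_nd p_good hk
      (p_edge p_firstA p_firstB p_cone p_ray))

theorem main (f : P3 ℂ) (d κ : ℕ) (hd : 3 ≤ d) (hκ : 0 < κ)
    (hlow : ∀ j < d + κ, j ≠ d → MvPolynomial.homogeneousComponent j f = 0)
    (hsq : Squarefree (MvPolynomial.homogeneousComponent d f))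
    (hLY : ∀ x : Fin 3 → ℂ, x ≠ 0 → (∀ j, MvPolynomial.eval x
      (MvPolynomial.pderiv j (MvPolynomial.homogeneousComponent d f)) = 0) →
      MvPolynomial.eval x (MvPolynomial.homogeneousComponent (d + κ) f) ≠ 0) :
    ∃ S : Finset (ℕ × ℕ), zeta f ∈ poleRing ℂ S ∧ ∀ π ∈ S, 0 < π.1 ∧ 0 < π.2 ∧
      (Rt f π ∨ π = (3, d) ∧ 3 < d ∧ ¬LctGe f (3 / d) ∧
        ExactVol (MvPolynomial.homogeneousComponent d f) (-3 / d)) := by
  obtain ⟨S, h1, h2⟩ := main_of p_sqf (p_sing p_bez) p_mult p_split curve_all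
    (p_zmain p_trans p_zeta p_ord p_smooth p_point p_loc) (p_rb p_ra) p_chart p_rho p_beta
    (p_arch p_null p_mel p_step p_div) f d κ hd hκ hlow hsq hLY
  refine ⟨S, h1, fun π hπ => ⟨(h2 π hπ).1, (h2 π hπ).2.1, ?_⟩⟩
  by_cases h : Rt f π
  · exact Or.inl h
  obtain ⟨rfl, h3, h4⟩ := (h2 π hπ).2.2.resolve_left h
  obtain ⟨R, hsp, -⟩ := p_split f d κ hκ hlow
  obtain ⟨b, hb⟩ := not_forall.1 h
  obtain ⟨hb, hs⟩ := _root_.not_imp.1 hb
  refine Or.inr ⟨rfl, h3, h4, ?_⟩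
  simpa using exact_top p_ra 3 (by omega) hκ hsp (fun e => by simp [e] at hsq) hsq.ne_zero hb hs

end Pool.Agent.P.MP_b91a16_ag.LY
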