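import Pool.Agent.P.MP_b91a16_ag.LY.Stmt

/-! Le-Yomdin surfaces, package Edge: passing from one slope of the Newton polygon to the next. -/

open Polynomial

namespace Pool.Agent.P.MP_b91a16_ag.LY

noncomputable section

namespace PEdge

variable {k : Type} [Field k]

/-- Arithmetic core: a point above both lines with `b i + r j = n`, `(b, n)` in the half-closed
cone, is the vertex, or lies on the second line with `(b, n)` on the ray. -/
theorem arith {q₀ p₀ q p N m b n r u i j : ℕ} (hq₀ : 0 < q₀) (hm : 0 < m)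
    (hb : 0 < b) (hu : n = N * b + u) (hr : u ≤ m * r)
    (h0 : (q₀ * N + p₀ * m) * b < q₀ * n) (h1 : q * n ≤ (q * N + p * m) * b)
    (a0 : q₀ * N + p₀ * m ≤ q₀ * i + p₀ * j) (a1 : q * N + p * m ≤ q * i + p * j)
    (e : b * i + r * j = n) :
    (i = N ∧ j = m) ∨ (q * n = (q * N + p * m) * b ∧ q * i + p * j = q * N + p * m) := by
  subst hu
  have h0' : p₀ * m * b < q₀ * u := by nlinarith
  have h1' : q * u ≤ p * m * b := by nlinarith
  have hr0 : p₀ * b < q₀ * r := by
    have h2 : q₀ * u ≤ q₀ * (m * r) := Nat.mul_le_mul_left _ hr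
    have : m * (p₀ * b) < m * (q₀ * r) := by nlinarith
    exact Nat.lt_of_mul_lt_mul_left this
  rcases lt_trichotomy j m with hj | hj | hj
  · right
    obtain ⟨d, rfl⟩ : ∃ d, m = j + d + 1 := ⟨m - j - 1, by omega⟩
    obtain ⟨t, ht⟩ : ∃ t, q * i + p * j = q * N + p * (j + d + 1) + t :=
      ⟨_, (Nat.add_sub_cancel' a1).symm⟩
    obtain ⟨s, hs⟩ : ∃ s, p * (j + d + 1) * b = q * u + s := ⟨_, (Nat.add_sub_cancel' h1').symm⟩
    obtain ⟨w, hw⟩ : ∃ w, (j + d + 1) * r = u + w := ⟨_, (Nat.add_sub_cancel' hr).symm⟩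
    have key : (j + d + 1) * b * t + (d + 1) * s + q * j * w = 0 := by
      have e1 : q * i = q * N + p * (d + 1) + t := by nlinarith
      have e2 : (j + d + 1) * q * (b * i + r * j) = (j + d + 1) * q * (N * b + u) := by rw [e]
      zify at e1 e2 hs hw ⊢
      linear_combination e2 - (j + d + 1) * b * e1 - (d + 1) * hs - q * j * hw
    have ht0 : t = 0 := by
      have h3 : (j + d + 1) * b * t = 0 := by omega
      rcases Nat.mul_eq_zero.1 h3 with h | h
      · rcases Nat.mul_eq_zero.1 h with h | h <;> omega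
      · exact h
    have hs0 : s = 0 := by
      have h3 : (d + 1) * s = 0 := by omega
      rcases Nat.mul_eq_zero.1 h3 with h | h <;> omega
    subst ht0 hs0
    refine ⟨?_, by simpa using ht⟩
    rw [add_zero] at hs
    rw [add_mul, hs]
    ring
  · left
    subst hj
    refine ⟨le_antisymm ?_ ?_, rfl⟩
    · have : b * i ≤ b * N := by nlinarith
      exact Nat.le_of_mul_le_mul_left this hb
    · have : q₀ * N ≤ q₀ * i := by omega
      exact Nat.le_of_mul_le_mul_left this hq₀
  · exfalso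
    obtain ⟨d, rfl⟩ : ∃ d, j = m + d + 1 := ⟨j - m - 1, by omega⟩
    have e1 : q₀ * N ≤ q₀ * i + p₀ * (d + 1) := by nlinarith
    have e2 : q₀ * (b * i + r * (m + d + 1)) = q₀ * (N * b + u) := by rw [e]
    have e3 : b * (q₀ * N) ≤ b * (q₀ * i + p₀ * (d + 1)) := Nat.mul_le_mul_left _ e1
    have e4 : q₀ * u ≤ q₀ * (m * r) := Nat.mul_le_mul_left _ hr
    have e5 : (d + 1) * (p₀ * b) < (d + 1) * (q₀ * r) := Nat.mul_lt_mul_of_pos_left hr0 (by omega)
    nlinarith

theorem le_of_cone {q₀ p₀ N m b n : ℕ} (h0 : (q₀ * N + p₀ * m) * b < q₀ * n) : N * b ≤ n := by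
  have : q₀ * (N * b) < q₀ * n := by nlinarith [Nat.zero_le (p₀ * m * b)]
  exact (Nat.lt_of_mul_lt_mul_left this).le

theorem face {G : P2 k} {q₀ p₀ q p N m b n i j : ℕ} (hM : Model G q₀ p₀ N m)
    (hA : Above G q p (q * N + p * m)) (hm : 0 < m) (hb : 0 < b)
    (h0 : (q₀ * N + p₀ * m) * b < q₀ * n) (h1 : q * n ≤ (q * N + p * m) * b)
    (hc : co G i j ≠ 0) (e : b * i + cdiv (n - N * b) m * j = n) :
    (i = N ∧ j = m) ∨ (q * n = (q * N + p * m) * b ∧ q * i + p * j = q * N + p * m) :=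
  arith hM.1 hm hb (Nat.add_sub_cancel' (le_of_cone h0)).symm ((cdiv_le hm).1 le_rfl) h0 h1
    (hM.2.2.1 i j hc) (hA i j hc) e

theorem cdiv_shift {N m b n q' p' : ℕ} (hm : 0 < m) (h : N * b ≤ n) :
    cdiv (n + (q' * N + p' * m) - N * (b + q')) m = cdiv (n - N * b) m + p' := by
  rw [← cdiv_add _ _ hm]
  congr 1
  obtain ⟨u, rfl⟩ := Nat.exists_eq_add_of_le h
  rw [Nat.add_sub_cancel_left]
  apply Nat.sub_eq_of_eq_add
  ring

theorem ini_shift {G : P2 k} {b r n q' p' n' : ℕ}
    (h : ∀ i j, co G i j ≠ 0 → b * i + r * j = n → q' * i + p' * j = n')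
    (h' : ∀ i j, co G i j ≠ 0 → (b + q') * i + (r + p') * j = n + n' → q' * i + p' * j = n') :
    ini G (b + q') (r + p') (n + n') = ini G b r n := by
  refine co_ext fun i j => ?_
  rw [co_ini, co_ini]
  by_cases hc : co G i j = 0
  · simp [hc]
  refine if_congr ⟨fun e => ?_, fun e => ?_⟩ rfl rfl
  · have := h' i j hc e
    rw [add_mul, add_mul] at e
    omega
  · have := h i j hc e
    rw [add_mul, add_mul]
    omega

/-- The common value of the terms in the half-closed cone. -/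
def ee (G E : P2 k) (ν N m b n : ℕ) : Mot k :=
  Linv k ^ (ν * b + cdiv (n - N * b) m) * (mu (TU E (ini G b (cdiv (n - N * b) m) n)) -
    Linv k * mu (TU 0 (ini G b (cdiv (n - N * b) m) n)))

theorem ee_shift {G E : P2 k} {ν N m b n q' p' : ℕ} (hm : 0 < m) (hn : N * b ≤ n)
    (h : ∀ i j, co G i j ≠ 0 → b * i + cdiv (n - N * b) m * j = n →
      q' * i + p' * j = q' * N + p' * m)
    (h' : ∀ i j, co G i j ≠ 0 →
      (b + q') * i + cdiv (n + (q' * N + p' * m) - N * (b + q')) m * j = n + (q' * N + p' * m) →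
      q' * i + p' * j = q' * N + p' * m) :
    ee G E ν N m (b + q') (n + (q' * N + p' * m)) = Linv k ^ (ν * q' + p') * ee G E ν N m b n := by
  rw [cdiv_shift hm hn] at h'
  rw [ee, ee, cdiv_shift hm hn, ini_shift h h', ← mul_assoc, ← pow_add]
  congr 2
  ring

theorem GF_add (f g : ℕ → ℕ → Mot k) (B : ℕ → ℕ) (hf : ∀ b n, B n ≤ b → f b n = 0)
    (hg : ∀ b n, B n ≤ b → g b n = 0) : GF (fun b n => f b n + g b n) = GF f + GF g := by
  ext n
  simp only [GF, map_add, PowerSeries.coeff_mk]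
  refine finsum_add_distrib ?_ ?_
  · exact (Set.finite_lt_nat (B n)).subset fun b hb => lt_of_not_ge fun h => hb (hf b n h)
  · exact (Set.finite_lt_nat (B n)).subset fun b hb => lt_of_not_ge fun h => hb (hg b n h)

end PEdge

open PEdge in
theorem p_edge {k : Type} [Field k] (hA : S_firstA k) (hB : S_firstB k) (hc : S_cone k)
    (hr : S_ray k) : S_edge k := by
  intro G E ν q₀ p₀ q p N m S hM hAb hq hs hm hn₀ hS₀ hS₁ hG
  have hq₀ : 0 < q₀ := hM.1
  have hp : 0 < p := Nat.pos_of_ne_zero fun h => by simp [h] at hs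
  have hn₁ : 0 < q * N + p * m := Nat.add_pos_right _ (Nat.mul_pos hp hm)
  have hsl : q * (q₀ * N + p₀ * m) < (q * N + p * m) * q₀ := by
    have : m * (p₀ * q) < m * (p * q₀) := Nat.mul_lt_mul_of_pos_left hs hm
    nlinarith
  -- beyond or on the second line we are beyond the first line
  have hbey : ∀ b n, 0 < b → (q * N + p * m) * b ≤ q * n → (q₀ * N + p₀ * m) * b < q₀ * n := by
    intro b n hb h
    have h1 : q * (q₀ * N + p₀ * m) * b < (q * N + p * m) * q₀ * b :=
      Nat.mul_lt_mul_of_pos_right hsl hb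
    have h2 : q₀ * ((q * N + p * m) * b) ≤ q₀ * (q * n) := Nat.mul_le_mul_left _ h
    have : q * ((q₀ * N + p₀ * m) * b) < q * (q₀ * n) := by nlinarith
    exact Nat.lt_of_mul_lt_mul_left this
  have hpos : ∀ b n, q * n < (q * N + p * m) * b → 0 < b := fun b n h =>
    Nat.pos_of_ne_zero fun h0 => by simp [h0] at h
  have hcone := hc S q₀ _ _ q _ _ (ee G E ν N m) hS₀ hS₁ hn₀ hn₁ hsl (by
    intro b n h0 h1
    have hb := hpos b n h1
    have op : ∀ b n i j, (q₀ * N + p₀ * m) * b < q₀ * n → q * n < (q * N + p * m) * b →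
        co G i j ≠ 0 → b * i + cdiv (n - N * b) m * j = n → i = N ∧ j = m := by
      intro b n i j h0 h1 hco e
      rcases face hM hAb hm (hpos b n h1) h0 h1.le hco e with h | h
      · exact h
      · exact absurd h.1 h1.ne
    constructor
    · refine ee_shift hm (le_of_cone h0) (fun i j hco e => ?_) fun i j hco e => ?_
      · obtain ⟨rfl, rfl⟩ := op b n i j h0 h1 hco e
        rfl
      · obtain ⟨rfl, rfl⟩ := op _ _ i j (by nlinarith) (by nlinarith) hco e
        rfl
    · refine ee_shift hm (le_of_cone h0) (fun i j hco e => ?_) fun i j hco e => ?_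
      · obtain ⟨rfl, rfl⟩ := op b n i j h0 h1 hco e
        rfl
      · obtain ⟨rfl, rfl⟩ := op _ _ i j (by nlinarith) (by nlinarith) hco e
        rfl)
  have hray := hr S q _ _ (ee G E ν N m) hS₁ hn₁ (by
    intro b n hb h1
    have op : ∀ b n i j, 0 < b → q * n = (q * N + p * m) * b →
        co G i j ≠ 0 → b * i + cdiv (n - N * b) m * j = n →
        q * i + p * j = q * N + p * m := by
      intro b n i j hb h1 hco e
      rcases face hM hAb hm hb (hbey b n hb h1.ge) h1.le hco e with h | h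
      · rw [h.1, h.2]
      · exact h.2
    refine ee_shift hm (le_of_cone (hbey b n hb h1.ge)) (fun i j hco e => op b n i j hb h1 hco e)
      fun i j hco e => op _ _ i j (by omega) ?_ hco e
    rw [mul_add, h1]
    ring)
  have hfar : ∀ b n, q₀ * n ≤ b → ¬(q₀ * N + p₀ * m) * b < q₀ * n := by
    intro b n h h'
    have : b ≤ (q₀ * N + p₀ * m) * b := Nat.le_mul_of_pos_left _ hn₀
    omega
  have hsum := add_mem (add_mem hcone hray) hG
  rw [← GF_add _ _ (fun n => q₀ * n), ← GF_add _ _ (fun n => q₀ * n)] at hsum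
  · convert hsum using 2
    funext b n
    have hval : 0 < b → (q₀ * N + p₀ * m) * b < q₀ * n → q * n ≤ (q * N + p * m) * b →
        Linv k ^ (ν * b) * eU G E b (p₀ * b / q₀ + 1) n = ee G E ν N m b n := by
      intro hb h0 h1
      rw [eU, hA G E q₀ p₀ q p N m b n hM hAb hq hs hm hb h0 h1,
        hA G 0 q₀ p₀ q p N m b n hM hAb hq hs hm hb h0 h1, ee, pow_add]
      ring
    simp only [tU]
    by_cases h : 0 < b ∧ (q₀ * N + p₀ * m) * b < q₀ * n
    · rw [if_pos h]
      rcases lt_trichotomy (q * n) ((q * N + p * m) * b) with h1 | h1 | h1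
      · rw [if_pos ⟨h.2, h1⟩, if_neg fun h' => h1.ne h'.2, if_neg fun h' => h1.not_gt h'.2,
          add_zero, add_zero, hval h.1 h.2 h1.le]
      · rw [if_neg fun h' => h'.2.ne h1, if_pos ⟨h.1, h1⟩, if_neg fun h' => h'.2.ne' h1,
          add_zero, zero_add, hval h.1 h.2 h1.le]
      · rw [if_neg fun h' => h1.not_gt h'.2, if_neg fun h' => h1.ne' h'.2, if_pos ⟨h.1, h1⟩,
          add_zero, zero_add, eU, eU, hB G E q₀ p₀ q p N m b n hM hAb hq hs h.1 h1,
          hB G 0 q₀ p₀ q p N m b n hM hAb hq hs h.1 h1]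
    · rw [if_neg h, if_neg fun h' => h ⟨hpos b n h'.2, h'.1⟩,
        if_neg fun h' => h ⟨h'.1, hbey b n h'.1 h'.2.ge⟩,
        if_neg fun h' => h ⟨h'.1, hbey b n h'.1 h'.2.le⟩, add_zero, add_zero]
  · intro b n h
    rw [if_neg fun h' => hfar b n h h'.1, if_neg fun h' => hfar b n h (hbey b n h'.1 h'.2.ge),
      add_zero]
  · intro b n h
    exact if_neg fun h' => hfar b n h (hbey b n h'.1 h'.2.le)
  · intro b n h
    exact if_neg fun h' => hfar b n h h'.1
  · intro b n h
    exact if_neg fun h' => hfar b n h (hbey b n h'.1 h'.2.ge)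

end

end Pool.Agent.P.MP_b91a16_ag.LY
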