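import Pool.Agent.P.MP_b91a16_ag.LY.Stmt

/-! Package Rb: the residue along a divisor. -/

open Polynomial

namespace Pool.Agent.P.MP_b91a16_ag.LY

noncomputable section

namespace PRb

section Der

variable {k B : Type} [Field k] [CommRing B] [Algebra k B] (x : B) (d : Derivation k B B)

/-- The ring map `a ↦ (a, d a)` to the dual numbers over the localisation. -/
def jet : B →+* TrivSqZeroExt (Localization.Away x) (Localization.Away x) where
  toFun a := (algebraMap B _ a, algebraMap B _ (d a))
  map_one' := by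
    rw [map_one, d.map_one_eq_zero, map_zero]
    rfl
  map_mul' a b := by
    ext
    · rw [TrivSqZeroExt.fst_mul]
      simp [TrivSqZeroExt.fst]
    · rw [TrivSqZeroExt.snd_mul]
      simp [TrivSqZeroExt.fst, TrivSqZeroExt.snd, mul_comm]
  map_zero' := by
    rw [map_zero d, map_zero]
    rfl
  map_add' a b := by
    ext
    · rw [TrivSqZeroExt.fst_add]
      simp [TrivSqZeroExt.fst]
    · rw [TrivSqZeroExt.snd_add]
      simp [TrivSqZeroExt.snd]

theorem fst_jet (a : B) : (jet x d a).fst = algebraMap B _ a := rfl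

theorem snd_jet (a : B) : (jet x d a).snd = algebraMap B _ (d a) := rfl

theorem jet_unit : IsUnit (jet x d x) := by
  rw [TrivSqZeroExt.isUnit_iff_isUnit_fst, fst_jet]
  exact IsLocalization.Away.algebraMap_isUnit x

def jetL : Localization.Away x →+* TrivSqZeroExt (Localization.Away x) (Localization.Away x) :=
  IsLocalization.Away.lift x (jet_unit x d)

theorem jetL_alg (a : B) : jetL x d (algebraMap B _ a) = jet x d a :=
  IsLocalization.Away.lift_eq x (jet_unit x d) a

theorem fst_jetL (s : Localization.Away x) : (jetL x d s).fst = s := by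
  have h : ((TrivSqZeroExt.fstHom B (Localization.Away x) (Localization.Away x) :
      _ →+* Localization.Away x).comp (jetL x d)) = RingHom.id _ := by
    refine IsLocalization.ringHom_ext (Submonoid.powers x) ?_
    ext a
    simp [jetL_alg, fst_jet]
  exact DFunLike.congr_fun h s

theorem snd_mul (s t : Localization.Away x) :
    (jetL x d (s * t)).snd = s * (jetL x d t).snd + t * (jetL x d s).snd := by
  rw [map_mul, TrivSqZeroExt.snd_mul, fst_jetL, fst_jetL]
  simp [mul_comm]

def der : Derivation k (Localization.Away x) (Localization.Away x) :=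
  Derivation.mk'
    { toFun := fun s => (jetL x d s).snd
      map_add' := fun s t => by rw [map_add, TrivSqZeroExt.snd_add]
      map_smul' := fun c s => by
        rw [Algebra.smul_def, snd_mul, RingHom.id_apply, Algebra.smul_def,
          IsScalarTower.algebraMap_apply k B (Localization.Away x) c, jetL_alg, snd_jet]
        simp }
    fun s t => snd_mul x d s t

theorem der_alg (a : B) : der x d (algebraMap B _ a) = algebraMap B _ (d a) := by
  change (jetL x d _).snd = _
  rw [jetL_alg, snd_jet]

end Der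

section Abs

variable {k B : Type} [Field k] [CommRing B] [Algebra k B] (D : Derivation k B B)

theorem mul_pow_der (a : B) (n : ℕ) : a * D (a ^ n) = n * a ^ n * D a := by
  induction n with
  | zero => simp
  | succ n ih =>
    rw [pow_succ, Derivation.leibniz, smul_eq_mul, smul_eq_mul]
    push_cast
    linear_combination a * ih

theorem root_der {E U : B} {M ν : ℕ} (hM : (M : k) ≠ 0) (h : E ^ M * U ^ ν = 1) :
    U * D E = algebraMap k B (-(ν : k) / M) * (E * D U) := by
  have e := congrArg D h
  rw [Derivation.leibniz, smul_eq_mul, smul_eq_mul, D.map_one_eq_zero] at e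
  have e1 := mul_pow_der D E M
  have e2 := mul_pow_der D U ν
  have e3 : (M : B) * (U * D E) + ν * (E * D U) = 0 := by
    linear_combination (E * U) * e - (U * U ^ ν) * e1 - (E * E ^ M) * e2 -
      ((M : B) * (U * D E) + ν * (E * D U)) * h
  have hu : algebraMap k B (M : k)⁻¹ * M = 1 := by
    rw [← map_natCast (algebraMap k B), ← map_mul, inv_mul_cancel₀ hM, map_one]
  rw [div_eq_mul_inv, map_mul, map_neg, map_natCast]
  linear_combination algebraMap k B (M : k)⁻¹ * e3 - (U * D E) * hu

theorem key {E U Ui a ai σ : B} (hU : U * Ui = 1) (ha : a * ai = 1) (hE : U * D E = σ * (E * D U))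
    (K : ℕ) (u : B) :
    E * (ai * Ui) ^ (K + 1) * (a * U * D u + (σ - K) * (u * D (a * U))) =
      D (E * (ai * Ui) ^ K * u) + σ * (E * (ai * Ui) ^ K * u * (ai * D a)) := by
  have h1 : ai * Ui * (a * U) = 1 := by linear_combination (a * ai) * hU + ha
  have e := congrArg D h1
  rw [Derivation.leibniz, smul_eq_mul, smul_eq_mul, D.map_one_eq_zero] at e
  have e1 := mul_pow_der D (ai * Ui) K
  have e2 : D ((ai * Ui) ^ K) = -(K * (ai * Ui) ^ (K + 1) * D (a * U)) := by
    linear_combination (a * U) * e1 - D ((ai * Ui) ^ K) * h1 + (K * (ai * Ui) ^ K) * e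
  have e3 : D E = σ * E * (ai * Ui * D (a * U) - ai * D a) := by
    rw [Derivation.leibniz, smul_eq_mul, smul_eq_mul]
    linear_combination Ui * hE - (D E + σ * E * ai * D a) * hU - (σ * E * Ui * D U) * ha
  rw [Derivation.leibniz D (E * _), Derivation.leibniz D E, e2, e3]
  simp only [smul_eq_mul]
  linear_combination (E * (ai * Ui) ^ K * D u) * h1

theorem clear {v vi c P σ : B} (hv : v * vi = 1) {n : ℕ} (h : c * v ^ n = P) :
    v * D P + (σ - n) * P * D v = v ^ (n + 1) * (D c + σ * (c * (vi * D v))) := by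
  have e1 := mul_pow_der D v n
  rw [← h, Derivation.leibniz, smul_eq_mul, smul_eq_mul]
  linear_combination c * e1 - (σ * c * v ^ n * D v) * hv

end Abs

variable {k : Type} [Field k]

theorem D3_comm (i i' : Fin 3) (F : PowerSeries (P2 k)) :
    D3 k i (D3 k i' F) = D3 k i' (D3 k i F) := by
  have h1 : ∀ (d : Derivation k (P2 k) (P2 k)), eul k (P2 k) (cw d F) = cw d (eul k (P2 k) F) :=
    fun d => by
      ext n : 1
      rw [coeff_eul, coeff_cw, coeff_cw, coeff_eul, ← nsmul_eq_mul, ← nsmul_eq_mul, map_nsmul]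
  have h2 : cw dI (cw dO F) = cw dO (cw dI F) := by
    ext n : 1
    simp only [coeff_cw, dI_dO]
  fin_cases i <;> fin_cases i' <;> simp [D3, h1, h2]

theorem cw_C {A : Type} [CommRing A] [Algebra k A] (d : Derivation k A A) (a : A) :
    cw d (PowerSeries.C a) = PowerSeries.C (d a) := by
  ext n
  rw [coeff_cw, PowerSeries.coeff_C, PowerSeries.coeff_C]
  split_ifs <;> simp

theorem cw_t {A : Type} [CommRing A] [Algebra k A] (d : Derivation k A A) (M : ℕ) :
    cw d (tt ^ M) = 0 := by
  ext n
  rw [coeff_cw, PowerSeries.coeff_X_pow]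
  split_ifs <;> simp

theorem eul_C {A : Type} [CommRing A] [Algebra k A] (a : A) :
    eul k A (PowerSeries.C a) = 0 := by
  ext n
  rw [coeff_eul, PowerSeries.coeff_C]
  split_ifs with h <;> simp [h]

theorem eul_t {A : Type} [CommRing A] [Algebra k A] (M : ℕ) :
    eul k A (tt ^ M) = (M : PowerSeries A) * tt ^ M := by
  ext n
  rw [coeff_eul, ← nsmul_eq_mul (α := PowerSeries A), map_nsmul, PowerSeries.coeff_X_pow]
  split_ifs with h <;> simp [h]

theorem cc_aeval {A : Type} [CommRing A] [Algebra k A] (θ : Fin 3 → PowerSeries A)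
    (h0 : ∀ j, cc (θ j) = 0) (h : P3 k) :
    cc (MvPolynomial.aeval θ h) = algebraMap k A (MvPolynomial.constantCoeff h) := by
  induction h using MvPolynomial.induction_on with
  | C c => simp [PowerSeries.algebraMap_apply]
  | add p q hp hq => simp only [map_add, hp, hq]
  | mul_X p i hp => simp [h0]

end PRb

open PRb in
theorem p_rb {k : Type} [Field k] [CharZero k] (hra : S_ra k) : S_rb k := by
  intro f b Θ M ν V Δ hb hM hΘ hf hV hJ hs
  set s : k := -(ν : k) / M with hsdef
  have hMk : (M : k) ≠ 0 := Nat.cast_ne_zero.2 hM.ne'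
  have hsM : s * M + ν = 0 := by rw [hsdef, div_mul_cancel₀ _ hMk, neg_add_cancel]
  have hf0 : f ≠ 0 := by
    rintro rfl
    have := congrArg (PowerSeries.coeff (0 + M)) hf
    rw [PowerSeries.coeff_X_pow_mul, map_zero, map_zero,
      PowerSeries.coeff_zero_eq_constantCoeff_apply] at this
    exact hV this.symm
  let A := Localization.Away (cc V)
  let jA : P2 k →ₐ[k] A := IsScalarTower.toAlgHom k (P2 k) A
  let mp : PowerSeries (P2 k) →ₐ[k] PowerSeries A := PowerSeries.mapAlgHom jA
  have cmp : ∀ n F, PowerSeries.coeff n (mp F) = algebraMap (P2 k) A (PowerSeries.coeff n F) :=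
    fun n F => PowerSeries.coeff_map _ _ _
  have ccmp : ∀ F, cc (mp F) = algebraMap (P2 k) A (cc F) := fun F => by
    simpa using cmp 0 F
  have mpt : mp tt = tt := PowerSeries.map_X _
  obtain ⟨d1, hd1⟩ : ∃ d : Derivation k A A, ∀ y, d (algebraMap (P2 k) A y) =
    algebraMap (P2 k) A (dO y) := ⟨der (cc V) dO, der_alg _ _⟩
  obtain ⟨d2, hd2⟩ : ∃ d : Derivation k A A, ∀ y, d (algebraMap (P2 k) A y) =
    algebraMap (P2 k) A (dI y) := ⟨der (cc V) dI, der_alg _ _⟩
  let D : Fin 3 → Derivation k (PowerSeries A) (PowerSeries A) := ![eul k A, cw d1, cw d2]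
  have hD : ∀ i F, D i (mp F) = mp (D3 k i F) := fun i F => by
    ext n : 1
    fin_cases i
    · simp [D, D3, coeff_eul, cmp]
    · simp [D, D3, coeff_cw, cmp, hd1]
    · simp [D, D3, coeff_cw, cmp, hd2]
  let v : A := algebraMap (P2 k) A (cc V)
  let vi : A := IsLocalization.Away.invSelf (cc V)
  have hv : v * vi = 1 := IsLocalization.Away.mul_invSelf (cc V)
  let a : PowerSeries A := PowerSeries.C v
  let ai : PowerSeries A := PowerSeries.C vi
  have ha : a * ai = 1 := by rw [← map_mul, hv, map_one]
  let U : PowerSeries A := ai * mp V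
  have cU : cc U = 1 := by
    rw [map_mul, ccmp, PowerSeries.constantCoeff_C, mul_comm, hv]
  have eV : mp V = a * U := by rw [← mul_assoc, ha, one_mul]
  let Ui : PowerSeries A := PowerSeries.invOfUnit U 1
  have hU : U * Ui = 1 := PowerSeries.mul_invOfUnit U 1 (by simpa using cU)
  have cUi : cc Ui = 1 := by
    have := congrArg cc hU
    rwa [map_mul, cU, one_mul, map_one] at this
  obtain ⟨E, hE, cE⟩ := exists_root (k := k) hM (Ui ^ ν) (isUnit_one (M := A))
    (by rw [map_pow, cUi, one_pow, one_pow])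
  have hEU : E ^ M * U ^ ν = 1 := by rw [hE, ← mul_pow, mul_comm, hU, one_pow]
  let L : Derivation k A A → A →ₗ[k] A := fun d =>
    d.toLinearMap + s • LinearMap.mulRight k (vi * d v)
  have eL : ∀ d c, L d c = d c + algebraMap k A s * (c * (vi * d v)) := fun d c => by
    simp [L, Algebra.smul_def, mul_assoc]
  let R : Submodule k A := LinearMap.range ((L d1).coprod (L d2))
  let Λ : ℕ → PowerSeries A →ₗ[k] A ⧸ R := fun K =>
    R.mkQ ∘ₗ (PowerSeries.coeff (K * M + ν)).restrictScalars k ∘ₗ
      LinearMap.mulLeft k (E * (ai * Ui) ^ K)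
  have eΛ : ∀ K u, Λ K u = R.mkQ (PowerSeries.coeff (K * M + ν) (E * (ai * Ui) ^ K * u)) :=
    fun K u => rfl
  have sh : ∀ K u, Λ (K + 1) (tt ^ M * u) =
      R.mkQ (PowerSeries.coeff (K * M + ν) (E * (ai * Ui) ^ (K + 1) * u)) := fun K u => by
    rw [eΛ, show (K + 1) * M + ν = (K * M + ν) + M by ring, mul_left_comm,
      PowerSeries.coeff_X_pow_mul]
  have eF : MvPolynomial.aeval (fun j => mp (Θ j)) f = tt ^ M * (a * U) := by
    rw [← eV, ← mpt, ← map_pow, ← map_mul, ← hf, MvPolynomial.comp_aeval_apply]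
  have eJ : (Matrix.of fun i j => D i (mp (Θ j))).det = tt ^ ν * mp Δ := by
    rw [← mpt, ← map_pow, ← map_mul, ← hJ, jac3, AlgHom.map_det]
    congr 1
    ext i j : 1
    simp [hD]
  have h1 : ai * Ui * (a * U) = 1 := by linear_combination (a * ai) * hU + ha
  have sm : ∀ (K : ℕ) (y : PowerSeries A), (s - K) • y = (algebraMap k (PowerSeries A) s - (K : PowerSeries A)) * y :=
    fun K y => by rw [Algebra.smul_def, map_sub, map_natCast]
  have cs : ∀ n (y : PowerSeries A), PowerSeries.coeff n (algebraMap k (PowerSeries A) s * y) =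
      algebraMap k A s * PowerSeries.coeff n y := fun n y => by
    rw [PowerSeries.algebraMap_apply, PowerSeries.coeff_C_mul]
  have hcw : ∀ (d : Derivation k A A), (∀ c, L d c ∈ R) → ∀ K u,
      Λ (K + 1) (tt ^ M * (a * U) * cw d u + (s - K) • (u * cw d (tt ^ M * (a * U)))) = 0 := by
    intro d hd K u
    have e : tt ^ M * (a * U) * cw d u + (s - K) • (u * cw d (tt ^ M * (a * U))) =
        tt ^ M * (a * U * cw d u + (algebraMap k (PowerSeries A) s - (K : PowerSeries A)) * (u * cw d (a * U))) := by
      rw [sm, Derivation.leibniz _ (tt ^ M), cw_t]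
      simp only [smul_eq_mul]
      ring
    rw [e, sh, key (cw d) hU ha (root_der (cw d) hMk hEU), map_add, coeff_cw, cs, cw_C, ← map_mul,
      PowerSeries.coeff_mul_C, ← eL]
    exact (Submodule.Quotient.mk_eq_zero R).2 (hd _)
  obtain ⟨h, h0, hh⟩ := hra (PowerSeries A) (A ⧸ R) f b s (fun j => mp (Θ j)) D Λ hf0 hb
    (fun i i' j => by simp only [hD, D3_comm i i']) (fun K u => by
      rw [eF, mul_assoc, sh, eΛ]
      congr 2
      linear_combination (E * (ai * Ui) ^ K * u) * h1) (fun K u i => by
      rw [eF]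
      fin_cases i
      · have e : tt ^ M * (a * U) * eul k A u + (s - K) • (u * eul k A (tt ^ M * (a * U))) =
            tt ^ M * (a * U * eul k A u + (algebraMap k (PowerSeries A) s - (K : PowerSeries A)) * (u * eul k A (a * U)) +
              (algebraMap k (PowerSeries A) s - (K : PowerSeries A)) * (M : PowerSeries A) * (a * U * u)) := by
          rw [sm, Derivation.leibniz _ (tt ^ M), eul_t]
          simp only [smul_eq_mul]
          ring
        have e' : E * (ai * Ui) ^ (K + 1) * ((algebraMap k (PowerSeries A) s - (K : PowerSeries A)) * (M : PowerSeries A) * (a * U * u)) =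
            PowerSeries.C ((algebraMap k A s - K) * M) * (E * (ai * Ui) ^ K * u) := by
          rw [map_mul, map_sub, map_natCast, map_natCast, ← PowerSeries.algebraMap_apply]
          linear_combination ((algebraMap k (PowerSeries A) s - (K : PowerSeries A)) * (M : PowerSeries A) * (E * (ai * Ui) ^ K * u)) * h1
        have hz : algebraMap k A s * M + ν = 0 := by
          have := congrArg (algebraMap k A) hsM
          simpa using this
        change Λ (K + 1) (tt ^ M * (a * U) * eul k A u +
          (s - K) • (u * eul k A (tt ^ M * (a * U)))) = 0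
        rw [e, sh, mul_add, key (eul k A) hU ha (root_der (eul k A) hMk hEU), e', eul_C, mul_zero,
          mul_zero, mul_zero, add_zero, map_add, coeff_eul, PowerSeries.coeff_C_mul, ← add_mul]
        have : ((K * M + ν : ℕ) : A) + (algebraMap k A s - K) * M = 0 := by
          push_cast
          linear_combination hz
        rw [this, zero_mul, map_zero]
      · exact hcw d1 (fun c => ⟨(c, 0), by simp⟩) K u
      · exact hcw d2 (fun c => ⟨(0, c), by simp⟩) K u) (fun u => by
      obtain ⟨M', rfl⟩ : ∃ M', M = M' + 1 := ⟨M - 1, by omega⟩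
      have e : E * (ai * Ui) ^ 0 * (tt ^ (M' + 1) * (a * U) * (tt ^ ν * mp Δ) * u) =
          tt ^ ν * (tt * (E * tt ^ M' * (a * U) * mp Δ * u)) := by ring
      rw [eF, eJ, eΛ, e, zero_mul, PowerSeries.coeff_X_pow_mul]
      simp)
  have e : E * (ai * Ui) ^ 0 * (tt ^ ν * mp Δ * MvPolynomial.aeval (fun j => mp (Θ j)) h) =
      tt ^ ν * (E * mp Δ * MvPolynomial.aeval (fun j => mp (Θ j)) h) := by ring
  have e0 : PowerSeries.coeff 0 (E * mp Δ * MvPolynomial.aeval (fun j => mp (Θ j)) h) =
      MvPolynomial.constantCoeff h • algebraMap (P2 k) A (cc Δ) := by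
    rw [PowerSeries.coeff_zero_eq_constantCoeff_apply, map_mul, map_mul, cE, one_mul, ccmp,
      cc_aeval _ (fun j => by
        rw [ccmp]
        exact (congrArg _ (PowerSeries.X_dvd_iff.1 (hΘ j))).trans (map_zero _)),
      mul_comm, ← Algebra.smul_def]
  rw [eJ, eΛ, e, zero_mul, PowerSeries.coeff_X_pow_mul, e0,
    map_smul, smul_smul, smul_eq_zero_iff_right (mul_ne_zero hs h0)] at hh
  obtain ⟨⟨c1, c2⟩, hc⟩ := (Submodule.Quotient.mk_eq_zero R).1 hh
  rw [LinearMap.coprod_apply, eL, eL] at hc
  obtain ⟨n1, P1, e1⟩ := IsLocalization.Away.surj (cc V) c1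
  obtain ⟨n2, P2', e2⟩ := IsLocalization.Away.surj (cc V) c2
  have g1 : c1 * v ^ (n1 + n2) = algebraMap (P2 k) A (P1 * cc V ^ n2) := by
    rw [map_mul, map_pow, ← e1, pow_add, mul_assoc]
  have g2 : c2 * v ^ (n1 + n2) = algebraMap (P2 k) A (P2' * cc V ^ n1) := by
    rw [map_mul, map_pow, ← e2, add_comm, pow_add, mul_assoc]
  refine ⟨n1 + n2, P1 * cc V ^ n2, P2' * cc V ^ n1, IsLocalization.injective A
    (powers_le_nonZeroDivisors_of_noZeroDivisors hV) ?_⟩
  have k1 := clear d1 (σ := algebraMap k A s) hv g1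
  have k2 := clear d2 (σ := algebraMap k A s) hv g2
  have eC : algebraMap (P2 k) A (C (C (s - (n1 + n2 : ℕ)))) =
      algebraMap k A s - (n1 + n2 : ℕ) := by
    rw [← map_natCast (algebraMap k A), ← map_sub, IsScalarTower.algebraMap_apply k (P2 k) A]
    rfl
  simp only [map_add, map_mul (algebraMap (P2 k) A) (cc V), map_mul (algebraMap (P2 k) A) (_ * _),
    map_mul (algebraMap (P2 k) A) (C _), map_mul (algebraMap (P2 k) A) (_ ^ _), map_pow, eC,
    ← dO_apply, ← hd1, ← hd2]
  rw [← hc]
  linear_combination k1 + k2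

end

end Pool.Agent.P.MP_b91a16_ag.LY
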