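import Pool.Agent.P.MP_b91a16_ag.LY.Stmt

/-! Le-Yomdin surfaces: centred arcs of a plane curve, sorted by one face. -/

open Polynomial

namespace Pool.Agent.P.MP_b91a16_ag.LY

variable {k : Type} [Field k]

namespace PRootDec

theorem le_of_dvd {K : Type} [Field K] {ξ : PowerSeries K} {r s : ℕ} (hξ : cc ξ ≠ 0)
    (h : tt ^ s ∣ tt ^ r * ξ) : s ≤ r := not_lt.1 fun hs => by
  have h1 : (tt : PowerSeries K) ^ (r + 1) ∣ tt ^ r * ξ := (pow_dvd_pow _ hs).trans h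
  rw [pow_succ, mul_dvd_mul_iff_left (pow_ne_zero r PowerSeries.X_ne_zero)] at h1
  exact hξ (PowerSeries.X_dvd_iff.1 h1)

theorem ord {K : Type} [Field K] (z : PowerSeries K) (R : ℕ) :
    tt ^ R ∣ z ∨ ∃ r < R, ∃ ξ, cc ξ ≠ 0 ∧ z = tt ^ r * ξ := by
  induction R with
  | zero => exact Or.inl (by simp)
  | succ R ih =>
    rcases ih with ⟨ξ, rfl⟩ | ⟨r, hr, h⟩
    · by_cases h : cc ξ = 0
      · refine Or.inl ?_
        rw [pow_succ]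
        exact mul_dvd_mul_left _ (PowerSeries.X_dvd_iff.2 h)
      · exact Or.inr ⟨R, R.lt_succ_self, ξ, h, rfl⟩
    · exact Or.inr ⟨r, hr.trans R.lt_succ_self, h⟩

theorem dec {K : Type} [Field K] (y z : PowerSeries K) {q p N n : ℕ} (hq : 0 < q) (hp : 0 < p)
    (hN : 0 < N) : (tt ^ cdiv (q * n) N ∣ y ∧ tt ^ cdiv (p * n) N ∣ z) ∨
      (∃ b < cdiv (q * n) N, ∃ η, cc η ≠ 0 ∧ y = tt ^ b * η ∧ tt ^ cdiv (p * b) q ∣ z) ∨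
      ∃ r < cdiv (p * n) N, ∃ ξ, cc ξ ≠ 0 ∧ z = tt ^ r * ξ ∧ tt ^ (q * r / p + 1) ∣ y := by
  rcases ord y (cdiv (q * n) N) with hy | ⟨b, hb, η, h1, hy⟩
  · rcases ord z (cdiv (p * n) N) with hz | ⟨r, hr, ξ, h2, hz⟩
    · exact Or.inl ⟨hy, hz⟩
    · refine Or.inr (Or.inr ⟨r, hr, ξ, h2, hz, (pow_dvd_pow _ ((div_succ_le hp).2
        (Nat.lt_of_mul_lt_mul_left (a := N) ?_))).trans hy⟩)
      have a1 := Nat.mul_lt_mul_of_pos_left ((lt_cdiv hN).1 hr) hq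
      have a2 := Nat.mul_le_mul_left p ((cdiv_le (a := q * n) hN).1 le_rfl)
      nlinarith
  · rcases ord z (cdiv (p * b) q) with hz | ⟨r, hr, ξ, h2, hz⟩
    · exact Or.inr (Or.inl ⟨b, hb, η, h1, hy, hz⟩)
    · have a0 := (lt_cdiv hq).1 hr
      refine Or.inr (Or.inr ⟨r, (lt_cdiv hN).2 (Nat.lt_of_mul_lt_mul_left (a := q) ?_), ξ, h2, hz,
        hy ▸ (pow_dvd_pow _ ((div_succ_le hp).2 a0)).mul_right _⟩)
      have a1 := Nat.mul_lt_mul_of_pos_left a0 hN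
      have a2 := Nat.mul_le_mul_left p ((lt_cdiv hN).1 hb).le
      nlinarith

theorem hit_sw (G E : P2 k) (n : ℕ) {K : Type} [Field K] [Algebra k K] (w y z : PowerSeries K) :
    Hit (sw G) E n w z y ↔ Hit G E n w y z := by
  rw [Hit, Hit, ev_sw]

theorem hv_top {G : P2 k} (E : P2 k) {B R n : ℕ} (hA : Above G B R n) :
    HV (k := k) (fun _ _ _ (γ : Fin 3 → PowerSeries _) => (tt ^ B ∣ γ 1 ∧ tt ^ R ∣ γ 2) ∧
      cc (γ 0) ≠ 0 ∧ Hit G E n (γ 0) (γ 1) (γ 2))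
      (Linv k ^ (B + R) * mu (TR E (ini G B R n))) := by
  have key := (cyl_TR E (ini G B R n)).hv.shift ![0, B, R]
  rw [show ∑ j, (![0, B, R] : Fin 3 → ℕ) j = B + R by simp [Fin.sum_univ_three]] at key
  refine key.congr fun K _ _ γ => ⟨?_, ?_⟩
  · rintro ⟨β, e, t0, t1⟩
    have e0 : γ 0 = β 0 := by simpa using e 0
    have e1 : γ 1 = tt ^ B * β 1 := by simpa using e 1
    have e2 : γ 2 = tt ^ R * β 2 := by simpa using e 2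
    rw [e0, e1, e2]
    exact ⟨⟨dvd_mul_right _ _, dvd_mul_right _ _⟩, t0, (hA.lead _ _).1,
      by rw [(hA.lead _ _).2]; exact t1⟩
  · rintro ⟨⟨⟨η, e1⟩, ξ, e2⟩, t0, -, t1⟩
    refine ⟨![γ 0, η, ξ], fun j => ?_, t0, ?_⟩
    · fin_cases j <;> simp [e1, e2]
    · rw [e1, e2, (hA.lead _ _).2] at t1
      exact t1

theorem hv_left (G E : P2 k) (b s n : ℕ) :
    HV (k := k) (fun _ _ _ (γ : Fin 3 → PowerSeries _) =>
      (∃ η, cc η ≠ 0 ∧ γ 1 = tt ^ b * η ∧ tt ^ s ∣ γ 2) ∧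
      cc (γ 0) ≠ 0 ∧ Hit G E n (γ 0) (γ 1) (γ 2)) (Linv k ^ b * mu (PU G E b s n)) := by
  have key := (cyl_PU G E b s n).hv.shift ![0, b, 0]
  rw [show ∑ j, (![0, b, 0] : Fin 3 → ℕ) j = b by simp [Fin.sum_univ_three]] at key
  refine key.congr fun K _ _ γ => ⟨?_, ?_⟩
  · rintro ⟨β, e, t0, t1, t2, t3⟩
    have e0 : γ 0 = β 0 := by simpa using e 0
    have e1 : γ 1 = tt ^ b * β 1 := by simpa using e 1
    have e2 : γ 2 = β 2 := by simpa using e 2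
    rw [e0, e1, e2]
    exact ⟨⟨_, t1, rfl, t2⟩, t0, t3⟩
  · rintro ⟨⟨η, t1, e1, t2⟩, t0, t3⟩
    refine ⟨![γ 0, η, γ 2], fun j => ?_, t0, t1, t2, ?_⟩
    · fin_cases j <;> simp [e1]
    · rw [e1] at t3
      exact t3

theorem hv_right (G E : P2 k) (r s n : ℕ) :
    HV (k := k) (fun _ _ _ (γ : Fin 3 → PowerSeries _) =>
      (∃ ξ, cc ξ ≠ 0 ∧ γ 2 = tt ^ r * ξ ∧ tt ^ s ∣ γ 1) ∧
      cc (γ 0) ≠ 0 ∧ Hit G E n (γ 0) (γ 1) (γ 2)) (Linv k ^ r * mu (PU (sw G) E r s n)) :=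
  ((hv_left (sw G) E r s n).perm (Equiv.swap 1 2)).congr fun K _ _ γ => by
    have e0 : (γ ∘ Equiv.swap (1 : Fin 3) 2) 0 = γ 0 := rfl
    have e1 : (γ ∘ Equiv.swap (1 : Fin 3) 2) 1 = γ 2 := rfl
    have e2 : (γ ∘ Equiv.swap (1 : Fin 3) 2) 2 = γ 1 := rfl
    rw [e0, e1, e2, hit_sw]

end PRootDec

open PRootDec

theorem p_rootdec : S_rootdec k := by
  intro G E q p N n hq hp hN hn hA
  have hB : 0 < cdiv (q * n) N := (lt_cdiv hN).2 (by simpa using ⟨hq, hn⟩)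
  have hR : 0 < cdiv (p * n) N := (lt_cdiv hN).2 (by simpa using ⟨hp, hn⟩)
  have hA' : Above G (cdiv (q * n) N) (cdiv (p * n) N) n := fun i j hij => by
    refine Nat.le_of_mul_le_mul_left ?_ hN
    have a1 := Nat.mul_le_mul_left i ((cdiv_le (a := q * n) hN).1 le_rfl)
    have a2 := Nat.mul_le_mul_left j ((cdiv_le (a := p * n) hN).1 le_rfl)
    have a3 := Nat.mul_le_mul_left n (hA i j hij)
    nlinarith
  have h1 := hv_top E hA'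
  have h2 := hv_sum (Finset.Ico 1 (cdiv (q * n) N)) _ _
    (fun b _ => hv_left G E b (cdiv (p * b) q) n) (by
      rintro K _ _ γ a - b - ⟨⟨η, t, e, -⟩, -⟩ ⟨⟨η', t', e', -⟩, -⟩
      exact le_antisymm (le_of_dvd t' (e' ▸ e ▸ dvd_mul_right _ _))
        (le_of_dvd t (e ▸ e' ▸ dvd_mul_right _ _)))
  have h3 := hv_sum (Finset.Ico 1 (cdiv (p * n) N)) _ _
    (fun r _ => hv_right G E r (q * r / p + 1) n) (by
      rintro K _ _ γ a - b - ⟨⟨η, t, e, -⟩, -⟩ ⟨⟨η', t', e', -⟩, -⟩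
      exact le_antisymm (le_of_dvd t' (e' ▸ e ▸ dvd_mul_right _ _))
        (le_of_dvd t (e ▸ e' ▸ dvd_mul_right _ _)))
  refine (((h1.union h2 ?_).union h3 ?_).congr fun K _ _ γ => ⟨?_, ?_⟩).mu_eq
  · rintro K _ _ γ ⟨⟨t, -⟩, -⟩ ⟨b, hb, ⟨η, t', e, -⟩, -⟩
    exact (le_of_dvd t' (e ▸ t)).not_gt (Finset.mem_Ico.1 hb).2
  · rintro K _ _ γ (⟨⟨-, t⟩, -⟩ | ⟨b, -, ⟨η, s1, e1, s2⟩, -⟩) ⟨r, hr, ⟨ξ, t1, e2, t2⟩, -⟩
    · exact (le_of_dvd t1 (e2 ▸ t)).not_gt (Finset.mem_Ico.1 hr).2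
    · exact ((cdiv_le hq).1 (le_of_dvd t1 (e2 ▸ s2))).not_gt
        ((div_succ_le hp).1 (le_of_dvd s1 (e1 ▸ t2)))
  · rintro ((⟨⟨t1, t2⟩, t0, t3⟩ | ⟨b, hb, ⟨η, -, e, t2⟩, t0, t3⟩) | ⟨r, hr, ⟨ξ, -, e, t1⟩, t0, t3⟩)
    · exact ⟨t0, (dvd_pow_self _ hB.ne').trans t1, (dvd_pow_self _ hR.ne').trans t2, t3⟩
    · have hb1 : 0 < b := (Finset.mem_Ico.1 hb).1
      exact ⟨t0, e ▸ (dvd_pow_self _ hb1.ne').mul_right _, (dvd_pow_self _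
        ((lt_cdiv hq).2 (by simpa using ⟨hp, hb1⟩)).ne').trans t2, t3⟩
    · have hr1 : 0 < r := (Finset.mem_Ico.1 hr).1
      exact ⟨t0, (dvd_pow_self _ (Nat.succ_ne_zero _)).trans t1,
        e ▸ (dvd_pow_self _ hr1.ne').mul_right _, t3⟩
  · rintro ⟨t0, t1, t2, t3⟩
    rcases dec (n := n) (γ 1) (γ 2) hq hp hN with h | ⟨b, hb, η, s, e, h⟩ | ⟨r, hr, ξ, s, e, h⟩
    · exact Or.inl (Or.inl ⟨h, t0, t3⟩)
    · exact Or.inl (Or.inr ⟨b, Finset.mem_Ico.2 ⟨le_of_dvd s (by rwa [pow_one, ← e]), hb⟩,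
        ⟨η, s, e, h⟩, t0, t3⟩)
    · exact Or.inr ⟨r, Finset.mem_Ico.2 ⟨le_of_dvd s (by rwa [pow_one, ← e]), hr⟩,
        ⟨ξ, s, e, h⟩, t0, t3⟩

end Pool.Agent.P.MP_b91a16_ag.LY
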