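import Pool.Agent.P.MP_b91a16_ag.LY.Base

/-! Le-Yomdin surfaces: the statements of the steps (interface file). -/

open Polynomial

namespace Pool.Agent.P.MP_b91a16_ag.LY

noncomputable section

variable (k : Type) [Field k]

/-! ### Package First -/

def S_firstA : Prop := ∀ (G E : P2 k) (q₀ p₀ q p N m b n : ℕ), Model G q₀ p₀ N m →
  Above G q p (q * N + p * m) → 0 < q → p₀ * q < p * q₀ → 0 < m → 0 < b →
  (q₀ * N + p₀ * m) * b < q₀ * n → q * n ≤ (q * N + p * m) * b →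
  mu (PU G E b (p₀ * b / q₀ + 1) n) = Linv k ^ cdiv (n - N * b) m *
    mu (TU E (ini G b (cdiv (n - N * b) m) n))

def S_firstB : Prop := ∀ (G E : P2 k) (q₀ p₀ q p N m b n : ℕ), Model G q₀ p₀ N m →
  Above G q p (q * N + p * m) → 0 < q → p₀ * q < p * q₀ → 0 < b →
  (q * N + p * m) * b < q * n →
  mu (PU G E b (p₀ * b / q₀ + 1) n) = mu (PU G E b (cdiv (p * b) q) n)

def S_term : Prop := ∀ (G E : P2 k) (q₀ p₀ N b n : ℕ), Model G q₀ p₀ N 0 → 0 < b → N * b < n →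
  mu (PU G E b (p₀ * b / q₀ + 1) n) = 0

/-! ### Package Leaf -/

def S_leaf : Prop := ∀ (G E : P2 k) (q₀ p₀ N b n : ℕ), Model G q₀ p₀ N 1 → Graph E → 0 < b →
  (q₀ * N + p₀) * b < q₀ * n → eU G E b (p₀ * b / q₀ + 1) n = 0

def S_shearU : Prop := ∀ (G E : P2 k) (ζ : k[X]) (b s n : ℕ), (∀ e ∈ ζ.support, s ≤ b * e) →
  mu (PU (sub 1 0 ζ G) E b s n) = mu (PU G E b s n)

def S_shearR : Prop := ∀ (G E : P2 k) (n : ℕ), mu (PR (sw G) E n) = mu (PR G E n) ∧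
  ∀ ζ : k[X], ζ.coeff 0 = 0 → mu (PR (sub 1 0 ζ G) E n) = mu (PR G E n)

/-! ### Package Child -/

def S_child : Prop := ∀ (G : P2 k) (q p N' : ℕ), 0 < q → 0 < p → q.Coprime p → Above G q p N' →
  edge G q p N' ≠ 0 → ∃ T : Finset k, (∀ c ∈ T, c ≠ 0 ∧ (edge G q p N').IsRoot c) ∧
    ∀ (E : P2 k) (b n : ℕ), 0 < b → N' * b < q * n →
      mu (PU G E b (cdiv (p * b) q) n) = mu (PU G E b (p * b / q + 1) n) +
        if q ∣ b then Linv k ^ (p * (b / q)) *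
          ∑ c ∈ T, mu (PU (sub q p (C c * X ^ p) G) E (b / q) 1 n) else 0

/-! ### Package RootDec -/

def S_rootdec : Prop := ∀ (G E : P2 k) (q p N' n : ℕ), 0 < q → 0 < p → 0 < N' → 0 < n →
  Above G q p N' → mu (PR G E n) =
    Linv k ^ (cdiv (q * n) N' + cdiv (p * n) N') *
      mu (TR E (ini G (cdiv (q * n) N') (cdiv (p * n) N') n)) +
    ∑ b ∈ Finset.Ico 1 (cdiv (q * n) N'), Linv k ^ b * mu (PU G E b (cdiv (p * b) q) n) +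
    ∑ r ∈ Finset.Ico 1 (cdiv (p * n) N'), Linv k ^ r * mu (PU (sw G) E r (q * r / p + 1) n)

/-! ### Package Cone -/

def S_cone : Prop := ∀ (S : Finset (ℕ × ℕ)) (q₀ n₀ ν₀ q₁ n₁ ν₁ : ℕ) (e : ℕ → ℕ → Mot k),
  (ν₀, n₀) ∈ S → (ν₁, n₁) ∈ S → 0 < n₀ → 0 < n₁ → q₁ * n₀ < n₁ * q₀ →
  (∀ b n, n₀ * b < q₀ * n → q₁ * n < n₁ * b →
    e (b + q₀) (n + n₀) = Linv k ^ ν₀ * e b n ∧ e (b + q₁) (n + n₁) = Linv k ^ ν₁ * e b n) →
  GF (fun b n => if n₀ * b < q₀ * n ∧ q₁ * n < n₁ * b then e b n else 0) ∈ poleRing k S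

def S_ray : Prop := ∀ (S : Finset (ℕ × ℕ)) (q n₁ ν : ℕ) (e : ℕ → ℕ → Mot k), (ν, n₁) ∈ S →
  0 < n₁ → (∀ b n, 0 < b → q * n = n₁ * b → e (b + q) (n + n₁) = Linv k ^ ν * e b n) →
  GF (fun b n => if 0 < b ∧ q * n = n₁ * b then e b n else 0) ∈ poleRing k S

/-! ### Package Trans -/

def S_trans : Prop := ∀ (S : Finset (ℕ × ℕ)) (d κ : ℕ) (F : PowerSeries (Mot k)), 0 < d → 0 < κ →
  (∀ π ∈ S, 0 < π.2) → F ∈ poleRing k S →
  GF (fun a n => if 0 < a ∧ d * a < n ∧ n < (d + κ) * a then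
      Linv k ^ (3 * a) * PowerSeries.coeff (n - d * a) F else 0) ∈
    poleRing k (insert (3, d) (S.image (trp d κ))) ∧
  GF (fun a n => if 0 < a ∧ n = (d + κ) * a then
      Linv k ^ (3 * a) * PowerSeries.coeff (κ * a) F else 0) ∈ poleRing k (S.image (trp d κ))

/-! ### Package Shear -/

def S_shA : Prop := ∀ (G : P2 k) (ζ : k[X]) (q p n : ℕ), Above G q p n →
  ((∀ e ∈ ζ.support, p ≤ q * e) → Above (sub 1 0 ζ G) q p n) ∧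
  ((∀ e ∈ ζ.support, p < q * e) → ∀ i j, q * i + p * j = n → co (sub 1 0 ζ G) i j = co G i j)

def S_shM : Prop := ∀ (G : P2 k) (ζ : k[X]) (q p N m : ℕ), Model G q p N m →
  (∀ e ∈ ζ.support, p < q * e) → Model (sub 1 0 ζ G) q p N m

def S_kids : Prop := ∀ (G : P2 k) (q p N m : ℕ), Top G q p N m →
  edge G q p (q * N + p * m) ≠ 0 ∧ (edge G q p (q * N + p * m)).natDegree = m ∧
  (Two (edge G q p (q * N + p * m)) →
    (∃ N₀ m₀, m₀ < m ∧ q * N₀ + p * m₀ = q * N + p * m ∧ Model G q p N₀ m₀) ∧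
    ∀ c, ∃ m₁, m₁ < m ∧ Model (sub q p (C c * X ^ p) G) 1 0 (q * N + p * m) m₁)

/-! ### Package Centre (hypothesis: `S_shM`) -/

def S_centre : Prop := ∀ (G : P2 k) (q₀ p₀ N m : ℕ), Model G q₀ p₀ N m → 2 ≤ m → Bez G →
  ∃ (ζ : k[X]) (q p : ℕ), (∀ e ∈ ζ.support, p₀ < q₀ * e) ∧ p₀ * q < p * q₀ ∧
    Top (sub 1 0 ζ G) q p N m ∧ Two (edge (sub 1 0 ζ G) q p (q * N + p * m))

/-! ### Package Bez -/

def S_bez : Prop := (∀ (G : P2 k) (e P : ℕ) (ζ : k[X]), 0 < e → Bez G → Bez (sub e P ζ G)) ∧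
  (∀ G : P2 k, Squarefree G → Bez G) ∧
  ∀ (G : P2 k) (ζ : k[X]), Squarefree G → Squarefree (sub 1 0 ζ G) ∧ Squarefree (sw G)

def S_nd : Prop :=
  (∀ (G : P2 k) (e P ν ν' N' : ℕ) (ζ : k[X]), 0 < e → ζ.coeff 0 = 0 →
    Nd (sub e P ζ G) (ν * e + P) ν' N' → Nd G ν ν' N') ∧
  (∀ (g : P2 k) (ν N : ℕ), Nd g 1 ν N → Chart g ν N) ∧
  (∀ (g : P2 k) (ν N : ℕ), Chart (sw g) ν N → Chart g ν N) ∧
  ∀ (g : P2 k) (ν N : ℕ) (ζ : k[X]), ζ.coeff 0 = 0 → Chart (sub 1 0 ζ g) ν N → Chart g ν N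

/-! ### Package Good -/

def S_good : Prop := ∀ (φ : k[X]) (ν N : ℕ), 0 < ν → 0 < N → Two φ →
  ν * φ.natDegree < 2 * N ∨ ν * φ.natDegree = 2 * N ∧ ¬Bad φ → Good φ ((ν : k) / N)

/-! ### Package Norm (hypotheses: `S_shA`, `S_shM`, `S_kids`, `S_centre`, `S_bez`) -/

/-- The class generated by shears and the exchange of the coordinates. -/
def Inv (p : P2 k → Prop) : Prop := (∀ g, p (sw g) → p g) ∧
  ∀ (g : P2 k) (ζ : k[X]), ζ.coeff 0 = 0 → p (sub 1 0 ζ g) → p g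

def S_norm : Prop := ∀ pr : P2 k → Prop, Inv k pr →
  (∀ (G : P2 k) (q p N m : ℕ), Squarefree G → Top G q p N m → 2 ≤ m → N ≤ m → q ≤ p →
    Two (edge G q p (q * N + p * m)) →
    (q < p ∨ 0 < N ∨ ¬Bad (edge G q p (q * N + p * m))) → pr G) →
  ∀ g : P2 k, Squarefree g → Above g 1 1 2 → pr g

/-! ### The engine -/

def Eng (m : ℕ) : Prop := ∀ (G : P2 k) (ν q p N : ℕ), Model G q p N m → Bez G → 0 < ν →
  0 < q * N + p * m → ν * m * q ≤ 2 * N * q + m * p →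
  ∃ S : Finset (ℕ × ℕ), (∀ π ∈ S, Nd G ν π.1 π.2) ∧ ∀ E, Graph E →
    GF (tU G E ν (fun b => p * b / q + 1) q (q * N + p * m)) ∈
      poleRing k (insert (ν * q + p, q * N + p * m) S)

/-- Package Kid (hypotheses: `S_child`, `S_kids`, `S_bez`, `S_nd`). -/
def S_kid : Prop := ∀ (G : P2 k) (ν q p N m : ℕ), (∀ m' < m, Eng k m') → Top G q p N m →
  Two (edge G q p (q * N + p * m)) → Bez G → 0 < ν → ν * m * q ≤ 2 * N * q + m * p →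
  ∃ S : Finset (ℕ × ℕ), (∀ π ∈ S, Nd G ν π.1 π.2) ∧ ∀ E, Graph E →
    GF (tU G E ν (fun b => cdiv (p * b) q) q (q * N + p * m)) ∈
      poleRing k (insert (ν * q + p, q * N + p * m) S)

/-- Package Edge (hypotheses: `S_firstA`, `S_firstB`, `S_cone`, `S_ray`). -/
def S_edge : Prop := ∀ (G E : P2 k) (ν q₀ p₀ q p N m : ℕ) (S : Finset (ℕ × ℕ)),
  Model G q₀ p₀ N m → Above G q p (q * N + p * m) → 0 < q → p₀ * q < p * q₀ → 0 < m →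
  0 < q₀ * N + p₀ * m → (ν * q₀ + p₀, q₀ * N + p₀ * m) ∈ S → (ν * q + p, q * N + p * m) ∈ S →
  GF (tU G E ν (fun b => cdiv (p * b) q) q (q * N + p * m)) ∈ poleRing k S →
  GF (tU G E ν (fun b => p₀ * b / q₀ + 1) q₀ (q₀ * N + p₀ * m)) ∈ poleRing k S

def S_eng : Prop := ∀ m, Eng k m

def S_curve : Prop := ∀ g : P2 k, Squarefree g → Above g 1 1 2 → Curve g

/-! ### Package Sing (hypothesis: `S_bez`) -/

def S_sqf : Prop := ∀ (F : P3 k) (d : ℕ) (L : Matrix (Fin 3) (Fin 3) k), F.IsHomogeneous d →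
  Squarefree F → L.det ≠ 0 → Squarefree (dh L F)

def S_sing : Prop := ∀ (F : P3 k) (d : ℕ), 0 < d → F.IsHomogeneous d →
  (∀ L : Matrix (Fin 3) (Fin 3) k, L.det ≠ 0 → Squarefree (dh L F)) → ∃ T, Sing F T

def S_mult : Prop := ∀ (F : P3 k) (d : ℕ) (L : Matrix (Fin 3) (Fin 3) k), 0 < d →
  F.IsHomogeneous d → (∀ j, MvPolynomial.eval (fun i => L i 0) (MvPolynomial.pderiv j F) = 0) →
  Above (dh L F) 1 1 2

def S_split : Prop := ∀ (f : P3 k) (d κ : ℕ), 0 < κ →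
  (∀ j < d + κ, j ≠ d → MvPolynomial.homogeneousComponent j f = 0) →
  ∃ R, Split f d κ (MvPolynomial.homogeneousComponent d f) R ∧
    R.coeff 0 = MvPolynomial.homogeneousComponent (d + κ) f

/-! ### Package Ord -/

def S_zeta : Prop := ∀ (f : P3 k) (S : Finset (ℕ × ℕ)),
  (∀ c, PowerSeries.mk (eZ f c) ∈ poleRing k S) → zeta f ∈ poleRing k (insert (1, 1) S)

def S_ord : Prop := ∀ (f F : P3 k) (R : Polynomial (P3 k)) (d κ n : ℕ) (ψ : k[X]), 0 < d → 0 < κ →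
  0 < n → Split f d κ F R → mu (PZ f ψ n) =
    Linv k ^ (3 * cdiv n d) * mu (TZ (if d ∣ n then F else 0) ψ) +
    ∑ a ∈ Finset.Ico 1 (cdiv n d), Linv k ^ (3 * a) * mu (PA F R κ a ψ (n - d * a))

/-! ### Package Smooth -/

def S_smooth : Prop := ∀ (F : P3 k) (R : Polynomial (P3 k)) (κ a n : ℕ) (c : k), 0 < κ → 0 < a →
  0 < n → mu (PA F R κ a (X - C c) n) - Linv k * mu (PA F R κ a 0 n) =
    mu (PSg F R κ a (X - C c) n) - Linv k * mu (PSg F R κ a 0 n)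

def S_point : Prop := ∀ (F : P3 k) (R : Polynomial (P3 k)) (d κ a n : ℕ) (ψ : k[X])
  (T : Finset (Matrix (Fin 3) (Fin 3) k)), F.IsHomogeneous d → Sing F T →
  mu (PSg F R κ a ψ n) = ∑ L ∈ T, mu (PP L F R κ a ψ n)

/-! ### Package Loc -/

def S_loc : Prop := ∀ (F : P3 k) (R : Polynomial (P3 k)) (d κ a n : ℕ)
  (L : Matrix (Fin 3) (Fin 3) k) (f : P3 k), F.IsHomogeneous d → Split f d κ F R → 0 < κ → 0 < a →
  (∀ ψ, n < κ * a → mu (PP L F R κ a ψ n) = mu (PR (dh L F) (EE d κ 0 ψ) n)) ∧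
  (∀ ψ, n = κ * a → mu (PP L F R κ a ψ n) =
    mu (PR (dh L F) (EE d κ (MvPolynomial.eval (fun i => L i 0) (R.coeff 0)) ψ) n)) ∧
  ∀ c, κ * a < n → MvPolynomial.eval (fun i => L i 0) (R.coeff 0) ≠ 0 →
    mu (PP L F R κ a (X - C c) n) = Linv k * mu (PP L F R κ a 0 n)

def S_zmain : Prop := ∀ (f F : P3 k) (R : Polynomial (P3 k)) (d κ : ℕ)
  (T : Finset (Matrix (Fin 3) (Fin 3) k)), 0 < d → 0 < κ → F.IsHomogeneous d → Split f d κ F R →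
  Sing F T → (∀ L ∈ T, MvPolynomial.eval (fun i => L i 0) (R.coeff 0) ≠ 0 ∧ Curve (dh L F)) →
  ∃ S : Finset (ℕ × ℕ), zeta f ∈ poleRing k S ∧ ∀ π ∈ S, π = (1, 1) ∨ π = (3, d) ∨
    ∃ L ∈ T, ∃ π', Chart (dh L F) π'.1 π'.2 ∧ π = trp d κ π'

/-! ### Package Res -/

def S_ra : Prop := ∀ (B W : Type) [CommRing B] [Algebra k B] [AddCommGroup W] [Module k W]
  (f : P3 k) (b : k[X]) (s : k) (θ : Fin 3 → B) (D : Fin 3 → Derivation k B B)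
  (Λ : ℕ → B →ₗ[k] W), f ≠ 0 → LocalBernsteinEq f b →
  (∀ i i' j, D i (D i' (θ j)) = D i' (D i (θ j))) →
  (∀ K u, Λ (K + 1) (MvPolynomial.aeval θ f * u) = Λ K u) →
  (∀ K u i, Λ (K + 1) (MvPolynomial.aeval θ f * D i u +
    (s - K) • (u * D i (MvPolynomial.aeval θ f))) = 0) →
  (∀ u, Λ 0 (MvPolynomial.aeval θ f * (Matrix.of fun i j => D i (θ j)).det * u) = 0) →
  ∃ h : P3 k, MvPolynomial.constantCoeff h ≠ 0 ∧
    b.eval s • Λ 0 ((Matrix.of fun i j => D i (θ j)).det * MvPolynomial.aeval θ h) = 0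

/-- Package Rb (hypothesis: `S_ra`). -/
def S_rb : Prop := ∀ (f : P3 k) (b : k[X]) (Θ : Fin 3 → PowerSeries (P2 k)) (M ν : ℕ)
  (V Δ : PowerSeries (P2 k)), LocalBernsteinEq f b → 0 < M → (∀ j, tt ∣ Θ j) →
  MvPolynomial.aeval Θ f = tt ^ M * V → cc V ≠ 0 → jac3 Θ = tt ^ ν * Δ →
  b.eval (-(ν : k) / M) ≠ 0 → Exact2 (cc V) (cc Δ) (-(ν : k) / M)

/-- Package Chart. -/
def S_chart : Prop := ∀ (f F : P3 k) (R : Polynomial (P3 k)) (d κ ν N : ℕ)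
  (L : Matrix (Fin 3) (Fin 3) k) (Y Z : P2 k) (c : k), Split f d κ F R → 0 < κ → 0 < N →
  L.det ≠ 0 → c ≠ 0 → C X ∣ Y → C X ∣ Z → C X * jac Y Z = C (C c * X ^ ν) →
  Above (aevalAeval Y Z (dh L F)) 1 0 N →
  ∃ (Θ : Fin 3 → PowerSeries (P2 k)) (V Δ : PowerSeries (P2 k)) (c' : k), c' ≠ 0 ∧
    (∀ j, tt ∣ Θ j) ∧ MvPolynomial.aeval Θ f = tt ^ ((d + κ) * N) * V ∧
    cc V = X ^ d * (C (row (aevalAeval Y Z (dh L F)) N) +
      C (C (MvPolynomial.eval (fun i => L i 0) (R.coeff 0))) * X ^ κ) ∧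
    jac3 Θ = tt ^ (3 * N + κ * ν) * Δ ∧ cc Δ = C (C c') * X ^ 2

/-- Package Rho. -/
def S_rho : Prop := ∀ (φ : k[X]) (ν N : ℕ), 0 < ν → ν ≤ N → Good φ ((ν : k) / N) →
  Rho φ ((ν : k) / N)

/-- Package Beta. -/
def S_beta : Prop := ∀ (φ : k[X]) (l a s ε c : k) (d κ : ℕ), Rho φ l → 0 < κ → ε ≠ 0 → c ≠ 0 →
  κ * a = 3 + d * s → a + s = -l → (∀ i : ℕ, a ≠ i + 1) → (∀ i : ℕ, s ≠ i) →
  ¬Exact2 (X ^ d * (C φ + C (C ε) * X ^ κ)) (C (C c) * X ^ 2) s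

/-! ### The archimedean argument -/

/-- `|f|^(2a)`. -/
def pw {n : ℕ} (f : MvPolynomial (Fin n) ℂ) (a : ℝ) (x : Fin n → ℂ) : ℝ :=
  (‖MvPolynomial.eval x f‖ ^ 2) ^ a

def mel {n : ℕ} (f : MvPolynomial (Fin n) ℂ) (w : (Fin n → ℂ) → ℂ) (s : ℂ) : ℂ :=
  ∫ x, ((‖MvPolynomial.eval x f‖ ^ 2 : ℝ) : ℂ) ^ s * w x

/-- The Wirtinger derivative. -/
def wd {n : ℕ} (j : Fin n) (u : (Fin n → ℂ) → ℂ) (x : Fin n → ℂ) : ℂ :=
  (fderiv ℝ u x (Pi.single j 1) - Complex.I * fderiv ℝ u x (Pi.single j Complex.I)) / 2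

/-- Package Mel. -/
def S_null : Prop := ∀ (n : ℕ) (f : MvPolynomial (Fin n) ℂ), f ≠ 0 →
  ∀ᵐ x : Fin n → ℂ, MvPolynomial.eval x f ≠ 0

def S_mel : Prop := ∀ (n : ℕ) (f : MvPolynomial (Fin n) ℂ) (w : (Fin n → ℂ) → ℂ) (σ₀ : ℝ),
  (∀ᵐ x : Fin n → ℂ, MvPolynomial.eval x f ≠ 0) → Continuous w →
  (∀ σ, σ₀ < σ → MeasureTheory.Integrable fun x => pw f σ x * ‖w x‖) →
  DifferentiableOn ℂ (mel f w) {s | σ₀ < s.re}

/-- Package Step. -/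
def S_step : Prop := ∀ (n : ℕ) (f g : MvPolynomial (Fin n) ℂ) (j : Fin n) (K : ℕ) (s : ℝ)
  (ψ : (Fin n → ℂ) → ℂ), ContDiff ℝ 1 ψ → HasCompactSupport ψ → K + 1 < s →
  ∫ x, (pw f (s - (K + 1 : ℕ)) x : ℂ) * (starRingEnd ℂ (MvPolynomial.eval x f)) ^ (K + 1) *
      MvPolynomial.eval x (f * MvPolynomial.pderiv j g +
        MvPolynomial.C ((s : ℂ) - K) * g * MvPolynomial.pderiv j f) * ψ x =
    -∫ x, (pw f (s - K) x : ℂ) * (starRingEnd ℂ (MvPolynomial.eval x f)) ^ K *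
      MvPolynomial.eval x g * wd j ψ x

/-- Package Div. -/
def S_div : Prop := ∀ (n d : ℕ) (f : MvPolynomial (Fin n) ℂ) (w : (Fin n → ℂ) → ℝ) (c₁ A : ℝ),
  0 < n → 0 < d → (∀ᵐ x : Fin n → ℂ, MvPolynomial.eval x f ≠ 0) →
  (∀ j < d, MvPolynomial.homogeneousComponent j f = 0) → Continuous w → (∀ x, 0 ≤ w x) →
  0 < w 0 → c₁ < (n : ℝ) / d →
  (∀ c, c₁ < c → c < (n : ℝ) / d → MeasureTheory.Integrable fun x => pw f (-c) x * w x) →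
  ∃ c, c₁ < c ∧ c < (n : ℝ) / d ∧ A < ∫ x, pw f (-c) x * w x

/-- Package Arch (hypotheses: `S_null`, `S_mel`, `S_step`, `S_div`). -/
def S_arch : Prop := ∀ (n d : ℕ) (f : MvPolynomial (Fin n) ℂ) (b : ℂ[X]), 0 < n → 0 < d → f ≠ 0 →
  (∀ j < d, MvPolynomial.homogeneousComponent j f = 0) → LctGe f ((n : ℝ) / d) →
  LocalBernsteinEq f b → b.eval (-(n : ℂ) / (d : ℂ)) = 0

end

end Pool.Agent.P.MP_b91a16_ag.LY
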