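import Pool.Agent.P.MP_b91a16_ag.BernLoc

/-! Volumes of sets of tuples of power series. -/

set_option linter.unusedSectionVars false

open PowerSeries

namespace Pool.Agent.P.MP_b91a16_ag.LY

noncomputable section

variable {k σ α : Type} [Field k]

abbrev SP (k : Type) [Field k] (σ : Type) : Type 1 :=
  ∀ (K : Type) [Field K] [Algebra k K], (σ → K⟦X⟧) → Prop

abbrev SF (k : Type) [Field k] (σ : Type) : Type 1 :=
  ∀ (K : Type) [Field K] [Algebra k K], (σ → K⟦X⟧) → K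

abbrev SS (k : Type) [Field k] (σ : Type) : Type 1 :=
  ∀ (K : Type) [Field K] [Algebra k K], (σ → K⟦X⟧) → K⟦X⟧

def HV (Q : SP k σ) (v : Mot k) : Prop := HasVol (k := k) (fun K _ _ x => Q K (ser x)) v

def Cyl (Q : SP k σ) : Prop := ∃ v, HV Q v

open Classical in
def mu (Q : SP k σ) : Mot k := if h : Cyl Q then h.choose else 0

def Lev (Q : SP k σ) (M : ℕ) : Prop := ∀ (K : Type) [Field K] [Algebra k K]
  (γ γ' : σ → K⟦X⟧), (∀ j, X ^ M ∣ γ' j - γ j) → Q K γ → Q K γ'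

/-- A polynomial in the coefficients of the series. -/
def PF (φ : SF k σ) : Prop := ∃ e : MvPolynomial (σ × ℕ) k,
  ∀ (K : Type) [Field K] [Algebra k K] (x : σ × ℕ → K), φ K (ser x) = MvPolynomial.aeval x e

/-- A series whose coefficients are polynomials, compatible with truncation. -/
def PS (F : SS k σ) : Prop := (∀ p, PF (k := k) fun K _ _ γ => coeff p (F K γ)) ∧
  ∀ (K : Type) [Field K] [Algebra k K] (γ γ' : σ → K⟦X⟧) (M : ℕ),
    (∀ j, X ^ M ∣ γ' j - γ j) → X ^ M ∣ F K γ' - F K γ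

def cof {K : Type} [CommRing K] (γ : σ → K⟦X⟧) : σ × ℕ → K := fun p => coeff p.2 (γ p.1)

theorem ser_cof {K : Type} [CommRing K] (γ : σ → K⟦X⟧) : ser (cof γ) = γ := by
  funext j
  ext l
  simp [ser, cof]

theorem cof_ser {K : Type} [CommRing K] (x : σ × ℕ → K) : cof (ser x) = x := by
  funext p
  simp [ser, cof]

theorem coeff_ser {K : Type} [CommRing K] (x : σ × ℕ → K) (j : σ) (l : ℕ) :
    coeff l (ser x j) = x (j, l) := by simp [ser]

theorem dvd_ser_sub {K : Type} [CommRing K] {x y : σ × ℕ → K} {j : σ} {M : ℕ} :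
    X ^ M ∣ ser y j - ser x j ↔ ∀ l < M, y (j, l) = x (j, l) := by
  simp only [X_pow_dvd_iff, map_sub, coeff_ser, sub_eq_zero]

theorem dvd_succ_iff {K : Type} [CommRing K] {F : K⟦X⟧} {m : ℕ} :
    X ^ (m + 1) ∣ F ↔ X ^ m ∣ F ∧ coeff m F = 0 := by
  simp only [X_pow_dvd_iff]
  exact ⟨fun h => ⟨fun p hp => h p (by omega), h m (by omega)⟩, fun h p hp =>
    (Nat.lt_succ_iff_lt_or_eq.1 hp).elim (h.1 p) fun e => e ▸ h.2⟩

theorem coeff_eq_of_dvd {K : Type} [CommRing K] {F G : K⟦X⟧} {M p : ℕ} (h : X ^ M ∣ F - G)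
    (hp : p < M) : coeff p F = coeff p G := by
  have := X_pow_dvd_iff.1 h p hp
  rwa [map_sub, sub_eq_zero] at this

variable {P Q : SP k σ} {v w : Mot k} {φ ψ : SF k σ} {F G : SS k σ}

theorem HV.unique (h : HV Q v) (h' : HV Q w) : v = w := HasVol.unique h h'

theorem HV.congr (h : HV P v)
    (e : ∀ (K : Type) [Field K] [Algebra k K] (γ : σ → K⟦X⟧), P K γ ↔ Q K γ) : HV Q v :=
  HasVol.congr h fun K _ _ _ => e K _

theorem Cyl.hv (h : Cyl Q) : HV Q (mu Q) := by
  rw [mu, dif_pos h]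
  exact h.choose_spec

theorem HV.mu_eq (h : HV Q v) : mu Q = v := (Cyl.hv ⟨v, h⟩).unique h

theorem Cyl.congr (h : Cyl P)
    (e : ∀ (K : Type) [Field K] [Algebra k K] (γ : σ → K⟦X⟧), P K γ ↔ Q K γ) : Cyl Q :=
  ⟨_, h.hv.congr e⟩

theorem mu_congr
    (e : ∀ (K : Type) [Field K] [Algebra k K] (γ : σ → K⟦X⟧), P K γ ↔ Q K γ) : mu P = mu Q := by
  have : P = Q := by
    funext K _ _ γ
    exact propext (e K γ)
  rw [this]

theorem hv_false : HV (fun _ _ _ _ => False : SP k σ) 0 := hasVol_false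

theorem hv_true : HV (fun _ _ _ _ => True : SP k σ) 1 := hasVol_true

theorem mu_eq_zero (h : ∀ (K : Type) [Field K] [Algebra k K] (γ : σ → K⟦X⟧), ¬Q K γ) :
    mu Q = 0 := (hv_false.congr fun K _ _ γ => ⟨False.elim, h K γ⟩).mu_eq

theorem HV.union (h : HV P v) (h' : HV Q w)
    (hd : ∀ (K : Type) [Field K] [Algebra k K] (γ : σ → K⟦X⟧), P K γ → Q K γ → False) :
    HV (k := k) (fun K _ _ γ => P K γ ∨ Q K γ) (v + w) :=
  HasVol.union h h' fun K _ _ _ => hd K _

theorem hv_sum (s : Finset α) (P : α → SP k σ) (v : α → Mot k) (h : ∀ a ∈ s, HV (P a) (v a))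
    (hd : ∀ (K : Type) [Field K] [Algebra k K] (γ : σ → K⟦X⟧), ∀ a ∈ s, ∀ b ∈ s,
      P a K γ → P b K γ → a = b) :
    HV (k := k) (fun K _ _ γ => ∃ a ∈ s, P a K γ) (∑ a ∈ s, v a) :=
  hasVol_sum s (fun a K _ _ x => P a K (ser x)) v h fun K _ _ _ => hd K _

theorem HV.split (h : HV Q v) (hφ : PF φ) :
    ∃ v₁ v₂, HV (k := k) (fun K _ _ γ => Q K γ ∧ φ K γ = 0) v₁ ∧
      HV (k := k) (fun K _ _ γ => Q K γ ∧ φ K γ ≠ 0) v₂ ∧ v = v₁ + v₂ := by
  obtain ⟨e, he⟩ := hφ
  obtain ⟨v₁, v₂, h₁, h₂, h₃⟩ := HasVol.split h e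
  exact ⟨v₁, v₂, HasVol.congr h₁ fun K _ _ x => by rw [← he], HasVol.congr h₂ fun K _ _ x => by
    rw [← he], h₃⟩

theorem cyl_true : Cyl (fun _ _ _ _ => True : SP k σ) := ⟨1, hv_true⟩

theorem Cyl.and_zero (h : Cyl Q) (hφ : PF φ) :
    Cyl (k := k) fun K _ _ γ => Q K γ ∧ φ K γ = 0 :=
  let ⟨v, _, h₁, _⟩ := h.hv.split hφ
  ⟨v, h₁⟩

theorem Cyl.and_ne (h : Cyl Q) (hφ : PF φ) :
    Cyl (k := k) fun K _ _ γ => Q K γ ∧ φ K γ ≠ 0 :=
  let ⟨_, v, _, h₂, _⟩ := h.hv.split hφ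
  ⟨v, h₂⟩

theorem mu_split (h : Cyl Q) (hφ : PF φ) : mu Q =
    mu (k := k) (fun K _ _ γ => Q K γ ∧ φ K γ = 0) +
      mu (k := k) fun K _ _ γ => Q K γ ∧ φ K γ ≠ 0 := by
  obtain ⟨v₁, v₂, h₁, h₂, e⟩ := h.hv.split hφ
  rw [e, h₁.mu_eq, h₂.mu_eq]

theorem HV.split_multi (h : HV Q v) (s : Finset α) (φ : α → SF k σ) (hφ : ∀ a ∈ s, PF (φ a)) :
    ∃ v₁ v₂, HV (k := k) (fun K _ _ γ => Q K γ ∧ ∀ a ∈ s, φ a K γ = 0) v₁ ∧
      HV (k := k) (fun K _ _ γ => Q K γ ∧ ∃ a ∈ s, φ a K γ ≠ 0) v₂ ∧ v = v₁ + v₂ := by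
  classical
  induction s using Finset.induction_on with
  | empty => exact ⟨v, 0, by simpa using h, by simpa using hv_false, by simp⟩
  | insert a s _ ih =>
    obtain ⟨v₁, v₂, h₁, h₂, rfl⟩ := ih fun b hb => hφ b (Finset.mem_insert_of_mem hb)
    obtain ⟨w₁, w₂, g₁, g₂, rfl⟩ := h₁.split (hφ a (Finset.mem_insert_self _ _))
    refine ⟨w₁, w₂ + v₂, g₁.congr fun K _ _ x => ?_, (g₂.union h₂ ?_).congr fun K _ _ x => ?_,
      add_assoc _ _ _⟩
    · simp only [Finset.forall_mem_insert]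
      tauto
    · rintro K _ _ x h1 ⟨-, b, hb, h2⟩
      exact h2 (h1.1.2 b hb)
    · simp only [Finset.exists_mem_insert]
      constructor
      · tauto
      · rintro ⟨h1, h2⟩
        by_cases h3 : ∀ b ∈ s, φ b K x = 0
        · exact Or.inl ⟨⟨h1, h3⟩, h2.resolve_right fun ⟨b, hb, h4⟩ => h4 (h3 b hb)⟩
        · push Not at h3
          exact Or.inr ⟨h1, h3⟩

theorem Cyl.and_forall (h : Cyl Q) (s : Finset α) (φ : α → SF k σ) (hφ : ∀ a ∈ s, PF (φ a)) :
    Cyl (k := k) fun K _ _ γ => Q K γ ∧ ∀ a ∈ s, φ a K γ = 0 :=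
  let ⟨v, _, h₁, _⟩ := h.hv.split_multi s φ hφ
  ⟨v, h₁⟩

theorem Cyl.and_exists (h : Cyl Q) (s : Finset α) (φ : α → SF k σ) (hφ : ∀ a ∈ s, PF (φ a)) :
    Cyl (k := k) fun K _ _ γ => Q K γ ∧ ∃ a ∈ s, φ a K γ ≠ 0 :=
  let ⟨_, v, _, h₂, _⟩ := h.hv.split_multi s φ hφ
  ⟨v, h₂⟩

theorem Cyl.and_dvd (h : Cyl Q) (hF : PS F) (n : ℕ) :
    Cyl (k := k) fun K _ _ γ => Q K γ ∧ X ^ n ∣ F K γ :=
  (h.and_forall (Finset.range n) _ fun p _ => hF.1 p).congr fun K _ _ γ => by
    simp [X_pow_dvd_iff]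

theorem Lev.mono {M M' : ℕ} (h : Lev Q M) (hM : M ≤ M') : Lev Q M' :=
  fun K _ _ γ γ' e => h K γ γ' fun j => (pow_dvd_pow _ hM).trans (e j)

theorem Cyl.lev (h : Cyl Q) : ∃ M, Lev Q M := by
  obtain ⟨v, F, c, hd, -⟩ := h
  refine ⟨F.sup (·.2) + 1, fun K _ _ γ γ' e hγ => ?_⟩
  rw [← ser_cof γ] at hγ
  rw [← ser_cof γ']
  refine hd K _ _ (fun p hp => ?_) hγ
  exact (coeff_eq_of_dvd (e p.1) (Nat.lt_succ_of_le (Finset.le_sup (f := (·.2)) hp))).symm

/-! ### Polynomial functions -/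

theorem PF.congr (h : PF φ)
    (e : ∀ (K : Type) [Field K] [Algebra k K] (γ : σ → K⟦X⟧), φ K γ = ψ K γ) : PF ψ :=
  let ⟨p, hp⟩ := h
  ⟨p, fun K _ _ x => (e K _).symm.trans (hp K x)⟩

theorem pf_const (c : k) : PF (fun K _ _ _ => algebraMap k K c : SF k σ) :=
  ⟨MvPolynomial.C c, fun K _ _ x => by simp⟩

theorem pf_coeff (j : σ) (l : ℕ) : PF (fun _ _ _ γ => coeff l (γ j) : SF k σ) :=
  ⟨MvPolynomial.X (j, l), fun K _ _ x => by simp [coeff_ser]⟩

theorem pf_cc (j : σ) : PF (fun _ _ _ γ => constantCoeff (γ j) : SF k σ) :=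
  (pf_coeff j 0).congr fun K _ _ γ => by simp

theorem PF.add (h : PF φ) (h' : PF ψ) : PF (k := k) fun K _ _ γ => φ K γ + ψ K γ :=
  let ⟨p, hp⟩ := h
  let ⟨q, hq⟩ := h'
  ⟨p + q, fun K _ _ x => by simp [hp, hq]⟩

theorem PF.sub (h : PF φ) (h' : PF ψ) : PF (k := k) fun K _ _ γ => φ K γ - ψ K γ :=
  let ⟨p, hp⟩ := h
  let ⟨q, hq⟩ := h'
  ⟨p - q, fun K _ _ x => by simp [hp, hq]⟩

theorem PF.mul (h : PF φ) (h' : PF ψ) : PF (k := k) fun K _ _ γ => φ K γ * ψ K γ :=
  let ⟨p, hp⟩ := h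
  let ⟨q, hq⟩ := h'
  ⟨p * q, fun K _ _ x => by simp [hp, hq]⟩

theorem PF.pow (h : PF φ) (n : ℕ) : PF (k := k) fun K _ _ γ => φ K γ ^ n :=
  let ⟨p, hp⟩ := h
  ⟨p ^ n, fun K _ _ x => by simp [hp]⟩

theorem pf_sum (s : Finset α) (φ : α → SF k σ) (h : ∀ a ∈ s, PF (φ a)) :
    PF (k := k) fun K _ _ γ => ∑ a ∈ s, φ a K γ := by
  classical
  induction s using Finset.induction_on with
  | empty => exact (pf_const 0).congr fun K _ _ γ => by simp
  | insert a s ha ih =>
    exact ((h a (Finset.mem_insert_self _ _)).add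
      (ih fun b hb => h b (Finset.mem_insert_of_mem hb))).congr fun K _ _ γ => by
        rw [Finset.sum_insert ha]

theorem pf_aeval (φ : α → SF k σ) (h : ∀ a, PF (φ a)) (g : MvPolynomial α k) :
    PF (k := k) fun K _ _ γ => MvPolynomial.aeval (fun a => φ a K γ) g := by
  induction g using MvPolynomial.induction_on with
  | C c => exact (pf_const c).congr fun K _ _ γ => by simp
  | add p q hp hq => exact (hp.add hq).congr fun K _ _ γ => by simp
  | mul_X p i hp => exact (hp.mul (h i)).congr fun K _ _ γ => by simp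

theorem PF.aeval (h : PF φ) (g : Polynomial k) :
    PF (k := k) fun K _ _ γ => Polynomial.aeval (φ K γ) g := by
  induction g using Polynomial.induction_on' with
  | add p q hp hq => exact (hp.add hq).congr fun K _ _ γ => by simp
  | monomial n c =>
    exact ((pf_const c).mul (h.pow n)).congr fun K _ _ γ => by simp [Polynomial.aeval_monomial]

theorem PF.aevalAeval (h : PF φ) (h' : PF ψ) (g : Polynomial (Polynomial k)) :
    PF (k := k) fun K _ _ γ => Polynomial.aevalAeval (φ K γ) (ψ K γ) g := by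
  induction g using Polynomial.induction_on' with
  | add p q hp hq => exact (hp.add hq).congr fun K _ _ γ => by simp only [map_add]
  | monomial n c =>
    exact ((h.aeval c).mul (h'.pow n)).congr fun K _ _ γ => by
      rw [← Polynomial.C_mul_X_pow_eq_monomial, map_mul, map_pow, Polynomial.aevalAeval_C,
        Polynomial.aevalAeval_Y]

theorem PS.congr (h : PS F)
    (e : ∀ (K : Type) [Field K] [Algebra k K] (γ : σ → K⟦X⟧), F K γ = G K γ) : PS G := by
  have : F = G := by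
    funext K _ _ γ
    exact e K γ
  rwa [← this]

theorem PS.coeff (h : PS F) (p : ℕ) : PF (k := k) fun K _ _ γ => coeff p (F K γ) := h.1 p

theorem PS.cc (h : PS F) : PF (k := k) fun K _ _ γ => constantCoeff (F K γ) :=
  (h.1 0).congr fun K _ _ γ => by simp

theorem ps_var (j : σ) : PS (fun _ _ _ γ => γ j : SS k σ) :=
  ⟨fun p => pf_coeff j p, fun _ _ _ _ _ _ h => h j⟩

theorem ps_const (c : k) : PS (fun K _ _ _ => algebraMap k K⟦X⟧ c : SS k σ) :=
  ⟨fun p => (pf_const (if p = 0 then c else 0)).congr fun K _ _ γ => by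
    beta_reduce
    rw [PowerSeries.algebraMap_apply, coeff_C]
    split_ifs <;> simp, fun _ _ _ _ _ _ _ => by simp⟩

theorem ps_X : PS (fun _ _ _ _ => X : SS k σ) :=
  ⟨fun p => (pf_const (if p = 1 then 1 else 0)).congr fun K _ _ γ => by
    rw [coeff_X]
    split_ifs <;> simp, fun _ _ _ _ _ _ _ => by simp⟩

theorem PS.add (h : PS F) (h' : PS G) : PS (k := k) fun K _ _ γ => F K γ + G K γ :=
  ⟨fun p => ((h.1 p).add (h'.1 p)).congr fun K _ _ γ => by simp, fun K _ _ γ γ' M e => by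
    rw [add_sub_add_comm]
    exact dvd_add (h.2 K γ γ' M e) (h'.2 K γ γ' M e)⟩

theorem PS.mul (h : PS F) (h' : PS G) : PS (k := k) fun K _ _ γ => F K γ * G K γ :=
  ⟨fun p => (pf_sum (Finset.HasAntidiagonal.antidiagonal p) _ fun a _ => (h.1 a.1).mul (h'.1 a.2)).congr
    fun K _ _ γ => by rw [coeff_mul], fun K _ _ γ γ' M e => by
    rw [show F K γ' * G K γ' - F K γ * G K γ =
      (F K γ' - F K γ) * G K γ' + F K γ * (G K γ' - G K γ) by ring]
    exact dvd_add ((h.2 K γ γ' M e).mul_right _) ((h'.2 K γ γ' M e).mul_left _)⟩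

theorem PS.pow (h : PS F) (n : ℕ) : PS (k := k) fun K _ _ γ => F K γ ^ n := by
  induction n with
  | zero => exact (ps_const 1).congr fun K _ _ γ => by simp
  | succ n ih => exact (ih.mul h).congr fun K _ _ γ => by rw [pow_succ]

theorem PS.sub (h : PS F) (h' : PS G) : PS (k := k) fun K _ _ γ => F K γ - G K γ :=
  (h.add ((ps_const (-1)).mul h')).congr fun K _ _ γ => by simp [sub_eq_add_neg]

theorem ps_sum (s : Finset α) (F : α → SS k σ) (h : ∀ a ∈ s, PS (F a)) :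
    PS (k := k) fun K _ _ γ => ∑ a ∈ s, F a K γ := by
  classical
  induction s using Finset.induction_on with
  | empty => exact (ps_const 0).congr fun K _ _ γ => by simp
  | insert a s ha ih =>
    exact ((h a (Finset.mem_insert_self _ _)).add
      (ih fun b hb => h b (Finset.mem_insert_of_mem hb))).congr fun K _ _ γ => by
        rw [Finset.sum_insert ha]

theorem ps_aeval (F : α → SS k σ) (h : ∀ a, PS (F a)) (g : MvPolynomial α k) :
    PS (k := k) fun K _ _ γ => MvPolynomial.aeval (fun a => F a K γ) g := by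
  induction g using MvPolynomial.induction_on with
  | C c => exact (ps_const c).congr fun K _ _ γ => by simp
  | add p q hp hq => exact (hp.add hq).congr fun K _ _ γ => by simp
  | mul_X p i hp => exact (hp.mul (h i)).congr fun K _ _ γ => by simp

theorem PS.aeval (h : PS F) (g : Polynomial k) :
    PS (k := k) fun K _ _ γ => Polynomial.aeval (F K γ) g := by
  induction g using Polynomial.induction_on' with
  | add p q hp hq => exact (hp.add hq).congr fun K _ _ γ => by simp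
  | monomial n c =>
    exact ((ps_const c).mul (h.pow n)).congr fun K _ _ γ => by simp [Polynomial.aeval_monomial]

theorem PS.aevalAeval (h : PS F) (h' : PS G) (g : Polynomial (Polynomial k)) :
    PS (k := k) fun K _ _ γ => Polynomial.aevalAeval (F K γ) (G K γ) g := by
  induction g using Polynomial.induction_on' with
  | add p q hp hq => exact (hp.add hq).congr fun K _ _ γ => by simp only [map_add]
  | monomial n c =>
    exact ((h.aeval c).mul (h'.pow n)).congr fun K _ _ γ => by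
      rw [← Polynomial.C_mul_X_pow_eq_monomial, map_mul, map_pow, Polynomial.aevalAeval_C,
        Polynomial.aevalAeval_Y]

theorem ps_eval₂ (F : α → SS k σ) (h : ∀ a, PS (F a)) (h' : PS G)
    (g : Polynomial (MvPolynomial α k)) : PS (k := k) fun K _ _ γ =>
      g.eval₂ (MvPolynomial.aeval fun a => F a K γ : MvPolynomial α k →ₐ[k] K⟦X⟧).toRingHom
        (G K γ) := by
  induction g using Polynomial.induction_on' with
  | add p q hp hq => exact (hp.add hq).congr fun K _ _ γ => by rw [Polynomial.eval₂_add]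
  | monomial n c =>
    exact ((ps_aeval F h c).mul (h'.pow n)).congr fun K _ _ γ => by
      rw [Polynomial.eval₂_monomial]
      rfl

/-! ### Shift, elimination, change of variables -/

variable [Fintype σ] [DecidableEq σ]

theorem HV.shift (h : HV Q v) (r : σ → ℕ) :
    HV (k := k) (fun K _ _ γ => ∃ β : σ → K⟦X⟧, (∀ j, γ j = X ^ r j * β j) ∧ Q K β)
      (Linv k ^ (∑ j, r j) * v) := by
  have h1 := (HasVol.comap h (shiftEmb r)).and_forall_zero (lowSet r) fun p hp K _ _ x c hx => by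
    rwa [Function.update_comp_eq_of_forall_ne _ _ fun a e => by
      have := (mem_lowSet r p).1 hp
      rw [← e, shiftEmb_apply] at this
      simp at this]
  rw [card_lowSet] at h1
  refine HasVol.congr h1 fun K _ _ x => ⟨fun hx => ⟨_, fun j => ?_, hx.1⟩, ?_⟩
  · ext p
    rw [coeff_X_pow_mul']
    split_ifs with h
    · simp [ser, Nat.sub_add_cancel h]
    · exact (coeff_ser _ _ _).trans (hx.2 _ ((mem_lowSet r _).2 (by simpa using h)))
  · rintro ⟨β, h1, h2⟩
    refine ⟨?_, fun p hp => ?_⟩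
    · have : ser (x ∘ shiftEmb r) = β := by
        funext j
        ext l
        rw [coeff_ser, Function.comp_apply, shiftEmb_apply, ← coeff_ser x, h1, coeff_X_pow_mul]
      rwa [this]
    · rw [← coeff_ser x p.1 p.2, h1, coeff_X_pow_mul', if_neg]
      simpa using (mem_lowSet r p).1 hp

theorem ser_upd {K : Type} [CommRing K] (x : σ × ℕ → K) (j : σ) (l : ℕ) (t : K) :
    ser (Function.update x (j, l) t) =
      Function.update (ser x) j (ser x j + C (t - x (j, l)) * X ^ l) := by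
  rw [ser_update, mul_comm]

/-- One equation with exactly one solution in the coefficient `(j, l)`. -/
theorem HV.elim (h : HV Q v) (j : σ) (l : ℕ) (hφ : PF φ)
    (hQ : ∀ (K : Type) [Field K] [Algebra k K] (γ : σ → K⟦X⟧) (c : K),
      Q K γ → Q K (Function.update γ j (γ j + C c * X ^ l)))
    (hE : ∀ (K : Type) [Field K] [Algebra k K] (γ : σ → K⟦X⟧), Q K γ →
      ∃! c : K, φ K (Function.update γ j (γ j + C c * X ^ l)) = 0) :
    HV (k := k) (fun K _ _ γ => Q K γ ∧ φ K γ = 0) (Linv k * v) := by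
  obtain ⟨e, he⟩ := hφ
  refine HasVol.congr (HasVol.elim h (j, l) e (fun K _ _ x c hx => ?_) fun K _ _ x hx => ?_)
    fun K _ _ x => by rw [← he]
  · rw [ser_upd]
    exact hQ K _ _ hx
  · obtain ⟨c, hc, hu⟩ := hE K _ hx
    refine ⟨c + x (j, l), ?_, fun t ht => ?_⟩
    · beta_reduce
      rw [← he, ser_upd, add_sub_cancel_right]
      exact hc
    · beta_reduce at ht
      rw [← he, ser_upd] at ht
      rw [← hu _ ht, sub_add_cancel]

/-- One equation that is affine in the coefficients `(j a, l a)`, with slopes not all zero. -/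
theorem HV.elim_multi (h : HV Q v) (s : Finset α) (j : α → σ) (l : α → ℕ) (hφ : PF φ)
    (D : α → SF k σ) (hD : ∀ a, PF (D a))
    (hD' : ∀ (K : Type) [Field K] [Algebra k K] (γ : σ → K⟦X⟧) (c : K), ∀ a ∈ s, ∀ b ∈ s,
      D b K (Function.update γ (j a) (γ (j a) + C c * X ^ l a)) = D b K γ)
    (hE : ∀ (K : Type) [Field K] [Algebra k K] (γ : σ → K⟦X⟧) (c : K), ∀ a ∈ s,
      φ K (Function.update γ (j a) (γ (j a) + C c * X ^ l a)) = φ K γ + c * D a K γ)
    (hQ : ∀ (K : Type) [Field K] [Algebra k K] (γ : σ → K⟦X⟧) (c : K), ∀ a ∈ s,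
      Q K γ → Q K (Function.update γ (j a) (γ (j a) + C c * X ^ l a)))
    (hne : ∀ (K : Type) [Field K] [Algebra k K] (γ : σ → K⟦X⟧), Q K γ → ∃ a ∈ s, D a K γ ≠ 0) :
    HV (k := k) (fun K _ _ γ => Q K γ ∧ φ K γ = 0) (Linv k * v) := by
  obtain ⟨e, he⟩ := hφ
  choose d hd using hD
  refine HasVol.congr (HasVol.elim_multi s (fun a => (j a, l a)) e d ?_ ?_ h ?_ ?_)
    fun K _ _ x => by rw [← he]
  · intro K _ _ x t a ha b hb
    rw [← hd, ← hd, ser_upd, hD' K _ _ a ha b hb]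
  · intro K _ _ x t a ha
    rw [← he, ← he, ← hd, ser_upd, hE K _ _ a ha]
  · intro K _ _ x t a ha hx
    rw [ser_upd]
    exact hQ K _ _ a ha hx
  · intro K _ _ x hx
    obtain ⟨a, ha, h⟩ := hne K _ hx
    exact ⟨a, ha, by rwa [← hd]⟩

/-- Change of variables: `Ψ` maps the set `B` injectively, to every order, onto a set that
contains `Q`. -/
theorem HV.push (Ψ : σ → SS k σ) (hΨ : ∀ j, PS (Ψ j)) (B : SP k σ) (hB : Lev B 1)
    (hQ : ∃ M, Lev Q M)
    (hinj : ∀ (K : Type) [Field K] [Algebra k K] (γ γ' : σ → K⟦X⟧) (M : ℕ), 0 < M → B K γ →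
      B K γ' → (∀ j, X ^ M ∣ Ψ j K γ' - Ψ j K γ) → ∀ j, X ^ M ∣ γ' j - γ j)
    (hsurj : ∀ (K : Type) [Field K] [Algebra k K] (β : σ → K⟦X⟧), Q K β →
      ∃ γ, B K γ ∧ ∀ j, Ψ j K γ = β j)
    (h : HV (k := k) (fun K _ _ γ => B K γ ∧ Q K fun j => Ψ j K γ) v) : HV Q v := by
  obtain ⟨M₀, hQ⟩ := hQ
  obtain ⟨F, c, hd, hc, e⟩ := h
  obtain ⟨M, hM, hM₀, hF⟩ : ∃ M, 1 ≤ M ∧ M₀ ≤ M ∧ F ⊆ Finset.univ ×ˢ Finset.range M :=
    ⟨M₀ + F.sup (·.2) + 1, by omega, by omega, fun p hp => by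
      have := Finset.le_sup (f := (·.2)) hp
      simp only [Finset.mem_product, Finset.mem_univ, Finset.mem_range, true_and] at this ⊢
      omega⟩
  replace hQ := hQ.mono hM₀
  replace hB := hB.mono hM
  obtain ⟨c', hc', e'⟩ := hasClass_cut_mono hd hc hF
  choose g hg using fun j p => (hΨ j).1 p
  refine ⟨Finset.univ ×ˢ Finset.range M, c', fun K _ _ x y hxy hx => ?_,
    hc'.map (fun p => if p.2 < M then g p.1 p.2 else 0) fun K _ _ => ?_, e.trans e'⟩
  · exact hQ K _ _ (fun j => dvd_ser_sub.2 fun l hl => (hxy _ (by simpa using hl)).symm) hx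
  · have key : ∀ (x : σ × ℕ → K) (j : σ), X ^ M ∣ ser (fun p : σ × ℕ =>
        MvPolynomial.aeval x (if p.2 < M then g p.1 p.2 else 0)) j - Ψ j K (ser x) :=
      fun x j => X_pow_dvd_iff.2 fun l hl => by
        rw [map_sub, coeff_ser, if_pos hl, ← hg, sub_self]
    refine ⟨fun x hx => ⟨hQ K _ _ (key x) hx.1.2,
      fun p hp => by simp [show ¬p.2 < M by simpa using hp]⟩, fun x hx x' hx' e => ?_,
      fun y hy => ?_⟩
    · have h1 := hinj K _ _ M hM hx.1.1 hx'.1.1 fun j => by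
        have := dvd_sub (key x j) (key x' j)
        beta_reduce at e
        rwa [e, sub_sub_sub_cancel_left] at this
      funext p
      by_cases hp : p.2 < M
      · exact (dvd_ser_sub.1 (h1 p.1) p.2 hp).symm
      · rw [hx.2 p (by simpa using hp), hx'.2 p (by simpa using hp)]
    · obtain ⟨γ, h1, h2⟩ := hsurj K _ hy.1
      let x : σ × ℕ → K := fun p => if p.2 < M then coeff p.2 (γ p.1) else 0
      have h3 : ∀ j, X ^ M ∣ ser x j - γ j := fun j => X_pow_dvd_iff.2 fun l hl => by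
        rw [map_sub, coeff_ser, sub_eq_zero]
        exact if_pos hl
      have h4 : ∀ j, X ^ M ∣ Ψ j K (ser x) - ser y j := fun j => h2 j ▸ (hΨ j).2 K _ _ M h3
      refine ⟨x, ⟨⟨hB K _ _ h3 h1, hQ K _ _ h4 hy.1⟩, fun p hp => if_neg (by simpa using hp)⟩,
        funext fun p => ?_⟩
      by_cases hp : p.2 < M
      · have := dvd_add (key x p.1) (h4 p.1)
        rw [sub_add_sub_cancel] at this
        exact dvd_ser_sub.1 this p.2 hp
      · rw [hy.2 p (by simpa using hp)]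
        simp [hp]

theorem HV.perm (e : σ ≃ σ) (h : HV Q v) : HV (k := k) (fun K _ _ γ => Q K (γ ∘ e)) v :=
  HasVol.comap h (e.toEmbedding.prodMap (.refl ℕ))

end

end Pool.Agent.P.MP_b91a16_ag.LY
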